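import Pool.Agent.P.MP_dc0411_ag.Defs

/-!
Statement definitions for log canonically polarized pairs: a scheme `Y` over `ℂ`, an open subset
`X` whose complement `D` is a simple normal crossings divisor, and ampleness of `K_Y + D`.
-/

open CategoryTheory AlgebraicGeometry

namespace Pool.Agent.P.MP_dc0411_ag

noncomputable section

section ring

variable {A : Type} [CommRing A] [Algebra ℂ A] {n : ℕ}

/-- The differentials `dz₁, …, dzₙ` are a basis of the module of Kähler differentials over `ℂ`. -/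
def IsCoord (z : Fin n → A) : Prop :=
  (LinearIndependent A fun i => KaehlerDifferential.D ℂ A (z i)) ∧
    Submodule.span A (Set.range fun i => KaehlerDifferential.D ℂ A (z i)) = ⊤

/-- The forms `f · (dz₁ ∧ ⋯ ∧ dzₙ / p)^{⊗ m}` and `g · (dw₁ ∧ ⋯ ∧ dwₙ / q)^{⊗ m}` agree: with
`dz = M dw`, so that `dz₁ ∧ ⋯ ∧ dzₙ = det M · dw₁ ∧ ⋯ ∧ dwₙ`, one has
`f (det M · q)^m = g p^m`. -/
def Agree (m : ℕ) (z w : Fin n → A) (p q f g : A) : Prop :=
  ∃ M : Matrix (Fin n) (Fin n) A,
    (∀ i, KaehlerDifferential.D ℂ A (z i) = ∑ j, M i j • KaehlerDifferential.D ℂ A (w j)) ∧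
      f * (M.det * q) ^ m = g * p ^ m

end ring

section scheme

variable {Y : Scheme.{0}}

/-- The regular functions on an open subset of a scheme over `ℂ` form a `ℂ`-algebra. -/
abbrev secAlg (π : Y ⟶ Spec (CommRingCat.of ℂ)) (U : Y.Opens) : Algebra ℂ Γ(Y, U) :=
  ((Scheme.ΓSpecIso (CommRingCat.of ℂ)).inv ≫ π.appLE ⊤ U le_top).hom.toAlgebra

/-- Restriction of a regular function to a smaller open subset. -/
abbrev restr {U W : Y.Opens} (h : W ≤ U) (s : Γ(Y, U)) : Γ(Y, W) :=
  Y.presheaf.map (homOfLE h).op s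

/-- A chart for the pair `(Y, D)`, `D = Y ∖ X`: an affine open `U` with coordinates `z₁, …, zₙ`
(their differentials are a basis of the module of differentials) such that `D ∩ U` is the zero
set of the product of the coordinates `zᵢ`, `i ∈ k`. -/
structure LogChart (π : Y ⟶ Spec (CommRingCat.of ℂ)) (X : Y.Opens) (n : ℕ) where
  U : Y.Opens
  affine : IsAffineOpen U
  z : Fin n → Γ(Y, U)
  k : Finset (Fin n)
  coord : letI := secAlg π U; IsCoord z
  boundary : Y.basicOpen (∏ i ∈ k, z i) = U ⊓ X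

variable {π : Y ⟶ Spec (CommRingCat.of ℂ)} {X : Y.Opens} {n : ℕ}

/-- The local equation of the reduced boundary divisor `D` in a chart. -/
def LogChart.eqn (P : LogChart π X n) : Γ(Y, P.U) :=
  ∏ i ∈ P.k, P.z i

/-- The functions `f a` are the coefficients of one section of `m (K_Y + D)`: the forms
`f a · (dz₁ ∧ ⋯ ∧ dzₙ / eqn)^{⊗ m}` agree on the overlap of any two charts `a`, `b`. -/
def IsLogSection {ι : Type} (A : ι → LogChart π X n) (m : ℕ) (f : ∀ a, Γ(Y, (A a).U)) : Prop :=
  ∀ a b, letI := secAlg π ((A a).U ⊓ (A b).U)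
    Agree (A := Γ(Y, (A a).U ⊓ (A b).U)) m (fun i => restr inf_le_left ((A a).z i))
      (fun i => restr inf_le_right ((A b).z i)) (restr inf_le_left (A a).eqn)
      (restr inf_le_right (A b).eqn) (restr inf_le_left (f a)) (restr inf_le_right (f b))

/-- `D = Y ∖ X` is a simple normal crossings divisor (the charts cover `Y`) and `K_Y + D` is
ample: every point lies in the non-vanishing locus of a section of some `m (K_Y + D)`, `m > 0`,
whose non-vanishing locus is affine. -/
def LogCanonicallyPolarized (π : Y ⟶ Spec (CommRingCat.of ℂ)) (X : Y.Opens) (n : ℕ) : Prop :=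
  ∃ (ι : Type) (A : ι → LogChart π X n), ⨆ a, (A a).U = ⊤ ∧
    ∀ y : Y, ∃ (m : ℕ) (f : ∀ a, Γ(Y, (A a).U)), 0 < m ∧ IsLogSection A m f ∧
      IsAffineOpen (⨆ a, Y.basicOpen (f a)) ∧ y ∈ ⨆ a, Y.basicOpen (f a)

end scheme

/-- `Y` is projective: it has a closed immersion over `ℂ` into some `ℙⁿ`. -/
def IsProjective (Y : Over SpecC) : Prop :=
  ∃ (n : ℕ) (i : Y ⟶ projSpace n), IsClosedImmersion i.left

/-- The open subscheme `X` of `Y`, as a scheme over `ℂ`. -/
abbrev openPart (Y : Over SpecC) (X : Y.left.Opens) : Over SpecC := Over.mk (X.ι ≫ Y.hom)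

end

end Pool.Agent.P.MP_dc0411_ag
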