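import Pool.Agent.P.MP_dc0411_ag.Defs

/-!
Statement definitions for condition (2) of the Lang-Vojta question: rational pluricanonical forms,
sections of `m (K_Z + D)` on a smooth model, and varieties of log-general type.
-/

open CategoryTheory AlgebraicGeometry
open scoped TensorProduct

namespace Pool.Agent.P.MP_dc0411_ag.Lit

noncomputable section

/-- The form `df₁ ∧ ⋯ ∧ dfₙ`; below `d` will be the universal derivation `K → Ω[K⁄ℂ]`. -/
def wedge {K M : Type} [Field K] [AddCommGroup M] [Module K M] (d : K → M) (n : ℕ)
    (f : Fin n → K) : ⋀[K]^n M :=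
  exteriorPower.ιMulti K n fun i => d (f i)

section

variable {K W : Type} [Field K] [Algebra ℂ K] [AddCommGroup W] [Module K W] {n : ℕ}

/-- The `A`-span of the tensor products of `m` forms `w f` with all `fᵢ` in `A`.  For
`w = wedge d n` and the local ring `A` of a point of a smooth variety of dimension `n` this is the
stalk of the `m`-th power of the canonical sheaf. -/
def regularOver (w : (Fin n → K) → W) (A : Subring K) (m : ℕ) : Submodule A (⨂[K]^m W) :=
  Submodule.span A {ω | ∃ f : Fin m → Fin n → K, (∀ k i, f k i ∈ A) ∧
    ω = PiTensorProduct.tprod K fun k => w (f k)}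

/-- `f ^ m ω` is regular over `A` for all pairs `(A, f)` in `T`. -/
def IsSection (w : (Fin n → K) → W) (T : Set (Subring K × K)) {m : ℕ} (ω : ⨂[K]^m W) : Prop :=
  ∀ q ∈ T, q.2 ^ m • ω ∈ regularOver w q.1 m

/-- For some `m > 0` there are sections `ω ≠ 0`, `ρ₁ ω, …, ρₙ ω` whose ratios `ρᵢ` are a
transcendence basis of `K` over `ℂ`. -/
def SectionsBig (w : (Fin n → K) → W) (T : Set (Subring K × K)) : Prop :=
  ∃ (m : ℕ) (ω : ⨂[K]^m W) (ρ : Fin n → K),
    0 < m ∧ ω ≠ 0 ∧ IsTranscendenceBasis ℂ ρ ∧ IsSection w T ω ∧ ∀ i, IsSection w T (ρ i • ω)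

end

/-- `SectionsBig` for the rational pluricanonical forms of the field `K`. -/
def CanonicalBig (K : Type) [Field K] [Algebra ℂ K] (T : Set (Subring K × K)) : Prop :=
  ∃ n : ℕ, SectionsBig (wedge (KaehlerDifferential.D ℂ K) n) T

/-- The local ring of the point `z` inside the function field. -/
def localRing (Z : Scheme.{0}) [IsIntegral Z] (z : Z) : Subring Z.functionField :=
  (algebraMap (Z.presheaf.stalk z) Z.functionField).range

/-- The pairs `(A, f)` with `A` the local ring of a point `z` of `Z` and `f` a function near `z`
that vanishes on the complement `D` of `U`.  A rational `m`-canonical form `ω` is a global section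
of `m (K_Z + D)`, `D` reduced, when `f ^ m ω` is regular over `A` for all these pairs. -/
def boundaryPairs (Z : Scheme.{0}) [IsIntegral Z] (U : Z.Opens) :
    Set (Subring Z.functionField × Z.functionField) :=
  {q | ∃ (V : Z.Opens) (f : Γ(Z, V)) (z : Z) (hz : z ∈ V), Z.basicOpen f ≤ U ∧
    q = (localRing Z z,
      algebraMap (Z.presheaf.stalk z) Z.functionField (Z.presheaf.germ V z hz f))}

/-- The pairs `(O, π)` with `O` a discrete valuation ring of `K` over `ℂ` and `π` a uniformizer,
and the pairs `(O, 1)` for those `O` that contain one of the rings `A y`. -/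
def valuationPairs (K : Type) [Field K] [Algebra ℂ K] {ι : Type} (A : ι → Subring K) :
    Set (Subring K × K) :=
  {q | ∃ O : ValuationSubring K, IsDiscreteValuationRing O ∧ (∀ c : ℂ, algebraMap ℂ K c ∈ O) ∧
    ((∃ π : O, Irreducible π ∧ q = (O.toSubring, (π : K))) ∨
      ((∃ y, A y ≤ O.toSubring) ∧ q = (O.toSubring, 1)))}

/-- The function field of an integral scheme over `ℂ` as a `ℂ`-algebra. -/
abbrev fieldAlgebra (Y : Over SpecC) [IsIntegral Y.left] : Algebra ℂ Y.left.functionField :=
  ((Scheme.ΓSpecIso (CommRingCat.of ℂ)).inv ≫ Y.hom.appTop ≫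
    Y.left.presheaf.germ ⊤ (genericPoint Y.left) trivial).hom.toAlgebra

/-- `K_Z + D` is big, `D` the reduced complement of `U`. -/
def LogCanonicalBig (Z : Over SpecC) [IsIntegral Z.left] (U : Z.left.Opens) : Prop :=
  letI := fieldAlgebra Z
  CanonicalBig Z.left.functionField (boundaryPairs Z.left U)

/-- The same without a model: forms with poles of order at most `m` at all discrete valuation
rings of the function field and no pole at those with a centre on `Y`. -/
def ValuativelyBig (Y : Over SpecC) [IsIntegral Y.left] : Prop :=
  letI := fieldAlgebra Y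
  CanonicalBig Y.left.functionField (valuationPairs Y.left.functionField (localRing Y.left))

/-- A morphism of integral schemes is birational if it sends the generic point to the generic
point and induces an isomorphism of function fields. -/
def IsBirational {X Y : Scheme.{0}} [IsIntegral X] [IsIntegral Y] (p : X ⟶ Y) : Prop :=
  p (genericPoint X) = genericPoint Y ∧ IsIso (p.stalkMap (genericPoint X))

/-- `Y` is of log-general type: for every birational morphism `Y' ⟶ Y` and every open immersion
of `Y'` into a smooth `Z`, with complement `D`, the divisor `K_Z + D` is big (this covers every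
resolution of singularities with a smooth projective compactification whose boundary has simple
normal crossings), and the model-free form holds as well. -/
def LogGeneralType (Y : Over SpecC) [IsIntegral Y.left] : Prop :=
  (∀ (Y' Z : Over SpecC) [IsIntegral Y'.left] [IsIntegral Z.left] (p : Y' ⟶ Y) (j : Y' ⟶ Z)
    [IsOpenImmersion j.left], IsBirational p.left → Smooth Z.hom →
      LogCanonicalBig Z j.left.opensRange) ∧ ValuativelyBig Y

/-- Condition (2): every closed integral subscheme of `X` is of log-general type. -/
def ConditionTwo (X : Over SpecC) : Prop :=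
  ∀ (Y : Over SpecC) [IsIntegral Y.left] (i : Y ⟶ X), IsClosedImmersion i.left → LogGeneralType Y

end

end Pool.Agent.P.MP_dc0411_ag.Lit
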