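import Mathlib

/-!
An element of the fraction field of a normal Noetherian domain that lies outside the domain lies
outside one of its localisations that is a discrete valuation ring; smooth domains over `ℂ` are
normal and have etale coordinates.
-/

open scoped TensorProduct nonZeroDivisors

set_option linter.style.haveILetI false

namespace Pool.Agent.P.MP_dc0411_ag.Cmp

theorem exists_dvr {A K : Type} [CommRing A] [IsDomain A] [IsNoetherianRing A]
    [IsIntegrallyClosed A] [Field K] [Algebra A K] [IsFractionRing A K] (h : K)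
    (hh : ∀ a : A, algebraMap A K a ≠ h) :
    ∃ (p : Ideal A) (_ : p.IsPrime) (O : ValuationSubring K), IsDiscreteValuationRing O ∧
      (∀ x : K, x ∈ O ↔ ∃ a s : A, s ∉ p ∧ x = algebraMap A K a * (algebraMap A K s)⁻¹) ∧
      h ∉ O := by
  classical
  have inj := IsFractionRing.injective A K
  let N : Submodule A K := 1
  have hN : ∀ x : K, x ∈ N ↔ ∃ a : A, algebraMap A K a = x := fun x => Submodule.mem_one
  have h0 : N.mkQ h ≠ 0 := by
    intro e
    obtain ⟨a, ha⟩ := (hN h).1 ((Submodule.Quotient.mk_eq_zero N).1 e)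
    exact hh a ha
  obtain ⟨p, hp, hle⟩ := exists_le_isAssociatedPrime_of_isNoetherianRing A (N.mkQ h) h0
  obtain ⟨hprime, y', hy'⟩ := isAssociatedPrime_iff.1 hp
  obtain ⟨y, rfl⟩ := N.mkQ_surjective y'
  have hcol : ∀ (x : K) (r : A), r ∈ (⊥ : Submodule A (K ⧸ N)).colon {N.mkQ x} ↔
      ∃ a : A, algebraMap A K a = algebraMap A K r * x := by
    intro x r
    rw [Submodule.mem_colon_singleton, Submodule.mem_bot, ← map_smul, Submodule.mkQ_apply,
      Submodule.Quotient.mk_eq_zero, hN, Algebra.smul_def]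
  have hpy : ∀ r : A, r ∈ p ↔ ∃ a : A, algebraMap A K a = algebraMap A K r * y := by
    intro r; rw [hy']; exact hcol y r
  let R : Subalgebra A K := Localization.subalgebra.ofField K p.primeCompl
    p.primeCompl_le_nonZeroDivisors
  have hR : ∀ x : K, x ∈ R ↔ ∃ a s : A, s ∉ p ∧ x = algebraMap A K a * (algebraMap A K s)⁻¹ := by
    intro x
    constructor
    · rintro ⟨a, s, hs, e⟩; exact ⟨a, s, hs, e⟩
    · rintro ⟨a, s, hs, e⟩; exact ⟨a, s, hs, e⟩
  haveI : IsLocalization.AtPrime R p := Localization.subalgebra.isLocalization_ofField K _ _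
  haveI : IsLocalRing R := IsLocalization.AtPrime.isLocalRing R p
  haveI : IsNoetherianRing R := IsLocalization.isNoetherianRing p.primeCompl R inferInstance
  haveI : IsIntegrallyClosed R :=
    isIntegrallyClosed_of_isLocalization R p.primeCompl p.primeCompl_le_nonZeroDivisors
  have hs0 : ∀ s : A, s ∉ p → algebraMap A K s ≠ 0 := by
    intro s hs e
    rw [map_eq_zero_iff _ inj] at e
    exact hs (e ▸ p.zero_mem)
  have hout : ∀ x : K, (∀ r : A, (∃ a : A, algebraMap A K a = algebraMap A K r * x) → r ∈ p) →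
      x ∉ R := by
    intro x hx hxR
    obtain ⟨a, s, hs, e⟩ := (hR x).1 hxR
    refine hs (hx s ⟨a, ?_⟩)
    rw [e]; field_simp [hs0 s hs]
  have hyR : y ∉ R := hout y fun r hr => (hpy r).2 hr
  have hhR : h ∉ R := hout h fun r hr => hle ((hcol h r).2 hr)
  have hy0 : y ≠ 0 := fun e => hyR (e ▸ R.zero_mem)
  have hmax : IsLocalRing.maximalIdeal R = p.map (algebraMap A R) :=
    (IsLocalization.AtPrime.map_eq_maximalIdeal p R).symm
  have hym : ∀ t : R, t ∈ IsLocalRing.maximalIdeal R → y * (t : K) ∈ R := by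
    intro t ht
    rw [hmax] at ht
    induction ht using Submodule.span_induction with
    | mem x hx =>
      obtain ⟨r, hr, rfl⟩ := hx
      obtain ⟨a, ha⟩ := (hpy r).1 hr
      have : y * ((algebraMap A R r : R) : K) = algebraMap A K a := by
        rw [ha, mul_comm]; rfl
      rw [this]; exact R.algebraMap_mem a
    | zero => simp
    | add x z _ _ hx hz => rw [Subalgebra.coe_add, mul_add]; exact R.add_mem hx hz
    | smul c x _ hx =>
      have : y * ((c • x : R) : K) = (c : K) * (y * (x : K)) := by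
        rw [smul_eq_mul, Subalgebra.coe_mul]; ring
      rw [this]; exact R.mul_mem c.2 hx
  have hm0 : IsLocalRing.maximalIdeal R ≠ ⊥ := by
    obtain ⟨a, b, hb, e⟩ := IsFractionRing.div_surjective A y
    have hb0 : algebraMap A K b ≠ 0 := by
      rw [Ne, map_eq_zero_iff _ inj]; exact nonZeroDivisors.ne_zero hb
    have hbp : b ∈ p := (hpy b).2 ⟨a, by rw [← e]; field_simp⟩
    intro e0
    have : algebraMap A R b ∈ IsLocalRing.maximalIdeal R := hmax ▸ Ideal.mem_map_of_mem _ hbp
    rw [e0, Ideal.mem_bot] at this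
    exact hb0 (congrArg Subtype.val this)
  have hnf : ¬ IsField R := fun hf => hm0 (IsLocalRing.isField_iff_maximalIdeal_eq.1 hf)
  have hprin : (IsLocalRing.maximalIdeal R).IsPrincipal := by
    by_cases hall : ∀ (t : R) (ht : t ∈ IsLocalRing.maximalIdeal R),
        (⟨y * (t : K), hym t ht⟩ : R) ∈ IsLocalRing.maximalIdeal R
    · exfalso
      let M : Submodule R K := Submodule.map (Algebra.linearMap R K) (IsLocalRing.maximalIdeal R)
      have hM0 : M ≠ ⊥ := by
        obtain ⟨t, ht, ht0⟩ := (Submodule.ne_bot_iff _).1 hm0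
        refine (Submodule.ne_bot_iff _).2 ⟨_, Submodule.mem_map_of_mem ht, ?_⟩
        intro e; exact ht0 (Subtype.ext e)
      have hMfg : M.FG := (IsNoetherian.noetherian _).map _
      have hint : IsIntegral R y := isIntegral_of_smul_mem_submodule M hM0 hMfg y (by
        rintro _ ⟨t, ht, rfl⟩
        exact ⟨_, hall t ht, rfl⟩)
      obtain ⟨r, hr⟩ := IsIntegrallyClosed.algebraMap_eq_of_integral hint
      exact hyR (hr ▸ r.2)
    · push Not at hall
      obtain ⟨t, ht, hu⟩ := hall
      have hu' : IsUnit (⟨y * (t : K), hym t ht⟩ : R) := by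
        by_contra hn; exact hu ((IsLocalRing.mem_maximalIdeal _).2 hn)
      obtain ⟨v, hv⟩ := hu'.exists_right_inv
      have hv' : y * (t : K) * (v : K) = 1 := congrArg Subtype.val hv
      refine ⟨t, le_antisymm (fun s hs => ?_) ((Submodule.span_singleton_le_iff_mem _ _).2 ht)⟩
      refine Submodule.mem_span_singleton.2 ⟨⟨y * (s : K), hym s hs⟩ * v, Subtype.ext ?_⟩
      change y * (s : K) * (v : K) * (t : K) = s
      linear_combination (s : K) * hv'
  have hdvr : IsDiscreteValuationRing R := ((IsDiscreteValuationRing.TFAE R hnf).out 4 0).1 hprin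
  have hval : ∀ x : K, x ∈ R.toSubring ∨ x⁻¹ ∈ R.toSubring := by
    intro x
    rcases ValuationRing.isInteger_or_isInteger R x with ⟨r, hr⟩ | ⟨r, hr⟩
    · exact Or.inl (hr ▸ r.2)
    · exact Or.inr (hr ▸ r.2)
  exact ⟨p, hprime, ValuationSubring.ofSubring R.toSubring hval, hdvr, hR, hhR⟩

theorem normal_of_etale {P S : Type} [CommRing P] [IsDomain P] [IsIntegrallyClosed P]
    [CommRing S] [IsDomain S] [Algebra P S] [Algebra.Etale P S] : IsIntegrallyClosed S := by
  haveI : Module.IsTorsionFree P S := inferInstance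
  haveI : FaithfulSMul P S := inferInstance
  let F := FractionRing P
  let L := FractionRing S
  letI : Algebra F L := FractionRing.liftAlgebra P L
  haveI : IsScalarTower P F L := FractionRing.isScalarTower_liftAlgebra P L
  haveI : Algebra.FormallyUnramified S L := Algebra.FormallyUnramified.of_isLocalization S⁰
  haveI : Algebra.FormallyUnramified P L := Algebra.FormallyUnramified.comp P S L
  haveI : Algebra.FormallyUnramified F L := Algebra.FormallyUnramified.of_restrictScalars P F L
  haveI : Algebra.EssFiniteType S L := Algebra.EssFiniteType.of_isLocalization L S⁰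
  haveI : Algebra.EssFiniteType P L := Algebra.EssFiniteType.comp P S L
  haveI : Algebra.EssFiniteType F L := Algebra.EssFiniteType.of_comp P F L
  haveI : Algebra.IsSeparable F L := Algebra.FormallyUnramified.isSeparable F L
  haveI : Algebra.IsAlgebraic P L := (IsFractionRing.comap_isAlgebraic_iff (K := F)).2 inferInstance
  haveI : Algebra.IsAlgebraic P S :=
    Algebra.IsAlgebraic.of_injective (IsScalarTower.toAlgHom P S L) (IsFractionRing.injective S L)
  let e : S ⊗[P] F ≃ₐ[S] L := Algebra.IsPushout.equiv P S F L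
  refine (isIntegrallyClosed_iff L).2 fun {x} hx => ?_
  have hx' : IsIntegral S (e.symm x) := hx.map e.symm
  obtain ⟨t, ht⟩ := (TensorProduct.toIntegralClosure_bijective_of_smooth (R := P) (S := S)
    (B := F)).2 ⟨e.symm x, hx'⟩
  have key : ∀ t : S ⊗[P] integralClosure P F, ∃ y : S,
      algebraMap S (S ⊗[P] F) y = (TensorProduct.toIntegralClosure P S F t : S ⊗[P] F) := by
    intro t
    induction t with
    | zero => exact ⟨0, by simp⟩
    | add a b ha hb =>
      obtain ⟨y, hy⟩ := ha
      obtain ⟨z, hz⟩ := hb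
      exact ⟨y + z, by rw [map_add, map_add, hy, hz]; rfl⟩
    | tmul s c =>
      obtain ⟨r, hr⟩ := IsIntegrallyClosed.algebraMap_eq_of_integral (K := F) c.2
      refine ⟨r • s, ?_⟩
      change (r • s) ⊗ₜ[P] (1 : F) = s ⊗ₜ[P] (c : F)
      rw [TensorProduct.smul_tmul, ← hr, Algebra.algebraMap_eq_smul_one]
  obtain ⟨y, hy⟩ := key t
  refine ⟨y, ?_⟩
  rw [ht] at hy
  have := congrArg e hy
  rwa [AlgEquiv.commutes, AlgEquiv.apply_symm_apply] at this

theorem exists_chart {B A : Type} [CommRing B] [IsDomain B] [Algebra ℂ B] [Algebra.Smooth ℂ B]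
    (q : Ideal B) [q.IsPrime] [CommRing A] [Algebra B A] [IsLocalization.AtPrime A q]
    [Algebra ℂ A] [IsScalarTower ℂ B A] :
    IsIntegrallyClosed A ∧ ∃ (n : ℕ) (_ : Algebra (MvPolynomial (Fin n) ℂ) A),
      IsScalarTower ℂ (MvPolynomial (Fin n) ℂ) A ∧
        Algebra.FormallyEtale (MvPolynomial (Fin n) ℂ) A := by
  haveI : Algebra.IsSmoothAt ℂ q := inferInstance
  obtain ⟨f, hf, n, inst, htow, het⟩ :=
    Algebra.IsSmoothAt.exists_isStandardEtale_mvPolynomial (R := ℂ) (p := q)
  let S := Localization.Away f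
  have hle : Submonoid.powers f ≤ q.primeCompl := Submonoid.powers_le.2 hf
  have hf0 : f ≠ 0 := fun e => hf (e ▸ q.zero_mem)
  haveI : IsDomain S := IsLocalization.isDomain_localization (powers_le_nonZeroDivisors_of_noZeroDivisors hf0)
  letI : Algebra S A := IsLocalization.localizationAlgebraOfSubmonoidLe S A _ _ hle
  haveI : IsScalarTower B S A := IsLocalization.localization_isScalarTower_of_submonoid_le S A _ _ hle
  haveI hloc : IsLocalization (q.primeCompl.map (algebraMap B S)) A :=
    IsLocalization.isLocalization_of_submonoid_le S A _ _ hle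
  haveI : IsIntegrallyClosed S := normal_of_etale (P := MvPolynomial (Fin n) ℂ)
  have hnz : q.primeCompl.map (algebraMap B S) ≤ S⁰ := by
    rintro _ ⟨b, hb, rfl⟩
    refine mem_nonZeroDivisors_of_ne_zero fun e => ?_
    rw [map_eq_zero_iff _ (IsLocalization.injective S
      (powers_le_nonZeroDivisors_of_noZeroDivisors hf0))] at e
    exact hb (e ▸ q.zero_mem)
  refine ⟨isIntegrallyClosed_of_isLocalization A _ hnz, n,
    ((algebraMap S A).comp (algebraMap (MvPolynomial (Fin n) ℂ) S)).toAlgebra, ?_⟩
  letI : Algebra (MvPolynomial (Fin n) ℂ) A :=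
    ((algebraMap S A).comp (algebraMap (MvPolynomial (Fin n) ℂ) S)).toAlgebra
  haveI : IsScalarTower (MvPolynomial (Fin n) ℂ) S A := IsScalarTower.of_algebraMap_eq fun _ => rfl
  haveI : Algebra.FormallyEtale S A :=
    Algebra.FormallyEtale.of_isLocalization (q.primeCompl.map (algebraMap B S))
  refine ⟨IsScalarTower.of_algebraMap_eq fun c => ?_, Algebra.FormallyEtale.comp _ S A⟩
  change algebraMap ℂ A c = algebraMap S A (algebraMap (MvPolynomial (Fin n) ℂ) S
    (algebraMap ℂ (MvPolynomial (Fin n) ℂ) c))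
  rw [← IsScalarTower.algebraMap_apply ℂ (MvPolynomial (Fin n) ℂ) S,
    IsScalarTower.algebraMap_apply ℂ B S, ← IsScalarTower.algebraMap_apply B S A,
    ← IsScalarTower.algebraMap_apply ℂ B A]

end Pool.Agent.P.MP_dc0411_ag.Cmp
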