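import Pool.Agent.P.MP_dc0411_ag.DefsLog
import Pool.Agent.P.MP_dc0411_ag.DefsModel
import Pool.Agent.P.MP_dc0411_ag.CmpHartogs

/-!
Coordinates of pluricanonical forms, extension across codimension two, and transport along an
isomorphism of function fields.
-/

open scoped TensorProduct nonZeroDivisors
open Module KaehlerDifferential

set_option linter.style.haveILetI false

namespace Pool.Agent.P.MP_dc0411_ag.Cmp

noncomputable section

/-- Rational `m`-canonical forms. -/
abbrev PluriForm (K : Type) [Field K] [Algebra ℂ K] (n m : ℕ) : Type :=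
  ⨂[K]^m (⋀[K]^n Ω[K⁄ℂ])

/-- The forms `df₁ ∧ ⋯ ∧ dfₙ`. -/
abbrev dw (K : Type) [Field K] [Algebra ℂ K] (n : ℕ) : (Fin n → K) → ⋀[K]^n Ω[K⁄ℂ] :=
  wedge (D ℂ K) n

section coord

variable {K : Type} [Field K] [Algebra ℂ K] {n : ℕ} (b : Basis (Fin n) K Ω[K⁄ℂ]) (m : ℕ)

/-- The generator of the line of `m`-canonical forms given by a basis. -/
def eta : PluriForm K n m := PiTensorProduct.tprod K fun _ => exteriorPower.ιMulti K n b

/-- The coordinate on the line of `m`-canonical forms given by a basis. -/
def coord : PluriForm K n m →ₗ[K] K :=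
  PiTensorProduct.lift ((MultilinearMap.mkPiAlgebra K (Fin m) K).compLinearMap
    fun _ => exteriorPower.alternatingMapLinearEquiv b.det)

theorem coord_tprod (v : Fin m → Fin n → Ω[K⁄ℂ]) :
    coord b m (PiTensorProduct.tprod K fun k => exteriorPower.ιMulti K n (v k)) =
      ∏ k, b.det (v k) := by
  simp [coord]

theorem coord_eta : coord b m (eta b m) = 1 := by
  rw [eta, coord_tprod]; simp [Basis.det_self]

theorem wedge_eq (w : ⋀[K]^n Ω[K⁄ℂ]) :
    w = exteriorPower.alternatingMapLinearEquiv b.det w • exteriorPower.ιMulti K n b := by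
  have h : (LinearMap.id : ⋀[K]^n Ω[K⁄ℂ] →ₗ[K] _) =
      (LinearMap.toSpanSingleton K _ (exteriorPower.ιMulti K n b)).comp
        (exteriorPower.alternatingMapLinearEquiv b.det) := by
    apply exteriorPower.linearMap_ext
    refine Basis.ext_alternating b fun i h => ?_
    let σ : Equiv.Perm (Fin n) := Equiv.ofBijective i (Finite.injective_iff_bijective.1 h)
    change exteriorPower.ιMulti K n (b ∘ σ) =
      exteriorPower.alternatingMapLinearEquiv b.det (exteriorPower.ιMulti K n (b ∘ σ)) •
        exteriorPower.ιMulti K n b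
    rw [exteriorPower.alternatingMapLinearEquiv_apply_ιMulti, AlternatingMap.map_perm,
      AlternatingMap.map_perm, Basis.det_self, smul_assoc, one_smul]
  exact LinearMap.congr_fun h w

theorem eq_coord_smul (ω : PluriForm K n m) : ω = coord b m ω • eta b m := by
  induction ω using PiTensorProduct.induction_on with
  | smul_tprod r v =>
    rw [map_smul, smul_assoc]
    congr 1
    conv_lhs => rw [show v = fun k => exteriorPower.alternatingMapLinearEquiv b.det (v k) •
      exteriorPower.ιMulti K n b from funext fun k => wedge_eq b (v k)]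
    rw [MultilinearMap.map_smul_univ]
    simp [coord, eta]
  | add x y hx hy => rw [map_add, add_smul, ← hx, ← hy]

theorem eta_ne_zero : eta b m ≠ 0 := by
  intro e
  have := coord_eta b m
  rw [e, map_zero] at this
  exact zero_ne_one this

theorem coord_mem (O : ValuationSubring K) (hO : ∀ f ∈ O, ∀ j, b.repr (D ℂ K f) j ∈ O)
    {ω : PluriForm K n m} (hω : ω ∈ regularAt (dw K n) O m) : coord b m ω ∈ O := by
  induction hω using Submodule.span_induction with
  | mem x hx =>
    obtain ⟨f, hf, rfl⟩ := hx
    rw [show coord b m (PiTensorProduct.tprod K fun k => dw K n (f k)) = _ from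
      coord_tprod b m fun k i => D ℂ K (f k i)]
    refine prod_mem fun k _ => ?_
    rw [Basis.det_apply, Matrix.det_apply']
    refine sum_mem fun σ _ => mul_mem (intCast_mem O _) (prod_mem fun i _ => ?_)
    exact hO _ (hf k i) _
  | zero => simp
  | add x y _ _ hx hy => rw [map_add]; exact add_mem hx hy
  | smul a x _ hx =>
    change coord b m ((a : K) • x) ∈ O
    rw [map_smul, smul_eq_mul]; exact mul_mem a.2 hx

end coord

/-- The basis `dx₁, …, dxₙ` given by etale coordinates. -/
def chartBasis (n : ℕ) (T : Type) [CommRing T] [Algebra ℂ T] [Algebra (MvPolynomial (Fin n) ℂ) T]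
    [IsScalarTower ℂ (MvPolynomial (Fin n) ℂ) T]
    [Algebra.FormallyEtale (MvPolynomial (Fin n) ℂ) T] : Basis (Fin n) T Ω[T⁄ℂ] :=
  ((mvPolynomialBasis ℂ (Fin n)).baseChange T).map
    (tensorKaehlerEquivOfFormallyEtale ℂ (MvPolynomial (Fin n) ℂ) T)

theorem chartBasis_apply (n : ℕ) (T : Type) [CommRing T] [Algebra ℂ T]
    [Algebra (MvPolynomial (Fin n) ℂ) T] [IsScalarTower ℂ (MvPolynomial (Fin n) ℂ) T]
    [Algebra.FormallyEtale (MvPolynomial (Fin n) ℂ) T] (i : Fin n) :
    chartBasis n T i = D ℂ T (algebraMap (MvPolynomial (Fin n) ℂ) T (MvPolynomial.X i)) := by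
  simp [chartBasis]

/-- A transcendence basis gives a basis of the differentials. -/
theorem exists_basis {K : Type} [Field K] [Algebra ℂ K] {n : ℕ} {ρ : Fin n → K}
    (hρ : IsTranscendenceBasis ℂ ρ) : ∃ b : Basis (Fin n) K Ω[K⁄ℂ], ∀ i, b i = D ℂ K (ρ i) := by
  let P := MvPolynomial (Fin n) ℂ
  letI : Algebra P K := (MvPolynomial.aeval ρ : P →ₐ[ℂ] K).toRingHom.toAlgebra
  haveI : IsScalarTower ℂ P K := IsScalarTower.of_algebraMap_eq fun c =>
    ((MvPolynomial.aeval ρ : P →ₐ[ℂ] K).commutes c).symm
  haveI : FaithfulSMul P K := (faithfulSMul_iff_algebraMap_injective P K).2 hρ.1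
  let F := FractionRing P
  letI : Algebra F K := FractionRing.liftAlgebra P K
  haveI : IsScalarTower P F K := FractionRing.isScalarTower_liftAlgebra P K
  haveI : Algebra.IsAlgebraic P K := by
    refine (hρ.isAlgebraic_iff (S := P)).2 fun i => ?_
    have : ρ i = algebraMap P K (MvPolynomial.X i) := (MvPolynomial.aeval_X ρ i).symm
    rw [this]; exact isAlgebraic_algebraMap _
  haveI : Algebra.IsAlgebraic F K := (IsFractionRing.comap_isAlgebraic_iff (A := P)).1 inferInstance
  haveI : CharZero F := algebraRat.charZero F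
  haveI : Algebra.FormallyEtale F K := Algebra.FormallyEtale.of_isSeparable F K
  haveI : Algebra.FormallyEtale P F := Algebra.FormallyEtale.of_isLocalization P⁰
  haveI : Algebra.FormallyEtale P K := Algebra.FormallyEtale.comp P F K
  exact ⟨chartBasis n K, fun i => by
    rw [chartBasis_apply]; congr 1; exact MvPolynomial.aeval_X ρ i⟩

/-- Extension across codimension two. -/
theorem mem_regularOver {A K : Type} [CommRing A] [IsDomain A] [IsNoetherianRing A]
    [IsIntegrallyClosed A] [Field K] [Algebra ℂ K] [Algebra ℂ A] [Algebra A K]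
    [IsScalarTower ℂ A K] [IsFractionRing A K] {n : ℕ} [Algebra (MvPolynomial (Fin n) ℂ) A]
    [IsScalarTower ℂ (MvPolynomial (Fin n) ℂ) A]
    [Algebra.FormallyEtale (MvPolynomial (Fin n) ℂ) A] {n' m : ℕ} (b' : Basis (Fin n') K Ω[K⁄ℂ])
    (ω : PluriForm K n' m)
    (hω : ∀ (p : Ideal A) (_ : p.IsPrime) (O : ValuationSubring K), IsDiscreteValuationRing O →
      (∀ x : K, x ∈ O ↔ ∃ a s : A, s ∉ p ∧ x = algebraMap A K a * (algebraMap A K s)⁻¹) →
      ω ∈ regularAt (dw K n') O m) :
    ω ∈ Lit.regularOver (dw K n') (algebraMap A K).range m := by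
  let P := MvPolynomial (Fin n) ℂ
  letI : Algebra P K := ((algebraMap A K).comp (algebraMap P A)).toAlgebra
  haveI : IsScalarTower P A K := IsScalarTower.of_algebraMap_eq fun _ => rfl
  haveI : IsScalarTower ℂ P K := IsScalarTower.of_algebraMap_eq fun c => by
    rw [IsScalarTower.algebraMap_apply P A K, ← IsScalarTower.algebraMap_apply ℂ P A,
      ← IsScalarTower.algebraMap_apply ℂ A K]
  haveI : Algebra.FormallyEtale A K := Algebra.FormallyEtale.of_isLocalization A⁰
  haveI : Algebra.FormallyEtale P K := Algebra.FormallyEtale.comp P A K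
  have hn : n' = n := by
    simpa using Fintype.card_congr (b'.indexEquiv (chartBasis n K))
  subst hn
  let b := chartBasis n' K
  have hb : ∀ i, b i = D ℂ K (algebraMap A K (algebraMap P A (MvPolynomial.X i))) := fun i =>
    chartBasis_apply n' K i
  have hA : ∀ (a : A) (j : Fin n'), ∃ c : A, b.repr (D ℂ K (algebraMap A K a)) j =
      algebraMap A K c := by
    intro a j
    refine ⟨(chartBasis n' A).repr (D ℂ A a) j, ?_⟩
    have e : D ℂ K (algebraMap A K a) =
        ∑ i, algebraMap A K ((chartBasis n' A).repr (D ℂ A a) i) • b i := by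
      rw [← map_D ℂ ℂ A K a]
      conv_lhs => rw [← (chartBasis n' A).sum_repr (D ℂ A a)]
      rw [map_sum]
      refine Finset.sum_congr rfl fun i _ => ?_
      rw [map_smul, chartBasis_apply, map_D, hb, IsScalarTower.algebraMap_smul]
    rw [e, Basis.repr_sum_self]
  have hc : ∃ a : A, algebraMap A K a = coord b m ω := by
    by_contra hno
    push Not at hno
    obtain ⟨p, hp, O, hO, hmem, hh⟩ := exists_dvr _ hno
    refine hh (coord_mem b m O (fun f hf j => ?_) (hω p hp O hO hmem))
    have hin : ∀ a : A, algebraMap A K a ∈ O := fun a =>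
      (hmem _).2 ⟨a, 1, (Ideal.ne_top_iff_one p).1 hp.ne_top, by simp⟩
    obtain ⟨a, s, hs, e⟩ := (hmem f).1 hf
    have hs0 : algebraMap A K s ≠ 0 := by
      intro e
      rw [map_eq_zero_iff _ (IsFractionRing.injective A K)] at e
      exact hs (e ▸ p.zero_mem)
    have hinv : (algebraMap A K s)⁻¹ ∈ O := (hmem _).2 ⟨1, s, hs, by simp⟩
    have e1 : algebraMap A K s * f = algebraMap A K a := by rw [e]; field_simp
    have e2 : D ℂ K f = (algebraMap A K s)⁻¹ •
        (D ℂ K (algebraMap A K a) - f • D ℂ K (algebraMap A K s)) := by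
      rw [← e1, Derivation.leibniz, add_sub_cancel_right, smul_smul, inv_mul_cancel₀ hs0, one_smul]
    obtain ⟨c, hc⟩ := hA a j
    obtain ⟨d, hd⟩ := hA s j
    rw [e2, map_smul, map_sub, map_smul, Finsupp.smul_apply, Finsupp.sub_apply, Finsupp.smul_apply,
      hc, hd, smul_eq_mul, smul_eq_mul]
    exact mul_mem hinv (sub_mem (hin c) (mul_mem hf (hin d)))
  obtain ⟨a, ha⟩ := hc
  rw [eq_coord_smul b m ω, ← ha]
  refine Submodule.smul_mem _ (⟨algebraMap A K a, a, rfl⟩ : (algebraMap A K).range)
    (Submodule.subset_span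
      ⟨fun _ i => algebraMap A K (algebraMap P A (MvPolynomial.X i)), fun _ _ => ⟨_, rfl⟩, ?_⟩)
  rw [eta]
  congr 1
  funext k
  exact congrArg (exteriorPower.ιMulti K n') (funext hb)

section transport

variable {K L : Type} [Field K] [Field L] [Algebra ℂ K] [Algebra ℂ L] [Algebra K L]
  [IsScalarTower ℂ K L] (n m : ℕ)

/-- Pull-back of top forms. -/
def wedgeMap : ⋀[K]^n Ω[K⁄ℂ] →ₗ[K] ⋀[L]^n Ω[L⁄ℂ] :=
  exteriorPower.alternatingMapLinearEquiv
    (AlternatingMap.compLinearMap
      { toMultilinearMap := (exteriorPower.ιMulti L n).toMultilinearMap.restrictScalars K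
        map_eq_zero_of_eq' := fun v _ _ h hij =>
          (exteriorPower.ιMulti L n).map_eq_zero_of_eq v h hij }
      (KaehlerDifferential.map ℂ ℂ K L))

/-- Pull-back of pluricanonical forms. -/
def formMap : PluriForm K n m →ₗ[K] PluriForm L n m :=
  PiTensorProduct.lift (((PiTensorProduct.tprod L).restrictScalars K).compLinearMap
    fun _ => wedgeMap n)

theorem formMap_tprod (f : Fin m → Fin n → K) :
    formMap n m (PiTensorProduct.tprod K fun k => exteriorPower.ιMulti K n fun i => D ℂ K (f k i))
      = PiTensorProduct.tprod L fun k => exteriorPower.ιMulti L n fun i =>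
        D ℂ L (algebraMap K L (f k i)) := by
  simp [formMap, wedgeMap]

theorem formMap_mem (O : ValuationSubring L) {ω : PluriForm K n m}
    (hω : ω ∈ regularAt (dw K n) (O.comap (algebraMap K L)) m) :
    (formMap n m ω : PluriForm L n m) ∈ regularAt (dw L n) O m := by
  induction hω using Submodule.span_induction with
  | mem x hx =>
    obtain ⟨f, hf, rfl⟩ := hx
    exact Submodule.subset_span ⟨fun k i => algebraMap K L (f k i), hf, formMap_tprod n m f⟩
  | zero => simp
  | add x y _ _ hx hy => rw [map_add]; exact add_mem hx hy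
  | smul a x _ hx =>
    change (formMap n m ((a : K) • x) : PluriForm L n m) ∈ _
    rw [map_smul, ← IsScalarTower.algebraMap_smul L]
    exact Submodule.smul_mem _ (⟨algebraMap K L a, a.2⟩ : O) hx

end transport

theorem fieldBig_transport {K L : Type} [Field K] [Field L] [Algebra ℂ K] [Algebra ℂ L]
    (e : K ≃ₐ[ℂ] L) {S : Set (ValuationSubring K)} {T : Set (ValuationSubring L)}
    (hST : ∀ O ∈ T, O.comap (e : K →+* L) ∈ S) (h : FieldBig K S) :
    FieldBig L T := by
  letI : Algebra K L := (e : K →+* L).toAlgebra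
  haveI : IsScalarTower ℂ K L := IsScalarTower.of_algebraMap_eq fun c => (e.commutes c).symm
  obtain ⟨n, m, ω, ρ, hm, hω, hρ, h1, h2⟩ := h
  have hρ' : IsTranscendenceBasis ℂ (e ∘ ρ) := e.isTranscendenceBasis hρ
  have key : ∀ η : PluriForm K n m, IsLogForm (dw K n) S η →
      IsLogForm (dw L n) T (formMap n m η : PluriForm L n m) := by
    intro η hη O hO hc
    let ε : O.comap (algebraMap K L) ≃+* O :=
      { toFun := fun x => ⟨e x, x.2⟩
        invFun := fun y => ⟨e.symm y, by
          change e (e.symm y) ∈ O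
          rw [e.apply_symm_apply]; exact y.2⟩
        left_inv := fun x => Subtype.ext (e.symm_apply_apply x)
        right_inv := fun y => Subtype.ext (e.apply_symm_apply y)
        map_mul' := fun x y => Subtype.ext (map_mul e (x : K) y)
        map_add' := fun x y => Subtype.ext (map_add e (x : K) y) }
    obtain ⟨g1, g2⟩ := hη (O.comap (algebraMap K L))
      (IsDiscreteValuationRing.RingEquivClass.isDiscreteValuationRing ε.symm)
      (fun c => by
        change e (algebraMap ℂ K c) ∈ O
        rw [e.commutes]; exact hc c)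
    refine ⟨fun π hπ => ?_, fun hT => formMap_mem n m O (g2 (hST O hT))⟩
    have := formMap_mem n m O (g1 (ε.symm π) ((MulEquiv.irreducible_iff ε.symm).2 hπ))
    rw [map_smul, ← IsScalarTower.algebraMap_smul L, map_pow] at this
    have e3 : algebraMap K L ((ε.symm π : O.comap (algebraMap K L)) : K) = π :=
      e.apply_symm_apply π
    rwa [e3] at this
  refine ⟨n, m, formMap n m ω, e ∘ ρ, hm, ?_, hρ', key ω h1, fun i => ?_⟩
  · obtain ⟨b, hb⟩ := exists_basis hρ
    obtain ⟨b', hb'⟩ := exists_basis hρ'
    have h3 : (formMap n m (eta b m) : PluriForm L n m) = eta b' m := by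
      rw [eta, eta, show (b : Fin n → _) = fun i => D ℂ K (ρ i) from funext hb,
        show (b' : Fin n → _) = fun i => D ℂ L (e (ρ i)) from funext hb']
      exact formMap_tprod n m fun _ i => ρ i
    have h4 : coord b m ω ≠ 0 := fun e0 => hω (by rw [eq_coord_smul b m ω, e0, zero_smul])
    rw [eq_coord_smul b m ω, map_smul, h3, ← IsScalarTower.algebraMap_smul L]
    exact smul_ne_zero ((map_ne_zero _).2 h4) (eta_ne_zero b' m)
  · have := key _ (h2 i)
    rwa [map_smul, ← IsScalarTower.algebraMap_smul L] at this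

end

end Pool.Agent.P.MP_dc0411_ag.Cmp
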