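import Pool.Agent.P.MP_dc0411_ag.CmpForms

/-!
The valuative definition of log-general type gives bigness of `K_Z + D` on every smooth model.
-/

open CategoryTheory AlgebraicGeometry
open scoped TensorProduct nonZeroDivisors

set_option linter.style.haveILetI false

namespace Pool.Agent.P.MP_dc0411_ag.Cmp

noncomputable section

/-- The map of function fields of a dominant morphism. -/
def fmap {X Y : Scheme.{0}} [IsIntegral X] [IsIntegral Y] (p : X ⟶ Y)
    (hp : p (genericPoint X) = genericPoint Y) : Y.functionField ⟶ X.functionField :=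
  Y.presheaf.stalkSpecializes (specializes_of_eq hp) ≫ p.stalkMap (genericPoint X)

theorem fmap_stalk {X Y : Scheme.{0}} [IsIntegral X] [IsIntegral Y] (p : X ⟶ Y)
    (hp : p (genericPoint X) = genericPoint Y) (x : X) (s : Y.presheaf.stalk (p x)) :
    fmap p hp (algebraMap (Y.presheaf.stalk (p x)) Y.functionField s) =
      algebraMap (X.presheaf.stalk x) X.functionField (p.stalkMap x s) := by
  have h := p.stalkSpecializes_stalkMap_apply (genericPoint X) x
    ((genericPoint_spec X).specializes trivial) s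
  refine Eq.trans ?_ h
  change p.stalkMap (genericPoint X) ((Y.presheaf.stalkSpecializes _ ≫
    Y.presheaf.stalkSpecializes (specializes_of_eq hp)) s) = _
  rw [TopCat.Presheaf.stalkSpecializes_comp]

theorem fmap_bijective {X Y : Scheme.{0}} [IsIntegral X] [IsIntegral Y] (p : X ⟶ Y)
    (hp : Lit.IsBirational p) : Function.Bijective (fmap p hp.1) := by
  haveI := hp.2
  haveI : IsIso (Y.presheaf.stalkSpecializes (specializes_of_eq hp.1)) :=
    (Y.presheaf.stalkCongr (Inseparable.of_eq hp.1.symm)).isIso_hom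
  haveI : IsIso (fmap p hp.1) := by unfold fmap; infer_instance
  exact ConcreteCategory.bijective_of_isIso _

/-- The isomorphism of function fields over `ℂ` of a birational morphism. -/
def fequiv {X Y : Over SpecC} [IsIntegral X.left] [IsIntegral Y.left] (p : X ⟶ Y)
    (hp : Lit.IsBirational p.left) :
    letI := fieldAlgebra X
    letI := fieldAlgebra Y
    Y.left.functionField ≃ₐ[ℂ] X.left.functionField :=
  letI := fieldAlgebra X
  letI := fieldAlgebra Y
  { RingEquiv.ofBijective (fmap p.left hp.1).hom (fmap_bijective p.left hp) with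
    commutes' := fun c => by
      have e : Y.hom.appTop ≫ Y.left.presheaf.germ ⊤ (genericPoint Y.left) trivial ≫
          fmap p.left hp.1 =
          X.hom.appTop ≫ X.left.presheaf.germ ⊤ (genericPoint X.left) trivial := by
        rw [fmap, TopCat.Presheaf.germ_stalkSpecializes_assoc, Scheme.Hom.germ_stalkMap,
          ← Over.w p, Scheme.Hom.comp_appTop, Category.assoc]
        rfl
      exact congrArg (fun φ => φ.hom ((Scheme.ΓSpecIso (CommRingCat.of ℂ)).inv c)) e }

theorem isLogSection_of (Z : Over SpecC) [IsIntegral Z.left] [Smooth Z.hom] (U : Z.left.Opens)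
    {n m : ℕ} (b : letI := fieldAlgebra Z;
      Module.Basis (Fin n) Z.left.functionField Ω[Z.left.functionField⁄ℂ])
    (ω : letI := fieldAlgebra Z; PluriForm Z.left.functionField n m)
    (hω : letI := fieldAlgebra Z
      IsLogForm (dw Z.left.functionField n) {O | ∃ z ∈ U, ∀ s : Z.left.presheaf.stalk z,
        algebraMap (Z.left.presheaf.stalk z) Z.left.functionField s ∈ O} ω) :
    letI := fieldAlgebra Z
    Lit.IsSection (dw Z.left.functionField n) (Lit.boundaryPairs Z.left U) ω := by
  letI := fieldAlgebra Z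
  rintro _ ⟨W, f, z, hz, hf, rfl⟩
  obtain ⟨V, hV, hzV, hVW⟩ := exists_isAffineOpen_mem_and_subset hz
  have hVW' : V ≤ W := hVW
  haveI : Nonempty V := ⟨⟨z, hzV⟩⟩
  let φ : CommRingCat.of ℂ ⟶ Γ(Z.left, V) :=
    (Scheme.ΓSpecIso (CommRingCat.of ℂ)).inv ≫ Z.hom.appLE ⊤ V le_top
  letI : Algebra ℂ Γ(Z.left, V) := φ.hom.toAlgebra
  haveI : Algebra.Smooth ℂ Γ(Z.left, V) := by
    have h1 : RingHom.Smooth (Z.hom.appLE ⊤ V le_top).hom :=
      HasRingHomProperty.appLE @Smooth Z.hom inferInstance ⟨⊤, isAffineOpen_top _⟩ ⟨V, hV⟩ le_top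
    exact RingHom.Smooth.comp (RingHom.Smooth.of_bijective
      (ConcreteCategory.bijective_of_isIso (Scheme.ΓSpecIso (CommRingCat.of ℂ)).inv)) h1
  letI : Algebra Γ(Z.left, V) (Z.left.presheaf.stalk z) :=
    TopCat.Presheaf.algebra_section_stalk Z.left.presheaf (⟨z, hzV⟩ : V)
  haveI : IsLocalization.AtPrime (Z.left.presheaf.stalk z) (hV.primeIdealOf ⟨z, hzV⟩).asIdeal :=
    hV.isLocalization_stalk ⟨z, hzV⟩
  letI : Algebra ℂ (Z.left.presheaf.stalk z) :=
    ((algebraMap Γ(Z.left, V) (Z.left.presheaf.stalk z)).comp φ.hom).toAlgebra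
  haveI : IsScalarTower ℂ Γ(Z.left, V) (Z.left.presheaf.stalk z) :=
    IsScalarTower.of_algebraMap_eq fun _ => rfl
  have hgerm : ∀ (y : Z.left) (hy : y ∈ V) (g : Γ(Z.left, V)),
      algebraMap (Z.left.presheaf.stalk y) Z.left.functionField (Z.left.presheaf.germ V y hy g) =
      algebraMap (Z.left.presheaf.stalk z) Z.left.functionField
        (Z.left.presheaf.germ V z hzV g) := fun y hy g => by
    rw [Scheme.algebraMap_germ_eq_germToFunctionField, Scheme.algebraMap_germ_eq_germToFunctionField]
  haveI : IsScalarTower ℂ (Z.left.presheaf.stalk z) Z.left.functionField := by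
    refine IsScalarTower.of_algebraMap_eq fun c => ?_
    have e : Z.hom.appTop ≫ Z.left.presheaf.germ ⊤ (genericPoint Z.left) trivial =
        Z.hom.appLE ⊤ V le_top ≫ Z.left.presheaf.germ V z hzV ≫
          Z.left.presheaf.stalkSpecializes ((genericPoint_spec Z.left).specializes trivial) := by
      rw [TopCat.Presheaf.germ_stalkSpecializes, Scheme.Hom.appLE, Category.assoc,
        TopCat.Presheaf.germ_res]
      rfl
    exact congrArg (fun φ => φ.hom ((Scheme.ΓSpecIso (CommRingCat.of ℂ)).inv c)) e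
  haveI : IsNoetherianRing Γ(Z.left, V) := Algebra.FiniteType.isNoetherianRing ℂ _
  haveI : IsNoetherianRing (Z.left.presheaf.stalk z) :=
    IsLocalization.isNoetherianRing (hV.primeIdealOf ⟨z, hzV⟩).asIdeal.primeCompl _ inferInstance
  obtain ⟨hnormal, k, inst, htow, het⟩ :=
    exists_chart (A := Z.left.presheaf.stalk z) (hV.primeIdealOf ⟨z, hzV⟩).asIdeal
  refine mem_regularOver (n := k) b _ fun p hp O hO hmem => ?_
  have hin : ∀ a : Z.left.presheaf.stalk z, algebraMap _ Z.left.functionField a ∈ O := fun a =>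
    (hmem _).2 ⟨a, 1, (Ideal.ne_top_iff_one p).1 hp.ne_top, by simp⟩
  obtain ⟨g1, g2⟩ := hω O hO fun c => by
    rw [IsScalarTower.algebraMap_apply ℂ (Z.left.presheaf.stalk z)]; exact hin _
  dsimp only
  set a := Z.left.presheaf.germ W z hz f with ha
  by_cases hap : a ∈ p
  · obtain ⟨π, hπ⟩ := IsDiscreteValuationRing.exists_irreducible O
    have hnu : ¬ IsUnit (⟨_, hin a⟩ : O) := by
      intro hu
      obtain ⟨v, hv⟩ := hu.exists_right_inv
      have hv' : algebraMap _ Z.left.functionField a * (v : Z.left.functionField) = 1 :=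
        congrArg Subtype.val hv
      obtain ⟨c, s, hs, e⟩ := (hmem _).1 v.2
      have hs0 : algebraMap _ Z.left.functionField s ≠ 0 := by
        intro e
        rw [map_eq_zero_iff _ (IsFractionRing.injective _ _)] at e
        exact hs (e ▸ p.zero_mem)
      have e1 : a * c = s := by
        apply IsFractionRing.injective _ Z.left.functionField
        rw [e, ← mul_assoc, mul_inv_eq_one₀ hs0] at hv'
        rw [map_mul, hv']
      exact hs (e1 ▸ p.mul_mem_right c hap)
    have hmax : (⟨_, hin a⟩ : O) ∈ Ideal.span {π} := by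
      rw [← hπ.maximalIdeal_eq]; exact hnu
    obtain ⟨c, hc⟩ := Ideal.mem_span_singleton'.1 hmax
    have hc' : algebraMap _ Z.left.functionField a = (c : Z.left.functionField) * π :=
      (congrArg Subtype.val hc).symm
    rw [hc', mul_pow, mul_smul]
    exact Submodule.smul_mem _ (c ^ m) (g1 π hπ)
  · let q : PrimeSpectrum Γ(Z.left, V) :=
      ⟨p.comap (algebraMap Γ(Z.left, V) (Z.left.presheaf.stalk z)), inferInstance⟩
    have hy : hV.fromSpec q ∈ V := by
      have : hV.fromSpec q ∈ Set.range hV.fromSpec := ⟨q, rfl⟩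
      rwa [hV.range_fromSpec] at this
    letI : Algebra Γ(Z.left, V) (Z.left.presheaf.stalk (hV.fromSpec q)) :=
      TopCat.Presheaf.algebra_section_stalk Z.left.presheaf (⟨hV.fromSpec q, hy⟩ : V)
    haveI : IsLocalization.AtPrime (Z.left.presheaf.stalk (hV.fromSpec q)) q.asIdeal :=
      hV.isLocalization_stalk' q hy
    have hU : hV.fromSpec q ∈ U := by
      apply hf
      rw [Scheme.mem_basicOpen _ _ _ (hVW' hy), ← Z.left.presheaf.germ_res_apply (homOfLE hVW') _ hy]
      refine IsLocalization.map_units (Z.left.presheaf.stalk (hV.fromSpec q))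
        (⟨Z.left.presheaf.map (homOfLE hVW').op f, fun h => hap ?_⟩ : q.asIdeal.primeCompl)
      rw [ha, ← Z.left.presheaf.germ_res_apply (homOfLE hVW') _ hzV]
      exact h
    have hreg := g2 ⟨_, hU, fun s => by
      obtain ⟨⟨c, d⟩, e⟩ := IsLocalization.surj q.asIdeal.primeCompl s
      refine (hmem _).2 ⟨algebraMap _ _ c, algebraMap _ _ (d : Γ(Z.left, V)), d.2, ?_⟩
      have e1 := congrArg (algebraMap _ Z.left.functionField) e
      rw [map_mul] at e1
      have e2 := hgerm _ hy c
      have e3 := hgerm _ hy d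
      have hd0 : algebraMap (Z.left.presheaf.stalk z) Z.left.functionField
          (algebraMap _ _ (d : Γ(Z.left, V))) ≠ 0 := by
        intro e
        rw [map_eq_zero_iff _ (IsFractionRing.injective _ _)] at e
        exact d.2 (show algebraMap _ (Z.left.presheaf.stalk z) (d : Γ(Z.left, V)) ∈ p from
          e ▸ p.zero_mem)
      rw [eq_mul_inv_iff_mul_eq₀ hd0]
      exact (congrArg _ e3.symm).trans (e1.trans e2)⟩
    exact Submodule.smul_mem _ ((⟨_, hin a⟩ : O) ^ m) hreg

/-- If `Y` is of log-general type in the valuative sense, then for every birational morphism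
`Y' ⟶ Y` and every open immersion of `Y'` into a smooth `Z`, with complement `D`, the divisor
`K_Z + D` is big. -/
theorem logCanonicalBig_of_logGeneralType {Y Y' Z : Over SpecC} [IsIntegral Y.left]
    [IsIntegral Y'.left] [IsIntegral Z.left] (p : Y' ⟶ Y) (j : Y' ⟶ Z)
    (hp : Lit.IsBirational p.left) [IsOpenImmersion j.left] [Smooth Z.hom] (h : LogGeneralType Y) :
    Lit.LogCanonicalBig Z j.left.opensRange := by
  letI := fieldAlgebra Y
  letI := fieldAlgebra Y'
  letI := fieldAlgebra Z
  have hj : Lit.IsBirational j.left := ⟨genericPoint_eq_of_isOpenImmersion _, inferInstance⟩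
  have h1 : FieldBig Y.left.functionField (centred Y.left) := h
  have h2 := fieldBig_transport ((fequiv p hp).trans (fequiv j hj).symm)
    (T := {O | ∃ z ∈ j.left.opensRange, ∀ s : Z.left.presheaf.stalk z,
      algebraMap (Z.left.presheaf.stalk z) Z.left.functionField s ∈ O}) (by
      rintro O ⟨_, ⟨y, rfl⟩, hO⟩
      refine ⟨p.left y, fun s => ?_⟩
      obtain ⟨t, ht⟩ := (ConcreteCategory.bijective_of_isIso (j.left.stalkMap y)).2
        (p.left.stalkMap y s)
      have e : (fequiv j hj).symm (fequiv p hp (algebraMap _ Y.left.functionField s)) =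
          algebraMap _ Z.left.functionField t := by
        rw [AlgEquiv.symm_apply_eq]
        exact (fmap_stalk p.left hp.1 y s).trans
          ((congrArg _ ht.symm).trans (fmap_stalk j.left hj.1 y t).symm)
      change (fequiv j hj).symm (fequiv p hp (algebraMap _ Y.left.functionField s)) ∈ O
      rw [e]; exact hO t) h1
  obtain ⟨n, m, ω, ρ, hm, hω, hρ, g1, g2⟩ := h2
  obtain ⟨b, -⟩ := exists_basis hρ
  exact ⟨n, m, ω, ρ, hm, hω, hρ, isLogSection_of Z _ b ω g1,
    fun i => isLogSection_of Z _ b _ (g2 i)⟩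

theorem canonicalBig_of_fieldBig {K : Type} [Field K] [Algebra ℂ K] {ι : Type}
    (A : ι → Subring K) {S : Set (ValuationSubring K)}
    (hS : ∀ O : ValuationSubring K, (∃ y, A y ≤ O.toSubring) → O ∈ S) (h : FieldBig K S) :
    Lit.CanonicalBig K (Lit.valuationPairs K A) := by
  obtain ⟨n, m, ω, ρ, hm, hω, hρ, g1, g2⟩ := h
  have key : ∀ η : PluriForm K n m, IsLogForm (dw K n) S η →
      Lit.IsSection (dw K n) (Lit.valuationPairs K A) η := by
    rintro η hη _ ⟨O, hO, hc, ⟨π, hπ, rfl⟩ | ⟨hy, rfl⟩⟩
    · exact (hη O hO hc).1 π hπ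
    · dsimp only
      rw [one_pow, one_smul]
      exact (hη O hO hc).2 (hS O hy)
  exact ⟨n, m, ω, ρ, hm, hω, hρ, key ω g1, fun i => key _ (g2 i)⟩

theorem lit_of_logGeneralType {Y : Over SpecC} [IsIntegral Y.left] (h : LogGeneralType Y) :
    Lit.LogGeneralType Y :=
  letI := fieldAlgebra Y
  ⟨fun _ _ _ _ p j _ hp _ => logCanonicalBig_of_logGeneralType p j hp h,
    canonicalBig_of_fieldBig (S := centred Y.left) _
      (fun _ hO => hO.imp fun _ hy s => hy ⟨s, rfl⟩) h⟩

theorem conditionTwo_of {X : Over SpecC} (h : SubvarietiesLogGeneral X) : Lit.ConditionTwo X :=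
  fun Y _ i hi => lit_of_logGeneralType (h Y i hi)

end

end Pool.Agent.P.MP_dc0411_ag.Cmp
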