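import Mathlib

/-!
Statement definitions for the Lang-Vojta question: schemes over `Spec ℂ`, quasi-projectivity,
complex points, holomorphic maps from the complex line, Brody hyperbolicity (condition (1)) and
finiteness of pointed maps from curves (condition (3)).
-/

open CategoryTheory AlgebraicGeometry

namespace Pool.Agent.P.MP_dc0411_ag

noncomputable section

/-- The base scheme `Spec ℂ`. -/
abbrev SpecC : Scheme.{0} := Spec (CommRingCat.of ℂ)

/-- Projective space `ℙⁿ = Proj ℂ[x₀, …, xₙ]` (grading by total degree) with its structure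
morphism to `Spec ℂ`. -/
def projSpace (n : ℕ) : Over SpecC :=
  letI := MvPolynomial.gradedAlgebra (σ := Fin (n + 1)) (R := ℂ)
  Over.mk (Proj.toSpecZero (MvPolynomial.homogeneousSubmodule (Fin (n + 1)) ℂ) ≫
    Spec.map (CommRingCat.ofHom
      (algebraMap ℂ (MvPolynomial.homogeneousSubmodule (Fin (n + 1)) ℂ 0))))

/-- A scheme over `ℂ` is quasi-projective if it has an immersion over `ℂ` into some `ℙⁿ`. -/
def IsQuasiProjective (X : Over SpecC) : Prop :=
  ∃ (n : ℕ) (i : X ⟶ projSpace n), IsImmersion i.left

/-- The complex points `X(ℂ)`: morphisms `Spec ℂ ⟶ X` over `ℂ`. -/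
abbrev CPoint (X : Over SpecC) : Type := Over.mk (𝟙 SpecC) ⟶ X

/-- The complex point `p` lies in the Zariski open set `U`. -/
def CPoint.Mem {X : Over SpecC} (p : CPoint X) (U : X.left.Opens) : Prop :=
  ⊤ ≤ p.left ⁻¹ᵁ U

open Classical in
/-- The value at the complex point `p` of a regular function `s` on `U` (and `0` if `p ∉ U`). -/
def CPoint.eval {X : Over SpecC} (p : CPoint X) (U : X.left.Opens) (s : Γ(X.left, U)) : ℂ :=
  if h : p.Mem U then (Scheme.ΓSpecIso (CommRingCat.of ℂ)).hom (p.left.appLE U ⊤ h s) else 0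

/-- `f : ℂ → X(ℂ)` is a holomorphic map to the analytification: preimages of Zariski open sets
`U` are open, and regular functions on `U` pull back to holomorphic functions there. -/
def IsHolomorphic {X : Over SpecC} (f : ℂ → CPoint X) : Prop :=
  ∀ U : X.left.Opens, IsOpen {z | (f z).Mem U} ∧
    ∀ s : Γ(X.left, U), DifferentiableOn ℂ (fun z => (f z).eval U s) {z | (f z).Mem U}

/-- Condition (1): every holomorphic map `ℂ → X(ℂ)` is constant. -/
def BrodyHyperbolic (X : Over SpecC) : Prop :=
  ∀ f : ℂ → CPoint X, IsHolomorphic f → ∀ z w : ℂ, f z = f w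

/-- Condition (3): for every connected smooth quasi-projective curve `C` over `ℂ`, every
`c ∈ C(ℂ)` and every `x ∈ X(ℂ)`, there are finitely many morphisms `C ⟶ X` over `ℂ` sending
`c` to `x`. -/
def PointedFinite (X : Over SpecC) : Prop :=
  ∀ C : Over SpecC, IsQuasiProjective C → SmoothOfRelativeDimension 1 C.hom →
    ConnectedSpace C.left → ∀ (c : CPoint C) (x : CPoint X), {f : C ⟶ X | c ≫ f = x}.Finite

end

end Pool.Agent.P.MP_dc0411_ag
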