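import Pool.Agent.P.MP_dc0411_ag.Defs

/-!
Statement definitions for condition (2) of the Lang-Vojta question: rational pluricanonical forms,
forms with logarithmic poles, and varieties of log-general type.

On a resolution `Y' → Y` with smooth projective compactification `Y' ⊆ Z` and simple normal
crossings boundary `D`, the sections of `m (K_Z + D)` are exactly the rational `m`-canonical forms
that have a pole of order at most `m` at every discrete valuation ring of the function field and no
pole at those with a centre on `Y`.  The log Kodaira dimension is the largest transcendence degree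
of a field generated by ratios of such sections.
-/

open CategoryTheory AlgebraicGeometry
open scoped TensorProduct

namespace Pool.Agent.P.MP_dc0411_ag

noncomputable section

/-- The form `df₁ ∧ ⋯ ∧ dfₙ`; below `d` will be the universal derivation `K → Ω[K⁄ℂ]`. -/
def wedge {K M : Type} [Field K] [AddCommGroup M] [Module K M] (d : K → M) (n : ℕ)
    (f : Fin n → K) : ⋀[K]^n M :=
  exteriorPower.ιMulti K n fun i => d (f i)

section

variable {K W : Type} [Field K] [Algebra ℂ K] [AddCommGroup W] [Module K W] {n : ℕ}

/-- Here and below `w` will be `wedge d n`, so that `⨂[K]^m W` is the space of rational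
`m`-canonical forms.  The forms without pole at the valuation ring `O`: the `O`-span of the tensor
products of `m` forms `w f` with all `fᵢ` in `O`. -/
def regularAt (w : (Fin n → K) → W) (O : ValuationSubring K) (m : ℕ) : Submodule O (⨂[K]^m W) :=
  Submodule.span O {ω | ∃ f : Fin m → Fin n → K, (∀ k i, f k i ∈ O) ∧
    ω = PiTensorProduct.tprod K fun k => w (f k)}

/-- `ω` has a pole of order at most `m` at every discrete valuation ring `O` with
`ℂ ⊆ O ⊆ K` and fraction field `K`, and no pole if `O` belongs to `S`. -/
def IsLogForm (w : (Fin n → K) → W) (S : Set (ValuationSubring K)) {m : ℕ} (ω : ⨂[K]^m W) :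
    Prop :=
  ∀ O : ValuationSubring K, IsDiscreteValuationRing O → (∀ c : ℂ, algebraMap ℂ K c ∈ O) →
    (∀ π : O, Irreducible π → (π : K) ^ m • ω ∈ regularAt w O m) ∧ (O ∈ S → ω ∈ regularAt w O m)

/-- For some `m > 0` there are logarithmic `m`-canonical forms `ω ≠ 0`, `ρ₁ ω, …, ρₙ ω` whose
ratios `ρᵢ` are a transcendence basis of `K` over `ℂ`. -/
def Big (w : (Fin n → K) → W) (S : Set (ValuationSubring K)) : Prop :=
  ∃ (m : ℕ) (ω : ⨂[K]^m W) (ρ : Fin n → K),
    0 < m ∧ ω ≠ 0 ∧ IsTranscendenceBasis ℂ ρ ∧ IsLogForm w S ω ∧ ∀ i, IsLogForm w S (ρ i • ω)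

end

/-- The log Kodaira dimension of `(K, S)` equals the transcendence degree `n` of `K`. -/
def FieldBig (K : Type) [Field K] [Algebra ℂ K] (S : Set (ValuationSubring K)) : Prop :=
  ∃ n : ℕ, Big (wedge (KaehlerDifferential.D ℂ K) n) S

/-- The valuation rings of the function field with a centre on `Y`: those that contain the local
ring of some point of `Y`. -/
def centred (Y : Scheme.{0}) [IsIntegral Y] : Set (ValuationSubring Y.functionField) :=
  {O | ∃ y : Y, ∀ s : Y.presheaf.stalk y, algebraMap (Y.presheaf.stalk y) Y.functionField s ∈ O}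

/-- The function field of an integral scheme over `ℂ` as a `ℂ`-algebra. -/
abbrev fieldAlgebra (Y : Over SpecC) [IsIntegral Y.left] : Algebra ℂ Y.left.functionField :=
  ((Scheme.ΓSpecIso (CommRingCat.of ℂ)).inv ≫ Y.hom.appTop ≫
    Y.left.presheaf.germ ⊤ (genericPoint Y.left) trivial).hom.toAlgebra

/-- `Y` is of log-general type: its log Kodaira dimension equals its dimension. -/
def LogGeneralType (Y : Over SpecC) [IsIntegral Y.left] : Prop :=
  letI := fieldAlgebra Y
  FieldBig Y.left.functionField (centred Y.left)

/-- Condition (2): every closed integral subscheme of `X` is of log-general type. -/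
def SubvarietiesLogGeneral (X : Over SpecC) : Prop :=
  ∀ (Y : Over SpecC) [IsIntegral Y.left] (i : Y ⟶ X), IsClosedImmersion i.left → LogGeneralType Y

end

end Pool.Agent.P.MP_dc0411_ag
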