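import Pool.Agent.P.MP_dc0411_ag.Defs

/-!
Open subschemes of affine space: smoothness, quasi-projectivity, points and morphisms.
-/

open CategoryTheory AlgebraicGeometry MvPolynomial

namespace Pool.Agent.P.MP_dc0411_ag

noncomputable section

abbrev Rn (n : ℕ) : Type := MvPolynomial (Fin n) ℂ

abbrev SpecR (n : ℕ) : Scheme.{0} := Spec (CommRingCat.of (Rn n))

abbrev strMap (n : ℕ) : SpecR n ⟶ SpecC := Spec.map (CommRingCat.ofHom (algebraMap ℂ (Rn n)))

abbrev opn {n : ℕ} (U : (SpecR n).Opens) : Over SpecC := Over.mk (U.ι ≫ strMap n)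

theorem std_smooth (n : ℕ) : Algebra.IsStandardSmoothOfRelativeDimension n ℂ (Rn n) := by
  let v : Empty → Rn n := Empty.elim
  let P : Algebra.SubmersivePresentation ℂ (Rn n ⧸ Ideal.span (Set.range v)) (Fin n) Empty :=
    { toPreSubmersivePresentation := Algebra.PreSubmersivePresentation.naive (v := v)
        Empty.elim (fun a => a.elim)
      jacobian_isUnit := by
        rw [Algebra.PreSubmersivePresentation.jacobian_eq_jacobiMatrix_det]
        simp }
  have h1 : Algebra.IsStandardSmoothOfRelativeDimension n ℂ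
      (Rn n ⧸ Ideal.span (Set.range v)) :=
    P.isStandardSmoothOfRelativeDimension (by simp [Algebra.Presentation.dimension])
  have hbot : Ideal.span (Set.range v) = ⊥ := by
    rw [Set.range_eq_empty v, Ideal.span_empty]
  exact Algebra.IsStandardSmoothOfRelativeDimension.of_algEquiv n
    ((Ideal.quotientEquivAlgOfEq ℂ hbot).trans (AlgEquiv.quotientBot ℂ (Rn n)))

theorem smooth_strMap (n : ℕ) : SmoothOfRelativeDimension n (strMap n) := by
  rw [HasRingHomProperty.Spec_iff (P := @SmoothOfRelativeDimension n)]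
  refine RingHom.locally_of RingHom.isStandardSmoothOfRelativeDimension_respectsIso _ ?_
  exact (RingHom.isStandardSmoothOfRelativeDimension_algebraMap n).mpr (std_smooth n)

theorem smooth_opn {n : ℕ} (U : (SpecR n).Opens) : SmoothOfRelativeDimension n (opn U).hom := by
  have := smooth_strMap n
  have h : SmoothOfRelativeDimension (0 + n) (U.ι ≫ strMap n) := inferInstance
  rw [zero_add] at h
  exact h

theorem integral_opn {n : ℕ} (U : (SpecR n).Opens) (hU : (U : Set (SpecR n)).Nonempty) :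
    IsIntegral (opn U).left := by
  have : Nonempty U := by
    obtain ⟨x, hx⟩ := hU
    exact ⟨⟨x, hx⟩⟩
  change IsIntegral U.toScheme
  exact isIntegral_of_isOpenImmersion U.ι

/-- Dehomogenisation `x₀ ↦ 1`, `xᵢ₊₁ ↦ xᵢ`. -/
def dehom (n : ℕ) : Rn (n + 1) →ₐ[ℂ] Rn n := aeval (Fin.cases 1 X)

theorem quasiProjective_opn {n : ℕ} (U : (SpecR n).Opens) : IsQuasiProjective (opn U) := by
  let _ := MvPolynomial.gradedAlgebra (σ := Fin (n + 1)) (R := ℂ)
  let 𝒜 := MvPolynomial.homogeneousSubmodule (Fin (n + 1)) ℂ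
  have hX : ∀ i : Fin (n + 1), (X i : Rn (n + 1)) ∈ 𝒜 1 := fun i => isHomogeneous_X ℂ i
  have hv : (dehom n).toRingHom (X 0) * 1 = 1 := by simp [dehom]
  have hu : IsUnit ((dehom n).toRingHom (X 0)) := isUnit_iff_exists_inv.mpr ⟨1, hv⟩
  let φ : HomogeneousLocalization.Away 𝒜 (X 0) →+* Rn n :=
    (Localization.awayLift (dehom n).toRingHom (X 0) hu).comp
      (algebraMap (HomogeneousLocalization.Away 𝒜 (X 0)) (Localization.Away (X 0 : Rn (n + 1))))
  have hφC : ∀ c : ℂ, φ (HomogeneousLocalization.fromZeroRingHom 𝒜 _ (algebraMap ℂ (𝒜 0) c)) =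
      algebraMap ℂ (Rn n) c := by
    intro c
    have h := Localization.awayLift_mk (dehom n).toRingHom (X 0) (C c) 1 hv 0
    have h2 : (dehom n).toRingHom (C c) * 1 ^ 0 = algebraMap ℂ (Rn n) c := by simp [dehom]
    rw [h2] at h
    exact h
  have hφX : ∀ i : Fin n, φ (HomogeneousLocalization.Away.mk 𝒜 (hX 0) 1 (X i.succ)
      (by simpa using hX i.succ)) = X i := by
    intro i
    have h := Localization.awayLift_mk (dehom n).toRingHom (X 0) (X i.succ) 1 hv 1
    have h2 : (dehom n).toRingHom (X i.succ) * 1 ^ 1 = X i := by simp [dehom]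
    rw [h2] at h
    exact h
  have hsurj : Function.Surjective φ := by
    intro r
    induction r using MvPolynomial.induction_on with
    | C c => exact ⟨_, hφC c⟩
    | add p q hp hq =>
      obtain ⟨a, rfl⟩ := hp
      obtain ⟨b, rfl⟩ := hq
      exact ⟨a + b, map_add _ _ _⟩
    | mul_X p i hp =>
      obtain ⟨a, rfl⟩ := hp
      exact ⟨a * _, by rw [map_mul, hφX i]⟩
  have hcl : IsClosedImmersion (Spec.map (CommRingCat.ofHom φ)) :=
    IsClosedImmersion.spec_of_surjective _ hsurj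
  refine ⟨n, Over.homMk (U.ι ≫ Spec.map (CommRingCat.ofHom φ) ≫
    Proj.awayι 𝒜 (X 0) (hX 0) one_pos) ?_, ?_⟩
  · change (U.ι ≫ Spec.map (CommRingCat.ofHom φ) ≫ Proj.awayι 𝒜 (X 0) (hX 0) one_pos) ≫
      (Proj.toSpecZero 𝒜 ≫ Spec.map (CommRingCat.ofHom (algebraMap ℂ (𝒜 0)))) = U.ι ≫ strMap n
    simp only [Category.assoc]
    rw [Proj.awayι_toSpecZero_assoc, ← Spec.map_comp, ← Spec.map_comp]
    congr 2
    exact CommRingCat.hom_ext (RingHom.ext hφC)
  · change IsImmersion (U.ι ≫ Spec.map (CommRingCat.ofHom φ) ≫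
      Proj.awayι 𝒜 (X 0) (hX 0) one_pos)
    infer_instance

/-- The morphism of affine spaces attached to an algebra map. -/
abbrev algMap {A : Type} [CommRing A] [Algebra ℂ A] {n : ℕ} (ψ : Rn n →ₐ[ℂ] A) :
    Spec (CommRingCat.of A) ⟶ SpecR n :=
  Spec.map (CommRingCat.ofHom ψ.toRingHom)

theorem algMap_strMap {A : Type} [CommRing A] [Algebra ℂ A] {n : ℕ} (ψ : Rn n →ₐ[ℂ] A) :
    algMap ψ ≫ strMap n = Spec.map (CommRingCat.ofHom (algebraMap ℂ A)) := by
  rw [← Spec.map_comp]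
  congr 1
  ext c
  exact ψ.commutes c

theorem algMap_mem_basicOpen {A : Type} [CommRing A] [Algebra ℂ A] {n : ℕ} (ψ : Rn n →ₐ[ℂ] A)
    (x : Spec (CommRingCat.of A)) (r : Rn n) :
    algMap ψ x ∈ PrimeSpectrum.basicOpen r ↔ ψ r ∉ x.asIdeal := Iff.rfl

theorem range_sub {n : ℕ} (U : (SpecR n).Opens) {T : Scheme.{0}} (g : T ⟶ SpecR n)
    (h : ∀ x, g x ∈ U) : Set.range g ⊆ Set.range U.ι := by
  rintro _ ⟨x, rfl⟩
  rw [Scheme.Opens.range_ι]
  exact h x

/-- A morphism between open subschemes of affine spaces. -/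
def liftHom {m n : ℕ} (V : (SpecR m).Opens) (U : (SpecR n).Opens) (ψ : Rn n →ₐ[ℂ] Rn m)
    (h : ∀ x ∈ V, algMap ψ x ∈ U) : opn V ⟶ opn U :=
  Over.homMk (IsOpenImmersion.lift U.ι (V.ι ≫ algMap ψ)
    (range_sub U _ fun x => h x.1 x.2)) (by
    change IsOpenImmersion.lift U.ι (V.ι ≫ algMap ψ) _ ≫ U.ι ≫ strMap n = V.ι ≫ strMap m
    rw [IsOpenImmersion.lift_fac_assoc, Category.assoc, algMap_strMap])

theorem liftHom_ι {m n : ℕ} (V : (SpecR m).Opens) (U : (SpecR n).Opens) (ψ : Rn n →ₐ[ℂ] Rn m)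
    (h : ∀ x ∈ V, algMap ψ x ∈ U) : (liftHom V U ψ h).left ≫ U.ι = V.ι ≫ algMap ψ :=
  IsOpenImmersion.lift_fac _ _ _

/-- A complex point of an open subscheme of affine space. -/
def pointOf {n : ℕ} (U : (SpecR n).Opens) (ψ : Rn n →ₐ[ℂ] ℂ) (h : ∀ x, algMap ψ x ∈ U) :
    CPoint (opn U) :=
  Over.homMk (IsOpenImmersion.lift U.ι (algMap ψ) (range_sub U _ h)) (by
    change IsOpenImmersion.lift U.ι (algMap ψ) (range_sub U _ h) ≫ U.ι ≫ strMap n = 𝟙 SpecC
    rw [IsOpenImmersion.lift_fac_assoc, algMap_strMap]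
    simp)

theorem pointOf_ι {n : ℕ} (U : (SpecR n).Opens) (ψ : Rn n →ₐ[ℂ] ℂ) (h : ∀ x, algMap ψ x ∈ U) :
    (pointOf U ψ h).left ≫ U.ι = algMap ψ :=
  IsOpenImmersion.lift_fac _ _ _

theorem algMap_comp {A : Type} [CommRing A] [Algebra ℂ A] {m n : ℕ} (ψ : Rn n →ₐ[ℂ] Rn m)
    (χ : Rn m →ₐ[ℂ] A) : algMap χ ≫ algMap ψ = algMap (χ.comp ψ) := by
  rw [← Spec.map_comp]
  rfl

theorem algMap_injective {A : Type} [CommRing A] [Algebra ℂ A] {n : ℕ} {ψ χ : Rn n →ₐ[ℂ] A}
    (h : algMap ψ = algMap χ) : ψ = χ := by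
  have h1 := Spec.map_injective h
  ext1 i
  exact congrArg (fun f : CommRingCat.of (Rn n) ⟶ CommRingCat.of A => f.hom (X i)) h1

theorem cpoint_ext {n : ℕ} {U : (SpecR n).Opens} {T : Over SpecC} {p q : T ⟶ opn U}
    (h : p.left ≫ U.ι = q.left ≫ U.ι) : p = q := by
  ext1
  exact (cancel_mono U.ι).mp h

/-- Every complex point comes from an algebra map. -/
theorem exists_algHom {n : ℕ} {U : (SpecR n).Opens} (p : CPoint (opn U)) :
    ∃ ψ : Rn n →ₐ[ℂ] ℂ, p.left ≫ U.ι = algMap ψ := by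
  let φ : CommRingCat.of (Rn n) ⟶ CommRingCat.of ℂ := Spec.preimage (p.left ≫ U.ι)
  have hφ : Spec.map φ = p.left ≫ U.ι := Spec.map_preimage _
  have hw : p.left ≫ U.ι ≫ strMap n = 𝟙 SpecC := Over.w p
  have h2 : Spec.map (CommRingCat.ofHom (algebraMap ℂ (Rn n)) ≫ φ) = Spec.map (𝟙 _) := by
    rw [Spec.map_comp, hφ, Category.assoc, Spec.map_id]
    exact hw
  have h3 := Spec.map_injective h2
  refine ⟨{ φ.hom with commutes' := fun c => ?_ }, hφ.symm⟩
  exact congrArg (fun f : CommRingCat.of ℂ ⟶ CommRingCat.of ℂ => f.hom c) h3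

theorem mem_top {X : Over SpecC} (p : CPoint X) : p.Mem ⊤ := by
  simp [CPoint.Mem]

/-- The regular function on `U` given by a polynomial. -/
def sec {n : ℕ} (U : (SpecR n).Opens) (r : Rn n) : Γ((opn U).left, ⊤) :=
  U.ι.appTop ((Scheme.ΓSpecIso (CommRingCat.of (Rn n))).inv r)

theorem eval_sec {n : ℕ} {U : (SpecR n).Opens} (p : CPoint (opn U)) {ψ : Rn n →ₐ[ℂ] ℂ}
    (h : p.left ≫ U.ι = algMap ψ) (r : Rn n) : p.eval ⊤ (sec U r) = ψ r := by
  rw [CPoint.eval, dif_pos (mem_top p)]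
  have h1 : p.left.appLE ⊤ ⊤ (mem_top p) = p.left.appTop := Scheme.Hom.appLE_eq_app _
  have h2 : U.ι.appTop ≫ p.left.appTop = (algMap ψ).appTop := by
    rw [← h]; exact (Scheme.Hom.comp_appTop _ _).symm
  have h3 := Scheme.ΓSpecIso_naturality (CommRingCat.ofHom ψ.toRingHom)
  have h4 : (Scheme.ΓSpecIso (CommRingCat.of (Rn n))).inv ≫ U.ι.appTop ≫ p.left.appTop ≫
      (Scheme.ΓSpecIso (CommRingCat.of ℂ)).hom = CommRingCat.ofHom ψ.toRingHom := by
    rw [reassoc_of% h2, h3, Iso.inv_hom_id_assoc]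
  rw [h1]
  exact congrArg (fun f : CommRingCat.of (Rn n) ⟶ CommRingCat.of ℂ => f.hom r) h4

end

end Pool.Agent.P.MP_dc0411_ag
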