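import Pool.Agent.P.MP_dc0411_ag.LcMH

/-!
Étale coordinates from an invertible Jacobian determinant.
-/

open MvPolynomial

namespace Pool.Agent.P.MP_dc0411_ag

noncomputable section

section
variable {V ρ B : Type} [CommRing B] [Algebra ℂ B] {n : ℕ}

/-- The relations of the presentation with the extra variables. -/
def lcchartRel (Q : ρ → MvPolynomial V ℂ) (ζ : Fin n → MvPolynomial V ℂ) :
    ρ ⊕ Fin n → MvPolynomial (V ⊕ Fin n) ℂ :=
  Sum.elim (fun r => rename Sum.inl (Q r)) fun i => rename Sum.inl (ζ i) - X (Sum.inr i)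

theorem lcchart_inl (Z : V → B) (W : Fin n → B) (p : MvPolynomial V ℂ) :
    aeval (Sum.elim Z W) (rename Sum.inl p) = aeval Z p := by
  rw [aeval_rename, Sum.elim_comp_inl]

theorem lcchart_ker (Q : ρ → MvPolynomial V ℂ) (ζ : Fin n → MvPolynomial V ℂ) (Z : V → B)
    (hk : RingHom.ker (aeval Z : MvPolynomial V ℂ →ₐ[ℂ] B) = Ideal.span (Set.range Q)) :
    Ideal.span (Set.range (lcchartRel Q ζ)) = RingHom.ker
      (aeval (Sum.elim Z fun i => aeval Z (ζ i)) : MvPolynomial (V ⊕ Fin n) ℂ →ₐ[ℂ] B) := by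
  apply le_antisymm
  · rw [Ideal.span_le]
    rintro _ ⟨r | i, rfl⟩
    · change aeval _ (rename Sum.inl (Q r)) = 0
      rw [lcchart_inl, ← RingHom.mem_ker, hk]
      exact Ideal.subset_span ⟨r, rfl⟩
    · change aeval _ (rename Sum.inl (ζ i) - X (Sum.inr i)) = 0
      rw [map_sub, lcchart_inl, aeval_X, Sum.elim_inr, sub_self]
  · intro p hp
    let φ : MvPolynomial (V ⊕ Fin n) ℂ →ₐ[ℂ] MvPolynomial V ℂ := aeval (Sum.elim X ζ)
    have h1 : (aeval Z).comp φ = aeval (Sum.elim Z fun i => aeval Z (ζ i)) := by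
      refine algHom_ext ?_
      rintro (v | i) <;> simp [φ]
    have h2 : φ p ∈ Ideal.span (Set.range Q) := by
      rw [← hk, RingHom.mem_ker, ← AlgHom.comp_apply, h1]
      exact hp
    have h3 : rename Sum.inl (φ p) ∈ Ideal.span (Set.range (lcchartRel Q ζ)) := by
      have h := Ideal.mem_map_of_mem (rename (R := ℂ) (Sum.inl : V → V ⊕ Fin n)) h2
      rw [Ideal.map_span] at h
      refine Ideal.span_mono ?_ h
      rintro _ ⟨_, ⟨r, rfl⟩, rfl⟩
      exact ⟨Sum.inl r, rfl⟩
    have h4 : ((Ideal.Quotient.mkₐ ℂ (Ideal.span (Set.range (lcchartRel Q ζ)))).comp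
        (rename Sum.inl)).comp φ = Ideal.Quotient.mkₐ ℂ _ := by
      refine algHom_ext ?_
      rintro (v | i)
      · simp [φ]
      · simp only [φ, AlgHom.comp_apply, aeval_X, Sum.elim_inr, Ideal.Quotient.mkₐ_eq_mk]
        exact Ideal.Quotient.eq.mpr (Ideal.subset_span ⟨Sum.inr i, rfl⟩)
    have h5 := DFunLike.congr_fun h4 p
    simp only [AlgHom.comp_apply, Ideal.Quotient.mkₐ_eq_mk] at h5
    rw [← Ideal.Quotient.eq_zero_iff_mem, ← h5, Ideal.Quotient.eq_zero_iff_mem]
    exact h3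

/-- The presentation with the extra variables. -/
def lcchartPres (e : ρ ⊕ Fin n ≃ V) (Q : ρ → MvPolynomial V ℂ) (ζ : Fin n → MvPolynomial V ℂ)
    (Z : V → B) (hs : Function.Surjective (aeval Z : MvPolynomial V ℂ →ₐ[ℂ] B))
    (hk : RingHom.ker (aeval Z : MvPolynomial V ℂ →ₐ[ℂ] B) = Ideal.span (Set.range Q)) :
    Algebra.PreSubmersivePresentation ℂ B (V ⊕ Fin n) (ρ ⊕ Fin n) where
  toGenerators := Algebra.Generators.ofSurjective (Sum.elim Z fun i => aeval Z (ζ i)) fun b => by
    obtain ⟨p, rfl⟩ := hs b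
    exact ⟨rename Sum.inl p, lcchart_inl _ _ p⟩
  relation := lcchartRel Q ζ
  span_range_relation_eq_ker := by
    rw [Algebra.Generators.ker_eq_ker_aeval_val]
    exact lcchart_ker Q ζ Z hk
  map j := Sum.inl (e j)
  map_inj := Sum.inl_injective.comp e.injective

theorem lcchart_jac [Fintype V] [DecidableEq V] [Fintype ρ] [DecidableEq ρ]
    (e : ρ ⊕ Fin n ≃ V) (Q : ρ → MvPolynomial V ℂ) (ζ : Fin n → MvPolynomial V ℂ)
    (Z : V → B) (hs : Function.Surjective (aeval Z : MvPolynomial V ℂ →ₐ[ℂ] B))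
    (hk : RingHom.ker (aeval Z : MvPolynomial V ℂ →ₐ[ℂ] B) = Ideal.span (Set.range Q)) :
    (lcchartPres e Q ζ Z hs hk).jacobian = aeval Z (jacDet e Q ζ) := by
  have h : (lcchartPres e Q ζ Z hs hk).jacobiMatrix = ((rename Sum.inl).mapMatrix
      (Matrix.of fun i j => pderiv (e j) (Sum.elim Q ζ i))).transpose := by
    ext i j : 1
    rw [Algebra.PreSubmersivePresentation.jacobiMatrix_apply]
    change pderiv (Sum.inl (e i)) (lcchartRel Q ζ j) =
      rename Sum.inl (pderiv (e i) (Sum.elim Q ζ j))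
    rcases j with r | j
    · exact pderiv_rename Sum.inl_injective _ _
    · change pderiv _ (rename Sum.inl (ζ j) - X (Sum.inr j)) = _
      rw [map_sub, pderiv_rename Sum.inl_injective, pderiv_X_of_ne (by simp), sub_zero]
      rfl
  rw [Algebra.PreSubmersivePresentation.jacobian_eq_jacobiMatrix_det, h, Matrix.det_transpose,
    ← AlgHom.map_det, Algebra.Generators.algebraMap_apply]
  exact lcchart_inl _ _ _

end

theorem chart_smooth {V ρ B A : Type} [Fintype V] [DecidableEq V] [Fintype ρ] [DecidableEq ρ]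
    [CommRing B] [Algebra ℂ B] [CommRing A] [Algebra ℂ A] [Algebra B A] [IsScalarTower ℂ B A]
    {n : ℕ} (e : ρ ⊕ Fin n ≃ V) (Q : ρ → MvPolynomial V ℂ) (ζ : Fin n → MvPolynomial V ℂ)
    (Z : V → B) (hs : Function.Surjective (aeval Z : MvPolynomial V ℂ →ₐ[ℂ] B))
    (hk : RingHom.ker (aeval Z : MvPolynomial V ℂ →ₐ[ℂ] B) = Ideal.span (Set.range Q))
    (δ : B) [IsLocalization.Away δ A] (hu : IsUnit (algebraMap B A (aeval Z (jacDet e Q ζ)))) :
    Algebra.IsStandardSmoothOfRelativeDimension n ℂ A ∧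
      (LinearIndependent A fun i => KaehlerDifferential.D ℂ A (algebraMap B A (aeval Z (ζ i)))) ∧
      Submodule.span A (Set.range fun i =>
        KaehlerDifferential.D ℂ A (algebraMap B A (aeval Z (ζ i)))) = ⊤ := by
  let P : Algebra.SubmersivePresentation ℂ A (Unit ⊕ (V ⊕ Fin n)) (Unit ⊕ (ρ ⊕ Fin n)) :=
    { toPreSubmersivePresentation :=
        (Algebra.PreSubmersivePresentation.localizationAway A δ).comp (lcchartPres e Q ζ Z hs hk)
      jacobian_isUnit := by
        rw [Algebra.PreSubmersivePresentation.comp_jacobian_eq_jacobian_smul_jacobian,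
          Algebra.PreSubmersivePresentation.localizationAway_jacobian, lcchart_jac,
          Algebra.smul_def]
        exact hu.mul (IsLocalization.Away.algebraMap_isUnit δ) }
  have hf : Function.Injective
      (fun i : Fin n => (Sum.inr (Sum.inr i) : Unit ⊕ (V ⊕ Fin n))) :=
    Sum.inr_injective.comp Sum.inr_injective
  have hc : IsCompl (Set.range fun i : Fin n => (Sum.inr (Sum.inr i) : Unit ⊕ (V ⊕ Fin n)))
      (Set.range P.map) := by
    constructor
    · rw [Set.disjoint_left]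
      rintro _ ⟨i, rfl⟩ ⟨u | j, h⟩
      · exact Sum.inl_ne_inr h
      · exact Sum.inl_ne_inr (Sum.inr_injective h)
    · rw [codisjoint_iff]
      refine Set.eq_univ_iff_forall.mpr ?_
      rintro (u | v | i)
      · exact Or.inr ⟨Sum.inl (), rfl⟩
      · exact Or.inr ⟨Sum.inr (e.symm v), congrArg (fun w => Sum.inr (Sum.inl w))
          (e.apply_symm_apply v)⟩
      · exact Or.inl ⟨i, rfl⟩
  have hb : (fun i => KaehlerDifferential.D ℂ A (algebraMap B A (aeval Z (ζ i)))) =
      P.basisKaehlerOfIsCompl hf hc := by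
    funext i
    rw [Algebra.SubmersivePresentation.basisKaehlerOfIsCompl_apply]
    rfl
  refine ⟨P.isStandardSmoothOfRelativeDimension ?_, ?_, ?_⟩
  · have h := Fintype.card_congr e
    simp only [Algebra.Presentation.dimension, Nat.card_eq_fintype_card, Fintype.card_sum,
      Fintype.card_fin] at h ⊢
    omega
  · rw [hb]
    exact Module.Basis.linearIndependent _
  · rw [hb]
    exact Module.Basis.span_eq _

end

end Pool.Agent.P.MP_dc0411_ag
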