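import Pool.Agent.P.MP_dc0411_ag.LcMH

/-!
The change of coordinates between two charts and its determinant.
-/

set_option linter.unusedSectionVars false

open MvPolynomial

namespace Pool.Agent.P.MP_dc0411_ag

noncomputable section

variable {V G R : Type} [Fintype V] [DecidableEq V] [Fintype G] [DecidableEq G] [Fintype R]
  [DecidableEq R]

/-- The matrix `B` of the rank correction. -/
def lccocycleB {A : Type} [CommRing A] {g : V → G} (I J : Chart g) (c : G → A) : Matrix G V A :=
  Matrix.of fun γ w => -c γ * (if w = I.1 γ then 1 else 0) + (if w = J.1 γ then 1 else 0)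

/-- The matrix of the change of coordinates. -/
def lccocycleT {A : Type} [CommRing A] {g : V → G} (I J : Chart g) (x : V → A) (c : G → A) :
    Matrix V V A :=
  Matrix.of fun v w => c (g v) * ((if v = w then 1 else 0) + x v * lccocycleB I J c (g v) w)

theorem lccocycle_det {A : Type} [CommRing A] {g : V → G} (I J : Chart g) (x : V → A) (c : G → A)
    (hJ : ∀ γ, x (J.1 γ) = 1) (hc : ∀ γ, c γ * x (I.1 γ) = 1) :
    (lccocycleT I J x c).det = ∏ v, c (g v) := by
  have h1 : lccocycleT I J x c = Matrix.diagonal (fun v => c (g v)) *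
      (1 + (Matrix.of fun v γ => if g v = γ then x v else 0 : Matrix V G A) *
        lccocycleB I J c) := by
    ext v w
    rw [Matrix.diagonal_mul, Matrix.add_apply, Matrix.mul_apply, Matrix.one_apply]
    simp [lccocycleT]
  have h2 : lccocycleB I J c *
      (Matrix.of fun v γ => if g v = γ then x v else 0 : Matrix V G A) = 0 := by
    ext γ γ'
    rw [Matrix.mul_apply]
    simp only [lccocycleB, Matrix.of_apply, add_mul, Finset.sum_add_distrib, mul_assoc,
      ← Finset.mul_sum, ite_mul, one_mul, zero_mul, Finset.sum_ite_eq', Finset.mem_univ, if_true,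
      I.2 γ, J.2 γ, Matrix.zero_apply]
    by_cases h : γ = γ'
    · rw [if_pos h, if_pos h, hJ]
      linear_combination -hc γ
    · rw [if_neg h, if_neg h]
      ring
  rw [h1, Matrix.det_mul, Matrix.det_diagonal, Matrix.det_one_add_mul_comm, h2, add_zero,
    Matrix.det_one, mul_one]

theorem lccocycle_D {A M : Type} [CommRing A] [Algebra ℂ A] [AddCommGroup M] [Module A M]
    [Module ℂ M] (D : Derivation ℂ A M) {g : V → G} (I J : Chart g) (x : V → A) (c : G → A)
    (hJ : ∀ γ, x (J.1 γ) = 1) (hc : ∀ γ, c γ * x (I.1 γ) = 1) (v : V) :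
    D (c (g v) * x v) = ∑ w, lccocycleT I J x c v w • D (x w) := by
  have h1 : ∀ γ, D (x (J.1 γ)) = 0 := fun γ => by rw [hJ, D.map_one_eq_zero]
  have h2 : ∀ γ, D (c γ) = -(c γ * c γ) • D (x (I.1 γ)) := by
    intro γ
    have h := D.leibniz (c γ) (x (I.1 γ))
    rw [hc, D.map_one_eq_zero] at h
    have h' : c γ • (c γ • D (x (I.1 γ)) + x (I.1 γ) • D (c γ)) = 0 := by rw [← h, smul_zero]
    rw [smul_add, smul_smul, smul_smul, hc, one_smul] at h'
    rw [neg_smul]
    exact eq_neg_of_add_eq_zero_right h'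
  have h3 : ∀ w, lccocycleT I J x c v w • D (x w) =
      (if v = w then c (g v) • D (x w) else 0) +
        (if w = I.1 (g v) then (x v * -(c (g v) * c (g v))) • D (x w) else 0) +
        (if w = J.1 (g v) then (c (g v) * x v) • D (x w) else 0) := by
    intro w
    have : lccocycleT I J x c v w = (if v = w then c (g v) else 0) +
        (if w = I.1 (g v) then x v * -(c (g v) * c (g v)) else 0) +
        (if w = J.1 (g v) then c (g v) * x v else 0) := by
      simp only [lccocycleT, lccocycleB, Matrix.of_apply]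
      split_ifs <;> ring
    rw [this, add_smul, add_smul, ite_smul, ite_smul, ite_smul, zero_smul]
  simp only [h3, Finset.sum_add_distrib, Finset.sum_ite_eq, Finset.sum_ite_eq', Finset.mem_univ,
    if_true, h1, smul_zero, add_zero]
  rw [D.leibniz, h2, smul_smul]

theorem lccocycle_rowF {A : Type} [CommRing A] [Algebra ℂ A] {g : V → G} {p : MvPolynomial V ℂ}
    {d : G → ℕ} (hp : MH g p d) (I J : Chart g) (x : V → A) (c : G → A) (h0 : aeval x p = 0)
    (w : V) :
    ∑ v, aeval (fun v => c (g v) * x v) (pderiv v p) * lccocycleT I J x c v w =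
      (∏ γ, c γ ^ d γ) * aeval x (pderiv w p) := by
  have hy : aeval (fun v => c (g v) * x v) p = 0 := by rw [hp.scale, h0, mul_zero]
  have h1 : ∀ v, aeval (fun v => c (g v) * x v) (pderiv v p) * lccocycleT I J x c v w =
      (if v = w then c (g v) * aeval (fun v => c (g v) * x v) (pderiv v p) else 0) +
        ∑ γ, lccocycleB I J c γ w * ((if g v = γ then c (g v) * x v else 0) *
          aeval (fun v => c (g v) * x v) (pderiv v p)) := by
    intro v
    simp only [ite_mul, zero_mul, mul_ite, mul_zero, Finset.sum_ite_eq, Finset.mem_univ, if_true,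
      lccocycleT, Matrix.of_apply]
    split_ifs <;> ring
  simp only [h1]
  rw [Finset.sum_add_distrib, Finset.sum_ite_eq', if_pos (Finset.mem_univ _), hp.scale_pderiv,
    Finset.sum_comm, Finset.sum_eq_zero, add_zero]
  intro γ _
  rw [← Finset.mul_sum, hp.euler (fun v => c (g v) * x v) γ, hy, mul_zero, mul_zero]

theorem lccocycle_rowG {A : Type} [CommRing A] [Algebra ℂ A] {g : V → G} (I J : Chart g)
    (x y : V → A) (c : G → A) (hc : ∀ γ, c γ * x (I.1 γ) = 1) (γ : G) (w : V) :
    ∑ v, aeval y (pderiv v (X (I.1 γ) - 1 : MvPolynomial V ℂ)) * lccocycleT I J x c v w =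
      aeval x (pderiv w (X (J.1 γ) - 1 : MvPolynomial V ℂ)) := by
  have h1 : ∀ (z : V → A) (u v : V), aeval z (pderiv v (X u - 1 : MvPolynomial V ℂ)) =
      if v = u then 1 else 0 := by
    intro z u v
    rw [map_sub, pderiv_one, sub_zero, pderiv_X, Pi.single_apply]
    by_cases h : v = u
    · rw [if_pos h, if_pos h.symm, map_one]
    · rw [if_neg h, if_neg fun h' => h h'.symm, map_zero]
  simp only [h1, ite_mul, one_mul, zero_mul, Finset.sum_ite_eq', Finset.mem_univ, if_true,
    lccocycleT, lccocycleB, Matrix.of_apply, I.2 γ]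
  have h2 := hc γ
  by_cases h : w = I.1 γ
  · rw [if_pos h, if_pos h.symm]
    linear_combination (-c γ + (if w = J.1 γ then 1 else 0)) * h2
  · rw [if_neg h, if_neg fun h' => h h'.symm]
    linear_combination (if w = J.1 γ then 1 else 0) * h2

theorem cocycle {A M : Type} [CommRing A] [Algebra ℂ A] [AddCommGroup M] [Module A M]
    [Module ℂ M] (D : Derivation ℂ A M) {g : V → G} (F : R → MvPolynomial V ℂ)
    (dF : R → G → ℕ) (hF : ∀ r, MH g (F r) (dF r)) {n : ℕ} (e : (R ⊕ G) ⊕ Fin n ≃ V)
    (I J : Chart g) (ζ ξ : Fin n → MvPolynomial V ℂ) (x : V → A) (c : G → A)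
    (hJ : ∀ γ, x (J.1 γ) = 1) (hc : ∀ γ, c γ * x (I.1 γ) = 1) (h0 : ∀ r, aeval x (F r) = 0)
    (hu : IsUnit (aeval x (jacDet e (rel F J) ξ))) :
    ∃ T : Matrix (Fin n) (Fin n) A,
      (∀ i, D (aeval (fun v => c (g v) * x v) (ζ i)) = ∑ j, T i j • D (aeval x (ξ j))) ∧
      aeval (fun v => c (g v) * x v) (jacDet e (rel F I) ζ) * ∏ v, c (g v) =
        T.det * (∏ r, ∏ γ, c γ ^ dF r γ) * aeval x (jacDet e (rel F J) ξ) := by
  have hdet : ∀ (z : V → A) (Q : R ⊕ G → MvPolynomial V ℂ) (η : Fin n → MvPolynomial V ℂ),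
      aeval z (jacDet e Q η) =
        (Matrix.of fun i j => aeval z (pderiv (e j) (Sum.elim Q η i))).det := by
    intro z Q η
    rw [jacDet, AlgHom.map_det]
    rfl
  rw [hdet] at hu
  rw [hdet, hdet]
  generalize hJx : (Matrix.of fun i j => aeval x (pderiv (e j) (Sum.elim (rel F J) ξ i))) = Jx
    at hu ⊢
  generalize hJy : (Matrix.of fun i j => aeval (fun v => c (g v) * x v)
    (pderiv (e j) (Sum.elim (rel F I) ζ i))) = Jy
  have hP : ∀ i j, (Jy * (lccocycleT I J x c).submatrix e e) i j =
      ∑ v, aeval (fun v => c (g v) * x v) (pderiv v (Sum.elim (rel F I) ζ i)) *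
        lccocycleT I J x c v (e j) := by
    intro i j
    rw [Matrix.mul_apply, ← hJy, ← e.sum_comp]
    rfl
  have hrow : ∀ a j, (Jy * (lccocycleT I J x c).submatrix e e) (Sum.inl a) j =
      Sum.elim (fun r => ∏ γ, c γ ^ dF r γ) (fun _ => 1) a * Jx (Sum.inl a) j := by
    intro a j
    rw [hP, ← hJx]
    rcases a with r | γ
    · exact lccocycle_rowF (hF r) I J x c (h0 r) (e j)
    · rw [Sum.elim_inr, one_mul]
      exact lccocycle_rowG I J x _ c hc γ (e j)
  have hNJ : Jy * (lccocycleT I J x c).submatrix e e * Jx⁻¹ * Jx =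
      Jy * (lccocycleT I J x c).submatrix e e := by
    rw [Matrix.mul_assoc, Matrix.nonsing_inv_mul _ hu, Matrix.mul_one]
  have hN1 : ∀ a j, (Jy * (lccocycleT I J x c).submatrix e e * Jx⁻¹) (Sum.inl a) j =
      Sum.elim (fun r => ∏ γ, c γ ^ dF r γ) (fun _ => 1) a *
        (1 : Matrix ((R ⊕ G) ⊕ Fin n) ((R ⊕ G) ⊕ Fin n) A) (Sum.inl a) j := by
    intro a j
    rw [← Matrix.mul_nonsing_inv _ hu, Matrix.mul_apply, Matrix.mul_apply, Finset.mul_sum]
    exact Finset.sum_congr rfl fun k _ => by rw [hrow, mul_assoc]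
  generalize Jy * (lccocycleT I J x c).submatrix e e * Jx⁻¹ = N at hNJ hN1
  refine ⟨N.toBlocks₂₂, fun i => ?_, ?_⟩
  · have h1 : ∀ k, ∑ j, Jx k j • D (x (e j)) = D (aeval x (Sum.elim (rel F J) ξ k)) := by
      intro k
      rw [derivation_aeval, ← e.sum_comp, ← hJx]
      rfl
    have h2 : ∀ a, D (aeval x (Sum.elim (rel F J) ξ (Sum.inl a))) = 0 := by
      intro a
      rcases a with r | γ
      · have : aeval x (Sum.elim (rel F J) ξ (Sum.inl (Sum.inl r))) = 0 := h0 r
        rw [this, map_zero]
      · have : aeval x (Sum.elim (rel F J) ξ (Sum.inl (Sum.inr γ))) = 0 := by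
          change aeval x (X (J.1 γ) - 1 : MvPolynomial V ℂ) = 0
          rw [map_sub, aeval_X, map_one, hJ, sub_self]
        rw [this, map_zero]
    calc D (aeval (fun v => c (g v) * x v) (ζ i))
        = ∑ v, ∑ j, (aeval (fun v => c (g v) * x v) (pderiv v (ζ i)) *
            lccocycleT I J x c v (e j)) • D (x (e j)) := by
          rw [derivation_aeval]
          refine Finset.sum_congr rfl fun v _ => ?_
          rw [lccocycle_D D I J x c hJ hc v, ← e.sum_comp, Finset.smul_sum]
          exact Finset.sum_congr rfl fun j _ => smul_smul _ _ _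
      _ = ∑ j, (N * Jx) (Sum.inr i) j • D (x (e j)) := by
          rw [Finset.sum_comm]
          refine Finset.sum_congr rfl fun j _ => ?_
          rw [hNJ, hP, Finset.sum_smul]
          rfl
      _ = ∑ k, N (Sum.inr i) k • D (aeval x (Sum.elim (rel F J) ξ k)) := by
          simp only [Matrix.mul_apply, Finset.sum_smul, ← h1, Finset.smul_sum, smul_smul]
          exact Finset.sum_comm
      _ = ∑ j, N.toBlocks₂₂ i j • D (aeval x (ξ j)) := by
          rw [Fintype.sum_sum_type]
          simp only [h2, smul_zero, Finset.sum_const_zero, zero_add]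
          rfl
  · have hN : N = Matrix.fromBlocks
        (Matrix.diagonal (Sum.elim (fun r => ∏ γ, c γ ^ dF r γ) fun _ => 1)) 0
        N.toBlocks₂₁ N.toBlocks₂₂ := by
      ext i j
      rcases i with a | i <;> rcases j with b | j
      · rw [hN1, Matrix.fromBlocks_apply₁₁, Matrix.one_apply, Matrix.diagonal_apply]
        by_cases h : a = b
        · rw [if_pos h, if_pos (congrArg _ h), mul_one]
        · rw [if_neg h, if_neg fun h' => h (Sum.inl_injective h'), mul_zero]
      · rw [hN1, Matrix.fromBlocks_apply₁₂, Matrix.one_apply, if_neg Sum.inl_ne_inr, mul_zero]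
        rfl
      · rfl
      · rfl
    have hd : N.det = (∏ r, ∏ γ, c γ ^ dF r γ) * N.toBlocks₂₂.det := by
      conv_lhs => rw [hN]
      rw [Matrix.det_fromBlocks_zero₁₂, Matrix.det_diagonal, Fintype.prod_sum_type]
      simp
    have h := congrArg Matrix.det hNJ
    rw [Matrix.det_mul, Matrix.det_mul, Matrix.det_submatrix_equiv_self,
      lccocycle_det I J x c hJ hc, hd] at h
    rw [← h]
    ring

end

end Pool.Agent.P.MP_dc0411_ag
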