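import Pool.Agent.P.MP_dc0411_ag.LcMH

/-!
Completing the boundary equations that vanish at a point to a system of coordinates.
-/

open MvPolynomial

namespace Pool.Agent.P.MP_dc0411_ag

noncomputable section

variable {V G R S : Type} [Fintype V] [DecidableEq V] [Fintype G] [DecidableEq G] [Fintype R]
  [DecidableEq R] [Fintype S] [DecidableEq S]

/-- At the point `x` the gradients of the equations `F` and of the functions `h s` that vanish
at `x` are linearly independent. -/
def RankAt {K : Type} [Field K] [Algebra ℂ K] (F : R → MvPolynomial V ℂ)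
    (h : S → MvPolynomial V ℂ) (x : V → K) : Prop :=
  ∀ (l : R → K) (μ : S → K), (∀ s, aeval x (h s) ≠ 0 → μ s = 0) →
    (∀ v, ∑ r, l r * aeval x (pderiv v (F r)) + ∑ s, μ s * aeval x (pderiv v (h s)) = 0) →
    (∀ r, l r = 0) ∧ ∀ s, μ s = 0

omit [Fintype G] [DecidableEq G] [Fintype R] [DecidableEq R] [Fintype S] [DecidableEq S] in
/-- An independent family of rows can be extended by unit vectors. -/
theorem lcext_extend {K ι : Type} [Field K] [Fintype ι] (w : ι → V → K)
    (hw : LinearIndependent K w) (m : ℕ) (hm : Fintype.card ι + m ≤ Fintype.card V) :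
    ∃ u : Fin m → V,
      LinearIndependent K (Sum.elim w fun j => (Pi.single (u j) 1 : V → K)) := by
  induction m with
  | zero =>
    refine ⟨Fin.elim0, ?_⟩
    have h1 : (Sum.elim w fun j : Fin 0 => (Pi.single (Fin.elim0 j) 1 : V → K)) =
        w ∘ Sum.elim id Fin.elim0 := by
      funext i
      rcases i with i | j
      · rfl
      · exact j.elim0
    rw [h1]
    refine hw.comp _ ?_
    rintro (i | j) (i' | j') h
    · exact congrArg Sum.inl h
    · exact j'.elim0
    · exact j.elim0
    · exact j.elim0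
  | succ m ih =>
    obtain ⟨u, hu⟩ := ih (by omega)
    obtain ⟨w', hw'⟩ : ∃ w', w' = Sum.elim w fun j => (Pi.single (u j) 1 : V → K) := ⟨_, rfl⟩
    rw [← hw'] at hu
    have hv : ∃ v : V, (Pi.single v 1 : V → K) ∉ Submodule.span K (Set.range w') := by
      by_contra hcon
      have hall : ∀ v : V, (Pi.single v 1 : V → K) ∈ Submodule.span K (Set.range w') :=
        fun v => by_contra fun hv => hcon ⟨v, hv⟩
      have htop : Submodule.span K (Set.range w') = ⊤ := by
        refine eq_top_iff.2 fun y _ => ?_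
        rw [pi_eq_sum_univ' y]
        exact Submodule.sum_mem _ fun v _ => Submodule.smul_mem _ _ (hall v)
      have h1 := finrank_span_eq_card hu
      rw [htop, finrank_top, Module.finrank_fintype_fun_eq_card, Fintype.card_sum,
        Fintype.card_fin] at h1
      omega
    obtain ⟨v, hv⟩ := hv
    have h2 : LinearIndependent K
        (fun o : Option (ι ⊕ Fin m) => (o.elim (Pi.single v 1) w' : V → K)) :=
      linearIndependent_option.2 ⟨hu, hv⟩
    refine ⟨Fin.cons v u, ?_⟩
    let σ : ι ⊕ Fin (m + 1) → Option (ι ⊕ Fin m) :=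
      Sum.elim (fun i => some (Sum.inl i)) (Fin.cons none fun j => some (Sum.inr j))
    have h3 : (Sum.elim w fun j : Fin (m + 1) =>
        (Pi.single ((Fin.cons v u : Fin (m + 1) → V) j) 1 : V → K)) =
        (fun o : Option (ι ⊕ Fin m) => (o.elim (Pi.single v 1) w' : V → K)) ∘ σ := by
      funext i
      rcases i with i | j
      · simp [σ, hw']
      · refine Fin.cases ?_ (fun j => ?_) j <;> simp [σ, hw']
    rw [h3]
    refine h2.comp σ ?_
    rintro (i | j) (i' | j')
    · simp [σ]
    · refine Fin.cases ?_ (fun j' => ?_) j' <;> simp [σ]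
    · refine Fin.cases ?_ (fun j => ?_) j <;> simp [σ]
    · refine Fin.cases ?_ (fun j => ?_) j <;> refine Fin.cases ?_ (fun j' => ?_) j' <;> simp [σ]

omit [DecidableEq R] [DecidableEq S] in
/-- The rows of the equations, of the chart and of the vanishing functions are independent. -/
theorem lcext_indep {K : Type} [Field K] [Algebra ℂ K] {g : V → G} (F : R → MvPolynomial V ℂ)
    (dF : R → G → ℕ) (hF : ∀ r, MH g (F r) (dF r))
    (I : Chart g) (h : S → MvPolynomial V ℂ) (hh : ∀ s, ∃ d, MH g (h s) d) (x : V → K)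
    (hI : ∀ γ, x (I.1 γ) = 1) (h0 : ∀ r, aeval x (F r) = 0) (hr : RankAt F h x)
    (p : S → Prop) [DecidablePred p] (hp : ∀ s, p s → aeval x (h s) = 0) :
    LinearIndependent K (fun (i : (R ⊕ G) ⊕ {s // p s}) (v : V) =>
      aeval x (pderiv v (Sum.elim (rel F I) (fun s => h s.1) i))) := by
  refine Fintype.linearIndependent_iff.2 fun c hc => ?_
  have hc1 : ∀ v, ∑ r, c (Sum.inl (Sum.inl r)) * aeval x (pderiv v (F r)) +
      ∑ γ, c (Sum.inl (Sum.inr γ)) * (if I.1 γ = v then 1 else 0) +
      ∑ s : {s // p s}, c (Sum.inr s) * aeval x (pderiv v (h s.1)) = 0 := by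
    intro v
    have := congrFun hc v
    simp only [Finset.sum_apply, Pi.smul_apply, smul_eq_mul, Fintype.sum_sum_type, Sum.elim_inl,
      Sum.elim_inr, rel, Pi.zero_apply, map_sub, pderiv_X, Derivation.map_one_eq_zero, sub_zero,
      Pi.single_apply] at this
    simpa only [apply_ite (aeval x), map_one, map_zero] using this
  have hG : ∀ γ, c (Sum.inl (Sum.inr γ)) = 0 := by
    intro γ
    have h1 : ∑ v, (if g v = γ then x v else 0) *
        (∑ r, c (Sum.inl (Sum.inl r)) * aeval x (pderiv v (F r)) +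
        ∑ γ', c (Sum.inl (Sum.inr γ')) * (if I.1 γ' = v then 1 else 0) +
        ∑ s : {s // p s}, c (Sum.inr s) * aeval x (pderiv v (h s.1))) = 0 :=
      Finset.sum_eq_zero fun v _ => by rw [hc1 v, mul_zero]
    have h2 : ∑ v, (if g v = γ then x v else 0) *
        ∑ r, c (Sum.inl (Sum.inl r)) * aeval x (pderiv v (F r)) = 0 := by
      simp only [Finset.mul_sum]
      rw [Finset.sum_comm]
      refine Finset.sum_eq_zero fun r _ => ?_
      simp only [mul_left_comm _ (c _)]
      rw [← Finset.mul_sum, (hF r).euler x γ, h0 r, mul_zero, mul_zero]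
    have h3 : ∑ v, (if g v = γ then x v else 0) *
        ∑ s : {s // p s}, c (Sum.inr s) * aeval x (pderiv v (h s.1)) = 0 := by
      simp only [Finset.mul_sum]
      rw [Finset.sum_comm]
      refine Finset.sum_eq_zero fun s _ => ?_
      obtain ⟨d, hd⟩ := hh s.1
      simp only [mul_left_comm _ (c _)]
      rw [← Finset.mul_sum, hd.euler x γ, hp s.1 s.2, mul_zero, mul_zero]
    have h4 : ∑ v, (if g v = γ then x v else 0) *
        ∑ γ', c (Sum.inl (Sum.inr γ')) * (if I.1 γ' = v then 1 else 0) =
        c (Sum.inl (Sum.inr γ)) := by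
      simp only [Finset.mul_sum]
      rw [Finset.sum_comm, Finset.sum_eq_single γ]
      · rw [Finset.sum_eq_single (I.1 γ)]
        · simp [I.2 γ, hI γ]
        · intro v _ hv
          rw [if_neg hv.symm, mul_zero, mul_zero]
        · simp
      · intro γ' _ hγ
        refine Finset.sum_eq_zero fun v _ => ?_
        by_cases hv : I.1 γ' = v
        · rw [if_neg (by rw [← hv, I.2 γ']; exact hγ), zero_mul]
        · rw [if_neg hv, mul_zero, mul_zero]
      · simp
    simp only [mul_add, Finset.sum_add_distrib] at h1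
    rw [h2, h3, h4, zero_add, add_zero] at h1
    exact h1
  obtain ⟨hl, hμ⟩ := hr (fun r => c (Sum.inl (Sum.inl r)))
    (fun s => if hs : p s then c (Sum.inr ⟨s, hs⟩) else 0)
    (fun s hs => dif_neg fun hps => hs (hp s hps)) (by
      intro v
      have h1 := hc1 v
      simp only [hG, zero_mul, Finset.sum_const_zero, add_zero] at h1
      refine Eq.trans ?_ h1
      congr 1
      rw [← Fintype.sum_subtype_add_sum_subtype p]
      have h2 : ∑ s : {s // ¬ p s}, (if hs : p s.1 then c (Sum.inr ⟨s.1, hs⟩) else 0) *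
          aeval x (pderiv v (h s.1)) = 0 :=
        Finset.sum_eq_zero fun s _ => by rw [dif_neg s.2, zero_mul]
      rw [h2, add_zero]
      exact Finset.sum_congr rfl fun s _ => by rw [dif_pos s.2])
  rintro ((r | γ) | s)
  · exact hl r
  · exact hG γ
  · have := hμ s.1
    rwa [dif_pos s.2] at this

theorem exists_coords {K : Type} [Field K] [Algebra ℂ K] {g : V → G} (F : R → MvPolynomial V ℂ)
    (dF : R → G → ℕ) (hF : ∀ r, MH g (F r) (dF r)) {n : ℕ} (e : (R ⊕ G) ⊕ Fin n ≃ V)
    (I : Chart g) (h : S → MvPolynomial V ℂ) (hh : ∀ s, ∃ d, MH g (h s) d) (x : V → K)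
    (hI : ∀ γ, x (I.1 γ) = 1) (h0 : ∀ r, aeval x (F r) = 0) (hr : RankAt F h x) :
    ∃ (ζ : Fin n → MvPolynomial V ℂ) (k : Finset (Fin n)) (δ : MvPolynomial V ℂ),
      aeval x (jacDet e (rel F I) ζ) ≠ 0 ∧ aeval x δ ≠ 0 ∧ (∏ i ∈ k, ζ i) * δ = ∏ s, h s := by
  classical
  let p : S → Prop := fun s => aeval x (h s) = 0
  have hw := lcext_indep F dF hF I h hh x hI h0 hr p fun _ hs => hs
  have hV : Fintype.card V = Fintype.card (R ⊕ G) + n := by
    rw [← Fintype.card_congr e, Fintype.card_sum (α := R ⊕ G), Fintype.card_fin]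
  have hle : Fintype.card {s // p s} ≤ n := by
    have := hw.fintype_card_le_finrank
    rw [Module.finrank_fintype_fun_eq_card, hV, Fintype.card_sum (α := R ⊕ G)] at this
    omega
  obtain ⟨u, hu⟩ := lcext_extend _ hw (n - Fintype.card {s // p s}) (by
    rw [hV, Fintype.card_sum (α := R ⊕ G)]
    omega)
  let τ : Fin n ≃ {s // p s} ⊕ Fin (n - Fintype.card {s // p s}) :=
    Fintype.equivOfCardEq (by
      rw [Fintype.card_sum, Fintype.card_fin, Fintype.card_fin]
      omega)
  let ζ : Fin n → MvPolynomial V ℂ := fun i => Sum.elim (fun s => h s.1) (fun j => X (u j)) (τ i)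
  refine ⟨ζ, Finset.univ.map ⟨fun s => τ.symm (Sum.inl s),
    τ.symm.injective.comp Sum.inl_injective⟩, ∏ s : {s // ¬ p s}, h s.1, ?_, ?_, ?_⟩
  · let σ := (Equiv.sumCongr (Equiv.refl (R ⊕ G)) τ).trans (Equiv.sumAssoc _ _ _).symm
    have h1 := (hu.comp σ σ.injective).map' (LinearEquiv.funCongrLeft K K e).toLinearMap
      (LinearEquiv.ker _)
    have h2 : LinearIndependent K (Matrix.of fun i j =>
        aeval x (pderiv (e j) (Sum.elim (rel F I) ζ i))).row := by
      refine (congrArg (fun t : (R ⊕ G) ⊕ Fin n → (R ⊕ G) ⊕ Fin n → K =>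
        LinearIndependent K t) ?_).mp h1
      funext i j
      rcases i with i | i
      · rfl
      · simp only [σ, ζ, Function.comp, Equiv.trans_apply, Equiv.sumCongr_apply, Sum.map_inr,
          Matrix.row, Matrix.of_apply, Sum.elim_inr]
        rcases τ i with s | k
        · rfl
        · simp [Pi.single_apply, apply_ite (aeval x), eq_comm]
    have h3 := (Matrix.isUnit_iff_isUnit_det _).1 (Matrix.linearIndependent_rows_iff_isUnit.1 h2)
    rw [jacDet, AlgHom.map_det]
    exact h3.ne_zero
  · rw [map_prod]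
    exact Finset.prod_ne_zero_iff.2 fun s _ => s.2
  · rw [Finset.prod_map, ← Fintype.prod_subtype_mul_prod_subtype p]
    congr 1
    refine Finset.prod_congr rfl fun s _ => ?_
    simp [ζ]

end

end Pool.Agent.P.MP_dc0411_ag
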