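import Pool.Agent.P.MP_dc0411_ag.LcData
import Pool.Agent.P.MP_dc0411_ag.LcChart
import Pool.Agent.P.MP_dc0411_ag.LcCocycle
import Pool.Agent.P.MP_dc0411_ag.LcExt

/-!
A complete intersection in a product of projective spaces with a normal crossings boundary:
smoothness and adjunction.
-/

set_option linter.unusedSectionVars false

open CategoryTheory AlgebraicGeometry MvPolynomial

namespace Pool.Agent.P.MP_dc0411_ag

noncomputable section

attribute [local instance] secAlgebra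

variable {V G R S : Type} [Fintype V] [DecidableEq V] [Fintype G] [DecidableEq G] [Fintype R]
  [DecidableEq R] [Fintype S] [DecidableEq S]

/-- The transition rule of the boundary equations which says `K + D = O(m)`. -/
def Adj (g : V → G) (F : R → MvPolynomial V ℂ) (dF : R → G → ℕ)
    (P : Chart g → MvPolynomial V ℂ) (m : G → ℕ) : Prop :=
  ∀ (A : Type) [CommRing A] [Algebra ℂ A] (I J : Chart g) (x : V → A) (c : G → A),
    (∀ γ, x (J.1 γ) = 1) → (∀ γ, c γ * x (I.1 γ) = 1) → (∀ r, aeval x (F r) = 0) →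
    (∏ γ, c γ ^ m γ) * (∏ v, c (g v)) * aeval x (P J) =
      (∏ r, ∏ γ, c γ ^ dF r γ) * aeval (fun v => c (g v) * x v) (P I)

variable {g : V → G} {F : R → MvPolynomial V ℂ} {Y : Over SpecC}

theorem lcasm_res_mul {U W : Y.left.Opens} (h : W ≤ U) (s t : Γ(Y.left, U)) :
    res h (s * t) = res h s * res h t := map_mul (resAlg h) s t

theorem lcasm_res_one {U W : Y.left.Opens} (h : W ≤ U) : res h (1 : Γ(Y.left, U)) = 1 :=
  map_one (resAlg h)

theorem lcasm_res_zero {U W : Y.left.Opens} (h : W ≤ U) : res h (0 : Γ(Y.left, U)) = 0 :=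
  map_zero (resAlg h)

theorem lcasm_res_prod {U W : Y.left.Opens} (h : W ≤ U) {ι : Type} (T : Finset ι)
    (s : ι → Γ(Y.left, U)) : res h (∏ i ∈ T, s i) = ∏ i ∈ T, res h (s i) :=
  map_prod (resAlg h) s T

theorem lcasm_res_pow {U W : Y.left.Opens} (h : W ≤ U) (s : Γ(Y.left, U)) (k : ℕ) :
    res h (s ^ k) = res h s ^ k := map_pow (resAlg h) s k

theorem lcasm_bo_unit {U : Y.left.Opens} {u : Γ(Y.left, U)} (hu : IsUnit u) (s : Γ(Y.left, U)) :
    Y.left.basicOpen (u * s) = Y.left.basicOpen s := by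
  rw [Scheme.basicOpen_mul, Scheme.basicOpen_of_isUnit _ hu]
  exact inf_eq_right.2 (Y.left.basicOpen_le s)

theorem lcasm_bo_prod_pow {U : Y.left.Opens} {ι : Type} (T : Finset ι) (s : ι → Γ(Y.left, U))
    (m : ι → ℕ) (hm : ∀ i, 0 < m i) :
    Y.left.basicOpen (∏ i ∈ T, s i ^ m i) = Y.left.basicOpen (∏ i ∈ T, s i) := by
  classical
  induction T using Finset.induction_on with
  | empty => simp
  | insert a T ha ih =>
    rw [Finset.prod_insert ha, Finset.prod_insert ha, Scheme.basicOpen_mul, Scheme.basicOpen_mul,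
      ih, Scheme.basicOpen_pow _ _ (hm a)]

theorem lcasm_trans (D : MPData g F Y) {I J : Chart g} {W : Y.left.Opens} (hI : W ≤ D.U I)
    (hJ : W ≤ D.U J) (v : V) :
    res hI (D.Z I v) = res hI (D.Z I (J.1 (g v))) * res hJ (D.Z J v) := by
  have h := congrArg (res (le_inf hI hJ : W ≤ D.U I ⊓ D.U J)) (D.trans I J v)
  rwa [lcasm_res_mul, res_res, res_res, res_res] at h

theorem lcasm_one (D : MPData g F Y) {J : Chart g} {W : Y.left.Opens} (hJ : W ≤ D.U J) (γ : G) :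
    res hJ (D.Z J (J.1 γ)) = 1 := by
  rw [D.Z_self, lcasm_res_one]

theorem lcasm_inv (D : MPData g F Y) {I J : Chart g} {W : Y.left.Opens} (hI : W ≤ D.U I)
    (hJ : W ≤ D.U J) (γ : G) : res hI (D.Z I (J.1 γ)) * res hJ (D.Z J (I.1 γ)) = 1 := by
  have h := lcasm_trans D hI hJ (I.1 γ)
  rw [I.2 γ, lcasm_one] at h
  exact h.symm

theorem lcasm_zero (D : MPData g F Y) {J : Chart g} {W : Y.left.Opens} (hJ : W ≤ D.U J) (r : R) :
    aeval (fun v => res hJ (D.Z J v)) (F r) = 0 := by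
  rw [← res_aeval, D.aeval_F, lcasm_res_zero]

theorem lcasm_aeval (D : MPData g F Y) {I J : Chart g} {W : Y.left.Opens} (hI : W ≤ D.U I)
    (hJ : W ≤ D.U J) (p : MvPolynomial V ℂ) :
    aeval (fun v => res hI (D.Z I (J.1 (g v))) * res hJ (D.Z J v)) p =
      res hI (aeval (D.Z I) p) := by
  rw [res_aeval]
  congr 2
  funext v
  exact (lcasm_trans D hI hJ v).symm

theorem lcasm_unit (D : MPData g F Y) {I J : Chart g} {W : Y.left.Opens} (hI : W ≤ D.U I)
    (hJ : W ≤ D.U J) (γ : G) : IsUnit (res hI (D.Z I (J.1 γ))) :=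
  IsUnit.of_mul_eq_one _ (lcasm_inv D hI hJ γ)

/-- The transition rule on an open subset of two charts. -/
theorem lcasm_adj (D : MPData g F Y) {dF : R → G → ℕ} {P : Chart g → MvPolynomial V ℂ}
    {m : G → ℕ} (hP : Adj g F dF P m) {I J : Chart g} {W : Y.left.Opens} (hI : W ≤ D.U I)
    (hJ : W ≤ D.U J) :
    (∏ γ, res hI (D.Z I (J.1 γ)) ^ m γ) * (∏ v, res hI (D.Z I (J.1 (g v)))) *
        res hJ (aeval (D.Z J) (P J)) =
      (∏ r, ∏ γ, res hI (D.Z I (J.1 γ)) ^ dF r γ) * res hI (aeval (D.Z I) (P I)) := by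
  have h := hP Γ(Y.left, W) I J (fun v => res hJ (D.Z J v)) (fun γ => res hI (D.Z I (J.1 γ)))
    (lcasm_one D hJ) (lcasm_inv D hI hJ) (lcasm_zero D hJ)
  rwa [lcasm_aeval D hI hJ, ← res_aeval] at h

theorem MPData.basicOpen_P (D : MPData g F Y) {dF : R → G → ℕ} {P : Chart g → MvPolynomial V ℂ}
    {m : G → ℕ} (hP : Adj g F dF P m) (I : Chart g) :
    Y.left.basicOpen (aeval (D.Z I) (P I)) = D.U I ⊓ D.intr P := by
  refine le_antisymm (le_inf (Y.left.basicOpen_le _)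
    (le_iSup (fun I => Y.left.basicOpen (aeval (D.Z I) (P I))) I)) ?_
  unfold MPData.intr
  rw [inf_iSup_eq]
  refine iSup_le fun J => ?_
  have hI : D.U I ⊓ D.U J ≤ D.U I := inf_le_left
  have hJ : D.U I ⊓ D.U J ≤ D.U J := inf_le_right
  have hu := lcasm_unit D hI hJ
  have h := congrArg Y.left.basicOpen (lcasm_adj D hP hI hJ)
  rw [lcasm_bo_unit ((IsUnit.prod_univ_iff.2 fun γ => (hu γ).pow _).mul
      (IsUnit.prod_univ_iff.2 fun v => hu (g v))),
    lcasm_bo_unit (IsUnit.prod_univ_iff.2 fun r => IsUnit.prod_univ_iff.2 fun γ => (hu γ).pow _),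
    basicOpen_res', basicOpen_res'] at h
  refine le_trans ?_ (h.le.trans inf_le_right)
  exact le_inf (inf_le_inf_left _ (Y.left.basicOpen_le _)) inf_le_right

theorem lcasm_ring {A : Type} [CommRing A] {Cm Cv Cf N ia ib ja jb δa δb ea eb t : A}
    (hCf : IsUnit Cf) (h1 : ja * Cv = t * Cf * jb) (h2 : Cm * Cv * (eb * δb) = Cf * (ea * δa))
    (ha : ja * δa * ia = 1) (hb : jb * δb * ib = 1) :
    Cm * N * ia * (t * eb) ^ 1 = N * ib * ea ^ 1 := by
  apply hCf.mul_left_cancel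
  linear_combination (-(Cf * Cm * N * ia * t * eb)) * hb - (Cm * N * ia * eb * δb * ib) * h1 +
    (N * ia * ib * ja) * h2 + (N * ib * Cf * ea) * ha

theorem lcasm_isUnit_res {U : Y.left.Opens} (s : Γ(Y.left, U)) :
    IsUnit (res (Y.left.basicOpen_le s) s) := RingedSpace.isUnit_res_basicOpen _ s

theorem lcasm_exists_chart (D : MPData g F Y) (y : Y.left) : ∃ I, y ∈ D.U I := by
  have h : y ∈ (⊤ : Y.left.Opens) := trivial
  rw [← D.cover] at h
  exact TopologicalSpace.Opens.mem_iSup.1 h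

/-- Coordinates near a point. -/
theorem lcasm_point (D : MPData g F Y) (dF : R → G → ℕ) (hF : ∀ r, MH g (F r) (dF r))
    {n : ℕ} (e : (R ⊕ G) ⊕ Fin n ≃ V) (h : Chart g → S → MvPolynomial V ℂ)
    (hh : ∀ I s, ∃ d, MH g (h I s) d)
    (hr : ∀ (K : Type) [Field K] [Algebra ℂ K] (I : Chart g) (x : V → K),
      (∀ γ, x (I.1 γ) = 1) → (∀ r, aeval x (F r) = 0) → RankAt F (h I) x) (y : Y.left) :
    ∃ (I : Chart g) (ζ : Fin n → MvPolynomial V ℂ) (k : Finset (Fin n)) (δ : MvPolynomial V ℂ),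
      y ∈ Y.left.basicOpen (aeval (D.Z I) (jacDet e (rel F I) ζ * δ)) ∧
        (∏ i ∈ k, ζ i) * δ = ∏ s, h I s := by
  obtain ⟨I, hy⟩ := lcasm_exists_chart D y
  let _ : Algebra ℂ (Y.left.residueField y) :=
    ((Y.left.evaluation (D.U I) y hy).hom.comp (algebraMap ℂ Γ(Y.left, D.U I))).toAlgebra
  let φ : Γ(Y.left, D.U I) →ₐ[ℂ] Y.left.residueField y :=
    { toRingHom := (Y.left.evaluation (D.U I) y hy).hom, commutes' := fun _ => rfl }
  have hφ : ∀ p : MvPolynomial V ℂ, aeval (fun v => φ (D.Z I v)) p = φ (aeval (D.Z I) p) := by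
    intro p
    rw [← AlgHom.comp_apply, comp_aeval]
  have h1 : ∀ γ, φ (D.Z I (I.1 γ)) = 1 := fun γ => by rw [D.Z_self, map_one]
  have h0 : ∀ r, aeval (fun v => φ (D.Z I v)) (F r) = 0 := fun r => by
    rw [hφ, D.aeval_F, map_zero]
  obtain ⟨ζ, k, δ, hj, hδ, hk⟩ := exists_coords F dF hF e I (h I) (hh I)
    (fun v => φ (D.Z I v)) h1 h0 (hr _ I _ h1 h0)
  refine ⟨I, ζ, k, δ, ?_, hk⟩
  have h2 : φ (aeval (D.Z I) (jacDet e (rel F I) ζ * δ)) ≠ 0 := by
    rw [← hφ, map_mul]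
    exact mul_ne_zero hj hδ
  exact (Y.left.evaluation_ne_zero_iff_mem_basicOpen y hy _).1 h2

/-- The chart on which the Jacobian determinant is invertible. -/
theorem lcasm_chart (D : MPData g F Y) {n : ℕ} (e : (R ⊕ G) ⊕ Fin n ≃ V) (I : Chart g)
    (ζ : Fin n → MvPolynomial V ℂ) (δ : MvPolynomial V ℂ) (ε : Γ(Y.left, D.U I))
    (hε : ε = aeval (D.Z I) (jacDet e (rel F I) ζ * δ)) :
    Algebra.IsStandardSmoothOfRelativeDimension n ℂ Γ(Y.left, Y.left.basicOpen ε) ∧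
      (LinearIndependent Γ(Y.left, Y.left.basicOpen ε) fun i =>
        dif (res (Y.left.basicOpen_le ε) (aeval (D.Z I) (ζ i)))) ∧
      Submodule.span Γ(Y.left, Y.left.basicOpen ε) (Set.range fun i =>
        dif (res (Y.left.basicOpen_le ε) (aeval (D.Z I) (ζ i)))) = ⊤ := by
  have := (D.aff I).isLocalization_basicOpen ε
  have : IsScalarTower ℂ Γ(Y.left, D.U I) Γ(Y.left, Y.left.basicOpen ε) :=
    IsScalarTower.of_algebraMap_eq fun c => ((resAlg (Y.left.basicOpen_le ε)).commutes c).symm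
  have hu : IsUnit (res (Y.left.basicOpen_le ε) (aeval (D.Z I) (jacDet e (rel F I) ζ)) *
      res (Y.left.basicOpen_le ε) (aeval (D.Z I) δ)) := by
    rw [← lcasm_res_mul, ← map_mul, ← hε]
    exact lcasm_isUnit_res ε
  exact chart_smooth e (rel F I) ζ (D.Z I) (D.surj I) (D.ker I) ε (isUnit_of_mul_isUnit_left hu)

theorem MPData.polarized (D : MPData g F Y) (dF : R → G → ℕ) (hF : ∀ r, MH g (F r) (dF r))
    {n : ℕ} (e : (R ⊕ G) ⊕ Fin n ≃ V) (h : Chart g → S → MvPolynomial V ℂ)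
    (hh : ∀ I s, ∃ d, MH g (h I s) d) (m : G → ℕ) (hm : ∀ γ, 0 < m γ)
    (hP : Adj g F dF (fun I => ∏ s, h I s) m)
    (hr : ∀ (K : Type) [Field K] [Algebra ℂ K] (I : Chart g) (x : V → K),
      (∀ γ, x (I.1 γ) = 1) → (∀ r, aeval x (F r) = 0) → RankAt F (h I) x) :
    SmoothOfRelativeDimension n Y.hom ∧
      LogCanonicallyPolarized Y.hom (D.intr fun I => ∏ s, h I s) n := by
  choose I ζ k δ hy hk using lcasm_point D dF hF e h hh hr
  obtain ⟨ε, hε⟩ : ∃ ε : ∀ a, Γ(Y.left, D.U (I a)),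
      ∀ a, ε a = aeval (D.Z (I a)) (jacDet e (rel F (I a)) (ζ a) * δ a) := ⟨_, fun _ => rfl⟩
  have hy' : ∀ a, a ∈ Y.left.basicOpen (ε a) := fun a => by
    rw [hε a]
    exact hy a
  have hc := fun a => lcasm_chart D e (I a) (ζ a) (δ a) (ε a) (hε a)
  have haff : ∀ a, IsAffineOpen (Y.left.basicOpen (ε a)) := fun a => (D.aff (I a)).basicOpen _
  have hle : ∀ a, Y.left.basicOpen (ε a) ≤ D.U (I a) := fun a => Y.left.basicOpen_le _
  refine ⟨⟨fun y => ⟨⊤, isAffineOpen_top _, Y.left.basicOpen (ε y), haff y, hy' y, le_top, ?_⟩⟩, ?_⟩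
  · exact (RingHom.isStandardSmoothOfRelativeDimension_respectsIso.cancel_left_isIso
      (Scheme.ΓSpecIso (CommRingCat.of ℂ)).inv _).1 (hc y).1
  have hinv : ∀ a, ∃ b : Γ(Y.left, Y.left.basicOpen (ε a)),
      res (hle a) (aeval (D.Z (I a)) (jacDet e (rel F (I a)) (ζ a))) *
        res (hle a) (aeval (D.Z (I a)) (δ a)) * b = 1 := by
    intro a
    rw [← lcasm_res_mul, ← map_mul, ← hε]
    exact (lcasm_isUnit_res (ε a)).exists_right_inv
  choose iv hiv using hinv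
  have heq : ∀ a, (∏ i ∈ k a, res (hle a) (aeval (D.Z (I a)) (ζ a i))) *
      res (hle a) (aeval (D.Z (I a)) (δ a)) = res (hle a) (aeval (D.Z (I a)) (∏ s, h (I a) s)) := by
    intro a
    rw [← lcasm_res_prod, ← lcasm_res_mul, ← map_prod, ← map_mul, hk a]
  let A : Y.left → LogChart Y.hom (D.intr fun I => ∏ s, h I s) n := fun a =>
    { U := Y.left.basicOpen (ε a)
      affine := haff a
      z := fun i => res (hle a) (aeval (D.Z (I a)) (ζ a i))
      k := k a
      coord := (hc a).2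
      boundary := by
        have hu : IsUnit (res (hle a) (aeval (D.Z (I a)) (δ a))) :=
          isUnit_of_mul_isUnit_right (IsUnit.of_mul_eq_one _ (hiv a))
        rw [← lcasm_bo_unit hu, mul_comm, heq a, basicOpen_res', D.basicOpen_P hP, ← inf_assoc,
          inf_eq_left.2 (hle a)] }
  have hcov : ⨆ a, Y.left.basicOpen (ε a) = ⊤ :=
    top_unique fun y _ => TopologicalSpace.Opens.mem_iSup.2 ⟨y, hy' y⟩
  refine ⟨Y.left, A, hcov, fun y => ?_⟩
  obtain ⟨J, hJ⟩ := lcasm_exists_chart D y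
  have hloc : ⨆ a, Y.left.basicOpen (res (hle a) (∏ γ, D.Z (I a) (J.1 γ) ^ m γ) * iv a) =
      D.U J := by
    have h1 : ∀ a, Y.left.basicOpen (res (hle a) (∏ γ, D.Z (I a) (J.1 γ) ^ m γ) * iv a) =
        Y.left.basicOpen (ε a) ⊓ D.U J := by
      intro a
      rw [mul_comm, lcasm_bo_unit (IsUnit.of_mul_eq_one_right _ (hiv a)), basicOpen_res',
        lcasm_bo_prod_pow _ _ m hm, D.inter, ← inf_assoc, inf_eq_left.2 (hle a)]
    simp only [h1]
    rw [← iSup_inf_eq, hcov, top_inf_eq]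
  refine ⟨1, fun a => res (hle a) (∏ γ, D.Z (I a) (J.1 γ) ^ m γ) * iv a, one_pos, fun a b => ?_,
    ?_, ?_⟩
  rotate_left
  · exact hloc ▸ D.aff J
  · exact hloc ▸ hJ
  have ha : Y.left.basicOpen (ε a) ⊓ Y.left.basicOpen (ε b) ≤ Y.left.basicOpen (ε a) := inf_le_left
  have hb : Y.left.basicOpen (ε a) ⊓ Y.left.basicOpen (ε b) ≤ Y.left.basicOpen (ε b) := inf_le_right
  have hI := ha.trans (hle a)
  have hI' := hb.trans (hle b)
  have hia := congrArg (res ha) (hiv a)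
  have hib := congrArg (res hb) (hiv b)
  rw [lcasm_res_mul, lcasm_res_mul, lcasm_res_one, res_res, res_res] at hia hib
  obtain ⟨T, hT, hdet⟩ := cocycle
    (KaehlerDifferential.D ℂ Γ(Y.left, Y.left.basicOpen (ε a) ⊓ Y.left.basicOpen (ε b))) F dF hF e
    (I a) (I b) (ζ a) (ζ b) (fun v => res hI' (D.Z (I b) v))
    (fun γ => res hI (D.Z (I a) ((I b).1 γ))) (lcasm_one D hI') (lcasm_inv D hI hI')
    (lcasm_zero D hI') (by
      rw [← res_aeval]
      exact isUnit_of_mul_isUnit_left (IsUnit.of_mul_eq_one _ hib))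
  refine ⟨T, fun i => ?_, ?_⟩
  · have h1 := hT i
    rw [lcasm_aeval D hI hI'] at h1
    simp only [← res_aeval] at h1
    change dif (res ha (res (hle a) _)) = ∑ j, T i j • dif (res hb (res (hle b) _))
    simp only [res_res]
    exact h1
  · have hu := lcasm_unit D hI hI'
    have h1 := lcasm_adj D hP hI hI'
    have h2 := congrArg (res ha) (heq a)
    have h3 := congrArg (res hb) (heq b)
    rw [lcasm_res_mul, res_res, res_res] at h2 h3
    rw [← h2, ← h3] at h1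
    rw [lcasm_aeval D hI hI', ← res_aeval] at hdet
    have h4 : res hI (∏ γ, D.Z (I a) (J.1 γ) ^ m γ) =
        (∏ γ, res hI (D.Z (I a) ((I b).1 γ)) ^ m γ) * res hI' (∏ γ, D.Z (I b) (J.1 γ) ^ m γ) := by
      rw [lcasm_res_prod, lcasm_res_prod, ← Finset.prod_mul_distrib]
      refine Finset.prod_congr rfl fun γ _ => ?_
      rw [lcasm_res_pow, lcasm_res_pow, ← mul_pow, lcasm_trans D hI hI', J.2 γ]
    have h5 := lcasm_ring (N := res hI' (∏ γ, D.Z (I b) (J.1 γ) ^ m γ))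
      (IsUnit.prod_univ_iff.2 fun r => IsUnit.prod_univ_iff.2 fun γ => (hu γ).pow _)
      hdet h1 hia hib
    change res ha (res (hle a) _ * iv a) * (T.det * res hb (∏ i ∈ k b, _)) ^ 1 =
      res hb (res (hle b) _ * iv b) * res ha (∏ i ∈ k a, _) ^ 1
    rw [lcasm_res_mul, lcasm_res_mul, res_res, res_res, h4]
    exact h5

end

end Pool.Agent.P.MP_dc0411_ag
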