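import Pool.Agent.P.MP_dc0411_ag.Picard

/-!
The analytic part of the hyperbolicity proof.
-/

namespace Pool.Agent.P.MP_dc0411_ag

theorem lcentire_cube {g : ℂ → ℂ} (hg : Differentiable ℂ g) (h : ∀ z, g z ^ 3 = g 0 ^ 3)
    (z z' : ℂ) : g z = g z' := by
  by_cases h0 : g 0 = 0
  · have e : ∀ z, g z = 0 := fun z => by
      have := h z
      rw [h0] at this
      exact pow_eq_zero_iff (by norm_num : (3 : ℕ) ≠ 0) |>.mp (by rw [this]; norm_num)
    rw [e z, e z']
  · refine little_picard' hg (a := 0) (b := 2 * g 0) (mul_ne_zero two_ne_zero h0).symm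
      (fun z hz => h0 ?_) (fun z hz => h0 ?_) z z'
    · have := h z
      rw [hz] at this
      exact pow_eq_zero_iff (by norm_num : (3 : ℕ) ≠ 0) |>.mp (by rw [← this]; norm_num)
    · have := h z
      rw [hz] at this
      exact pow_eq_zero_iff (by norm_num : (3 : ℕ) ≠ 0) |>.mp (by linear_combination this / 7)

theorem lcentire_omega : ∃ ω : ℂ, ω ^ 2 + ω + 1 = 0 := by
  obtain ⟨s, hs⟩ := IsAlgClosed.exists_pow_nat_eq (-3 : ℂ) (by norm_num : 0 < 2)
  exact ⟨(s - 1) / 2, by linear_combination hs / 4⟩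

theorem lcentire_fermat {x y : ℂ → ℂ} (hx : Differentiable ℂ x) (hy : Differentiable ℂ y)
    {u : ℂ} (hu : u ≠ 0) (h : ∀ z, x z ^ 3 + y z ^ 3 = u) (z z' : ℂ) :
    x z = x z' ∧ y z = y z' := by
  obtain ⟨ω, hω⟩ := lcentire_omega
  have hω0 : ω ≠ 0 := fun e => by rw [e] at hω; norm_num at hω
  have hω1 : 1 - ω ≠ 0 := fun e => by
    have : ω = 1 := by linear_combination -e
    rw [this] at hω; norm_num at hω
  have hf : ∀ z, (x z + y z) * (x z + ω * y z) * (x z + ω ^ 2 * y z) = u := fun z => by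
    linear_combination h z + (x z ^ 2 * y z + ω * x z * y z ^ 2 + (ω - 1) * y z ^ 3) * hω
  have hp : ∀ z, x z + y z ≠ 0 := fun z e => hu (by rw [← hf z, e]; ring)
  have hq : ∀ z, x z + ω * y z ≠ 0 := fun z e => hu (by rw [← hf z, e]; ring)
  have ht : ∀ z, x z + ω ^ 2 * y z ≠ 0 := fun z e => hu (by rw [← hf z, e]; ring)
  have hqd : Differentiable ℂ fun z => x z + ω * y z := by fun_prop
  have hc := little_picard' (f := fun z => (x z + y z) / (x z + ω * y z))
    ((hx.add hy).div hqd hq) (a := 0) (b := -ω) (neg_ne_zero.mpr hω0).symm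
    (fun z => div_ne_zero (hp z) (hq z))
    (fun z e => ht z (by
      rw [div_eq_iff (hq z)] at e
      linear_combination (-ω) * e + (x z + ω * y z) * hω))
  obtain ⟨c, hc'⟩ : ∃ c, ∀ z, x z + y z = c * (x z + ω * y z) :=
    ⟨(x 0 + y 0) / (x 0 + ω * y 0), fun z => by
      have := hc z 0
      rw [← this, div_mul_cancel₀ _ (hq z)]⟩
  have hk : ∀ z, c * (-ω * c - ω ^ 2) * (x z + ω * y z) ^ 3 = u := fun z => by
    have e : x z + ω ^ 2 * y z = (-ω * c - ω ^ 2) * (x z + ω * y z) := by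
      linear_combination (-ω) * hc' z + (x z + ω * y z) * hω
    rw [← hf z, e, hc' z]
    ring
  have hk0 : c * (-ω * c - ω ^ 2) ≠ 0 := fun e => hu (by rw [← hk 0, e, zero_mul])
  have hqc := lcentire_cube hqd
    (fun z => mul_left_cancel₀ hk0 ((hk z).trans (hk 0).symm)) z z'
  have hyc : y z = y z' := by
    apply mul_left_cancel₀ hω1
    linear_combination hc' z - hc' z' + (c - 1) * hqc
  exact ⟨by linear_combination hqc - ω * hyc, hyc⟩

theorem lcentire_two {ρ : ℂ → ℂ} (hρ : Differentiable ℂ ρ) {m n : ℂ} (hm : m ≠ 0) (hn : n ≠ 0)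
    (hmn : m ≠ n) (h1 : ∀ z, 1 + ρ z * m ≠ 0) (h2 : ∀ z, 1 + ρ z * n ≠ 0) (z z' : ℂ) :
    ρ z = ρ z' := by
  refine little_picard' hρ (a := -m⁻¹) (b := -n⁻¹) (fun e => hmn (inv_injective (neg_injective e)))
    (fun z e => h1 z ?_) (fun z e => h2 z ?_) z z'
  · rw [e, neg_mul, inv_mul_cancel₀ hm]; ring
  · rw [e, neg_mul, inv_mul_cancel₀ hn]; ring

theorem lcentire_line {r w : ℂ → ℂ} (hr : Differentiable ℂ r) (hw : Differentiable ℂ w)
    {U V : ℂ} (h0 : U ≠ 0 ∨ V ≠ 0) (h5 : ∀ z, V * r z = U * w z)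
    (h6 : ∀ z, 1 + r z + 2 * w z ≠ 0) (h7 : ∀ z, 1 + 2 * r z - w z ≠ 0)
    (h8 : ∀ z, 1 - 3 * r z + w z ≠ 0) (z z' : ℂ) : r z = r z' ∧ w z = w z' := by
  obtain ⟨a, b, hab⟩ : ∃ a b : ℂ, a * U + b * V = 1 := by
    rcases h0 with h | h
    · exact ⟨U⁻¹, 0, by rw [inv_mul_cancel₀ h]; ring⟩
    · exact ⟨0, V⁻¹, by rw [inv_mul_cancel₀ h]; ring⟩
  have hρ : Differentiable ℂ fun z => a * r z + b * w z := by fun_prop
  have e1 : ∀ z, (a * r z + b * w z) * U = r z := fun z => by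
    linear_combination r z * hab - b * h5 z
  have e2 : ∀ z, (a * r z + b * w z) * V = w z := fun z => by
    linear_combination w z * hab + a * h5 z
  have k6 : ∀ z, 1 + (a * r z + b * w z) * (U + 2 * V) ≠ 0 := fun z e =>
    h6 z (by linear_combination e - e1 z - 2 * e2 z)
  have k7 : ∀ z, 1 + (a * r z + b * w z) * (2 * U - V) ≠ 0 := fun z e =>
    h7 z (by linear_combination e - 2 * e1 z + e2 z)
  have k8 : ∀ z, 1 + (a * r z + b * w z) * (-3 * U + V) ≠ 0 := fun z e =>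
    h8 z (by linear_combination e + 3 * e1 z - e2 z)
  have hz : ¬ (U = 0 ∧ V = 0) := fun h => h0.elim (fun e => e h.1) fun e => e h.2
  have key : a * r z + b * w z = a * r z' + b * w z' := by
    by_cases c1 : U + 2 * V = 0
    · refine lcentire_two hρ (fun e => hz ⟨?_, ?_⟩) (fun e => hz ⟨?_, ?_⟩)
        (fun e => hz ⟨?_, ?_⟩) k7 k8 z z'
      · linear_combination (c1 + 2 * e) / 5
      · linear_combination (2 * c1 - e) / 5
      · linear_combination (c1 - 2 * e) / 7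
      · linear_combination (3 * c1 + e) / 7
      · linear_combination (c1 + e) / 6
      · linear_combination (5 * c1 - e) / 12
    by_cases c2 : 2 * U - V = 0
    · refine lcentire_two hρ c1 (fun e => hz ⟨?_, ?_⟩) (fun e => hz ⟨?_, ?_⟩) k6 k8 z z'
      · linear_combination -c2 - e
      · linear_combination -3 * c2 - 2 * e
      · linear_combination (c2 + e) / 6
      · linear_combination (e - 2 * c2) / 3
    by_cases c3 : U + 2 * V = 2 * U - V
    · refine lcentire_two hρ c1 (fun e => hz ⟨?_, ?_⟩) (fun e => hz ⟨?_, ?_⟩) k6 k8 z z'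
      · linear_combination (c3 - 3 * e) / 8
      · linear_combination (3 * c3 - e) / 8
      · linear_combination (3 * e - c3) / 13
      · linear_combination (4 * c3 + e) / 13
    · exact lcentire_two hρ c1 c2 c3 k6 k7 z z'
  exact ⟨by rw [← e1 z, ← e1 z', key], by rw [← e2 z, ← e2 z', key]⟩

theorem entire_const_three {x y b r w : ℂ → ℂ} (hx : Differentiable ℂ x)
    (hy : Differentiable ℂ y) (hb : Differentiable ℂ b) (hr : Differentiable ℂ r)
    (hw : Differentiable ℂ w) (h1 : ∀ z, x z ^ 3 + y z ^ 3 = 1 + b z ^ 3) (h2 : ∀ z, b z ≠ 0)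
    (h3 : ∀ z, b z ≠ 1) (h4 : ∀ z, 1 + b z ^ 3 ≠ 0 ∨ x z ^ 3 - 1 ≠ 0)
    (h5 : ∀ z, (x z ^ 3 - 1) ^ 3 * r z = (1 + b z ^ 3) ^ 3 * w z)
    (h6 : ∀ z, 1 + r z + 2 * w z ≠ 0) (h7 : ∀ z, 1 + 2 * r z - w z ≠ 0)
    (h8 : ∀ z, 1 - 3 * r z + w z ≠ 0) (z z' : ℂ) :
    x z = x z' ∧ y z = y z' ∧ b z = b z' ∧ r z = r z' ∧ w z = w z' := by
  have hbc := little_picard' hb (by norm_num : (0 : ℂ) ≠ 1) h2 h3
  have hxy : ∀ z z', x z = x z' ∧ y z = y z' := by
    by_cases hu : 1 + b 0 ^ 3 = 0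
    · obtain ⟨ω, hω⟩ := lcentire_omega
      have hv : ∀ z, x z ^ 3 - 1 ≠ 0 := fun z =>
        (h4 z).resolve_left (by rw [hbc z 0]; exact not_not.mpr hu)
      have hω1 : (1 : ℂ) ≠ ω := fun e => by rw [← e] at hω; norm_num at hω
      have hxc := little_picard' hx hω1 (fun z e => hv z (by rw [e]; ring))
        (fun z e => hv z (by rw [e]; linear_combination (ω - 1) * hω))
      refine fun z z' => ⟨hxc z z', lcentire_cube hy (fun z => ?_) z z'⟩
      have a1 := h1 z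
      have a2 := h1 0
      rw [hbc z 0, hxc z 0] at a1
      linear_combination a1 - a2
    · exact lcentire_fermat hx hy hu fun z => by rw [h1 z, hbc z 0]
  have hrw := lcentire_line hr hw (U := (1 + b 0 ^ 3) ^ 3) (V := (x 0 ^ 3 - 1) ^ 3)
    ((h4 0).imp (pow_ne_zero 3) (pow_ne_zero 3))
    (fun z => by have := h5 z; rwa [hbc z 0, (hxy z 0).1] at this) h6 h7 h8 z z'
  exact ⟨(hxy z z').1, (hxy z z').2, hbc z z', hrw.1, hrw.2⟩

end Pool.Agent.P.MP_dc0411_ag
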