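import Pool.Agent.P.MP_dc0411_ag.LcData
import Pool.Agent.P.MP_dc0411_ag.Geom

/-!
Complex points of a scheme over `ℂ`, and passage to an open subscheme.
-/

open CategoryTheory AlgebraicGeometry

namespace Pool.Agent.P.MP_dc0411_ag

noncomputable section

attribute [local instance] secAlgebra

variable {Y : Over SpecC}

/-- The underlying point of a complex point. -/
def CPoint.pt (p : CPoint Y) : Y.left := p.left (IsLocalRing.closedPoint ℂ)

theorem lcpt_eval (p : CPoint Y) {U : Y.left.Opens} (hp : p.Mem U) (s : Γ(Y.left, U)) :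
    p.eval U s = (Scheme.ΓSpecIso (CommRingCat.of ℂ)).hom (p.left.appLE U ⊤ hp s) :=
  dif_pos hp

theorem lcpt_appLE_id (g : SpecC ⟶ SpecC) (hg : g = 𝟙 _) (e : ⊤ ≤ g ⁻¹ᵁ ⊤) :
    g.appLE ⊤ ⊤ e = 𝟙 _ := by
  subst hg
  exact (Scheme.Hom.appLE_eq_app _).trans (Scheme.Hom.id_app _)

theorem lcpt_closed (c : ℂ) : c ∈ (IsLocalRing.closedPoint ℂ).asIdeal ↔ c = 0 := by
  change c ∈ IsLocalRing.maximalIdeal ℂ ↔ c = 0
  rw [IsLocalRing.maximalIdeal_eq_bot, Ideal.mem_bot]

/-- The inclusion of the open part. -/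
def lcpt_incl (X : Y.left.Opens) : openPart Y X ⟶ Y := Over.homMk X.ι rfl

theorem lcpt_cancel (X : Y.left.Opens) {T : Over SpecC} {p q : T ⟶ openPart Y X}
    (h : p ≫ lcpt_incl X = q ≫ lcpt_incl X) : p = q := by
  ext1
  exact (cancel_mono X.ι).1 (congrArg CommaMorphism.left h)

theorem CPoint.mem_iff (p : CPoint Y) (U : Y.left.Opens) : p.Mem U ↔ p.pt ∈ U := by
  refine ⟨fun h => h (x := IsLocalRing.closedPoint ℂ) trivial, fun h x _ => ?_⟩
  have hx : x = IsLocalRing.closedPoint ℂ := Subsingleton.elim (α := PrimeSpectrum ℂ) _ _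
  rw [hx]
  exact h

/-- Evaluation at a complex point is a homomorphism of `ℂ`-algebras. -/
theorem CPoint.exists_evalHom (p : CPoint Y) {U : Y.left.Opens} (hp : p.Mem U) :
    ∃ φ : Γ(Y.left, U) →ₐ[ℂ] ℂ, ∀ s, p.eval U s = φ s := by
  refine ⟨{ toRingHom := (p.left.appLE U ⊤ hp ≫ (Scheme.ΓSpecIso (CommRingCat.of ℂ)).hom).hom
            commutes' := fun c => ?_ }, fun s => lcpt_eval p hp s⟩
  have h1 := Scheme.Hom.appLE_comp_appLE p.left Y.hom ⊤ U ⊤ le_top hp
  rw [lcpt_appLE_id (p.left ≫ Y.hom) (Over.w p)] at h1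
  have h2 : (Scheme.ΓSpecIso (CommRingCat.of ℂ)).inv ≫ (Y.hom.appLE ⊤ U le_top ≫
      p.left.appLE U ⊤ hp) ≫ (Scheme.ΓSpecIso (CommRingCat.of ℂ)).hom = 𝟙 _ := by
    rw [h1]
    exact (Scheme.ΓSpecIso (CommRingCat.of ℂ)).inv_hom_id
  exact congrArg (fun f : CommRingCat.of ℂ ⟶ CommRingCat.of ℂ => f.hom c) h2

theorem CPoint.eval_aeval (p : CPoint Y) {U : Y.left.Opens} (hp : p.Mem U) {V : Type}
    (Z : V → Γ(Y.left, U)) (q : MvPolynomial V ℂ) :
    p.eval U (MvPolynomial.aeval Z q) = MvPolynomial.aeval (fun v => p.eval U (Z v)) q := by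
  obtain ⟨φ, hφ⟩ := p.exists_evalHom hp
  simp only [hφ]
  rw [← AlgHom.comp_apply, MvPolynomial.comp_aeval]

theorem CPoint.eval_res (p : CPoint Y) {U W : Y.left.Opens} (h : W ≤ U) (hp : p.Mem W)
    (s : Γ(Y.left, U)) : p.eval W (res h s) = p.eval U s := by
  have hU : p.Mem U := fun x hx => h (hp hx)
  rw [lcpt_eval p hp, lcpt_eval p hU]
  have h1 := Scheme.Hom.map_appLE p.left hp (homOfLE h).op
  exact congrArg (fun f : Γ(Y.left, U) ⟶ Γ(SpecC, ⊤) =>
    (Scheme.ΓSpecIso (CommRingCat.of ℂ)).hom (f s)) h1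

theorem CPoint.mem_basicOpen (p : CPoint Y) {U : Y.left.Opens} (hp : p.Mem U)
    (s : Γ(Y.left, U)) : p.Mem (Y.left.basicOpen s) ↔ p.eval U s ≠ 0 := by
  have h1 := Scheme.basicOpen_appLE p.left ⊤ U hp s
  have h2 := basicOpen_eq_of_affine' (R := CommRingCat.of ℂ) (p.left.appLE U ⊤ hp s)
  have h3 := h1.symm.trans h2
  rw [top_inf_eq] at h3
  rw [lcpt_eval p hp, p.mem_iff]
  change IsLocalRing.closedPoint ℂ ∈ p.left ⁻¹ᵁ Y.left.basicOpen s ↔ _
  rw [h3]
  exact not_congr (lcpt_closed _)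

theorem CPoint.ext_eval {p q : CPoint Y} {U : Y.left.Opens} (hU : IsAffineOpen U) (hp : p.Mem U)
    (hq : q.Mem U) (h : ∀ s, p.eval U s = q.eval U s) : p = q := by
  have h1 : p.left.appLE U ⊤ hp = q.left.appLE U ⊤ hq := by
    ext s
    have h2 := h s
    rw [lcpt_eval p hp, lcpt_eval q hq] at h2
    exact (Scheme.ΓSpecIso (CommRingCat.of ℂ)).commRingCatIsoToRingEquiv.injective h2
  have h3 := IsAffineOpen.SpecMap_appLE_fromSpec p.left hU (isAffineOpen_top SpecC) hp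
  have h4 := IsAffineOpen.SpecMap_appLE_fromSpec q.left hU (isAffineOpen_top SpecC) hq
  rw [h1] at h3
  have h5 := h3.symm.trans h4
  have h6 : (isAffineOpen_top SpecC).fromSpec = SpecC.isoSpec.inv := IsAffineOpen.fromSpec_top
  ext1
  refine (cancel_epi SpecC.isoSpec.inv).1 ?_
  rw [← h6]
  exact h5

theorem brody_openPart (X : Y.left.Opens)
    (h : ∀ f : ℂ → CPoint Y, IsHolomorphic f → (∀ z, (f z).Mem X) → ∀ z w, f z = f w) :
    BrodyHyperbolic (openPart Y X) := by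
  intro f hf z w
  refine lcpt_cancel X (h (fun z => f z ≫ lcpt_incl X) (fun U => ⟨(hf (X.ι ⁻¹ᵁ U)).1, fun s => ?_⟩)
    (fun z => ?_) z w)
  · have h1 : (fun z => CPoint.eval (f z ≫ lcpt_incl X) U s) =
        fun z => (f z).eval (X.ι ⁻¹ᵁ U) (X.ι.app U s) := by
      funext z
      by_cases hz : (f z).Mem (X.ι ⁻¹ᵁ U)
      · rw [lcpt_eval (f z) hz, lcpt_eval (f z ≫ lcpt_incl X) (U := U) hz]
        have h2 := Scheme.Hom.comp_appLE (f z).left X.ι U ⊤ hz
        exact congrArg (fun g : Γ(Y.left, U) ⟶ Γ(SpecC, ⊤) =>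
          (Scheme.ΓSpecIso (CommRingCat.of ℂ)).hom (g s)) h2
      · have h3 : (f z).eval (X.ι ⁻¹ᵁ U) (X.ι.app U s) = 0 := dif_neg hz
        rw [h3]
        exact dif_neg hz
    rw [h1]
    exact (hf (X.ι ⁻¹ᵁ U)).2 _
  · rw [CPoint.mem_iff]
    exact (f z).pt.2

theorem quasiProjective_openPart (hY : IsProjective Y) (X : Y.left.Opens) :
    IsQuasiProjective (openPart Y X) := by
  obtain ⟨n, i, hi⟩ := hY
  refine ⟨n, lcpt_incl X ≫ i, ?_⟩
  change IsImmersion (X.ι ≫ i.left)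
  infer_instance

theorem not_pointedFinite_openPart (X : Y.left.Opens) (C : Over SpecC)
    (h1 : IsQuasiProjective C) (h2 : SmoothOfRelativeDimension 1 C.hom)
    (h3 : ConnectedSpace C.left) (c : CPoint C) (f : ℕ → (C ⟶ Y))
    (hX : ∀ n y, (f n).left y ∈ X) (hc : ∀ n, c ≫ f n = c ≫ f 0)
    (hf : Function.Injective f) : ¬ PointedFinite (openPart Y X) := by
  intro h
  have hr : ∀ n, Set.range (f n).left ⊆ Set.range X.ι := by
    rintro n _ ⟨y, rfl⟩
    rw [Scheme.Opens.range_ι]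
    exact hX n y
  let g : ℕ → (C ⟶ openPart Y X) := fun n =>
    Over.homMk (IsOpenImmersion.lift X.ι (f n).left (hr n)) (by
      change IsOpenImmersion.lift X.ι (f n).left (hr n) ≫ X.ι ≫ Y.hom = C.hom
      rw [IsOpenImmersion.lift_fac_assoc, Over.w])
  have hg : ∀ n, g n ≫ lcpt_incl X = f n := fun n => by
    ext1
    exact IsOpenImmersion.lift_fac X.ι (f n).left (hr n)
  refine Set.infinite_of_injective_forall_mem (f := g) (fun a b hab => hf ?_) (fun n => ?_)
    (h C h1 h2 h3 c (c ≫ g 0))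
  · rw [← hg, ← hg, hab]
  · refine lcpt_cancel X ?_
    rw [Category.assoc, Category.assoc, hg, hg, hc]

section affine

variable {A : Type} [CommRing A] [Algebra ℂ A]

theorem exists_cpoint_specOf (e : A →ₐ[ℂ] ℂ) :
    ∃ (c : CPoint (specOf A)) (P : PrimeSpectrum A), c.pt = P ∧ ∀ s, s ∈ P.asIdeal ↔ e s = 0 := by
  refine ⟨Over.homMk (Spec.map (CommRingCat.ofHom e.toRingHom)) ?_,
    PrimeSpectrum.comap e.toRingHom (IsLocalRing.closedPoint ℂ), rfl, fun s => lcpt_closed (e s)⟩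
  change Spec.map (CommRingCat.ofHom e.toRingHom) ≫
    Spec.map (CommRingCat.ofHom (algebraMap ℂ A)) = 𝟙 SpecC
  rw [← Spec.map_comp, ← Spec.map_id]
  congr 1
  ext c
  exact e.commutes c

theorem quasiProjective_specOf [Algebra.FiniteType ℂ A] : IsQuasiProjective (specOf A) := by
  obtain ⟨n, ψ, hψ⟩ := (Algebra.FiniteType.iff_quotient_mvPolynomial'' (R := ℂ) (S := A)).1 inferInstance
  obtain ⟨m, i, hi⟩ := quasiProjective_opn (⊤ : (SpecR n).Opens)
  have hcl : IsClosedImmersion (algMap ψ) := IsClosedImmersion.spec_of_surjective _ hψ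
  let j : specOf A ⟶ opn (⊤ : (SpecR n).Opens) := Over.homMk (algMap ψ ≫ (SpecR n).topIso.inv) (by
    change (algMap ψ ≫ (SpecR n).topIso.inv) ≫ (⊤ : (SpecR n).Opens).ι ≫ strMap n = _
    rw [Category.assoc, Scheme.toIso_inv_ι_assoc, algMap_strMap]
    rfl)
  refine ⟨m, j ≫ i, ?_⟩
  change IsImmersion ((algMap ψ ≫ (SpecR n).topIso.inv) ≫ i.left)
  infer_instance

theorem smooth_specOf {n : ℕ} (h : Algebra.IsStandardSmoothOfRelativeDimension n ℂ A) :
    SmoothOfRelativeDimension n (specOf A).hom := by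
  change SmoothOfRelativeDimension n (Spec.map (CommRingCat.ofHom (algebraMap ℂ A)))
  rw [HasRingHomProperty.Spec_iff (P := @SmoothOfRelativeDimension n)]
  refine RingHom.locally_of RingHom.isStandardSmoothOfRelativeDimension_respectsIso _ ?_
  exact (RingHom.isStandardSmoothOfRelativeDimension_algebraMap n).mpr h

theorem connected_specOf [IsDomain A] : ConnectedSpace (specOf A).left := by
  exact inferInstanceAs (ConnectedSpace (PrimeSpectrum A))

end affine

end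

end Pool.Agent.P.MP_dc0411_ag
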