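import Pool.Agent.P.MP_dc0411_ag.LcEx
import Pool.Agent.P.MP_dc0411_ag.LcPt
import Pool.Agent.P.MP_dc0411_ag.LcEntire

/-!
The open threefold is Brody hyperbolic.
-/

open CategoryTheory AlgebraicGeometry MvPolynomial

namespace Pool.Agent.P.MP_dc0411_ag

attribute [local instance] secAlgebra

/-- The value of the coordinate `v` of the chart `I` at a complex point. -/
noncomputable def lcbrodyVal {Y : Over SpecC} (D : MPData gE FE Y) (p : CPoint Y) (I : Chart gE)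
    (v : Fin 11) : ℂ :=
  p.eval (D.U I) (D.Z I v)

section

variable {Y : Over SpecC} (D : MPData gE FE Y) {p : CPoint Y}

theorem lcbrody_aeval {I : Chart gE} (hp : p.Mem (D.U I)) (q : MvPolynomial (Fin 11) ℂ) :
    p.eval (D.U I) (aeval (D.Z I) q) = aeval (lcbrodyVal D p I) q :=
  p.eval_aeval hp (D.Z I) q

theorem lcbrody_self {I : Chart gE} (hp : p.Mem (D.U I)) (γ : Fin 4) :
    lcbrodyVal D p I (I.1 γ) = 1 := by
  obtain ⟨φ, hφ⟩ := p.exists_evalHom hp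
  rw [lcbrodyVal, D.Z_self, hφ, map_one]

theorem lcbrody_F {I : Chart gE} (hp : p.Mem (D.U I)) (r : Fin 4) :
    aeval (lcbrodyVal D p I) (FE r) = 0 := by
  obtain ⟨φ, hφ⟩ := p.exists_evalHom hp
  rw [← lcbrody_aeval D hp, D.aeval_F, hφ, map_zero]

theorem lcbrody_h {I : Chart gE} (hp : p.Mem (D.U I))
    (hX : p.Mem (D.intr fun I => ∏ s, hE I s)) (s : Fin 7) :
    aeval (lcbrodyVal D p I) (hE I s) ≠ 0 := by
  have h1 : p.Mem (Y.left.basicOpen (aeval (D.Z I) (∏ s, hE I s))) := by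
    rw [D.basicOpen_P adjE I, CPoint.mem_iff]
    exact ⟨(p.mem_iff _).1 hp, (p.mem_iff _).1 hX⟩
  rw [p.mem_basicOpen hp, lcbrody_aeval D hp, map_prod] at h1
  exact Finset.prod_ne_zero_iff.1 h1 s (Finset.mem_univ s)

theorem lcbrody_mem {I : Chart gE} (hp : p.Mem (D.U I)) (J : Chart gE)
    (h : ∀ γ, lcbrodyVal D p I (J.1 γ) ≠ 0) : p.Mem (D.U J) := by
  obtain ⟨φ, hφ⟩ := p.exists_evalHom hp
  have h1 : p.Mem (Y.left.basicOpen (∏ γ, D.Z I (J.1 γ))) := by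
    rw [p.mem_basicOpen hp, hφ, map_prod]
    refine Finset.prod_ne_zero_iff.2 fun γ _ => ?_
    rw [← hφ]
    exact h γ
  rw [D.inter, CPoint.mem_iff] at h1
  exact (p.mem_iff _).2 h1.2

theorem lcbrody_trans {I J : Chart gE} (hI : p.Mem (D.U I)) (hJ : p.Mem (D.U J)) (v : Fin 11) :
    lcbrodyVal D p I v = lcbrodyVal D p I (J.1 (gE v)) * lcbrodyVal D p J v := by
  have hIJ : p.Mem (D.U I ⊓ D.U J) := by
    rw [CPoint.mem_iff]
    exact ⟨(p.mem_iff _).1 hI, (p.mem_iff _).1 hJ⟩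
  obtain ⟨φ, hφ⟩ := p.exists_evalHom hIJ
  unfold lcbrodyVal
  rw [← p.eval_res inf_le_left hIJ (D.Z I v), ← p.eval_res inf_le_left hIJ (D.Z I (J.1 (gE v))),
    ← p.eval_res inf_le_right hIJ (D.Z J v), D.trans I J v, hφ, hφ, hφ, map_mul]

theorem lcbrody_cover (hX : p.Mem (D.intr fun I => ∏ s, hE I s)) :
    p.Mem (D.U I₀) ∨ p.Mem (D.U I₁) := by
  have h0 := (p.mem_iff _).1 hX
  rw [MPData.intr, TopologicalSpace.Opens.mem_iSup] at h0
  obtain ⟨I, hI⟩ := h0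
  have hp : p.Mem (D.U I) := (p.mem_iff _).2 (Y.left.basicOpen_le _ hI)
  have e0 := lcbrody_h D hp hX 0
  have e1 := lcbrody_h D hp hX 1
  have e3 := lcbrody_h D hp hX 3
  have f2 := lcbrody_F D hp 1
  have s2 := lcbrody_self D hp 2
  simp only [hE, FE, Matrix.cons_val, map_mul, map_sub, aeval_X] at e0 e1 e3 f2
  have a4 : lcbrodyVal D p I 4 ≠ 0 := left_ne_zero_of_mul (left_ne_zero_of_mul e0)
  have a2 : lcbrodyVal D p I 2 ≠ 0 := by
    intro h2
    split_ifs at e1 with h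
    · exact e1 (by rw [aeval_X, h2])
    · rw [aeval_X] at e1
      rw [h2, zero_mul, zero_sub, neg_eq_zero] at f2
      exact mul_ne_zero e1 a4 f2
  rcases chart_two I with h | h
  · left
    refine lcbrody_mem D hp I₀ fun γ => ?_
    rw [h] at s2
    fin_cases γ
    · exact a2
    · exact a4
    · exact s2 ▸ one_ne_zero
    · exact e3
  · right
    refine lcbrody_mem D hp I₁ fun γ => ?_
    rw [h] at s2
    fin_cases γ
    · exact a2
    · exact a4
    · exact s2 ▸ one_ne_zero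
    · exact e3

/-- The scalar relations in a chart with `a = τ₀ = q = 1`. -/
structure lcbrodyRel (x : Fin 11 → ℂ) : Prop where
  e2 : x 2 = 1
  e4 : x 4 = 1
  e8 : x 8 = 1
  e5 : x 5 = x 3
  f1 : x 0 ^ 3 + x 1 ^ 3 = 1 + x 3 ^ 3
  b0 : x 3 ≠ 0
  b1 : x 3 ≠ 1
  f3 : (1 + x 3 ^ 3) * x 7 = (x 0 ^ 3 - 1) * x 6
  f4 : x 7 ^ 3 * x 9 = x 6 ^ 3 * x 10
  l1 : 1 + x 9 + 2 * x 10 ≠ 0
  l2 : 1 + 2 * x 9 - x 10 ≠ 0
  l3 : 1 - 3 * x 9 + x 10 ≠ 0

theorem lcbrody_rel {I : Chart gE} (hp : p.Mem (D.U I))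
    (hX : p.Mem (D.intr fun I => ∏ s, hE I s)) (h0 : I.1 0 = 2) (h1 : I.1 1 = 4)
    (h3 : I.1 3 = 8) : lcbrodyRel (lcbrodyVal D p I) := by
  have s0 := lcbrody_self D hp 0
  have s1 := lcbrody_self D hp 1
  have s3 := lcbrody_self D hp 3
  rw [h0] at s0
  rw [h1] at s1
  rw [h3] at s3
  have e0 := lcbrody_h D hp hX 0
  have e4 := lcbrody_h D hp hX 4
  have e5 := lcbrody_h D hp hX 5
  have e6 := lcbrody_h D hp hX 6
  have f1 := lcbrody_F D hp 0
  have f2 := lcbrody_F D hp 1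
  have f3 := lcbrody_F D hp 2
  have f4 := lcbrody_F D hp 3
  simp only [hE, FE, Matrix.cons_val, map_mul, map_sub, map_add, map_pow, aeval_X, aeval_C,
    Algebra.algebraMap_self, RingHom.id_apply, s0, s1, s3] at e0 e4 e5 e6 f1 f2 f3 f4
  have e53 : lcbrodyVal D p I 5 = lcbrodyVal D p I 3 := by linear_combination f2
  rw [e53] at e0
  refine ⟨s0, s1, s3, e53, by linear_combination f1, ?_, ?_, by linear_combination f3,
    by linear_combination f4, e4, e5, e6⟩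
  · intro h
    exact e0 (by rw [h]; ring)
  · intro h
    exact e0 (by rw [h]; ring)

theorem lcbrody_zero (hp : p.Mem (D.U I₀)) (hX : p.Mem (D.intr fun I => ∏ s, hE I s)) :
    lcbrodyRel (lcbrodyVal D p I₀) ∧ lcbrodyVal D p I₀ 6 = 1 ∧
      1 + lcbrodyVal D p I₀ 3 ^ 3 ≠ 0 := by
  have hr := lcbrody_rel D hp hX rfl rfl rfl
  refine ⟨hr, lcbrody_self D hp 2, ?_⟩
  have e2 := lcbrody_h D hp hX 2
  have : hE I₀ 2 = X 2 ^ 3 + X 3 ^ 3 := by
    have h : I₀.1 2 = 6 := rfl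
    simp only [hE, Matrix.cons_val, h, if_true]
  rw [this, map_add, map_pow, map_pow, aeval_X, aeval_X, hr.e2, one_pow] at e2
  exact e2

theorem lcbrody_one (hp : p.Mem (D.U I₁)) (hX : p.Mem (D.intr fun I => ∏ s, hE I s)) :
    lcbrodyRel (lcbrodyVal D p I₁) ∧ lcbrodyVal D p I₁ 7 = 1 ∧
      lcbrodyVal D p I₁ 0 ^ 3 - 1 ≠ 0 := by
  have hr := lcbrody_rel D hp hX rfl rfl rfl
  refine ⟨hr, lcbrody_self D hp 2, ?_⟩
  have e2 := lcbrody_h D hp hX 2
  have : hE I₁ 2 = X 0 ^ 3 - X 2 ^ 3 := by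
    have h : ¬ I₁.1 2 = 6 := by decide
    simp only [hE, Matrix.cons_val, h, if_false]
  rw [this, map_sub, map_pow, map_pow, aeval_X, aeval_X, hr.e2, one_pow] at e2
  exact e2

theorem lcbrody_agree (h0 : p.Mem (D.U I₀)) (h1 : p.Mem (D.U I₁)) {v : Fin 11} (hv : gE v ≠ 2) :
    lcbrodyVal D p I₀ v = lcbrodyVal D p I₁ v := by
  have : I₁.1 (gE v) = I₀.1 (gE v) := by
    revert hv
    generalize gE v = γ
    revert γ
    decide
  rw [lcbrody_trans D h0 h1 v, this, lcbrody_self D h0, one_mul]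

theorem lcbrody_ext {q : CPoint Y} {I : Chart gE} (hp : p.Mem (D.U I)) (hq : q.Mem (D.U I))
    (h : ∀ v, lcbrodyVal D p I v = lcbrodyVal D q I v) : p = q := by
  refine CPoint.ext_eval (D.aff I) hp hq fun s => ?_
  obtain ⟨r, rfl⟩ := D.surj I s
  rw [lcbrody_aeval D hp, lcbrody_aeval D hq, funext h]

open Classical in
/-- The coordinates glued from the two charts. -/
noncomputable def lcbrodyGlue (p : CPoint Y) (v : Fin 11) : ℂ :=
  if p.Mem (D.U I₀) then lcbrodyVal D p I₀ v else lcbrodyVal D p I₁ v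

theorem lcbrody_glue_zero (h0 : p.Mem (D.U I₀)) (v : Fin 11) :
    lcbrodyGlue D p v = lcbrodyVal D p I₀ v := if_pos h0

theorem lcbrody_glue_one (h1 : p.Mem (D.U I₁)) {v : Fin 11} (hv : gE v ≠ 2) :
    lcbrodyGlue D p v = lcbrodyVal D p I₁ v := by
  unfold lcbrodyGlue
  split_ifs with h0
  · exact lcbrody_agree D h0 h1 hv
  · rfl

theorem lcbrody_entire {f : ℂ → CPoint Y} (hf : IsHolomorphic f)
    (hX : ∀ z, (f z).Mem (D.intr fun I => ∏ s, hE I s)) {v : Fin 11} (hv : gE v ≠ 2) :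
    Differentiable ℂ fun z => lcbrodyGlue D (f z) v := by
  intro z
  rcases lcbrody_cover D (hX z) with h | h
  · have hn := (hf (D.U I₀)).1.mem_nhds h
    refine (((hf (D.U I₀)).2 (D.Z I₀ v)).differentiableAt hn).congr_of_eventuallyEq ?_
    filter_upwards [hn] with w hw
    exact lcbrody_glue_zero D hw v
  · have hn := (hf (D.U I₁)).1.mem_nhds h
    refine (((hf (D.U I₁)).2 (D.Z I₁ v)).differentiableAt hn).congr_of_eventuallyEq ?_
    filter_upwards [hn] with w hw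
    exact lcbrody_glue_one D hw hv

theorem lcbrody_facts (hX : p.Mem (D.intr fun I => ∏ s, hE I s)) :
    lcbrodyGlue D p 0 ^ 3 + lcbrodyGlue D p 1 ^ 3 = 1 + lcbrodyGlue D p 3 ^ 3 ∧
    lcbrodyGlue D p 3 ≠ 0 ∧ lcbrodyGlue D p 3 ≠ 1 ∧
    (1 + lcbrodyGlue D p 3 ^ 3 ≠ 0 ∨ lcbrodyGlue D p 0 ^ 3 - 1 ≠ 0) ∧
    (lcbrodyGlue D p 0 ^ 3 - 1) ^ 3 * lcbrodyGlue D p 9 =
      (1 + lcbrodyGlue D p 3 ^ 3) ^ 3 * lcbrodyGlue D p 10 ∧
    1 + lcbrodyGlue D p 9 + 2 * lcbrodyGlue D p 10 ≠ 0 ∧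
    1 + 2 * lcbrodyGlue D p 9 - lcbrodyGlue D p 10 ≠ 0 ∧
    1 - 3 * lcbrodyGlue D p 9 + lcbrodyGlue D p 10 ≠ 0 := by
  rcases lcbrody_cover D hX with h | h
  · obtain ⟨r, h6, hu⟩ := lcbrody_zero D h hX
    simp only [lcbrody_glue_zero D h]
    refine ⟨r.f1, r.b0, r.b1, Or.inl hu, ?_, r.l1, r.l2, r.l3⟩
    have f3 := r.f3
    have f4 := r.f4
    rw [h6, mul_one] at f3
    rw [h6, one_pow, one_mul] at f4
    rw [← f3, ← f4]
    ring
  · obtain ⟨r, h7, hu⟩ := lcbrody_one D h hX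
    rw [lcbrody_glue_one D h (v := 0) (by decide), lcbrody_glue_one D h (v := 1) (by decide),
      lcbrody_glue_one D h (v := 3) (by decide), lcbrody_glue_one D h (v := 9) (by decide),
      lcbrody_glue_one D h (v := 10) (by decide)]
    refine ⟨r.f1, r.b0, r.b1, Or.inr hu, ?_, r.l1, r.l2, r.l3⟩
    have f3 := r.f3
    have f4 := r.f4
    rw [h7, mul_one] at f3
    rw [h7, one_pow, one_mul] at f4
    rw [f3, f4]
    ring

theorem lcbrody_mem_zero (hX : p.Mem (D.intr fun I => ∏ s, hE I s))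
    (hu : 1 + lcbrodyGlue D p 3 ^ 3 ≠ 0) : p.Mem (D.U I₀) := by
  rcases lcbrody_cover D hX with h | h
  · exact h
  · obtain ⟨r, h7, -⟩ := lcbrody_one D h hX
    rw [lcbrody_glue_one D h (v := 3) (by decide)] at hu
    have f3 := r.f3
    rw [h7, mul_one] at f3
    rw [f3] at hu
    refine lcbrody_mem D h I₀ fun γ => ?_
    fin_cases γ
    · exact r.e2 ▸ one_ne_zero
    · exact r.e4 ▸ one_ne_zero
    · exact right_ne_zero_of_mul hu
    · exact r.e8 ▸ one_ne_zero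

theorem lcbrody_mem_one (hX : p.Mem (D.intr fun I => ∏ s, hE I s))
    (hu : 1 + lcbrodyGlue D p 3 ^ 3 = 0) : p.Mem (D.U I₁) := by
  rcases lcbrody_cover D hX with h | h
  · obtain ⟨-, -, h'⟩ := lcbrody_zero D h hX
    rw [lcbrody_glue_zero D h] at hu
    exact absurd hu h'
  · exact h

theorem lcbrody_eq {x y : Fin 11 → ℂ} (rx : lcbrodyRel x) (ry : lcbrodyRel y) (h0 : x 0 = y 0)
    (h1 : x 1 = y 1) (h3 : x 3 = y 3) (h9 : x 9 = y 9) (h10 : x 10 = y 10) (h6 : x 6 = y 6)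
    (h7 : x 7 = y 7) (v : Fin 11) : x v = y v := by
  fin_cases v
  · exact h0
  · exact h1
  · exact rx.e2.trans ry.e2.symm
  · exact h3
  · exact rx.e4.trans ry.e4.symm
  · exact (rx.e5.trans h3).trans ry.e5.symm
  · exact h6
  · exact h7
  · exact rx.e8.trans ry.e8.symm
  · exact h9
  · exact h10

end

theorem brodyE {Y : Over SpecC} (D : MPData gE FE Y) :
    BrodyHyperbolic (openPart Y (D.intr fun I => ∏ s, hE I s)) := by
  refine brody_openPart _ fun f hf hX z w => ?_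
  obtain ⟨h0, h1, h3, h9, h10⟩ := entire_const_three
    (lcbrody_entire D hf hX (v := 0) (by decide)) (lcbrody_entire D hf hX (v := 1) (by decide))
    (lcbrody_entire D hf hX (v := 3) (by decide)) (lcbrody_entire D hf hX (v := 9) (by decide))
    (lcbrody_entire D hf hX (v := 10) (by decide))
    (fun z => (lcbrody_facts D (hX z)).1) (fun z => (lcbrody_facts D (hX z)).2.1)
    (fun z => (lcbrody_facts D (hX z)).2.2.1) (fun z => (lcbrody_facts D (hX z)).2.2.2.1)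
    (fun z => (lcbrody_facts D (hX z)).2.2.2.2.1) (fun z => (lcbrody_facts D (hX z)).2.2.2.2.2.1)
    (fun z => (lcbrody_facts D (hX z)).2.2.2.2.2.2.1)
    (fun z => (lcbrody_facts D (hX z)).2.2.2.2.2.2.2) z w
  by_cases hu : 1 + lcbrodyGlue D (f z) 3 ^ 3 = 0
  · have hz := lcbrody_mem_one D (hX z) hu
    have hw := lcbrody_mem_one D (hX w) (h3 ▸ hu)
    obtain ⟨rz, z7, vz⟩ := lcbrody_one D hz (hX z)
    obtain ⟨rw', w7, -⟩ := lcbrody_one D hw (hX w)
    rw [lcbrody_glue_one D hz (by decide), lcbrody_glue_one D hw (by decide)] at h0 h1 h3 h9 h10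
    refine lcbrody_ext D hz hw (lcbrody_eq rz rw' h0 h1 h3 h9 h10 ?_ (z7.trans w7.symm))
    have a := rz.f3
    have b := rw'.f3
    rw [← h0, ← h3, w7] at b
    rw [z7] at a
    exact mul_left_cancel₀ vz (a.symm.trans b)
  · have hz := lcbrody_mem_zero D (hX z) hu
    have hw := lcbrody_mem_zero D (hX w) (h3 ▸ hu)
    obtain ⟨rz, z6, uz⟩ := lcbrody_zero D hz (hX z)
    obtain ⟨rw', w6, -⟩ := lcbrody_zero D hw (hX w)
    rw [lcbrody_glue_zero D hz, lcbrody_glue_zero D hw] at h0 h1 h3 h9 h10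
    refine lcbrody_ext D hz hw (lcbrody_eq rz rw' h0 h1 h3 h9 h10 (z6.trans w6.symm) ?_)
    have a := rz.f3
    have b := rw'.f3
    rw [← h0, ← h3, w6] at b
    rw [z6] at a
    exact mul_left_cancel₀ uz (a.trans b.symm)

end Pool.Agent.P.MP_dc0411_ag
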