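import Mathlib

/-!
The affine curve `s³ = 1 + b³`, `b ≠ 0, 1`.
-/

namespace Pool.Agent.P.MP_dc0411_ag

open Polynomial

theorem lccurve_monic : (X ^ 3 - C (X ^ 3 - 1) : ℂ[X][X]).Monic :=
  monic_X_pow_sub_C _ (by norm_num)

/-- The standard etale pair over `ℂ[s]` that defines the curve. -/
noncomputable def lccurvePair : StandardEtalePair ℂ[X] where
  f := X ^ 3 - C (X ^ 3 - 1)
  monic_f := lccurve_monic
  g := X * (1 - X)
  cond := by
    refine ⟨C (C (1 / 3)) * (1 - X) ^ 2, 0, 2, ?_⟩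
    have h3 : (3 : ℂ[X][X]) * C (C (1 / 3)) = 1 := by
      have : (3 : ℂ[X][X]) = C (C 3) := by
        rw [map_ofNat, map_ofNat]
      rw [this, ← map_mul, ← map_mul]
      norm_num
    have hd : derivative (X ^ 3 - C (X ^ 3 - 1) : ℂ[X][X]) = 3 * X ^ 2 := by
      rw [derivative_sub, derivative_C, sub_zero, derivative_X_pow]
      norm_num
      rfl
    rw [hd]
    linear_combination (X ^ 2 * (1 - X) ^ 2) * h3

theorem lccurve_irreducible : Irreducible (X ^ 3 - C (X ^ 3 - 1) : ℂ[X][X]) := by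
  have hprime : (Ideal.span {(X - C 1 : ℂ[X])}).IsPrime :=
    (Ideal.span_singleton_prime (X_sub_C_ne_zero 1)).mpr (prime_X_sub_C 1)
  have hdeg : (X ^ 3 - C (X ^ 3 - 1) : ℂ[X][X]).degree = 3 :=
    degree_X_pow_sub_C (by norm_num) _
  have hdvd : (X - C 1 : ℂ[X]) ∣ X ^ 3 - 1 := ⟨X ^ 2 + X + 1, by rw [C_1]; ring⟩
  refine irreducible_of_eisenstein_criterion hprime ?_ ?_ ?_ ?_ lccurve_monic.isPrimitive
  · rw [lccurve_monic.leadingCoeff]
    exact (Ideal.ne_top_iff_one _).mp hprime.ne_top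
  · intro n hn
    rw [hdeg] at hn
    have hn' : n < 3 := by exact_mod_cast hn
    rw [coeff_sub, coeff_X_pow, coeff_C, if_neg (by omega), zero_sub]
    refine neg_mem ?_
    split_ifs
    · exact Ideal.mem_span_singleton.mpr hdvd
    · exact zero_mem _
  · rw [hdeg]; norm_num
  · rw [coeff_sub, coeff_X_pow, coeff_C, if_neg (by norm_num), if_pos rfl, zero_sub,
      Ideal.span_singleton_pow, Ideal.mem_span_singleton, dvd_neg]
    rintro ⟨q, hq⟩
    have h1 : (X - C 1 : ℂ[X]) * (X ^ 2 + X + 1) = (X - C 1) * ((X - C 1) * q) := by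
      rw [← mul_assoc, ← pow_two, ← hq, C_1]; ring
    have h2 := mul_left_cancel₀ (X_sub_C_ne_zero (1 : ℂ)) h1
    have h3 := congrArg (eval 1) h2
    norm_num at h3

theorem lccurve_point (c x : ℂ) (hx : x ^ 3 = c ^ 3 - 1) (hu : x * (1 - x) ≠ 0) :
    ∃ e : lccurvePair.Ring →+* ℂ, ∀ p : ℂ[X], e (algebraMap ℂ[X] lccurvePair.Ring p) = eval c p := by
  letI : Algebra ℂ[X] ℂ := (evalRingHom c).toAlgebra
  have ha : ∀ p : ℂ[X], algebraMap ℂ[X] ℂ p = eval c p := fun _ => rfl
  have h : lccurvePair.HasMap x := by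
    constructor
    · show aeval x (X ^ 3 - C (X ^ 3 - 1) : ℂ[X][X]) = 0
      rw [map_sub, map_pow, aeval_X, aeval_C, ha, hx]
      simp
    · show IsUnit (aeval x (X * (1 - X) : ℂ[X][X]))
      rw [map_mul, map_sub, map_one, aeval_X]
      exact isUnit_iff_ne_zero.mpr hu
  exact ⟨(lccurvePair.lift x h).toRingHom, fun p => ((lccurvePair.lift x h).commutes p).trans (ha p)⟩

theorem lccurve_domain : IsDomain lccurvePair.Ring := by
  have hp : Prime lccurvePair.f := lccurve_irreducible.prime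
  haveI : IsDomain (AdjoinRoot lccurvePair.f) := AdjoinRoot.isDomain_of_prime hp
  have hg : AdjoinRoot.mk lccurvePair.f lccurvePair.g ≠ 0 := by
    rw [Ne, AdjoinRoot.mk_eq_zero]
    intro hd
    have hne : (X * (1 - X) : ℂ[X][X]) ≠ 0 := by
      refine mul_ne_zero X_ne_zero ?_
      intro h
      have := congrArg (fun p : ℂ[X][X] => p.coeff 0) h
      simp at this
    have h1 : (X ^ 3 - C (X ^ 3 - 1) : ℂ[X][X]).natDegree ≤ (X * (1 - X) : ℂ[X][X]).natDegree :=
      natDegree_le_of_dvd hd hne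
    have h2 : (X * (1 - X) : ℂ[X][X]).natDegree ≤ 2 := by compute_degree
    rw [natDegree_X_pow_sub_C] at h1
    omega
  haveI : IsDomain (Localization.Away (AdjoinRoot.mk lccurvePair.f lccurvePair.g)) :=
    IsLocalization.isDomain_localization
      (powers_le_nonZeroDivisors_of_noZeroDivisors hg)
  exact lccurvePair.equivAwayAdjoinRoot.toMulEquiv.isDomain _

theorem lccurve_line : Algebra.IsStandardSmoothOfRelativeDimension 1 ℂ ℂ[X] := by
  let v : Empty → MvPolynomial Unit ℂ := Empty.elim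
  let P : Algebra.SubmersivePresentation ℂ (MvPolynomial Unit ℂ ⧸ Ideal.span (Set.range v))
      Unit Empty :=
    { toPreSubmersivePresentation := Algebra.PreSubmersivePresentation.naive (v := v)
        Empty.elim (fun a => a.elim)
      jacobian_isUnit := by
        rw [Algebra.PreSubmersivePresentation.jacobian_eq_jacobiMatrix_det]
        simp }
  have h1 : Algebra.IsStandardSmoothOfRelativeDimension 1 ℂ
      (MvPolynomial Unit ℂ ⧸ Ideal.span (Set.range v)) :=
    P.isStandardSmoothOfRelativeDimension (by simp [Algebra.Presentation.dimension])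
  have hbot : Ideal.span (Set.range v) = ⊥ := by
    rw [Set.range_eq_empty v, Ideal.span_empty]
  exact Algebra.IsStandardSmoothOfRelativeDimension.of_algEquiv 1
    (((Ideal.quotientEquivAlgOfEq ℂ hbot).trans
      (AlgEquiv.quotientBot ℂ (MvPolynomial Unit ℂ))).trans (MvPolynomial.uniqueAlgEquiv ℂ Unit))

theorem exists_curve : ∃ (A : Type) (_ : CommRing A) (_ : Algebra ℂ A) (s b : A)
    (e₀ e₁ : A →ₐ[ℂ] ℂ), IsDomain A ∧ Algebra.IsStandardSmoothOfRelativeDimension 1 ℂ A ∧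
      s ^ 3 = 1 + b ^ 3 ∧ IsUnit (b * (1 - b)) ∧ e₀ s = 0 ∧ e₁ s ≠ 0 := by
  letI : Algebra ℂ lccurvePair.Ring :=
    ((algebraMap ℂ[X] lccurvePair.Ring).comp (algebraMap ℂ ℂ[X])).toAlgebra
  haveI : IsScalarTower ℂ ℂ[X] lccurvePair.Ring := IsScalarTower.of_algebraMap_eq' rfl
  have hC : ∀ z : ℂ, algebraMap ℂ lccurvePair.Ring z
      = algebraMap ℂ[X] lccurvePair.Ring (C z) := fun _ => rfl
  obtain ⟨e₀, he₀⟩ := lccurve_point 0 (-1) (by norm_num) (by norm_num)
  obtain ⟨c, hc⟩ := IsAlgClosed.exists_pow_nat_eq (9 : ℂ) (by norm_num : 0 < 3)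
  obtain ⟨e₁, he₁⟩ := lccurve_point c 2 (by rw [hc]; norm_num) (by norm_num)
  have hX := lccurvePair.hasMap_X
  have k₀ : ∀ z : ℂ, e₀ (algebraMap ℂ lccurvePair.Ring z) = z := fun z => by
    rw [hC, he₀, eval_C]
  have k₁ : ∀ z : ℂ, e₁ (algebraMap ℂ lccurvePair.Ring z) = z := fun z => by
    rw [hC, he₁, eval_C]
  refine ⟨lccurvePair.Ring, inferInstance, inferInstance, algebraMap ℂ[X] _ X, lccurvePair.X,
    ⟨e₀, k₀⟩, ⟨e₁, k₁⟩, lccurve_domain, ?_, ?_, ?_, ?_, ?_⟩
  · haveI := lccurve_line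
    haveI : Algebra.IsStandardSmoothOfRelativeDimension 0 ℂ[X] lccurvePair.Ring :=
      Algebra.Etale.iff_isStandardSmoothOfRelativeDimension_zero.mp inferInstance
    exact Algebra.IsStandardSmoothOfRelativeDimension.trans 1 0 ℂ ℂ[X] lccurvePair.Ring
  · have h : aeval lccurvePair.X (X ^ 3 - C (X ^ 3 - 1) : ℂ[X][X]) = 0 := hX.1
    rw [map_sub, map_pow, aeval_X, aeval_C, map_sub, map_pow, map_one] at h
    linear_combination -h
  · have h : IsUnit (aeval lccurvePair.X (X * (1 - X) : ℂ[X][X])) := hX.2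
    rwa [map_mul, map_sub, map_one, aeval_X] at h
  · show e₀ (algebraMap ℂ[X] lccurvePair.Ring X) = 0
    rw [he₀, eval_X]
  · show e₁ (algebraMap ℂ[X] lccurvePair.Ring X) ≠ 0
    rw [he₁, eval_X]
    rintro rfl
    norm_num at hc

end Pool.Agent.P.MP_dc0411_ag
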