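import Mathlib

/-!
Multi-homogeneous polynomials, charts of a product of projective spaces, Jacobian determinants.
-/

set_option linter.unusedSectionVars false

open MvPolynomial

namespace Pool.Agent.P.MP_dc0411_ag

noncomputable section

variable {V G R : Type} [Fintype V] [DecidableEq V] [Fintype G] [DecidableEq G]

/-- `p` is multi-homogeneous of multi-degree `d`; the variable `v` belongs to the group `g v`. -/
def MH (g : V → G) (p : MvPolynomial V ℂ) (d : G → ℕ) : Prop :=
  p.IsWeightedHomogeneous (fun v => (Pi.single (g v) 1 : G → ℕ)) d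

/-- A choice of one variable in each group. -/
abbrev Chart (g : V → G) : Type := {I : G → V // ∀ γ, g (I γ) = γ}

/-- The equations of the affine chart `I`. -/
def rel {g : V → G} (F : R → MvPolynomial V ℂ) (I : Chart g) : R ⊕ G → MvPolynomial V ℂ :=
  Sum.elim F fun γ => X (I.1 γ) - 1

/-- The Jacobian determinant of the family `(Q, ζ)`. -/
def jacDet {ρ : Type} [Fintype ρ] [DecidableEq ρ] {n : ℕ} (e : ρ ⊕ Fin n ≃ V)
    (Q : ρ → MvPolynomial V ℂ) (ζ : Fin n → MvPolynomial V ℂ) : MvPolynomial V ℂ :=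
  (Matrix.of fun i j => pderiv (e j) (Sum.elim Q ζ i)).det

variable {g : V → G} {p q : MvPolynomial V ℂ} {d d' : G → ℕ}

theorem MH.X (g : V → G) (v : V) : MH g (X v) (Pi.single (g v) 1) := by
  exact isWeightedHomogeneous_X ℂ (fun v => (Pi.single (g v) 1 : G → ℕ)) v

theorem MH.C (g : V → G) (a : ℂ) : MH g (C a) 0 := by
  exact isWeightedHomogeneous_C _ a

theorem MH.one (g : V → G) : MH g 1 0 := by
  exact isWeightedHomogeneous_one ℂ _

theorem MH.add (hp : MH g p d) (hq : MH g q d) : MH g (p + q) d := by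
  exact IsWeightedHomogeneous.add hp hq

theorem MH.sub (hp : MH g p d) (hq : MH g q d) : MH g (p - q) d := by
  exact IsWeightedHomogeneous.sub hp hq

theorem MH.mul (hp : MH g p d) (hq : MH g q d') : MH g (p * q) (d + d') := by
  exact IsWeightedHomogeneous.mul hp hq

theorem MH.pow (hp : MH g p d) (k : ℕ) : MH g (p ^ k) (k • d) := by
  exact IsWeightedHomogeneous.pow hp k

theorem MH.C_mul (hp : MH g p d) (a : ℂ) : MH g (MvPolynomial.C a * p) d := by
  exact IsWeightedHomogeneous.C_mul hp a

theorem MH.prod {ι : Type} (s : Finset ι) {f : ι → MvPolynomial V ℂ} {e : ι → G → ℕ}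
    (h : ∀ i ∈ s, MH g (f i) (e i)) : MH g (∏ i ∈ s, f i) (∑ i ∈ s, e i) := by
  exact IsWeightedHomogeneous.prod s f e h

theorem MH.of_eq (hp : MH g p d) (h : d = d') : MH g p d' := h ▸ hp

theorem lcmh_weight (hp : MH g p d) {s : V →₀ ℕ} (hs : coeff s p ≠ 0) (γ : G) :
    ∑ v, (if g v = γ then s v else 0) = d γ := by
  have h := hp hs
  rw [Finsupp.weight_eq_sum] at h
  rw [← h, Finset.sum_apply]
  refine Finset.sum_congr rfl fun v _ => ?_
  by_cases hv : g v = γ
  · simp [hv]
  · simp [hv, Ne.symm hv]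

theorem lcmh_prod_pow {A : Type} [CommRing A] (hp : MH g p d) {s : V →₀ ℕ} (hs : coeff s p ≠ 0)
    (c : G → A) : ∏ v, c (g v) ^ s v = ∏ γ, c γ ^ d γ := by
  have h : ∀ γ, c γ ^ d γ = ∏ v, (if g v = γ then c (g v) ^ s v else 1) := by
    intro γ
    rw [← lcmh_weight hp hs γ, ← Finset.prod_pow_eq_pow_sum]
    refine Finset.prod_congr rfl fun v _ => ?_
    by_cases hv : g v = γ
    · simp [hv]
    · simp [hv]
  simp_rw [h]
  rw [Finset.prod_comm]
  refine Finset.prod_congr rfl fun v _ => ?_
  simp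

theorem lcmh_aeval_monomial {σ A : Type} [CommRing A] [Algebra ℂ A] (c x : σ → A)
    (s : σ →₀ ℕ) (a : ℂ) :
    aeval (fun v => c v * x v) (monomial s a) =
      (s.prod fun v k => c v ^ k) * aeval x (monomial s a) := by
  rw [aeval_monomial, aeval_monomial]
  simp only [mul_pow, Finsupp.prod_mul]
  ring

theorem MH.isHomogeneous (hp : MH g p d) : p.IsHomogeneous (∑ γ, d γ) := by
  intro s hs
  rw [Finsupp.weight_eq_sum]
  simp_rw [← lcmh_weight hp hs]
  rw [Finset.sum_comm]
  refine Finset.sum_congr rfl fun v _ => ?_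
  simp

theorem MH.scale {A : Type} [CommRing A] [Algebra ℂ A] (hp : MH g p d) (c : G → A) (x : V → A) :
    aeval (fun v => c (g v) * x v) p = (∏ γ, c γ ^ d γ) * aeval x p := by
  conv_lhs => rw [p.as_sum]
  conv_rhs => rw [p.as_sum]
  rw [map_sum, map_sum, Finset.mul_sum]
  refine Finset.sum_congr rfl fun s hs => ?_
  rw [lcmh_aeval_monomial (fun v => c (g v)) x, Finsupp.prod_fintype _ _ (by simp),
    lcmh_prod_pow hp (mem_support_iff.1 hs)]

theorem MH.scale_pderiv {A : Type} [CommRing A] [Algebra ℂ A] (hp : MH g p d) (c : G → A)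
    (x : V → A) (v : V) :
    c (g v) * aeval (fun v => c (g v) * x v) (pderiv v p) =
      (∏ γ, c γ ^ d γ) * aeval x (pderiv v p) := by
  conv_lhs => rw [p.as_sum]
  conv_rhs => rw [p.as_sum]
  rw [map_sum, map_sum, map_sum, Finset.mul_sum, Finset.mul_sum]
  refine Finset.sum_congr rfl fun s hs => ?_
  rw [pderiv_monomial]
  by_cases h0 : s v = 0
  · simp [h0]
  rw [lcmh_aeval_monomial (fun v => c (g v)) x, Finsupp.prod_fintype _ _ (by simp),
    ← lcmh_prod_pow hp (mem_support_iff.1 hs), ← mul_assoc]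
  congr 1
  rw [← Finset.mul_prod_erase Finset.univ _ (Finset.mem_univ v),
    ← Finset.mul_prod_erase Finset.univ (fun u => c (g u) ^ s u) (Finset.mem_univ v), ← mul_assoc]
  congr 1
  · obtain ⟨k, hk⟩ := Nat.exists_eq_succ_of_ne_zero h0
    simp [hk, pow_succ']
  · refine Finset.prod_congr rfl fun u hu => ?_
    simp [(Finset.ne_of_mem_erase hu).symm]

/-- Euler identity in the group `γ`. -/
theorem MH.euler {A : Type} [CommRing A] [Algebra ℂ A] (hp : MH g p d) (x : V → A) (γ : G) :
    ∑ v, (if g v = γ then x v else 0) * aeval x (pderiv v p) = (d γ : A) * aeval x p := by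
  have h : p.IsWeightedHomogeneous (fun v => if g v = γ then 1 else 0) (d γ) := by
    intro s hs
    rw [Finsupp.weight_eq_sum, ← lcmh_weight hp hs γ]
    refine Finset.sum_congr rfl fun v _ => ?_
    simp
  have h2 := congrArg (aeval x) h.sum_weight_X_mul_pderiv
  rw [map_sum, map_nsmul, nsmul_eq_mul] at h2
  rw [← h2]
  refine Finset.sum_congr rfl fun v _ => ?_
  by_cases hv : g v = γ
  · simp [hv]
  · simp [hv]

/-- Scaling of a homogeneous polynomial. -/
theorem aeval_scale_of_isHomogeneous {σ A : Type} [CommRing A] [Algebra ℂ A]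
    {p : MvPolynomial σ ℂ} {n : ℕ} (hp : p.IsHomogeneous n) (c : A) (x : σ → A) :
    aeval (fun v => c * x v) p = c ^ n * aeval x p := by
  conv_lhs => rw [p.as_sum]
  conv_rhs => rw [p.as_sum]
  rw [map_sum, map_sum, Finset.mul_sum]
  refine Finset.sum_congr rfl fun s hs => ?_
  rw [lcmh_aeval_monomial (fun _ => c) x, Finsupp.prod, Finset.prod_pow_eq_pow_sum,
    hp.degree_eq_sum_deg_support hs]

omit [Fintype G] [DecidableEq G] in
/-- Chain rule. -/
theorem derivation_aeval {A M : Type} [CommRing A] [Algebra ℂ A] [AddCommGroup M] [Module A M]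
    [Module ℂ M] (D : Derivation ℂ A M) (x : V → A) (p : MvPolynomial V ℂ) :
    D (aeval x p) = ∑ v, aeval x (pderiv v p) • D (x v) := by
  induction p using MvPolynomial.induction_on with
  | C a => simp [Derivation.map_algebraMap]
  | add p q hp hq => simp [hp, hq, add_smul, Finset.sum_add_distrib]
  | mul_X p i hp =>
    rw [map_mul, aeval_X, Derivation.leibniz, hp, Finset.smul_sum]
    simp only [Derivation.leibniz, pderiv_X, smul_eq_mul, map_add, map_mul, aeval_X, add_smul,
      Finset.sum_add_distrib, mul_smul]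
    congr 1
    rw [Finset.sum_eq_single i]
    · simp
    · intro b _ hb
      simp [hb.symm]
    · simp

end

end Pool.Agent.P.MP_dc0411_ag
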