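import Pool.Agent.P.MP_dc0411_ag.LcDefs
import Pool.Agent.P.MP_dc0411_ag.LcMH

/-!
Chart descriptions of closed subschemes of a projective space and of a product of projective
spaces.
-/

set_option linter.unusedSectionVars false

open CategoryTheory AlgebraicGeometry MvPolynomial

namespace Pool.Agent.P.MP_dc0411_ag

noncomputable section

/-- The regular functions on an open subset of a scheme over `ℂ` form a `ℂ`-algebra. -/
abbrev secAlgebra (Y : Over SpecC) (U : Y.left.Opens) : Algebra ℂ Γ(Y.left, U) := secAlg Y.hom U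

/-- Restriction of a regular function to a smaller open subset. -/
abbrev res {Y : Over SpecC} {U W : Y.left.Opens} (h : W ≤ U) (s : Γ(Y.left, U)) : Γ(Y.left, W) :=
  restr h s

attribute [local instance] secAlgebra

/-- The affine scheme of a `ℂ`-algebra. -/
abbrev specOf (A : Type) [CommRing A] [Algebra ℂ A] : Over SpecC :=
  Over.mk (Spec.map (CommRingCat.ofHom (algebraMap ℂ A)) : Spec (CommRingCat.of A) ⟶ SpecC)

/-- The differential `ds` of a regular function `s`, a Kähler differential over `ℂ`. -/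
abbrev dif {Y : Over SpecC} {U : Y.left.Opens} (s : Γ(Y.left, U)) : Ω[Γ(Y.left, U)⁄ℂ] :=
  KaehlerDifferential.D ℂ Γ(Y.left, U) s

/-- Restriction as a homomorphism of `ℂ`-algebras. -/
def resAlg {Y : Over SpecC} {U W : Y.left.Opens} (h : W ≤ U) :
    Γ(Y.left, U) →ₐ[ℂ] Γ(Y.left, W) where
  toRingHom := (Y.left.presheaf.map (homOfLE h).op).hom
  commutes' c := by
    have h1 := Scheme.Hom.appLE_map Y.hom (U := ⊤) (V := U) le_top (homOfLE h).op
    exact congrArg (fun f : Γ(SpecC, ⊤) ⟶ Γ(Y.left, W) =>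
      f.hom ((Scheme.ΓSpecIso (CommRingCat.of ℂ)).inv.hom c)) h1

theorem resAlg_apply {Y : Over SpecC} {U W : Y.left.Opens} (h : W ≤ U) (s : Γ(Y.left, U)) :
    resAlg h s = res h s := rfl

theorem res_res {Y : Over SpecC} {U W T : Y.left.Opens} (h : W ≤ U) (h' : T ≤ W)
    (s : Γ(Y.left, U)) : res h' (res h s) = res (h'.trans h) s := by
  change (Y.left.presheaf.map (homOfLE h).op ≫ Y.left.presheaf.map (homOfLE h').op) s = _
  rw [← Functor.map_comp]
  rfl

theorem res_aeval {Y : Over SpecC} {U W : Y.left.Opens} (h : W ≤ U) {V : Type}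
    (Z : V → Γ(Y.left, U)) (p : MvPolynomial V ℂ) :
    res h (aeval Z p) = aeval (fun v => res h (Z v)) p := by
  rw [← resAlg_apply, ← AlgHom.comp_apply, comp_aeval]
  rfl

theorem basicOpen_res' {Y : Over SpecC} {U W : Y.left.Opens} (h : W ≤ U) (s : Γ(Y.left, U)) :
    Y.left.basicOpen (res h s) = W ⊓ Y.left.basicOpen s :=
  Y.left.basicOpen_res s (homOfLE h).op

/-- `Y` is the closed subscheme of `Proj ℂ[σ]` defined by the homogeneous ideal `a`. -/
structure PData {σ : Type} (a : Ideal (MvPolynomial σ ℂ)) (Y : Over SpecC) where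
  U : σ → Y.left.Opens
  aff : ∀ j, IsAffineOpen (U j)
  cover : ⨆ j, U j = ⊤
  W : ∀ j, σ → Γ(Y.left, U j)
  surj : ∀ j, Function.Surjective (aeval (W j) : MvPolynomial σ ℂ →ₐ[ℂ] Γ(Y.left, U j))
  ker : ∀ j, RingHom.ker (aeval (W j) : MvPolynomial σ ℂ →ₐ[ℂ] Γ(Y.left, U j)) =
    a ⊔ Ideal.span {X j - 1}
  inter : ∀ j k, Y.left.basicOpen (W j k) = U j ⊓ U k
  trans : ∀ j k i, res (inf_le_left : U j ⊓ U k ≤ U j) (W j i) =
    res inf_le_left (W j k) * res inf_le_right (W k i)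
  pts : ∀ (A : Type) [CommRing A] [Algebra ℂ A] (z : σ → A), (∀ p ∈ a, aeval z p = 0) →
    (∀ P : PrimeSpectrum A, ∃ j, z j ∉ P.asIdeal) →
    ∃ f : specOf A ⟶ Y, ∀ (j : σ) (p : MvPolynomial σ ℂ) (n : ℕ), p.IsHomogeneous n →
      ∀ P : PrimeSpectrum A, f.left P ∈ Y.left.basicOpen (aeval (W j) p) ↔
        z j ∉ P.asIdeal ∧ aeval z p ∉ P.asIdeal

variable {V G R : Type} [Fintype V] [DecidableEq V] [Fintype G] [DecidableEq G]

/-- `Y` is the closed subscheme of a product of projective spaces defined by the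
multi-homogeneous equations `F`. -/
structure MPData (g : V → G) (F : R → MvPolynomial V ℂ) (Y : Over SpecC) where
  U : Chart g → Y.left.Opens
  aff : ∀ I, IsAffineOpen (U I)
  cover : ⨆ I, U I = ⊤
  Z : ∀ I, V → Γ(Y.left, U I)
  surj : ∀ I, Function.Surjective (aeval (Z I) : MvPolynomial V ℂ →ₐ[ℂ] Γ(Y.left, U I))
  ker : ∀ I, RingHom.ker (aeval (Z I) : MvPolynomial V ℂ →ₐ[ℂ] Γ(Y.left, U I)) =
    Ideal.span (Set.range (rel F I))
  inter : ∀ I J : Chart g, Y.left.basicOpen (∏ γ, Z I (J.1 γ)) = U I ⊓ U J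
  trans : ∀ (I J : Chart g) (v : V), res (inf_le_left : U I ⊓ U J ≤ U I) (Z I v) =
    res inf_le_left (Z I (J.1 (g v))) * res inf_le_right (Z J v)
  pts : ∀ (A : Type) [CommRing A] [Algebra ℂ A] (z : V → A), (∀ r, aeval z (F r) = 0) →
    (∀ P : PrimeSpectrum A, ∃ I : Chart g, ∀ γ, z (I.1 γ) ∉ P.asIdeal) →
    ∃ f : specOf A ⟶ Y, ∀ (I : Chart g) (p : MvPolynomial V ℂ) (d : G → ℕ), MH g p d →
      ∀ P : PrimeSpectrum A, f.left P ∈ Y.left.basicOpen (aeval (Z I) p) ↔
        (∀ γ, z (I.1 γ) ∉ P.asIdeal) ∧ aeval z p ∉ P.asIdeal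

variable {g : V → G} {F : R → MvPolynomial V ℂ} {Y : Over SpecC}

theorem MPData.Z_self (D : MPData g F Y) (I : Chart g) (γ : G) : D.Z I (I.1 γ) = 1 := by
  have h : rel F I (Sum.inr γ) ∈
      RingHom.ker (aeval (D.Z I) : MvPolynomial V ℂ →ₐ[ℂ] Γ(Y.left, D.U I)) := by
    rw [D.ker]
    exact Ideal.subset_span ⟨_, rfl⟩
  rw [RingHom.mem_ker] at h
  simpa [rel, sub_eq_zero] using h

theorem MPData.aeval_F (D : MPData g F Y) (I : Chart g) (r : R) : aeval (D.Z I) (F r) = 0 := by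
  have h : rel F I (Sum.inl r) ∈
      RingHom.ker (aeval (D.Z I) : MvPolynomial V ℂ →ₐ[ℂ] Γ(Y.left, D.U I)) := by
    rw [D.ker]
    exact Ideal.subset_span ⟨_, rfl⟩
  exact h

/-- The open subset where the local equations `P I` of the boundary do not vanish. -/
def MPData.intr (D : MPData g F Y) (P : Chart g → MvPolynomial V ℂ) : Y.left.Opens :=
  ⨆ I, Y.left.basicOpen (aeval (D.Z I) (P I))

end

end Pool.Agent.P.MP_dc0411_ag
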