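import Mathlib

/-!
The coordinate ring of the affine Fermat cubic surface times a line is a domain.
-/

namespace Pool.Agent.P.MP_dc0411_ag

section
open Polynomial

/-- The constant term of the cubic. -/
noncomputable def lcdomA : MvPolynomial (Fin 3) ℂ :=
  1 + MvPolynomial.X 1 ^ 3 - MvPolynomial.X 0 ^ 3

/-- The cubic in the variable `y`. -/
noncomputable def lcdomF : (MvPolynomial (Fin 3) ℂ)[X] := X ^ 3 - C lcdomA

/-- Evaluation at the point `x = 0`, `b = -1`, `ρ = 0`. -/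
noncomputable def lcdomE : MvPolynomial (Fin 3) ℂ →+* ℂ := MvPolynomial.eval ![0, -1, 0]

theorem lcdom_monic : lcdomF.Monic := monic_X_pow_sub_C _ (by norm_num)

theorem lcdom_degree : lcdomF.degree = 3 := degree_X_pow_sub_C (by norm_num) _

theorem lcdom_sq {q : MvPolynomial (Fin 3) ℂ} (hq : q ∈ RingHom.ker lcdomE ^ 2) :
    lcdomE (MvPolynomial.pderiv 1 q) = 0 := by
  rw [pow_two] at hq
  refine Submodule.mul_induction_on hq ?_ ?_
  · intro a ha b hb
    rw [RingHom.mem_ker] at ha hb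
    rw [Derivation.leibniz, smul_eq_mul, smul_eq_mul, map_add, map_mul, map_mul, ha, hb,
      zero_mul, zero_mul, add_zero]
  · intro a b ha hb
    rw [map_add, map_add, ha, hb, add_zero]

theorem lcdom_irreducible : Irreducible lcdomF := by
  have hprime : (RingHom.ker lcdomE).IsPrime := RingHom.ker_isPrime _
  refine irreducible_of_eisenstein_criterion hprime ?_ ?_ ?_ ?_ lcdom_monic.isPrimitive
  · rw [lcdom_monic.leadingCoeff]
    exact (Ideal.ne_top_iff_one _).mp hprime.ne_top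
  · intro n hn
    rw [lcdom_degree] at hn
    have hn' : n < 3 := by exact_mod_cast hn
    rw [lcdomF, coeff_sub, coeff_X_pow, coeff_C, if_neg (by omega), zero_sub]
    refine neg_mem ?_
    split_ifs
    · rw [RingHom.mem_ker]
      simp [lcdomA, lcdomE]
      norm_num
    · exact zero_mem _
  · rw [lcdom_degree]
    norm_num
  · rw [lcdomF, coeff_sub, coeff_X_pow, coeff_C, if_neg (by norm_num), if_pos rfl, zero_sub,
      neg_mem_iff]
    intro h
    have h1 := lcdom_sq h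
    simp [lcdomA, lcdomE, MvPolynomial.pderiv_X] at h1

theorem lcdom_root : AdjoinRoot.root lcdomF ^ 3 = AdjoinRoot.of lcdomF lcdomA := by
  have h := AdjoinRoot.eval₂_root lcdomF
  rw [lcdomF, eval₂_sub, eval₂_pow, eval₂_X, eval₂_C, sub_eq_zero] at h
  exact h

end

theorem exists_fermat_domain : ∃ (A : Type) (_ : CommRing A) (_ : Algebra ℂ A) (x y b ρ : A),
    IsDomain A ∧ x ^ 3 + y ^ 3 = 1 + b ^ 3 ∧ 1 + b ^ 3 ≠ 0 ∧ x ^ 3 - 1 ≠ 0 ∧
      ∀ (B : Type) [CommRing B] [Algebra ℂ B] (x' y' b' ρ' : B), x' ^ 3 + y' ^ 3 = 1 + b' ^ 3 →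
        ∃ η : A →ₐ[ℂ] B, η x = x' ∧ η y = y' ∧ η b = b' ∧ η ρ = ρ' := by
  have hinj : Function.Injective (AdjoinRoot.of lcdomF) :=
    AdjoinRoot.of.injective_of_degree_ne_zero (by rw [lcdom_degree]; norm_num)
  refine ⟨AdjoinRoot lcdomF, inferInstance, inferInstance,
    AdjoinRoot.of lcdomF (MvPolynomial.X 0), AdjoinRoot.root lcdomF,
    AdjoinRoot.of lcdomF (MvPolynomial.X 1), AdjoinRoot.of lcdomF (MvPolynomial.X 2),
    AdjoinRoot.isDomain_of_prime lcdom_irreducible.prime, ?_, ?_, ?_, ?_⟩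
  · rw [lcdom_root, lcdomA, map_sub, map_add, map_one, map_pow, map_pow]
    ring
  · intro h
    have h1 : (1 + MvPolynomial.X 1 ^ 3 : MvPolynomial (Fin 3) ℂ) = 0 :=
      hinj (by rw [map_add, map_one, map_pow, h, map_zero])
    simpa using congrArg (MvPolynomial.eval fun _ => (0 : ℂ)) h1
  · intro h
    have h1 : (MvPolynomial.X 0 ^ 3 - 1 : MvPolynomial (Fin 3) ℂ) = 0 :=
      hinj (by rw [map_sub, map_one, map_pow, h, map_zero])
    simpa using congrArg (MvPolynomial.eval fun _ => (0 : ℂ)) h1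
  · intro B _ _ x' y' b' ρ' h
    have h1 : lcdomF.eval₂ (MvPolynomial.aeval ![x', b', ρ'] :
        MvPolynomial (Fin 3) ℂ →ₐ[ℂ] B) y' = 0 := by
      rw [lcdomF, Polynomial.eval₂_sub, Polynomial.eval₂_pow, Polynomial.eval₂_X,
        Polynomial.eval₂_C]
      simp [lcdomA]
      linear_combination h
    refine ⟨AdjoinRoot.liftAlgHom lcdomF (MvPolynomial.aeval ![x', b', ρ']) y' h1, ?_, ?_, ?_,
      ?_⟩ <;> simp

end Pool.Agent.P.MP_dc0411_ag
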