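import Pool.Agent.P.MP_dc0411_ag.LcAsm

/-!
The threefold in `ℙ³ × ℙ¹ × ℙ¹ × ℙ²` with coordinates
`(x, y, a, b; τ₀, τ₁; t₀, t₁; q, r, w) = (X 0, …, X 10)` and its boundary.
-/

open MvPolynomial

namespace Pool.Agent.P.MP_dc0411_ag

noncomputable section

/-- The groups of variables. -/
def gE : Fin 11 → Fin 4 := ![0, 0, 0, 0, 1, 1, 2, 2, 3, 3, 3]

/-- The four equations. -/
def FE : Fin 4 → MvPolynomial (Fin 11) ℂ :=
  ![X 0 ^ 3 + X 1 ^ 3 - X 2 ^ 3 - X 3 ^ 3,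
    X 2 * X 5 - X 3 * X 4,
    (X 2 ^ 3 + X 3 ^ 3) * X 7 - (X 0 ^ 3 - X 2 ^ 3) * X 6,
    X 7 ^ 3 * X 9 - X 6 ^ 3 * X 10]

/-- Their multi-degrees. -/
def dE : Fin 4 → Fin 4 → ℕ := ![![3, 0, 0, 0], ![1, 1, 0, 0], ![3, 0, 1, 0], ![0, 0, 3, 1]]

/-- The local equations of the boundary in the chart `I`. -/
def hE (I : Chart gE) : Fin 7 → MvPolynomial (Fin 11) ℂ :=
  ![X 4 * X 5 * (X 4 - X 5),
    if I.1 1 = 4 then X 2 else X 3,
    if I.1 2 = 6 then X 2 ^ 3 + X 3 ^ 3 else X 0 ^ 3 - X 2 ^ 3,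
    X 8,
    X 8 + X 9 + C 2 * X 10,
    X 8 + C 2 * X 9 - X 10,
    X 8 - C 3 * X 9 + X 10]

/-- `K + D = O(7, 1, 1, 2)`. -/
def mE : Fin 4 → ℕ := ![7, 1, 1, 2]

/-- The chart `a = τ₀ = t₀ = q = 1`. -/
def I₀ : Chart gE := ⟨![2, 4, 6, 8], by decide⟩

/-- The chart `a = τ₀ = t₁ = q = 1`. -/
def I₁ : Chart gE := ⟨![2, 4, 7, 8], by decide⟩

theorem chart_one (I : Chart gE) : I.1 1 = 4 ∨ I.1 1 = 5 := by
  have h := I.2 1
  generalize I.1 1 = v at h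
  revert v
  decide

theorem chart_two (I : Chart gE) : I.1 2 = 6 ∨ I.1 2 = 7 := by
  have h := I.2 2
  generalize I.1 2 = v at h
  revert v
  decide

theorem chart_zero (I : Chart gE) : I.1 0 = 0 ∨ I.1 0 = 1 ∨ I.1 0 = 2 ∨ I.1 0 = 3 := by
  have h := I.2 0
  generalize I.1 0 = v at h
  revert v
  decide

theorem chart_three (I : Chart gE) : I.1 3 = 8 ∨ I.1 3 = 9 ∨ I.1 3 = 10 := by
  have h := I.2 3
  generalize I.1 3 = v at h
  revert v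
  decide

theorem lcex_X0 (v : Fin 11) (hv : gE v = 0) : MH gE (X v) ![1, 0, 0, 0] :=
  (MH.X gE v).of_eq (by rw [hv]; decide)

theorem lcex_X1 (v : Fin 11) (hv : gE v = 1) : MH gE (X v) ![0, 1, 0, 0] :=
  (MH.X gE v).of_eq (by rw [hv]; decide)

theorem lcex_X2 (v : Fin 11) (hv : gE v = 2) : MH gE (X v) ![0, 0, 1, 0] :=
  (MH.X gE v).of_eq (by rw [hv]; decide)

theorem lcex_X3 (v : Fin 11) (hv : gE v = 3) : MH gE (X v) ![0, 0, 0, 1] :=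
  (MH.X gE v).of_eq (by rw [hv]; decide)

theorem lcex_cube0 (v : Fin 11) (hv : gE v = 0) : MH gE (X v ^ 3) ![3, 0, 0, 0] :=
  ((lcex_X0 v hv).pow 3).of_eq (by decide)

theorem lcex_cube2 (v : Fin 11) (hv : gE v = 2) : MH gE (X v ^ 3) ![0, 0, 3, 0] :=
  ((lcex_X2 v hv).pow 3).of_eq (by decide)

theorem FE_mh (r : Fin 4) : MH gE (FE r) (dE r) := by
  fin_cases r
  · exact (((lcex_cube0 0 rfl).add (lcex_cube0 1 rfl)).sub (lcex_cube0 2 rfl)).sub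
      (lcex_cube0 3 rfl)
  · exact (((lcex_X0 2 rfl).mul (lcex_X1 5 rfl)).sub
      ((lcex_X0 3 rfl).mul (lcex_X1 4 rfl))).of_eq (by decide)
  · exact ((((lcex_cube0 2 rfl).add (lcex_cube0 3 rfl)).mul (lcex_X2 7 rfl)).sub
      (((lcex_cube0 0 rfl).sub (lcex_cube0 2 rfl)).mul (lcex_X2 6 rfl))).of_eq (by decide)
  · exact (((lcex_cube2 7 rfl).mul (lcex_X3 9 rfl)).sub
      ((lcex_cube2 6 rfl).mul (lcex_X3 10 rfl))).of_eq (by decide)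

theorem hE_mh (I : Chart gE) (s : Fin 7) : ∃ d, MH gE (hE I s) d := by
  fin_cases s
  · exact ⟨_, ((lcex_X1 4 rfl).mul (lcex_X1 5 rfl)).mul ((lcex_X1 4 rfl).sub (lcex_X1 5 rfl))⟩
  · refine ⟨![1, 0, 0, 0], ?_⟩
    change MH gE (if I.1 1 = 4 then X 2 else X 3) _
    split_ifs
    · exact lcex_X0 2 rfl
    · exact lcex_X0 3 rfl
  · refine ⟨![3, 0, 0, 0], ?_⟩
    change MH gE (if I.1 2 = 6 then X 2 ^ 3 + X 3 ^ 3 else X 0 ^ 3 - X 2 ^ 3) _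
    split_ifs
    · exact (lcex_cube0 2 rfl).add (lcex_cube0 3 rfl)
    · exact (lcex_cube0 0 rfl).sub (lcex_cube0 2 rfl)
  · exact ⟨_, lcex_X3 8 rfl⟩
  · exact ⟨_, ((lcex_X3 8 rfl).add (lcex_X3 9 rfl)).add ((lcex_X3 10 rfl).C_mul 2)⟩
  · exact ⟨_, ((lcex_X3 8 rfl).add ((lcex_X3 9 rfl).C_mul 2)).sub (lcex_X3 10 rfl)⟩
  · exact ⟨_, ((lcex_X3 8 rfl).sub ((lcex_X3 9 rfl).C_mul 3)).add (lcex_X3 10 rfl)⟩

/-- The value of the product of the boundary equations. -/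
theorem lcex_aeval_P {A : Type} [CommRing A] [Algebra ℂ A] (I : Chart gE) (x : Fin 11 → A) :
    aeval x (∏ s, hE I s) =
      x 4 * x 5 * (x 4 - x 5) * (if I.1 1 = 4 then x 2 else x 3) *
        (if I.1 2 = 6 then x 2 ^ 3 + x 3 ^ 3 else x 0 ^ 3 - x 2 ^ 3) * x 8 *
        (x 8 + x 9 + algebraMap ℂ A 2 * x 10) * (x 8 + algebraMap ℂ A 2 * x 9 - x 10) *
        (x 8 - algebraMap ℂ A 3 * x 9 + x 10) := by
  rw [Fin.prod_univ_seven]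
  change aeval x ((X 4 * X 5 * (X 4 - X 5) : MvPolynomial (Fin 11) ℂ) *
    (if I.1 1 = 4 then X 2 else X 3) *
    (if I.1 2 = 6 then X 2 ^ 3 + X 3 ^ 3 else X 0 ^ 3 - X 2 ^ 3) * X 8 *
    (X 8 + X 9 + C 2 * X 10) * (X 8 + C 2 * X 9 - X 10) * (X 8 - C 3 * X 9 + X 10)) = _
  split_ifs <;> simp only [map_mul, map_add, map_sub, map_pow, aeval_X, aeval_C]

theorem lcex_z {A : Type} [CommRing A] (I J : Chart gE) (x : Fin 11 → A) (c : A)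
    (hJ : x (J.1 1) = 1) (hI : c * x (I.1 1) = 1) (h : x 2 * x 5 - x 3 * x 4 = 0) :
    (if J.1 1 = 4 then x 2 else x 3) = c * (if I.1 1 = 4 then x 2 else x 3) := by
  rcases chart_one I with h1 | h1 <;> rcases chart_one J with h2 | h2 <;>
    rw [h1] at hI ⊢ <;> rw [h2] at hJ ⊢
  · rw [if_pos rfl]
    linear_combination (-x 2) * hI + c * x 2 * hJ
  · rw [if_pos rfl, if_neg (by decide)]
    linear_combination (-x 3) * hI + c * x 2 * hJ - c * h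
  · rw [if_pos rfl, if_neg (by decide)]
    linear_combination (-x 2) * hI + c * x 3 * hJ + c * h
  · rw [if_neg (by decide)]
    linear_combination (-x 3) * hI + c * x 3 * hJ

theorem lcex_eps {A : Type} [CommRing A] (I J : Chart gE) (x : Fin 11 → A) (c u v : A)
    (hJ : x (J.1 2) = 1) (hI : c * x (I.1 2) = 1) (h : u * x 7 - v * x 6 = 0) :
    (if J.1 2 = 6 then u else v) = c * (if I.1 2 = 6 then u else v) := by
  rcases chart_two I with h1 | h1 <;> rcases chart_two J with h2 | h2 <;>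
    rw [h1] at hI ⊢ <;> rw [h2] at hJ ⊢
  · rw [if_pos rfl]
    linear_combination (-u) * hI + c * u * hJ
  · rw [if_pos rfl, if_neg (by decide)]
    linear_combination (-v) * hI + c * u * hJ - c * h
  · rw [if_pos rfl, if_neg (by decide)]
    linear_combination (-u) * hI + c * v * hJ + c * h
  · rw [if_neg (by decide)]
    linear_combination (-v) * hI + c * v * hJ

theorem adjE : Adj gE FE dE (fun I => ∏ s, hE I s) mE := by
  intro A _ _ I J x c hJ hI hF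
  have h1 : x 2 * x 5 - x 3 * x 4 = 0 := by
    have h := hF 1
    change aeval x (X 2 * X 5 - X 3 * X 4 : MvPolynomial (Fin 11) ℂ) = 0 at h
    simpa only [map_mul, map_sub, aeval_X] using h
  have h2 : (x 2 ^ 3 + x 3 ^ 3) * x 7 - (x 0 ^ 3 - x 2 ^ 3) * x 6 = 0 := by
    have h := hF 2
    change aeval x ((X 2 ^ 3 + X 3 ^ 3) * X 7 - (X 0 ^ 3 - X 2 ^ 3) * X 6 :
      MvPolynomial (Fin 11) ℂ) = 0 at h
    simpa only [map_mul, map_sub, map_add, map_pow, aeval_X] using h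
  have hz := lcex_z I J x (c 1) (hJ 1) (hI 1) h1
  have he := lcex_eps I J x (c 2) _ _ (hJ 2) (hI 2) h2
  have e1 : ∏ γ, c γ ^ mE γ = c 0 ^ 7 * c 1 * c 2 * c 3 ^ 2 := by
    rw [Fin.prod_univ_four]
    change c 0 ^ 7 * c 1 ^ 1 * c 2 ^ 1 * c 3 ^ 2 = _
    ring
  have e2 : ∏ v, c (gE v) = c 0 ^ 4 * c 1 ^ 2 * c 2 ^ 2 * c 3 ^ 3 := by
    simp only [Fin.prod_univ_succ, Fin.prod_univ_zero]
    change c 0 * (c 0 * (c 0 * (c 0 * (c 1 * (c 1 * (c 2 * (c 2 * (c 3 * (c 3 * (c 3 *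
      1)))))))))) = _
    ring
  have e3 : ∏ r, ∏ γ, c γ ^ dE r γ = c 0 ^ 7 * c 1 * c 2 ^ 4 * c 3 := by
    simp only [Fin.prod_univ_four]
    change (c 0 ^ 3 * c 1 ^ 0 * c 2 ^ 0 * c 3 ^ 0) * (c 0 ^ 1 * c 1 ^ 1 * c 2 ^ 0 * c 3 ^ 0) *
      (c 0 ^ 3 * c 1 ^ 0 * c 2 ^ 1 * c 3 ^ 0) * (c 0 ^ 0 * c 1 ^ 0 * c 2 ^ 3 * c 3 ^ 1) = _
    ring
  change _ * _ * aeval x (∏ s, hE J s) = _ * aeval (fun v => c (gE v) * x v) (∏ s, hE I s)
  rw [e1, e2, e3, lcex_aeval_P, lcex_aeval_P, hz, he]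
  change _ = _ * (c 1 * x 4 * (c 1 * x 5) * (c 1 * x 4 - c 1 * x 5) *
    (if I.1 1 = 4 then c 0 * x 2 else c 0 * x 3) *
    (if I.1 2 = 6 then (c 0 * x 2) ^ 3 + (c 0 * x 3) ^ 3 else (c 0 * x 0) ^ 3 - (c 0 * x 2) ^ 3) *
    (c 3 * x 8) * (c 3 * x 8 + c 3 * x 9 + algebraMap ℂ A 2 * (c 3 * x 10)) *
    (c 3 * x 8 + algebraMap ℂ A 2 * (c 3 * x 9) - c 3 * x 10) *
    (c 3 * x 8 - algebraMap ℂ A 3 * (c 3 * x 9) + c 3 * x 10))
  split_ifs <;> ring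

end

end Pool.Agent.P.MP_dc0411_ag
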