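import Pool.Agent.P.MP_dc0411_ag.LcLoc

/-!
The threefold is integral.
-/

open CategoryTheory AlgebraicGeometry MvPolynomial

namespace Pool.Agent.P.MP_dc0411_ag

attribute [local instance] secAlgebra

theorem lcint_top {T : Type} [TopologicalSpace T] {A B S : Set T} (hA : IsIrreducible A)
    (hB : IsIrreducible B) (hAo : IsOpen A) (hAB : (B ∩ A).Nonempty) (hS : S ⊆ A ∪ B)
    (hd : Dense S) : IrreducibleSpace T := by
  have h1 : B ⊆ closure A :=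
    (subset_closure_inter_of_isPreirreducible_of_isOpen hB.isPreirreducible hAo hAB).trans
      (closure_mono Set.inter_subset_right)
  have h2 : S ⊆ closure A := hS.trans (Set.union_subset subset_closure h1)
  have h3 : closure A = Set.univ := by
    refine Set.eq_univ_of_univ_subset ?_
    rw [← hd.closure_eq]
    exact closure_minimal h2 isClosed_closure
  rw [irreducibleSpace_def]
  change IsIrreducible (Set.univ : Set T)
  rw [← h3]
  exact hA.closure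

theorem lcint_irr {T : Scheme.{0}} {W : T.Opens} (hW : IsAffineOpen W) [IsDomain Γ(T, W)] :
    IsIrreducible (W : Set T) := by
  have h0 : IrreducibleSpace (Spec Γ(T, W)) :=
    inferInstanceAs (IrreducibleSpace (PrimeSpectrum Γ(T, W)))
  have h1 := (IrreducibleSpace.isIrreducible_univ (Spec Γ(T, W))).image hW.fromSpec
    hW.fromSpec.continuous.continuousOn
  rwa [Set.image_univ, hW.range_fromSpec] at h1

theorem lcint_mul {T : Scheme.{0}} {U : T.Opens} {y : T} {s t : Γ(T, U)} :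
    y ∈ T.basicOpen (s * t) ↔ y ∈ T.basicOpen s ∧ y ∈ T.basicOpen t := by
  rw [Scheme.basicOpen_mul]
  rfl

section

variable {Y : Over SpecC} (D : MPData gE FE Y) {y : Y.left}

theorem lcint_fac {I : Chart gE} (hy : y ∈ D.U I) (hX : y ∈ D.intr fun I => ∏ s, hE I s) :
    y ∈ Y.left.basicOpen (D.Z I 4) ∧
      y ∈ Y.left.basicOpen (if I.1 1 = 4 then D.Z I 2 else D.Z I 3) ∧
      y ∈ Y.left.basicOpen
        (if I.1 2 = 6 then D.Z I 2 ^ 3 + D.Z I 3 ^ 3 else D.Z I 0 ^ 3 - D.Z I 2 ^ 3) ∧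
      y ∈ Y.left.basicOpen (D.Z I 8) := by
  have h1 : y ∈ Y.left.basicOpen (aeval (D.Z I) (∏ s, hE I s)) := by
    rw [D.basicOpen_P adjE I]
    exact ⟨hy, hX⟩
  rw [lcex_aeval_P] at h1
  simp only [lcint_mul] at h1
  exact ⟨h1.1.1.1.1.1.1.1.1, h1.1.1.1.1.1.2, h1.1.1.1.1.2, h1.1.1.1.2⟩

theorem lcint_mem {I : Chart gE} (J : Chart gE)
    (h : ∀ γ, y ∈ Y.left.basicOpen (D.Z I (J.1 γ))) : y ∈ D.U J := by
  have h1 : y ∈ Y.left.basicOpen (∏ γ, D.Z I (J.1 γ)) := by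
    rw [Fin.prod_univ_four]
    simp only [lcint_mul]
    exact ⟨⟨⟨h 0, h 1⟩, h 2⟩, h 3⟩
  rw [D.inter] at h1
  exact h1.2

theorem lcint_cover (hX : y ∈ D.intr fun I => ∏ s, hE I s) : y ∈ D.U I₀ ∨ y ∈ D.U I₁ := by
  have h0 := hX
  rw [MPData.intr, TopologicalSpace.Opens.mem_iSup] at h0
  obtain ⟨I, hI⟩ := h0
  have hy : y ∈ D.U I := Y.left.basicOpen_le _ hI
  obtain ⟨a4, e1, -, a8⟩ := lcint_fac D hy hX
  have f2 : D.Z I 2 * D.Z I 5 = D.Z I 3 * D.Z I 4 := by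
    have h := D.aeval_F I 1
    change aeval (D.Z I) (X 2 * X 5 - X 3 * X 4 : MvPolynomial (Fin 11) ℂ) = 0 at h
    rw [map_sub, map_mul, map_mul, aeval_X, aeval_X, aeval_X, aeval_X] at h
    exact sub_eq_zero.1 h
  have a2 : y ∈ Y.left.basicOpen (D.Z I 2) := by
    split_ifs at e1 with h
    · exact e1
    · have h2 : y ∈ Y.left.basicOpen (D.Z I 3 * D.Z I 4) := lcint_mul.2 ⟨e1, a4⟩
      rw [← f2] at h2
      exact (lcint_mul.1 h2).1
  have s2 : y ∈ Y.left.basicOpen (D.Z I (I.1 2)) := by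
    rw [D.Z_self, Scheme.basicOpen_of_isUnit _ isUnit_one]
    exact hy
  rcases chart_two I with h | h
  · left
    refine lcint_mem D (I := I) I₀ fun γ => ?_
    rw [h] at s2
    fin_cases γ
    · exact a2
    · exact a4
    · exact s2
    · exact a8
  · right
    refine lcint_mem D (I := I) I₁ fun γ => ?_
    rw [h] at s2
    fin_cases γ
    · exact a2
    · exact a4
    · exact s2
    · exact a8

theorem lcint_sub (hX : y ∈ D.intr fun I => ∏ s, hE I s) :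
    y ∈ Y.left.basicOpen (aeval (D.Z I₀) (X 2 ^ 3 + X 3 ^ 3 : MvPolynomial (Fin 11) ℂ)) ∨
      y ∈ Y.left.basicOpen (aeval (D.Z I₁) (X 0 ^ 3 - X 2 ^ 3 : MvPolynomial (Fin 11) ℂ)) := by
  rcases lcint_cover D hX with h | h
  · left
    have h1 := (lcint_fac D h hX).2.2.1
    rw [if_pos (show I₀.1 2 = 6 from rfl)] at h1
    rw [map_add, map_pow, map_pow, aeval_X, aeval_X]
    exact h1
  · right
    have h1 := (lcint_fac D h hX).2.2.1
    rw [if_neg (show ¬ I₁.1 2 = 6 by decide)] at h1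
    rw [map_sub, map_pow, map_pow, aeval_X, aeval_X]
    exact h1

theorem lcint_meet : ∃ y : Y.left,
    y ∈ Y.left.basicOpen (aeval (D.Z I₀) (X 2 ^ 3 + X 3 ^ 3 : MvPolynomial (Fin 11) ℂ)) ∧
      y ∈ Y.left.basicOpen (aeval (D.Z I₁) (X 0 ^ 3 - X 2 ^ 3 : MvPolynomial (Fin 11) ℂ)) := by
  have hP : ∀ (P : PrimeSpectrum ℂ) (c : ℂ), c ≠ 0 → c ∉ P.asIdeal := fun P c hc h =>
    P.isPrime.ne_top (Ideal.eq_top_of_isUnit_mem _ h (isUnit_iff_ne_zero.2 hc))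
  have h0 : ∀ γ, (![0, 1, 1, 0, 1, 0, 1, -1, 1, 0, 0] : Fin 11 → ℂ) (I₀.1 γ) ≠ 0 := by
    intro γ
    fin_cases γ
    · exact (one_ne_zero : (1 : ℂ) ≠ 0)
    · exact (one_ne_zero : (1 : ℂ) ≠ 0)
    · exact (one_ne_zero : (1 : ℂ) ≠ 0)
    · exact (one_ne_zero : (1 : ℂ) ≠ 0)
  have h1 : ∀ γ, (![0, 1, 1, 0, 1, 0, 1, -1, 1, 0, 0] : Fin 11 → ℂ) (I₁.1 γ) ≠ 0 := by
    intro γ
    fin_cases γ
    · exact (one_ne_zero : (1 : ℂ) ≠ 0)
    · exact (one_ne_zero : (1 : ℂ) ≠ 0)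
    · exact (neg_ne_zero.2 one_ne_zero : (-1 : ℂ) ≠ 0)
    · exact (one_ne_zero : (1 : ℂ) ≠ 0)
  obtain ⟨f, hf⟩ := D.pts ℂ ![0, 1, 1, 0, 1, 0, 1, -1, 1, 0, 0]
    (fun r => by fin_cases r <;> simp [FE]) (fun P => ⟨I₀, fun γ => hP P _ (h0 γ)⟩)
  refine ⟨f.left (IsLocalRing.closedPoint ℂ), ?_, ?_⟩
  · refine (hf I₀ _ _ ((lcex_cube0 2 rfl).add (lcex_cube0 3 rfl)) _).2
      ⟨fun γ => hP _ _ (h0 γ), hP _ _ ?_⟩
    simp
  · refine (hf I₁ _ _ ((lcex_cube0 0 rfl).sub (lcex_cube0 2 rfl)) _).2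
      ⟨fun γ => hP _ _ (h1 γ), hP _ _ ?_⟩
    simp

end

theorem integralE {Y : Over SpecC} (D : MPData gE FE Y) (hr : IsReduced Y.left)
    (hd : Dense ((D.intr fun I => ∏ s, hE I s : Y.left.Opens) : Set Y.left)) :
    IsIntegral Y.left := by
  have l0 := (D.aff I₀).isLocalization_basicOpen
    (aeval (D.Z I₀) (X 2 ^ 3 + X 3 ^ 3 : MvPolynomial (Fin 11) ℂ))
  have l1 := (D.aff I₁).isLocalization_basicOpen
    (aeval (D.Z I₁) (X 0 ^ 3 - X 2 ^ 3 : MvPolynomial (Fin 11) ℂ))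
  have d0 : IsDomain Γ(Y.left, Y.left.basicOpen
      (aeval (D.Z I₀) (X 2 ^ 3 + X 3 ^ 3 : MvPolynomial (Fin 11) ℂ))) :=
    isDomain_chart₀ (D.Z I₀) (D.surj I₀) (D.ker I₀)
  have d1 : IsDomain Γ(Y.left, Y.left.basicOpen
      (aeval (D.Z I₁) (X 0 ^ 3 - X 2 ^ 3 : MvPolynomial (Fin 11) ℂ))) :=
    isDomain_chart₁ (D.Z I₁) (D.surj I₁) (D.ker I₁)
  have i0 := lcint_irr ((D.aff I₀).basicOpen
    (aeval (D.Z I₀) (X 2 ^ 3 + X 3 ^ 3 : MvPolynomial (Fin 11) ℂ)))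
  have i1 := lcint_irr ((D.aff I₁).basicOpen
    (aeval (D.Z I₁) (X 0 ^ 3 - X 2 ^ 3 : MvPolynomial (Fin 11) ℂ)))
  obtain ⟨y, hy0, hy1⟩ := lcint_meet D
  have hirr : IrreducibleSpace Y.left :=
    lcint_top i0 i1 (TopologicalSpace.Opens.isOpen _) ⟨y, hy1, hy0⟩ (fun y hy => lcint_sub D hy) hd
  exact isIntegral_of_irreducibleSpace_of_isReduced Y.left

end Pool.Agent.P.MP_dc0411_ag
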