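import Pool.Agent.P.MP_dc0411_ag.LcEx
import Pool.Agent.P.MP_dc0411_ag.LcDom

/-!
Two affine open subsets of the threefold whose coordinate rings are domains.
-/

open MvPolynomial

namespace Pool.Agent.P.MP_dc0411_ag

theorem lcloc_core {V ρ B L A : Type} [CommRing B] [Algebra ℂ B] [CommRing L] [Algebra B L]
    [CommRing A] [Algebra ℂ A] [IsDomain A] (Z : V → B) (Q : ρ → MvPolynomial V ℂ)
    (hs : Function.Surjective (aeval Z : MvPolynomial V ℂ →ₐ[ℂ] B))
    (hk : RingHom.ker (aeval Z : MvPolynomial V ℂ →ₐ[ℂ] B) = Ideal.span (Set.range Q))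
    (p : MvPolynomial V ℂ) [IsLocalization.Away (aeval Z p) L] (w : V → A)
    (hw : ∀ r, aeval w (Q r) = 0) (hp : IsUnit (aeval w p)) (η : A →+* L)
    (hC : ∀ c, η (algebraMap ℂ A c) = algebraMap B L (algebraMap ℂ B c))
    (hη : ∀ v, η (w v) = algebraMap B L (Z v)) : IsDomain L := by
  have hle : RingHom.ker (aeval Z : MvPolynomial V ℂ →ₐ[ℂ] B).toRingHom ≤
      RingHom.ker (aeval w : MvPolynomial V ℂ →ₐ[ℂ] A).toRingHom := by
    change RingHom.ker (aeval Z : MvPolynomial V ℂ →ₐ[ℂ] B) ≤ _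
    rw [hk, Ideal.span_le]
    rintro _ ⟨r, rfl⟩
    exact hw r
  obtain ⟨θ, hθ⟩ : ∃ θ : B →+* A, ∀ q, θ (aeval Z q) = aeval w q :=
    ⟨RingHom.liftOfSurjective (aeval Z : MvPolynomial V ℂ →ₐ[ℂ] B).toRingHom hs ⟨_, hle⟩,
      fun q => RingHom.liftOfRightInverse_comp_apply _ _ _ ⟨_, hle⟩ q⟩
  have hu : IsUnit (θ (aeval Z p)) := by rwa [hθ]
  have hq : ∀ q : MvPolynomial V ℂ, η (aeval w q) = algebraMap B L (aeval Z q) := by
    intro q
    induction q using MvPolynomial.induction_on with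
    | C c => rw [aeval_C, aeval_C, hC]
    | add p q hp hq => rw [map_add, map_add, map_add, map_add, hp, hq]
    | mul_X p v hp => rw [map_mul, map_mul, map_mul, map_mul, hp, aeval_X, aeval_X, hη]
  have hid : η.comp (IsLocalization.Away.lift (S := L) (aeval Z p) hu) = RingHom.id L := by
    refine IsLocalization.ringHom_ext (Submonoid.powers (aeval Z p)) (RingHom.ext fun t => ?_)
    obtain ⟨q, rfl⟩ := hs t
    rw [RingHom.comp_apply, RingHom.comp_apply, IsLocalization.Away.lift_eq, hθ, hq]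
    rfl
  have hinj : Function.Injective (IsLocalization.Away.lift (S := L) (aeval Z p) hu) :=
    Function.LeftInverse.injective (g := η) fun t => RingHom.congr_fun hid t
  exact hinj.isDomain _

theorem lcloc_away {A : Type} [CommRing A] [Algebra ℂ A] [IsDomain A] {a : A} (ha : a ≠ 0) :
    ∃ (A' : Type) (_ : CommRing A') (_ : Algebra ℂ A') (φ : A →ₐ[ℂ] A') (i : A'), IsDomain A' ∧
      φ a * i = 1 ∧ ∀ (L : Type) [CommRing L] (η : A →+* L), IsUnit (η a) →
        ∃ η' : A' →+* L, ∀ t, η' (φ t) = η t := by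
  refine ⟨Localization.Away a, inferInstance, inferInstance,
    IsScalarTower.toAlgHom ℂ A (Localization.Away a), IsLocalization.Away.invSelf a,
    IsLocalization.isDomain_localization (powers_le_nonZeroDivisors_of_noZeroDivisors ha),
    IsLocalization.Away.mul_invSelf a, fun L _ η hη => ?_⟩
  exact ⟨IsLocalization.Away.lift a hη, fun t => IsLocalization.Away.lift_eq a hη t⟩

theorem lcloc_rel {A : Type} [CommRing A] [Algebra ℂ A] (I : Chart gE) (x : Fin 11 → A) :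
    (∀ r, aeval x (rel FE I r) = 0) ↔ (x 0 ^ 3 + x 1 ^ 3 - x 2 ^ 3 - x 3 ^ 3 = 0 ∧
      x 2 * x 5 - x 3 * x 4 = 0 ∧ (x 2 ^ 3 + x 3 ^ 3) * x 7 - (x 0 ^ 3 - x 2 ^ 3) * x 6 = 0 ∧
      x 7 ^ 3 * x 9 - x 6 ^ 3 * x 10 = 0) ∧
      x (I.1 0) = 1 ∧ x (I.1 1) = 1 ∧ x (I.1 2) = 1 ∧ x (I.1 3) = 1 := by
  simp [Sum.forall, Fin.forall_fin_succ, rel, FE, sub_eq_zero]

theorem lcloc_rel_of_ker {B : Type} [CommRing B] [Algebra ℂ B] (I : Chart gE) (Z : Fin 11 → B)
    (hk : RingHom.ker (aeval Z : MvPolynomial (Fin 11) ℂ →ₐ[ℂ] B) =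
      Ideal.span (Set.range (rel FE I))) (r : Fin 4 ⊕ Fin 4) : aeval Z (rel FE I r) = 0 := by
  have h : rel FE I r ∈ RingHom.ker (aeval Z : MvPolynomial (Fin 11) ℂ →ₐ[ℂ] B) := by
    rw [hk]
    exact Ideal.subset_span ⟨r, rfl⟩
  exact h

theorem isDomain_chart₀ {B L : Type} [CommRing B] [Algebra ℂ B] [CommRing L] [Algebra B L]
    (Z : Fin 11 → B) (hs : Function.Surjective (aeval Z : MvPolynomial (Fin 11) ℂ →ₐ[ℂ] B))
    (hk : RingHom.ker (aeval Z : MvPolynomial (Fin 11) ℂ →ₐ[ℂ] B) =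
      Ideal.span (Set.range (rel FE I₀)))
    [IsLocalization.Away (aeval Z (X 2 ^ 3 + X 3 ^ 3 : MvPolynomial (Fin 11) ℂ)) L] :
    IsDomain L := by
  let _ : Algebra ℂ L := ((algebraMap B L).comp (algebraMap ℂ B)).toAlgebra
  obtain ⟨⟨r0, r1, r2, r3⟩, r4, r5, r6, r7⟩ := (lcloc_rel I₀ Z).1 (lcloc_rel_of_ker I₀ Z hk)
  change Z 2 = 1 at r4
  change Z 4 = 1 at r5
  change Z 6 = 1 at r6
  change Z 8 = 1 at r7
  have hU : IsUnit (algebraMap B L (aeval Z (X 2 ^ 3 + X 3 ^ 3 : MvPolynomial (Fin 11) ℂ))) :=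
    IsLocalization.Away.algebraMap_isUnit _
  simp only [map_add, map_pow, aeval_X, r4, map_one, one_pow] at hU
  have e0 : Z 0 ^ 3 + Z 1 ^ 3 = 1 + Z 3 ^ 3 := by
    rw [r4] at r0
    linear_combination r0
  have e5 : Z 5 = Z 3 := by
    rw [r4, r5] at r1
    linear_combination r1
  have e7 : (1 + Z 3 ^ 3) * Z 7 = Z 0 ^ 3 - 1 := by
    rw [r4, r6] at r2
    linear_combination r2
  have e10 : Z 10 = Z 7 ^ 3 * Z 9 := by
    rw [r6] at r3
    linear_combination -r3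
  obtain ⟨A, _, _, x, y, b, ρ, _, hA, hu, -, hη⟩ := exists_fermat_domain
  obtain ⟨A', _, _, φ, i, _, hi, hη'⟩ := lcloc_away hu
  obtain ⟨η, hx, hy, hb, hρ⟩ := hη L (algebraMap B L (Z 0)) (algebraMap B L (Z 1))
    (algebraMap B L (Z 3)) (algebraMap B L (Z 9)) (by
      simpa only [map_add, map_pow, map_one] using congrArg (algebraMap B L) e0)
  obtain ⟨η', h'⟩ := hη' L η.toRingHom (by
    change IsUnit (η (1 + b ^ 3))
    rw [map_add, map_pow, map_one, hb]
    exact hU)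
  replace h' : ∀ t, η' (φ t) = η t := h'
  have hA' := congrArg φ hA
  simp only [map_add, map_pow, map_one] at hA' hi
  have hi' := congrArg η' hi
  simp only [map_add, map_mul, map_pow, map_one, h', hb] at hi'
  have h7 : η' ((φ x ^ 3 - 1) * i) = algebraMap B L (Z 7) := by
    have h := congrArg (algebraMap B L) e7
    simp only [map_add, map_mul, map_pow, map_one, map_sub] at h
    simp only [map_mul, map_sub, map_pow, map_one, h', hx]
    linear_combination (-η' i) * h + algebraMap B L (Z 7) * hi'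
  refine lcloc_core Z (rel FE I₀) hs hk (X 2 ^ 3 + X 3 ^ 3)
    ![φ x, φ y, 1, φ b, 1, φ b, 1, (φ x ^ 3 - 1) * i, 1, φ ρ, ((φ x ^ 3 - 1) * i) ^ 3 * φ ρ]
    ((lcloc_rel I₀ _).2 ⟨⟨?_, ?_, ?_, ?_⟩, rfl, rfl, rfl, rfl⟩) ?_ η' (fun c => ?_) fun v => ?_
  · change φ x ^ 3 + φ y ^ 3 - 1 ^ 3 - φ b ^ 3 = 0
    linear_combination hA'
  · change 1 * φ b - φ b * 1 = 0
    ring
  · change (1 ^ 3 + φ b ^ 3) * ((φ x ^ 3 - 1) * i) - (φ x ^ 3 - 1 ^ 3) * 1 = 0
    linear_combination (φ x ^ 3 - 1) * hi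
  · change ((φ x ^ 3 - 1) * i) ^ 3 * φ ρ - 1 ^ 3 * (((φ x ^ 3 - 1) * i) ^ 3 * φ ρ) = 0
    ring
  · rw [map_add, map_pow, map_pow, aeval_X, aeval_X]
    change IsUnit (1 ^ 3 + φ b ^ 3)
    rw [one_pow]
    exact IsUnit.of_mul_eq_one _ hi
  · rw [← φ.commutes, h', η.commutes]
    rfl
  · fin_cases v
    · exact (h' x).trans hx
    · exact (h' y).trans hy
    · exact (map_one η').trans (by rw [← map_one (algebraMap B L), ← r4]; rfl)
    · exact (h' b).trans hb
    · exact (map_one η').trans (by rw [← map_one (algebraMap B L), ← r5]; rfl)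
    · exact (h' b).trans (hb.trans (congrArg (algebraMap B L) e5.symm))
    · exact (map_one η').trans (by rw [← map_one (algebraMap B L), ← r6]; rfl)
    · exact h7
    · exact (map_one η').trans (by rw [← map_one (algebraMap B L), ← r7]; rfl)
    · exact (h' ρ).trans hρ
    · change η' (((φ x ^ 3 - 1) * i) ^ 3 * φ ρ) = algebraMap B L (Z 10)
      rw [map_mul, map_pow, h7, h', hρ, e10, map_mul, map_pow]

theorem isDomain_chart₁ {B L : Type} [CommRing B] [Algebra ℂ B] [CommRing L] [Algebra B L]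
    (Z : Fin 11 → B) (hs : Function.Surjective (aeval Z : MvPolynomial (Fin 11) ℂ →ₐ[ℂ] B))
    (hk : RingHom.ker (aeval Z : MvPolynomial (Fin 11) ℂ →ₐ[ℂ] B) =
      Ideal.span (Set.range (rel FE I₁)))
    [IsLocalization.Away (aeval Z (X 0 ^ 3 - X 2 ^ 3 : MvPolynomial (Fin 11) ℂ)) L] :
    IsDomain L := by
  let _ : Algebra ℂ L := ((algebraMap B L).comp (algebraMap ℂ B)).toAlgebra
  obtain ⟨⟨r0, r1, r2, r3⟩, r4, r5, r6, r7⟩ := (lcloc_rel I₁ Z).1 (lcloc_rel_of_ker I₁ Z hk)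
  change Z 2 = 1 at r4
  change Z 4 = 1 at r5
  change Z 7 = 1 at r6
  change Z 8 = 1 at r7
  have hU : IsUnit (algebraMap B L (aeval Z (X 0 ^ 3 - X 2 ^ 3 : MvPolynomial (Fin 11) ℂ))) :=
    IsLocalization.Away.algebraMap_isUnit _
  simp only [map_sub, map_pow, aeval_X, r4, map_one, one_pow] at hU
  have e0 : Z 0 ^ 3 + Z 1 ^ 3 = 1 + Z 3 ^ 3 := by
    rw [r4] at r0
    linear_combination r0
  have e5 : Z 5 = Z 3 := by
    rw [r4, r5] at r1
    linear_combination r1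
  have e6 : (Z 0 ^ 3 - 1) * Z 6 = 1 + Z 3 ^ 3 := by
    rw [r4, r6] at r2
    linear_combination -r2
  have e9 : Z 9 = Z 6 ^ 3 * Z 10 := by
    rw [r6] at r3
    linear_combination r3
  obtain ⟨A, _, _, x, y, b, ρ, _, hA, -, hu, hη⟩ := exists_fermat_domain
  obtain ⟨A', _, _, φ, i, _, hi, hη'⟩ := lcloc_away hu
  obtain ⟨η, hx, hy, hb, hρ⟩ := hη L (algebraMap B L (Z 0)) (algebraMap B L (Z 1))
    (algebraMap B L (Z 3)) (algebraMap B L (Z 10)) (by
      simpa only [map_add, map_pow, map_one] using congrArg (algebraMap B L) e0)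
  obtain ⟨η', h'⟩ := hη' L η.toRingHom (by
    change IsUnit (η (x ^ 3 - 1))
    rw [map_sub, map_pow, map_one, hx]
    exact hU)
  replace h' : ∀ t, η' (φ t) = η t := h'
  have hA' := congrArg φ hA
  simp only [map_add, map_sub, map_pow, map_one] at hA' hi
  have hi' := congrArg η' hi
  simp only [map_sub, map_mul, map_pow, map_one, h', hx] at hi'
  have h6 : η' ((1 + φ b ^ 3) * i) = algebraMap B L (Z 6) := by
    have h := congrArg (algebraMap B L) e6
    simp only [map_add, map_mul, map_pow, map_one, map_sub] at h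
    simp only [map_mul, map_add, map_pow, map_one, h', hb]
    linear_combination (-η' i) * h + algebraMap B L (Z 6) * hi'
  refine lcloc_core Z (rel FE I₁) hs hk (X 0 ^ 3 - X 2 ^ 3)
    ![φ x, φ y, 1, φ b, 1, φ b, (1 + φ b ^ 3) * i, 1, 1, ((1 + φ b ^ 3) * i) ^ 3 * φ ρ, φ ρ]
    ((lcloc_rel I₁ _).2 ⟨⟨?_, ?_, ?_, ?_⟩, rfl, rfl, rfl, rfl⟩) ?_ η' (fun c => ?_) fun v => ?_
  · change φ x ^ 3 + φ y ^ 3 - 1 ^ 3 - φ b ^ 3 = 0
    linear_combination hA'
  · change 1 * φ b - φ b * 1 = 0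
    ring
  · change (1 ^ 3 + φ b ^ 3) * 1 - (φ x ^ 3 - 1 ^ 3) * ((1 + φ b ^ 3) * i) = 0
    linear_combination (-(1 + φ b ^ 3)) * hi
  · change 1 ^ 3 * (((1 + φ b ^ 3) * i) ^ 3 * φ ρ) - ((1 + φ b ^ 3) * i) ^ 3 * φ ρ = 0
    ring
  · rw [map_sub, map_pow, map_pow, aeval_X, aeval_X]
    change IsUnit (φ x ^ 3 - 1 ^ 3)
    rw [one_pow]
    exact IsUnit.of_mul_eq_one _ hi
  · rw [← φ.commutes, h', η.commutes]
    rfl
  · fin_cases v
    · exact (h' x).trans hx
    · exact (h' y).trans hy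
    · exact (map_one η').trans (by rw [← map_one (algebraMap B L), ← r4]; rfl)
    · exact (h' b).trans hb
    · exact (map_one η').trans (by rw [← map_one (algebraMap B L), ← r5]; rfl)
    · exact (h' b).trans (hb.trans (congrArg (algebraMap B L) e5.symm))
    · exact h6
    · exact (map_one η').trans (by rw [← map_one (algebraMap B L), ← r6]; rfl)
    · exact (map_one η').trans (by rw [← map_one (algebraMap B L), ← r7]; rfl)
    · change η' (((1 + φ b ^ 3) * i) ^ 3 * φ ρ) = algebraMap B L (Z 9)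
      rw [map_mul, map_pow, h6, h', hρ, e9, map_mul, map_pow]
    · exact (h' ρ).trans hρ

end Pool.Agent.P.MP_dc0411_ag
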