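import Pool.Agent.P.MP_dc0411_ag.LcEx
import Pool.Agent.P.MP_dc0411_ag.LcPt
import Pool.Agent.P.MP_dc0411_ag.LcCurve

/-!
Infinitely many pointed maps from the curve `s³ = 1 + b³` to the open threefold.
-/

open CategoryTheory AlgebraicGeometry MvPolynomial

namespace Pool.Agent.P.MP_dc0411_ag

attribute [local instance] secAlgebra

section value

variable {V G R : Type} [Fintype V] [DecidableEq V] [Fintype G] [DecidableEq G]
  {g : V → G} {F : R → MvPolynomial V ℂ} {Y : Over SpecC}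

/-- The description of a morphism from an affine scheme by its coordinates `z`. -/
def lcmapsPts (D : MPData g F Y) {A : Type} [CommRing A] [Algebra ℂ A] (z : V → A)
    (f : specOf A ⟶ Y) : Prop :=
  ∀ (I : Chart g) (p : MvPolynomial V ℂ) (d : G → ℕ), MH g p d →
    ∀ P : PrimeSpectrum A, f.left P ∈ Y.left.basicOpen (aeval (D.Z I) p) ↔
      (∀ γ, z (I.1 γ) ∉ P.asIdeal) ∧ aeval z p ∉ P.asIdeal

theorem lcmaps_value (D : MPData g F Y) {A : Type} [CommRing A] [Algebra ℂ A] {z : V → A}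
    {f : specOf A ⟶ Y} (hf : lcmapsPts D z f) (e : A →ₐ[ℂ] ℂ) (c : CPoint (specOf A))
    (P : PrimeSpectrum A) (hc : c.pt = P) (hP : ∀ s, s ∈ P.asIdeal ↔ e s = 0) (I : Chart g)
    (hI : ∀ γ, e (z (I.1 γ)) ≠ 0) :
    CPoint.Mem (c ≫ f) (D.U I) ∧
      ∀ v, e (z (I.1 (g v))) * CPoint.eval (c ≫ f) (D.U I) (D.Z I v) = e (z v) := by
  have hpt : CPoint.pt (c ≫ f) = f.left P := by
    rw [← hc]
    rfl
  have hI' : ∀ γ, z (I.1 γ) ∉ P.asIdeal := fun γ h => hI γ ((hP _).1 h)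
  have hmem : CPoint.Mem (c ≫ f) (D.U I) := by
    rw [CPoint.mem_iff, hpt]
    refine Y.left.basicOpen_le _ ((hf I 1 0 (MH.one g) P).2 ⟨hI', ?_⟩)
    rw [map_one, hP, map_one]
    exact one_ne_zero
  refine ⟨hmem, fun v => ?_⟩
  have h1 : MH g (C (e (z (I.1 (g v)))) * X v - C (e (z v)) * X (I.1 (g v)))
      (Pi.single (g v) 1) :=
    ((MH.X g v).C_mul _).sub (((MH.X g (I.1 (g v))).C_mul _).of_eq (by rw [I.2]))
  have h2 : ¬ CPoint.Mem (c ≫ f) (Y.left.basicOpen (aeval (D.Z I)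
      (C (e (z (I.1 (g v)))) * X v - C (e (z v)) * X (I.1 (g v))))) := by
    rw [CPoint.mem_iff, hpt, hf I _ _ h1 P]
    rintro ⟨-, h⟩
    apply h
    rw [hP]
    simp only [map_sub, map_mul, aeval_C, aeval_X, AlgHom.commutes, Algebra.algebraMap_self,
      RingHom.id_apply]
    ring
  rw [CPoint.mem_basicOpen _ hmem, not_not, CPoint.eval_aeval _ hmem] at h2
  obtain ⟨φ, hφ⟩ := CPoint.exists_evalHom _ hmem
  have h3 : CPoint.eval (c ≫ f) (D.U I) (D.Z I (I.1 (g v))) = 1 := by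
    rw [D.Z_self, hφ, map_one]
  simp only [map_sub, map_mul, aeval_C, aeval_X, Algebra.algebraMap_self, RingHom.id_apply,
    h3, mul_one] at h2
  exact sub_eq_zero.1 h2

theorem lcmaps_same (D : MPData g F Y) {A : Type} [CommRing A] [Algebra ℂ A] {z z' : V → A}
    {f f' : specOf A ⟶ Y} (hf : lcmapsPts D z f) (hf' : lcmapsPts D z' f') (e : A →ₐ[ℂ] ℂ)
    (c : CPoint (specOf A)) (P : PrimeSpectrum A) (hc : c.pt = P)
    (hP : ∀ s, s ∈ P.asIdeal ↔ e s = 0) (I : Chart g) (hI : ∀ γ, e (z (I.1 γ)) ≠ 0)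
    (hz : ∀ v, e (z' v) = e (z v)) : c ≫ f = c ≫ f' := by
  obtain ⟨m1, v1⟩ := lcmaps_value D hf e c P hc hP I hI
  obtain ⟨m2, v2⟩ := lcmaps_value D hf' e c P hc hP I (fun γ => by rw [hz]; exact hI γ)
  refine CPoint.ext_eval (D.aff I) m1 m2 (fun t => ?_)
  obtain ⟨q, rfl⟩ := D.surj I t
  rw [CPoint.eval_aeval _ m1, CPoint.eval_aeval _ m2]
  have h : (fun v => CPoint.eval (c ≫ f) (D.U I) (D.Z I v)) =
      fun v => CPoint.eval (c ≫ f') (D.U I) (D.Z I v) := by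
    funext v
    have h1 := v1 v
    have h2 := v2 v
    rw [hz, hz] at h2
    exact mul_left_cancel₀ (hI (g v)) (h1.trans h2.symm)
  rw [h]

end value

section curve

variable {A : Type} [CommRing A] [Algebra ℂ A]

/-- The coordinates of the maps from the curve. -/
def lcmapsZ (s b : A) (al be : ℂ) : Fin 11 → A :=
  ![algebraMap ℂ A al * s, algebraMap ℂ A be * s, 1, b, 1, b, s ^ 3,
    (algebraMap ℂ A al * s) ^ 3 - 1, 1, 0, 0]

theorem lcmaps_F {s b : A} (h : s ^ 3 = 1 + b ^ 3) {al be : ℂ} (hb : be ^ 3 = 1 - al ^ 3)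
    (r : Fin 4) : aeval (lcmapsZ s b al be) (FE r) = 0 := by
  have h1 : algebraMap ℂ A be ^ 3 = 1 - algebraMap ℂ A al ^ 3 := by
    rw [← map_pow, hb, map_sub, map_one, map_pow]
  fin_cases r
  · simp [FE, lcmapsZ]
    linear_combination s ^ 3 * h1 + h
  · simp [FE, lcmapsZ]
  · simp [FE, lcmapsZ]
    linear_combination (-(algebraMap ℂ A al * s) ^ 3 + 1) * h
  · simp [FE, lcmapsZ]

theorem lcmaps_last {s : A} (al : ℂ) {P : PrimeSpectrum A} (hs : s ∈ P.asIdeal) :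
    (algebraMap ℂ A al * s) ^ 3 - 1 ∉ P.asIdeal := by
  intro h
  have h1 : (algebraMap ℂ A al * s) ^ 3 ∈ P.asIdeal :=
    Ideal.pow_mem_of_mem _ (Ideal.mul_mem_left _ _ hs) 3 (by norm_num)
  have h2 := P.asIdeal.sub_mem h1 h
  rw [sub_sub_cancel] at h2
  exact P.isPrime.ne_top ((Ideal.eq_top_iff_one _).2 h2)

theorem lcmaps_chart₀ {s : A} (b : A) (al be : ℂ) {P : PrimeSpectrum A} (hs : s ∉ P.asIdeal)
    (γ : Fin 4) : lcmapsZ s b al be (I₀.1 γ) ∉ P.asIdeal := by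
  have h1 : (1 : A) ∉ P.asIdeal := fun h => P.isPrime.ne_top ((Ideal.eq_top_iff_one _).2 h)
  fin_cases γ
  · exact h1
  · exact h1
  · exact fun h => hs (P.isPrime.mem_of_pow_mem 3 h)
  · exact h1

theorem lcmaps_chart₁ {s : A} (b : A) (al be : ℂ) {P : PrimeSpectrum A} (hs : s ∈ P.asIdeal)
    (γ : Fin 4) : lcmapsZ s b al be (I₁.1 γ) ∉ P.asIdeal := by
  have h1 : (1 : A) ∉ P.asIdeal := fun h => P.isPrime.ne_top ((Ideal.eq_top_iff_one _).2 h)
  fin_cases γ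
  · exact h1
  · exact h1
  · exact lcmaps_last al hs
  · exact h1

theorem lcmaps_h₀ {s b : A} (h : s ^ 3 = 1 + b ^ 3) (al be : ℂ) :
    aeval (lcmapsZ s b al be) (∏ i, hE I₀ i) = b * (1 - b) * s ^ 3 := by
  rw [h]
  simp [Fin.prod_univ_seven, hE, I₀, lcmapsZ]

theorem lcmaps_h₁ (s b : A) (al be : ℂ) :
    aeval (lcmapsZ s b al be) (∏ i, hE I₁ i) =
      b * (1 - b) * ((algebraMap ℂ A al * s) ^ 3 - 1) := by
  simp [Fin.prod_univ_seven, hE, I₁, lcmapsZ]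

theorem lcmaps_zero (s b : A) (al be : ℂ) : lcmapsZ s b al be 0 = algebraMap ℂ A al * s := rfl

theorem lcmaps_two (s b : A) (al be : ℂ) : lcmapsZ s b al be (I₀.1 (gE 0)) = 1 := rfl

theorem lcmaps_base {s : A} (b : A) (al be al' be' : ℂ) (e : A →ₐ[ℂ] ℂ) (h0 : e s = 0)
    (v : Fin 11) : e (lcmapsZ s b al be v) = e (lcmapsZ s b al' be' v) := by
  fin_cases v <;> simp [lcmapsZ, h0]

theorem lcmaps_mh (I : Chart gE) : ∃ d, MH gE (∏ i, hE I i) d := by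
  choose d hd using hE_mh I
  exact ⟨_, MH.prod Finset.univ (fun i _ => hd i)⟩

theorem lcmaps_mem {Y : Over SpecC} (D : MPData gE FE Y) {s b : A} (h : s ^ 3 = 1 + b ^ 3)
    (hu : IsUnit (b * (1 - b))) {al be : ℂ} {f : specOf A ⟶ Y}
    (hf : lcmapsPts D (lcmapsZ s b al be) f) (P : PrimeSpectrum A) :
    f.left P ∈ D.intr fun I => ∏ i, hE I i := by
  have h1 : b * (1 - b) ∉ P.asIdeal := fun hm =>
    P.isPrime.ne_top (Ideal.eq_top_of_isUnit_mem _ hm hu)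
  refine TopologicalSpace.Opens.mem_iSup.2 ?_
  by_cases hs : s ∈ P.asIdeal
  · obtain ⟨d, hd⟩ := lcmaps_mh I₁
    refine ⟨I₁, (hf I₁ _ d hd P).2 ⟨lcmaps_chart₁ b al be hs, ?_⟩⟩
    rw [lcmaps_h₁]
    exact fun hm => (P.isPrime.mem_or_mem hm).elim h1 (lcmaps_last al hs)
  · obtain ⟨d, hd⟩ := lcmaps_mh I₀
    refine ⟨I₀, (hf I₀ _ d hd P).2 ⟨lcmaps_chart₀ b al be hs, ?_⟩⟩
    rw [lcmaps_h₀ h]
    exact fun hm => (P.isPrime.mem_or_mem hm).elim h1
      (fun h3 => hs (P.isPrime.mem_of_pow_mem 3 h3))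

end curve

theorem not_pointedFiniteE {Y : Over SpecC} (D : MPData gE FE Y) :
    ¬ PointedFinite (openPart Y (D.intr fun I => ∏ s, hE I s)) := by
  obtain ⟨A, _, _, s, b, e₀, e₁, hdom, hsm, hsb, hu, h0, h1⟩ := exists_curve
  have := hsm
  have : Algebra.IsStandardSmooth ℂ A :=
    Algebra.IsStandardSmoothOfRelativeDimension.isStandardSmooth 1
  have hbe : ∀ n : ℕ, ∃ be : ℂ, be ^ 3 = 1 - (n : ℂ) ^ 3 := fun n =>
    IsAlgClosed.exists_pow_nat_eq _ (by norm_num)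
  choose be hbe using hbe
  have hf : ∀ n : ℕ, ∃ f : specOf A ⟶ Y, lcmapsPts D (lcmapsZ s b n (be n)) f := fun n =>
    D.pts A _ (lcmaps_F hsb (hbe n)) (fun P => by
      by_cases hs : s ∈ P.asIdeal
      · exact ⟨I₁, lcmaps_chart₁ b _ _ hs⟩
      · exact ⟨I₀, lcmaps_chart₀ b _ _ hs⟩)
  choose f hf using hf
  obtain ⟨c₀, P₀, hc₀, hP₀⟩ := exists_cpoint_specOf e₀
  obtain ⟨c₁, P₁, hc₁, hP₁⟩ := exists_cpoint_specOf e₁
  refine not_pointedFinite_openPart _ (specOf A) quasiProjective_specOf (smooth_specOf hsm)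
    connected_specOf c₀ f (fun n y => lcmaps_mem D hsb hu (hf n) y) (fun n => ?_)
    (fun n m hnm => ?_)
  · exact lcmaps_same D (hf n) (hf 0) e₀ c₀ P₀ hc₀ hP₀ I₁
      (fun γ h => lcmaps_chart₁ b _ _ ((hP₀ s).2 h0) γ ((hP₀ _).2 h))
      (lcmaps_base b _ _ _ _ e₀ h0)
  · have hs : s ∉ P₁.asIdeal := fun h => h1 ((hP₁ s).1 h)
    have v1 := (lcmaps_value D (hf n) e₁ c₁ P₁ hc₁ hP₁ I₀
      (fun γ h => lcmaps_chart₀ b _ _ hs γ ((hP₁ _).2 h))).2 0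
    have v2 := (lcmaps_value D (hf m) e₁ c₁ P₁ hc₁ hP₁ I₀
      (fun γ h => lcmaps_chart₀ b _ _ hs γ ((hP₁ _).2 h))).2 0
    rw [lcmaps_two, lcmaps_zero] at v1 v2
    rw [hnm] at v1
    have h2 : e₁ (algebraMap ℂ A n * s) = e₁ (algebraMap ℂ A m * s) := v1.symm.trans v2
    rw [map_mul, map_mul, AlgHom.commutes, AlgHom.commutes] at h2
    exact Nat.cast_injective (R := ℂ) (mul_right_cancel₀ h1 h2)

end Pool.Agent.P.MP_dc0411_ag
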