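import Pool.Agent.P.MP_dc0411_ag.LcData

/-!
A smooth scheme covered by log charts is reduced, and the complement of the boundary is dense.
-/

open CategoryTheory AlgebraicGeometry

namespace Pool.Agent.P.MP_dc0411_ag

attribute [local instance] secAlgebra

open TensorProduct in
theorem nzd_etale {R S T : Type} [CommRing R] [CommRing S] [CommRing T] [Algebra R S]
    [Algebra R T] [Algebra S T] [IsScalarTower R S T] [Algebra.FormallySmooth R T]
    (h : Function.Bijective (KaehlerDifferential.mapBaseChange R S T)) :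
    Algebra.FormallyEtale S T := by
  constructor
  · refine subsingleton_of_forall_eq 0 fun x => ?_
    obtain ⟨y, rfl⟩ := KaehlerDifferential.map_surjective R S T x
    exact (KaehlerDifferential.exact_mapBaseChange_map R S T y).2 (h.2 y)
  · refine subsingleton_of_forall_eq 0 fun x => ?_
    have a : Algebra.H1Cotangent.δ R S T x = 0 := h.1 (by
      rw [map_zero]
      exact (Algebra.H1Cotangent.exact_δ_mapBaseChange R S T _).2 ⟨x, rfl⟩)
    obtain ⟨y, rfl⟩ := (Algebra.H1Cotangent.exact_map_δ R S T x).1 a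
    rw [Subsingleton.elim y 0, map_zero]

open TensorProduct in
theorem nzd_reduced {R A : Type} [CommRing R] [IsDomain R] [CommRing A] [Algebra R A]
    [Algebra.Etale R A] : _root_.IsReduced A := by
  have : _root_.IsReduced (FractionRing R ⊗[R] A) :=
    Algebra.FormallyUnramified.isReduced_of_field (FractionRing R) _
  exact isReduced_of_injective (Algebra.TensorProduct.includeRight (R := R) (A := FractionRing R)
    (B := A)) (Algebra.TensorProduct.includeRight_injective
      (IsFractionRing.injective R (FractionRing R)))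

theorem etale_coords {A : Type} [CommRing A] [Algebra ℂ A] [Algebra.Smooth ℂ A] {n : ℕ}
    (z : Fin n → A) (h1 : LinearIndependent A fun i => KaehlerDifferential.D ℂ A (z i))
    (h2 : Submodule.span A (Set.range fun i => KaehlerDifferential.D ℂ A (z i)) = ⊤) :
    IsReduced A ∧ ∀ i, z i ∈ nonZeroDivisors A := by
  let : Algebra (MvPolynomial (Fin n) ℂ) A := (MvPolynomial.aeval z).toRingHom.toAlgebra
  have e : ∀ i, algebraMap (MvPolynomial (Fin n) ℂ) A (MvPolynomial.X i) = z i := fun i =>
    MvPolynomial.aeval_X z i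
  have : IsScalarTower ℂ (MvPolynomial (Fin n) ℂ) A :=
    IsScalarTower.of_algebraMap_eq fun c => ((MvPolynomial.aeval z).commutes c).symm
  have hb : KaehlerDifferential.mapBaseChange ℂ (MvPolynomial (Fin n) ℂ) A =
      (((KaehlerDifferential.mvPolynomialBasis ℂ (Fin n)).baseChange A).equiv
        (Module.Basis.mk h1 h2.ge) (Equiv.refl _)).toLinearMap := by
    refine ((KaehlerDifferential.mvPolynomialBasis ℂ (Fin n)).baseChange A).ext fun i => ?_
    rw [LinearEquiv.coe_coe, Module.Basis.equiv_apply, Module.Basis.baseChange_apply,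
      KaehlerDifferential.mapBaseChange_tmul, one_smul, KaehlerDifferential.mvPolynomialBasis_apply,
      KaehlerDifferential.map_D, e, Equiv.refl_apply, Module.Basis.mk_apply]
  have : Algebra.FormallyEtale (MvPolynomial (Fin n) ℂ) A :=
    nzd_etale (R := ℂ) (hb ▸ LinearEquiv.bijective _)
  have : Algebra.FinitePresentation (MvPolynomial (Fin n) ℂ) A :=
    Algebra.FinitePresentation.of_restrict_scalars_finitePresentation ℂ _ _
  have : Algebra.Etale (MvPolynomial (Fin n) ℂ) A := {}
  refine ⟨nzd_reduced (R := MvPolynomial (Fin n) ℂ), fun i => ?_⟩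
  have h := Module.Flat.isSMulRegular_of_nonZeroDivisors (M := A)
    (mem_nonZeroDivisors_of_ne_zero (MvPolynomial.X_ne_zero (R := ℂ) i))
  refine mem_nonZeroDivisors_iff_left.2 fun x hx => h ?_
  change MvPolynomial.X i • x = MvPolynomial.X i • (0 : A)
  rw [smul_zero, Algebra.smul_def, e, hx]

theorem nzd_smooth {Y : Over SpecC} [Smooth Y.hom] {U : Y.left.Opens} (hU : IsAffineOpen U) :
    Algebra.Smooth ℂ Γ(Y.left, U) := by
  have h := HasRingHomProperty.appLE (P := @Smooth) Y.hom inferInstance
    ⟨⊤, isAffineOpen_top _⟩ ⟨U, hU⟩ le_top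
  exact RingHom.Smooth.respectsIso.2 _
    (Scheme.ΓSpecIso (CommRingCat.of ℂ)).symm.commRingCatIsoToRingEquiv h

theorem reduced_dense {Y : Over SpecC} {X : Y.left.Opens} {n : ℕ}
    (h1 : SmoothOfRelativeDimension n Y.hom) (h2 : LogCanonicallyPolarized Y.hom X n) :
    IsReduced Y.left ∧ Dense (X : Set Y.left) := by
  obtain ⟨ι, A, hA, -⟩ := h2
  have : Smooth Y.hom := SmoothOfRelativeDimension.smooth n Y.hom
  have hc : ∀ a, _root_.IsReduced Γ(Y.left, (A a).U) ∧
      ∀ i, (A a).z i ∈ nonZeroDivisors Γ(Y.left, (A a).U) := fun a =>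
    have := nzd_smooth (A a).affine
    etale_coords (A a).z (A a).coord.1 (A a).coord.2
  have hx : ∀ x : Y.left, ∃ a, x ∈ (A a).U := fun x =>
    TopologicalSpace.Opens.mem_iSup.1 (hA.ge (Set.mem_univ x))
  have : ∀ x : Y.left, _root_.IsReduced (Y.left.presheaf.stalk x) := by
    intro x
    obtain ⟨a, ha⟩ := hx x
    let := Y.left.presheaf.algebra_section_stalk (⟨x, ha⟩ : (A a).U)
    have := (A a).affine.isLocalization_stalk ⟨x, ha⟩
    exact isReduced_localizationPreserves ((A a).affine.primeIdealOf ⟨x, ha⟩).asIdeal.primeCompl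
      _ (hc a).1
  have : IsReduced Y.left := isReduced_of_isReduced_stalk _
  refine ⟨this, dense_iff_inter_open.2 fun V hV ⟨x, hxV⟩ => ?_⟩
  obtain ⟨a, ha⟩ := hx x
  obtain ⟨g, g1, g2⟩ := (A a).affine.exists_basicOpen_le (V := ⟨V, hV⟩) ⟨x, hxV⟩ ha
  have g0 : g * ∏ i ∈ (A a).k, (A a).z i ≠ 0 := fun h => by
    rw [(mem_nonZeroDivisors_iff_right.1 (prod_mem fun i _ => (hc a).2 i)) g h,
      Scheme.basicOpen_zero] at g2
    exact g2
  obtain ⟨y, hy⟩ := (TopologicalSpace.Opens.ne_bot_iff_nonempty _).1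
    (mt (basicOpen_eq_bot_iff _).1 g0)
  rw [Scheme.basicOpen_mul, (A a).boundary] at hy
  exact ⟨y, g1 hy.1, hy.2.2⟩

end Pool.Agent.P.MP_dc0411_ag
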