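import Pool.Agent.P.MP_dc0411_ag.LcEx

/-!
The rank condition: smoothness of the threefold and normal crossings of the boundary.
-/

open MvPolynomial

namespace Pool.Agent.P.MP_dc0411_ag

section scalar

variable {K : Type} [Field K] [CharZero K]

/-- What the equations of the last factor give when `l4` is not zero. -/
def LcrankGood (l4 P Q r w : K) : Prop :=
  l4 ≠ 0 ∧ P ≠ 0 ∧ Q ≠ 0 ∧ r ≠ 0 ∧ w ≠ 0 ∧ P ≠ Q ∧ P ≠ -Q ∧ P ≠ 8 * Q ∧ P ≠ -8 * Q

omit [CharZero K] in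
theorem lcrank_pair (da db m : K) {l4 P Q r w : K} (hda : da ≠ 0) (hdb : db ≠ 0)
    (h1 : da + db ≠ 0) (h2 : db - da ≠ 0) (h3 : 8 * da + db ≠ 0) (h4 : db - 8 * da ≠ 0)
    (hPQ : P ≠ 0 ∨ Q ≠ 0) (hrw : r ≠ 0 ∨ w ≠ 0) (e0 : da * r + db * w = 0)
    (e1 : l4 * Q + m * da = 0) (e2 : -l4 * P + m * db = 0) :
    (l4 = 0 ∧ m = 0) ∨ LcrankGood l4 P Q r w := by
  by_cases hl : l4 = 0
  · refine Or.inl ⟨hl, (mul_eq_zero.1 (?_ : m * da = 0)).resolve_right hda⟩
    rw [hl] at e1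
    linear_combination e1
  right
  have e3 : da * P + db * Q = 0 :=
    (mul_eq_zero.1 (by linear_combination db * e1 - da * e2 :
      l4 * (da * P + db * Q) = 0)).resolve_left hl
  have hQ : Q ≠ 0 := by
    rintro rfl
    have : P = 0 := (mul_eq_zero.1 (by linear_combination e3 : da * P = 0)).resolve_left hda
    exact hPQ.elim (fun h => h this) (fun h => h rfl)
  have hw : w ≠ 0 := by
    rintro rfl
    have : r = 0 := (mul_eq_zero.1 (by linear_combination e0 : da * r = 0)).resolve_left hda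
    exact hrw.elim (fun h => h this) (fun h => h rfl)
  refine ⟨hl, ?_, hQ, ?_, hw, ?_, ?_, ?_, ?_⟩
  · rintro rfl
    exact mul_ne_zero hdb hQ (by linear_combination e3)
  · rintro rfl
    exact mul_ne_zero hdb hw (by linear_combination e0)
  · rintro rfl
    exact mul_ne_zero h1 hQ (by linear_combination e3)
  · rintro rfl
    exact mul_ne_zero h2 hQ (by linear_combination e3)
  · rintro rfl
    exact mul_ne_zero h3 hQ (by linear_combination e3)
  · rintro rfl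
    exact mul_ne_zero h4 hQ (by linear_combination e3)

/-- The four lines. -/
theorem lcrank_lines {q r w P Q l4 m3 m4 m5 m6 : K} (hn : q ≠ 0 ∨ r ≠ 0 ∨ w ≠ 0)
    (hPQ : P ≠ 0 ∨ Q ≠ 0) (h3 : q ≠ 0 → m3 = 0) (h4 : q + r + 2 * w ≠ 0 → m4 = 0)
    (h5 : q + 2 * r - w ≠ 0 → m5 = 0) (h6 : q - 3 * r + w ≠ 0 → m6 = 0)
    (eq : m3 + m4 + m5 + m6 = 0) (er : l4 * Q + m4 + 2 * m5 - 3 * m6 = 0)
    (ew : -l4 * P + 2 * m4 - m5 + m6 = 0) :
    (l4 = 0 ∧ m3 = 0 ∧ m4 = 0 ∧ m5 = 0 ∧ m6 = 0) ∨ LcrankGood l4 P Q r w := by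
  have one : m3 = 0 → m4 = 0 → m5 = 0 → m6 = 0 →
      (l4 = 0 ∧ m3 = 0 ∧ m4 = 0 ∧ m5 = 0 ∧ m6 = 0) ∨ LcrankGood l4 P Q r w := by
    intro a3 a4 a5 a6
    refine Or.inl ⟨?_, a3, a4, a5, a6⟩
    rw [a4, a5, a6] at er ew
    rcases hPQ with h | h
    · exact (mul_eq_zero.1 (by linear_combination -ew : l4 * P = 0)).resolve_right h
    · exact (mul_eq_zero.1 (by linear_combination er : l4 * Q = 0)).resolve_right h
  have hrw : ∀ c d : K, q + c * r + d * w = 0 → r ≠ 0 ∨ w ≠ 0 := by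
    intro c d h
    by_contra hc
    obtain ⟨a, b⟩ := not_or.1 hc
    rw [not_not] at a b
    rw [a, b] at h
    exact hn.elim (fun e => e (by linear_combination h)) fun e => e.elim (· a) (· b)
  have three : r = 0 → w = 0 → ∀ c d : K, q + c * r + d * w = 0 → False :=
    fun a b c d h => (hrw c d h).elim (· a) (· b)
  by_cases a3 : q = 0 <;> by_cases a4 : q + r + 2 * w = 0 <;>
    by_cases a5 : q + 2 * r - w = 0 <;> by_cases a6 : q - 3 * r + w = 0
  · exact (three (by linear_combination (1 / 5) * a4 + (2 / 5) * a5 - (3 / 5) * a3)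
      (by linear_combination (2 / 5) * a4 - (1 / 5) * a5 - (1 / 5) * a3) 0 0
      (by linear_combination a3)).elim
  · exact (three (by linear_combination (1 / 5) * a4 + (2 / 5) * a5 - (3 / 5) * a3)
      (by linear_combination (2 / 5) * a4 - (1 / 5) * a5 - (1 / 5) * a3) 0 0
      (by linear_combination a3)).elim
  · exact (three (by linear_combination (1 / 7) * a4 - (2 / 7) * a6 + (1 / 7) * a3)
      (by linear_combination (3 / 7) * a4 + (1 / 7) * a6 - (4 / 7) * a3) 0 0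
      (by linear_combination a3)).elim
  · have b5 := h5 a5
    have b6 := h6 a6
    refine (lcrank_pair 1 2 m4 (by norm_num) (by norm_num) (by norm_num) (by norm_num)
      (by norm_num) (by norm_num) hPQ (hrw 0 0 (by linear_combination a3))
      (by linear_combination a4 - a3) (by linear_combination er - 2 * b5 + 3 * b6)
      (by linear_combination ew + b5 - b6)).imp_left fun h => ?_
    exact ⟨h.1, by linear_combination eq - h.2 - b5 - b6, h.2, b5, b6⟩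
  · exact (three (by linear_combination 2 * a3 - a5 - a6)
      (by linear_combination 5 * a3 - 3 * a5 - 2 * a6) 0 0 (by linear_combination a3)).elim
  · have b4 := h4 a4
    have b6 := h6 a6
    refine (lcrank_pair 2 (-1) m5 (by norm_num) (by norm_num) (by norm_num) (by norm_num)
      (by norm_num) (by norm_num) hPQ (hrw 0 0 (by linear_combination a3))
      (by linear_combination a5 - a3) (by linear_combination er - b4 + 3 * b6)
      (by linear_combination ew - 2 * b4 - b6)).imp_left fun h => ?_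
    exact ⟨h.1, by linear_combination eq - h.2 - b4 - b6, b4, h.2, b6⟩
  · have b4 := h4 a4
    have b5 := h5 a5
    refine (lcrank_pair (-3) 1 m6 (by norm_num) (by norm_num) (by norm_num) (by norm_num)
      (by norm_num) (by norm_num) hPQ (hrw 0 0 (by linear_combination a3))
      (by linear_combination a6 - a3) (by linear_combination er - b4 - 2 * b5)
      (by linear_combination ew - 2 * b4 + b5)).imp_left fun h => ?_
    exact ⟨h.1, by linear_combination eq - h.2 - b4 - b5, b4, b5, h.2⟩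
  · exact one (by linear_combination eq - h4 a4 - h5 a5 - h6 a6) (h4 a4) (h5 a5) (h6 a6)
  · exact (three (by linear_combination (2 / 13) * a4 + (1 / 13) * a5 - (3 / 13) * a6)
      (by linear_combination (5 / 13) * a4 - (4 / 13) * a5 - (1 / 13) * a6) 1 2
      (by linear_combination a4)).elim
  · have b3 := h3 a3
    have b6 := h6 a6
    refine (lcrank_pair 1 (-3) m5 (by norm_num) (by norm_num) (by norm_num) (by norm_num)
      (by norm_num) (by norm_num) hPQ (hrw 1 2 (by linear_combination a4))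
      (by linear_combination a5 - a4) (by linear_combination er - eq + b3 + 4 * b6)
      (by linear_combination ew - 2 * eq + 2 * b3 + b6)).imp_left fun h => ?_
    exact ⟨h.1, b3, by linear_combination eq - h.2 - b3 - b6, h.2, b6⟩
  · have b3 := h3 a3
    have b5 := h5 a5
    refine (lcrank_pair (-4) (-1) m6 (by norm_num) (by norm_num) (by norm_num) (by norm_num)
      (by norm_num) (by norm_num) hPQ (hrw 1 2 (by linear_combination a4))
      (by linear_combination a6 - a4) (by linear_combination er - eq + b3 - b5)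
      (by linear_combination ew - 2 * eq + 2 * b3 + 3 * b5)).imp_left fun h => ?_
    exact ⟨h.1, b3, by linear_combination eq - h.2 - b3 - b5, b5, h.2⟩
  · exact one (h3 a3) (by linear_combination eq - h3 a3 - h5 a5 - h6 a6) (h5 a5) (h6 a6)
  · have b3 := h3 a3
    have b4 := h4 a4
    refine (lcrank_pair (-5) 2 m6 (by norm_num) (by norm_num) (by norm_num) (by norm_num)
      (by norm_num) (by norm_num) hPQ (hrw 2 (-1) (by linear_combination a5))
      (by linear_combination a6 - a5) (by linear_combination er - 2 * eq + 2 * b3 + b4)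
      (by linear_combination ew + eq - b3 - 3 * b4)).imp_left fun h => ?_
    exact ⟨h.1, b3, b4, by linear_combination eq - h.2 - b3 - b4, h.2⟩
  · exact one (h3 a3) (h4 a4) (by linear_combination eq - h3 a3 - h4 a4 - h6 a6) (h6 a6)
  · exact one (h3 a3) (h4 a4) (h5 a5) (by linear_combination eq - h3 a3 - h4 a4 - h5 a5)
  · exact one (h3 a3) (h4 a4) (h5 a5) (h6 a6)

omit [CharZero K] in
theorem lcrank_c {a b : K} (ha : a ≠ 0) (h : a * b = 0) : b = 0 := (mul_eq_zero.1 h).resolve_left ha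

omit [CharZero K] in
theorem lcrank_z {a b s0 s1 za zb : K}
    (hs : (s0 = 1 ∧ za = 1 ∧ zb = 0) ∨ (s1 = 1 ∧ za = 0 ∧ zb = 1)) (F2 : a * s1 - b * s0 = 0)
    (hab : ¬ (a = 0 ∧ b = 0)) : za * a + zb * b ≠ 0 := by
  intro h
  rcases hs with ⟨rfl, rfl, rfl⟩ | ⟨rfl, rfl, rfl⟩
  · have ha : a = 0 := by linear_combination h
    exact hab ⟨ha, by linear_combination s1 * ha - F2⟩
  · have hb : b = 0 := by linear_combination h
    exact hab ⟨by linear_combination s0 * hb + F2, hb⟩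

omit [CharZero K] in
theorem lcrank_h {a b s0 s1 za zb : K}
    (hs : (s0 = 1 ∧ za = 1 ∧ zb = 0) ∨ (s1 = 1 ∧ za = 0 ∧ zb = 1)) (F2 : a * s1 - b * s0 = 0)
    (h : s0 * s1 * (s0 - s1) = 0) : a = 0 ∨ b = 0 ∨ a = b := by
  rcases hs with ⟨rfl, -, -⟩ | ⟨rfl, -, -⟩
  · rcases mul_eq_zero.1 h with h | h
    · exact Or.inr (Or.inl (by linear_combination a * h - F2))
    · exact Or.inr (Or.inr (by linear_combination a * h + F2))
  · rcases mul_eq_zero.1 h with h | h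
    · exact Or.inl (by linear_combination b * h + F2)
    · exact Or.inr (Or.inr (by linear_combination b * h + F2))

theorem lcrank_sq {x : K} (hx : x ≠ 0) : 3 * x ^ 2 ≠ 0 :=
  mul_ne_zero three_ne_zero (pow_ne_zero 2 hx)

/-- The case where `l4` is not zero does not occur. -/
theorem lcrank_one {x y a b s0 s1 t0 t1 r w l1 l2 l3 l4 m0 m1 m2 za zb eu ev : K}
    (hs : (s0 = 1 ∧ za = 1 ∧ zb = 0) ∨ (s1 = 1 ∧ za = 0 ∧ zb = 1))
    (ht : (t0 = 1 ∧ eu = 1 ∧ ev = 0) ∨ (t1 = 1 ∧ eu = 0 ∧ ev = 1))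
    (F1 : x ^ 3 + y ^ 3 - a ^ 3 - b ^ 3 = 0) (F2 : a * s1 - b * s0 = 0)
    (F3 : (a ^ 3 + b ^ 3) * t1 - (x ^ 3 - a ^ 3) * t0 = 0)
    (h0 : s0 * s1 * (s0 - s1) ≠ 0 → m0 = 0) (h1 : za * a + zb * b ≠ 0 → m1 = 0)
    (h2 : eu * (a ^ 3 + b ^ 3) + ev * (x ^ 3 - a ^ 3) ≠ 0 → m2 = 0)
    (ex : 3 * x ^ 2 * (l1 - l3 * t0 + m2 * ev) = 0) (ey : 3 * y ^ 2 * l1 = 0)
    (ea : 3 * a ^ 2 * (-l1 + l3 * t1 + m2 * eu + l3 * t0 - m2 * ev) + l2 * s1 + m1 * za = 0)
    (eb : 3 * b ^ 2 * (-l1 + l3 * t1 + m2 * eu) - l2 * s0 + m1 * zb = 0)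
    (es0 : -l2 * b + m0 * (2 * s0 * s1 - s1 ^ 2) = 0)
    (es1 : l2 * a + m0 * (s0 ^ 2 - 2 * s0 * s1) = 0)
    (et0 : -l3 * (x ^ 3 - a ^ 3) - 3 * l4 * t0 ^ 2 * w = 0)
    (et1 : l3 * (a ^ 3 + b ^ 3) + 3 * l4 * t1 ^ 2 * r = 0)
    (hg : LcrankGood l4 (t0 ^ 3) (t1 ^ 3) r w) : False := by
  obtain ⟨g1, g2, g3, g4, g5, g6, g7, g8, g9⟩ := hg
  have n0 : t0 ≠ 0 := fun h => g2 (by rw [h]; ring)
  have n1 : t1 ≠ 0 := fun h => g3 (by rw [h]; ring)
  have k6 : t0 - t1 ≠ 0 := fun h => g6 (by rw [sub_eq_zero.1 h])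
  have k7 : t0 + t1 ≠ 0 := fun h => g7 (by rw [eq_neg_of_add_eq_zero_left h]; ring)
  have k8 : t0 - 2 * t1 ≠ 0 := fun h => g8 (by rw [sub_eq_zero.1 h]; ring)
  have k9 : t0 + 2 * t1 ≠ 0 := fun h => g9 (by rw [eq_neg_of_add_eq_zero_left h]; ring)
  have p0 : l3 * (x ^ 3 - a ^ 3) ≠ 0 := fun h =>
    mul_ne_zero (lcrank_sq n0) (mul_ne_zero g1 g5) (by linear_combination -et0 - h)
  have p1 : l3 * (a ^ 3 + b ^ 3) ≠ 0 := fun h =>
    mul_ne_zero (lcrank_sq n1) (mul_ne_zero g1 g4) (by linear_combination et1 - h)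
  have n3 : l3 ≠ 0 := left_ne_zero_of_mul p0
  have nv : x ^ 3 - a ^ 3 ≠ 0 := right_ne_zero_of_mul p0
  have nu : a ^ 3 + b ^ 3 ≠ 0 := right_ne_zero_of_mul p1
  have nab : ¬ (a = 0 ∧ b = 0) := fun h => nu (by rw [h.1, h.2]; ring)
  have z2 : m2 = 0 := h2 (by rcases ht with ⟨-, rfl, rfl⟩ | ⟨-, rfl, rfl⟩ <;> simpa)
  have z1 : m1 = 0 := h1 (lcrank_z hs F2 nab)
  subst z1 z2
  have cy : y ≠ 0 → l1 = 0 ∧ x = 0 := fun hy => by
    have e1 := lcrank_c (lcrank_sq hy) ey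
    refine ⟨e1, by_contra fun hx => mul_ne_zero n3 n0 ?_⟩
    linear_combination e1 - lcrank_c (lcrank_sq hx) ex
  by_cases z0 : m0 = 0
  · subst z0
    have z : l2 = 0 := by_contra fun h => nab
      ⟨lcrank_c h (by linear_combination es1), lcrank_c h (by linear_combination -es0)⟩
    subst z
    by_cases hy : y = 0
    · subst hy
      have hx : x ≠ 0 := fun h => nu (by linear_combination x ^ 2 * h - F1)
      have e1 := lcrank_c (lcrank_sq hx) ex
      have ha : a = 0 := by_contra fun h => mul_ne_zero (lcrank_sq h) (mul_ne_zero n3 n1)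
        (by linear_combination ea + 3 * a ^ 2 * e1)
      exact mul_ne_zero (lcrank_sq fun h => nab ⟨ha, h⟩) (mul_ne_zero n3 k6)
        (by linear_combination -eb - 3 * b ^ 2 * e1)
    · obtain ⟨rfl, rfl⟩ := cy hy
      have hb : b = 0 := by_contra fun h => mul_ne_zero (lcrank_sq h) (mul_ne_zero n3 n1)
        (by linear_combination eb)
      exact mul_ne_zero (lcrank_sq fun h => nab ⟨h, hb⟩) (mul_ne_zero n3 k7)
        (by linear_combination ea)
  · have hab := lcrank_h hs F2 (by_contra fun h => z0 (h0 h))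
    by_cases hy : y = 0
    · subst hy
      rcases hab with rfl | rfl | rfl
      · exact mul_ne_zero nu k6 (by linear_combination -F3 - t0 * F1)
      · exact nv (by linear_combination F1)
      · exact mul_ne_zero nu k8 (by linear_combination -2 * F3 - 2 * t0 * F1)
    · obtain ⟨-, rfl⟩ := cy hy
      rcases hab with rfl | rfl | rfl
      · exact nv (by ring)
      · exact mul_ne_zero nu k7 (by linear_combination F3)
      · exact mul_ne_zero nu k9 (by linear_combination 2 * F3)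

/-- The case where `l4` is zero. -/
theorem lcrank_two {x y a b s0 s1 t0 t1 l1 l2 l3 m0 m1 m2 za zb eu ev : K}
    (hn : x ≠ 0 ∨ y ≠ 0 ∨ a ≠ 0 ∨ b ≠ 0)
    (hs : (s0 = 1 ∧ za = 1 ∧ zb = 0) ∨ (s1 = 1 ∧ za = 0 ∧ zb = 1))
    (ht : (t0 = 1 ∧ eu = 1 ∧ ev = 0) ∨ (t1 = 1 ∧ eu = 0 ∧ ev = 1))
    (F1 : x ^ 3 + y ^ 3 - a ^ 3 - b ^ 3 = 0) (F2 : a * s1 - b * s0 = 0)
    (F3 : (a ^ 3 + b ^ 3) * t1 - (x ^ 3 - a ^ 3) * t0 = 0)
    (h0 : s0 * s1 * (s0 - s1) ≠ 0 → m0 = 0) (h1 : za * a + zb * b ≠ 0 → m1 = 0)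
    (h2 : eu * (a ^ 3 + b ^ 3) + ev * (x ^ 3 - a ^ 3) ≠ 0 → m2 = 0)
    (ex : 3 * x ^ 2 * (l1 - l3 * t0 + m2 * ev) = 0) (ey : 3 * y ^ 2 * l1 = 0)
    (ea : 3 * a ^ 2 * (-l1 + l3 * t1 + m2 * eu + l3 * t0 - m2 * ev) + l2 * s1 + m1 * za = 0)
    (eb : 3 * b ^ 2 * (-l1 + l3 * t1 + m2 * eu) - l2 * s0 + m1 * zb = 0)
    (es0 : -l2 * b + m0 * (2 * s0 * s1 - s1 ^ 2) = 0)
    (es1 : l2 * a + m0 * (s0 ^ 2 - 2 * s0 * s1) = 0)
    (et0 : l3 * (x ^ 3 - a ^ 3) = 0) (et1 : l3 * (a ^ 3 + b ^ 3) = 0) :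
    l1 = 0 ∧ l2 = 0 ∧ l3 = 0 ∧ m0 = 0 ∧ m1 = 0 ∧ m2 = 0 := by
  have cube : ∀ {c : K}, c ^ 3 = 0 → c = 0 := fun h => pow_eq_zero_iff three_ne_zero |>.1 h
  have gen : a ^ 3 + b ^ 3 = 0 → a ≠ 0 → b ≠ 0 ∧ m0 = 0 ∧ m1 = 0 ∧ l2 = 0 := by
    intro hu ha
    have hb : b ≠ 0 := fun h => ha (cube (by linear_combination hu - b ^ 2 * h))
    have hab : a ≠ b := fun h => ha (cube (by rw [← h] at hu; linear_combination (1 / 2) * hu))
    have z0 : m0 = 0 := h0 fun h => (lcrank_h hs F2 h).elim ha fun h => h.elim hb hab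
    have z1 : m1 = 0 := h1 (lcrank_z hs F2 fun h => ha h.1)
    exact ⟨hb, z0, z1,
      lcrank_c ha (by linear_combination es1 - (s0 ^ 2 - 2 * s0 * s1) * z0)⟩
  by_cases huv : a ^ 3 + b ^ 3 = 0 ∧ x ^ 3 - a ^ 3 = 0
  · obtain ⟨hu, hv⟩ := huv
    have ha : a ≠ 0 := by
      rintro rfl
      rcases hn with h | h | h | h
      · exact h (cube (by linear_combination hv))
      · exact h (cube (by linear_combination F1 - hv + hu))
      · exact h rfl
      · exact h (cube (by linear_combination hu))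
    obtain ⟨hb, z0, z1, z2⟩ := gen hu ha
    have hx : x ≠ 0 := fun h => ha (cube (by linear_combination x ^ 2 * h - hv))
    have hy : y ≠ 0 := fun h => hb (cube (by linear_combination y ^ 2 * h - F1 + hv))
    have e1 := lcrank_c (lcrank_sq hy) ey
    subst z0 z1 z2 e1
    have eB := lcrank_c (lcrank_sq hx) ex
    have eA : l3 * t1 + m2 * eu = 0 := lcrank_c (lcrank_sq hb) (by linear_combination eb)
    rcases ht with ⟨rfl, rfl, rfl⟩ | ⟨rfl, rfl, rfl⟩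
    · exact ⟨rfl, rfl, by linear_combination -eB, rfl, rfl, by linear_combination eA + t1 * eB⟩
    · exact ⟨rfl, rfl, by linear_combination eA, rfl, rfl, by linear_combination eB + t0 * eA⟩
  · have z3 : l3 = 0 := by_contra fun h => huv ⟨lcrank_c h et1, lcrank_c h et0⟩
    have z2 : m2 = 0 := h2 fun h => huv (by
      rcases ht with ⟨rfl, rfl, rfl⟩ | ⟨rfl, rfl, rfl⟩
      · exact ⟨by linear_combination h, by linear_combination t1 * h - F3⟩
      · exact ⟨by linear_combination t0 * h + F3, by linear_combination h⟩)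
    subst z3 z2
    by_cases hxy : x = 0 ∧ y = 0
    · obtain ⟨rfl, rfl⟩ := hxy
      have hu : a ^ 3 + b ^ 3 = 0 := by linear_combination -F1
      have ha : a ≠ 0 := fun h => huv ⟨hu, by rw [h]; ring⟩
      obtain ⟨-, z0, z1, z2⟩ := gen hu ha
      subst z0 z1 z2
      exact ⟨lcrank_c (lcrank_sq ha) (by linear_combination -ea), rfl, rfl, rfl, rfl, rfl⟩
    · have e1 : l1 = 0 := by
        rcases not_and_or.1 hxy with h | h
        · exact lcrank_c (lcrank_sq h) (by linear_combination ex)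
        · exact lcrank_c (lcrank_sq h) ey
      subst e1
      rcases hs with ⟨rfl, rfl, rfl⟩ | ⟨rfl, rfl, rfl⟩
      · have e2 : l2 = 0 := by linear_combination -eb
        subst e2
        exact ⟨rfl, rfl, rfl,
          by linear_combination (4 / 3) * (es0 - (s1 / 2 - 3 / 4) * es1),
          by linear_combination ea, rfl⟩
      · have e2 : l2 = 0 := by linear_combination ea
        subst e2
        exact ⟨rfl, rfl, rfl, by linear_combination (4 / 3) * ((s0 / 2 - 3 / 4) * es0 - es1),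
          by linear_combination eb, rfl⟩

end scalar

theorem lcrank_d {K : Type} [Field K] [Algebra ℂ K] (x : Fin 11 → K) (v i : Fin 11) :
    aeval x (pderiv v (X i : MvPolynomial (Fin 11) ℂ)) = if i = v then 1 else 0 := by
  rw [pderiv_X, Pi.single_apply]
  split_ifs <;> simp

theorem lcrank_grad {K : Type} [Field K] [Algebra ℂ K] (I : Chart gE) (x : Fin 11 → K)
    (l : Fin 4 → K) (μ : Fin 7 → K) (v : Fin 11) (d : Fin 11 → K)
    (hd : ∀ i, d i = if i = v then 1 else 0) (za zb eu ev : K)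
    (ha : za = if I.1 1 = 4 then 1 else 0) (hb : zb = if I.1 1 = 4 then 0 else 1)
    (hu : eu = if I.1 2 = 6 then 1 else 0) (hv : ev = if I.1 2 = 6 then 0 else 1) :
    ∑ r, l r * aeval x (pderiv v (FE r)) + ∑ s, μ s * aeval x (pderiv v (hE I s)) =
      d 0 * (3 * x 0 ^ 2 * (l 0 - l 2 * x 6 + μ 2 * ev)) + d 1 * (3 * x 1 ^ 2 * l 0) +
      d 2 * (3 * x 2 ^ 2 * (-l 0 + l 2 * x 7 + μ 2 * eu + l 2 * x 6 - μ 2 * ev) + l 1 * x 5 +
        μ 1 * za) +
      d 3 * (3 * x 3 ^ 2 * (-l 0 + l 2 * x 7 + μ 2 * eu) - l 1 * x 4 + μ 1 * zb) +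
      d 4 * (-l 1 * x 3 + μ 0 * (2 * x 4 * x 5 - x 5 ^ 2)) +
      d 5 * (l 1 * x 2 + μ 0 * (x 4 ^ 2 - 2 * x 4 * x 5)) +
      d 6 * (-l 2 * (x 0 ^ 3 - x 2 ^ 3) - 3 * l 3 * x 6 ^ 2 * x 10) +
      d 7 * (l 2 * (x 2 ^ 3 + x 3 ^ 3) + 3 * l 3 * x 7 ^ 2 * x 9) +
      d 8 * (μ 3 + μ 4 + μ 5 + μ 6) + d 9 * (l 3 * x 7 ^ 3 + μ 4 + 2 * μ 5 - 3 * μ 6) +
      d 10 * (-l 3 * x 6 ^ 3 + 2 * μ 4 - μ 5 + μ 6) := by
  have hd' : ∀ i, aeval x (pderiv v (X i : MvPolynomial (Fin 11) ℂ)) = d i := fun i => by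
    rw [lcrank_d, hd]
  have c2 : algebraMap ℂ K 2 = 2 := map_ofNat _ 2
  have c3 : algebraMap ℂ K 3 = 3 := map_ofNat _ 3
  rw [Fin.sum_univ_four, Fin.sum_univ_seven]
  by_cases h1 : I.1 1 = 4 <;> by_cases h2 : I.1 2 = 6 <;>
    simp only [h1, h2, if_true, if_false] at ha hb hu hv <;>
    simp only [FE, hE, h1, h2, if_true, if_false, Matrix.cons_val, map_add, map_sub, map_mul,
      map_pow, pderiv_mul, pderiv_pow, pderiv_C, aeval_X, aeval_C, hd', map_natCast, map_zero,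
      c2, c3, ha, hb, hu, hv] <;>
    push_cast <;> ring

theorem rankE (K : Type) [Field K] [Algebra ℂ K] (I : Chart gE) (x : Fin 11 → K)
    (hI : ∀ γ, x (I.1 γ) = 1) (h0 : ∀ r, aeval x (FE r) = 0) : RankAt FE (hE I) x := by
  intro l μ hμ hg
  have : CharZero K := charZero_of_injective_algebraMap (algebraMap ℂ K).injective
  have c2 : algebraMap ℂ K 2 = 2 := map_ofNat _ 2
  have c3 : algebraMap ℂ K 3 = 3 := map_ofNat _ 3
  obtain ⟨za, ha⟩ : ∃ za : K, za = if I.1 1 = 4 then 1 else 0 := ⟨_, rfl⟩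
  obtain ⟨zb, hb⟩ : ∃ zb : K, zb = if I.1 1 = 4 then 0 else 1 := ⟨_, rfl⟩
  obtain ⟨eu, hu⟩ : ∃ eu : K, eu = if I.1 2 = 6 then 1 else 0 := ⟨_, rfl⟩
  obtain ⟨ev, hv⟩ : ∃ ev : K, ev = if I.1 2 = 6 then 0 else 1 := ⟨_, rfl⟩
  have e := fun v => (lcrank_grad I x l μ v _ (fun _ => rfl) za zb eu ev ha hb hu hv).symm.trans
    (hg v)
  have e0 := e 0
  have e1 := e 1
  have e2 := e 2
  have e3 := e 3
  have e4 := e 4
  have e5 := e 5
  have e6 := e 6
  have e7 := e 7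
  have e8 := e 8
  have e9 := e 9
  have e10 := e 10
  simp only [Fin.reduceEq, if_true, if_false, zero_mul, one_mul, add_zero, zero_add]
    at e0 e1 e2 e3 e4 e5 e6 e7 e8 e9 e10
  have hs : (x 4 = 1 ∧ za = 1 ∧ zb = 0) ∨ (x 5 = 1 ∧ za = 0 ∧ zb = 1) := by
    rcases chart_one I with h | h
    · exact Or.inl ⟨h ▸ hI 1, by rw [ha, if_pos h], by rw [hb, if_pos h]⟩
    · have h' : I.1 1 ≠ 4 := by rw [h]; decide
      exact Or.inr ⟨h ▸ hI 1, by rw [ha, if_neg h'], by rw [hb, if_neg h']⟩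
  have ht : (x 6 = 1 ∧ eu = 1 ∧ ev = 0) ∨ (x 7 = 1 ∧ eu = 0 ∧ ev = 1) := by
    rcases chart_two I with h | h
    · exact Or.inl ⟨h ▸ hI 2, by rw [hu, if_pos h], by rw [hv, if_pos h]⟩
    · have h' : I.1 2 ≠ 6 := by rw [h]; decide
      exact Or.inr ⟨h ▸ hI 2, by rw [hu, if_neg h'], by rw [hv, if_neg h']⟩
  have n : ∀ γ v, I.1 γ = v → x v ≠ 0 := fun γ v h => by
    rw [← h, hI]
    exact one_ne_zero
  have hn : x 0 ≠ 0 ∨ x 1 ≠ 0 ∨ x 2 ≠ 0 ∨ x 3 ≠ 0 :=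
    (chart_zero I).imp (n 0 0) (Or.imp (n 0 1) (Or.imp (n 0 2) (n 0 3)))
  have hn' : x 8 ≠ 0 ∨ x 9 ≠ 0 ∨ x 10 ≠ 0 :=
    (chart_three I).imp (n 3 8) (Or.imp (n 3 9) (n 3 10))
  have hPQ : x 6 ^ 3 ≠ 0 ∨ x 7 ^ 3 ≠ 0 :=
    (chart_two I).imp (fun h => pow_ne_zero 3 (n 2 6 h)) fun h => pow_ne_zero 3 (n 2 7 h)
  have F1 : x 0 ^ 3 + x 1 ^ 3 - x 2 ^ 3 - x 3 ^ 3 = 0 := by simpa [FE] using h0 0
  have F2 : x 2 * x 5 - x 3 * x 4 = 0 := by simpa [FE] using h0 1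
  have F3 : (x 2 ^ 3 + x 3 ^ 3) * x 7 - (x 0 ^ 3 - x 2 ^ 3) * x 6 = 0 := by
    simpa [FE] using h0 2
  have g0 : x 4 * x 5 * (x 4 - x 5) ≠ 0 → μ 0 = 0 := fun h => hμ 0 (by
    simpa only [hE, Matrix.cons_val, map_mul, map_sub, aeval_X] using h)
  have g1 : za * x 2 + zb * x 3 ≠ 0 → μ 1 = 0 := fun h => hμ 1 (by
    by_cases h1 : I.1 1 = 4 <;> simpa [hE, ha, hb, h1] using h)
  have g2 : eu * (x 2 ^ 3 + x 3 ^ 3) + ev * (x 0 ^ 3 - x 2 ^ 3) ≠ 0 → μ 2 = 0 := fun h => hμ 2 (by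
    by_cases h1 : I.1 2 = 6 <;> simpa [hE, hu, hv, h1] using h)
  have g3 : x 8 ≠ 0 → μ 3 = 0 := fun h => hμ 3 (by simpa [hE] using h)
  have g4 : x 8 + x 9 + 2 * x 10 ≠ 0 → μ 4 = 0 := fun h => hμ 4 (by simpa [hE, c2] using h)
  have g5 : x 8 + 2 * x 9 - x 10 ≠ 0 → μ 5 = 0 := fun h => hμ 5 (by simpa [hE, c2] using h)
  have g6 : x 8 - 3 * x 9 + x 10 ≠ 0 → μ 6 = 0 := fun h => hμ 6 (by simpa [hE, c3] using h)
  rcases lcrank_lines hn' hPQ g3 g4 g5 g6 e8 e9 e10 with ⟨z3, y3, y4, y5, y6⟩ | hgood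
  · obtain ⟨z0, z1, z2, y0, y1, y2⟩ := lcrank_two hn hs ht F1 F2 F3 g0 g1 g2 e0 e1 e2 e3 e4 e5
      (by linear_combination -e6 - 3 * x 6 ^ 2 * x 10 * z3)
      (by linear_combination e7 - 3 * x 7 ^ 2 * x 9 * z3)
    refine ⟨fun r => ?_, fun s => ?_⟩
    · fin_cases r
      exacts [z0, z1, z2, z3]
    · fin_cases s
      exacts [y0, y1, y2, y3, y4, y5, y6]
  · exact (lcrank_one hs ht F1 F2 F3 g0 g1 g2 e0 e1 e2 e3 e4 e5 e6 e7 hgood).elim

end Pool.Agent.P.MP_dc0411_ag
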