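import Pool.Agent.P.MP_dc0411_ag.LcSegre
import Pool.Agent.P.MP_dc0411_ag.LcRank
import Pool.Agent.P.MP_dc0411_ag.LcBrody
import Pool.Agent.P.MP_dc0411_ag.LcMaps
import Pool.Agent.P.MP_dc0411_ag.LcNzd
import Pool.Agent.P.MP_dc0411_ag.LcInt

/-!
The log canonically polarized counterexample.
-/

open CategoryTheory AlgebraicGeometry

namespace Pool.Agent.P.MP_dc0411_ag

theorem lc_main : ∃ (Y : Over SpecC) (X : Y.left.Opens), IsProjective Y ∧
    IsIntegral Y.left ∧ SmoothOfRelativeDimension 3 Y.hom ∧ LogCanonicallyPolarized Y.hom X 3 ∧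
    IsQuasiProjective (openPart Y X) ∧ BrodyHyperbolic (openPart Y X) ∧
    ¬ PointedFinite (openPart Y X) := by
  have : Nonempty (Chart gE) := ⟨I₀⟩
  obtain ⟨Y, hY, ⟨D⟩⟩ := exists_mpdata gE FE dE FE_mh
  have e : (Fin 4 ⊕ Fin 4) ⊕ Fin 3 ≃ Fin 11 := Fintype.equivOfCardEq (by simp)
  obtain ⟨h1, h2⟩ := D.polarized dE FE_mh e hE hE_mh mE (by decide) adjE rankE
  obtain ⟨h3, h4⟩ := reduced_dense h1 h2
  exact ⟨Y, _, hY, integralE D h3 h4, h1, h2, quasiProjective_openPart hY _, brodyE D,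
    not_pointedFiniteE D⟩

end Pool.Agent.P.MP_dc0411_ag
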