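import Mathlib

/-!
The quotient of a graded algebra by a homogeneous ideal, and the closed immersion of `Proj`.
-/

open CategoryTheory AlgebraicGeometry

namespace Pool.Agent.P.MP_dc0411_ag

noncomputable section

variable {A : Type} [CommRing A] [Algebra ℂ A] (𝒜 : ℕ → Submodule ℂ A) [GradedAlgebra 𝒜]
  (a : HomogeneousIdeal 𝒜)

/-- The grading of the quotient. -/
def qgr (n : ℕ) : Submodule ℂ (A ⧸ a.toIdeal) :=
  (𝒜 n).map (Ideal.Quotient.mkₐ ℂ a.toIdeal).toLinearMap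

theorem mk_mem_qgr {n : ℕ} {x : A} (hx : x ∈ 𝒜 n) :
    Ideal.Quotient.mk a.toIdeal x ∈ qgr 𝒜 a n := ⟨x, hx, rfl⟩

omit [GradedAlgebra 𝒜] in
theorem lcquot_ind {I : Ideal A} (ℬ : ℕ → Submodule ℂ (A ⧸ I))
    (hB : ∀ n, ∀ y ∈ ℬ n, ∃ x ∈ 𝒜 n, Ideal.Quotient.mk I x = y) (z : DirectSum ℕ fun n => ℬ n) :
    ∃ w : DirectSum ℕ fun n => 𝒜 n, (∀ n, Ideal.Quotient.mk I (w n) = z n) ∧
      Ideal.Quotient.mk I (DirectSum.coeAddMonoidHom 𝒜 w) = DirectSum.coeAddMonoidHom ℬ z := by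
  induction z using DirectSum.induction_on with
  | zero => exact ⟨0, fun n => by simp, by simp⟩
  | of n y =>
    obtain ⟨x, hx, e⟩ := hB n y y.2
    refine ⟨DirectSum.of (fun n => 𝒜 n) n ⟨x, hx⟩, fun k => ?_, by simpa using e⟩
    by_cases h : n = k
    · subst h
      simpa using e
    · rw [DirectSum.of_eq_of_ne _ _ _ (Ne.symm h), DirectSum.of_eq_of_ne _ _ _ (Ne.symm h)]
      simp
  | add z z' h h' =>
    obtain ⟨w, h1, h2⟩ := h
    obtain ⟨w', h1', h2'⟩ := h'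
    exact ⟨w + w', fun n => by simp [h1, h1'], by rw [map_add, map_add, map_add, h2, h2']⟩

theorem lcquot_internal : DirectSum.IsInternal (qgr 𝒜 a) := by
  refine ⟨(injective_iff_map_eq_zero _).2 fun z hz => ?_, fun y => ?_⟩
  · obtain ⟨w, h1, h2⟩ := lcquot_ind 𝒜 (qgr 𝒜 a) (fun n y hy => hy) z
    rw [hz, Ideal.Quotient.eq_zero_iff_mem] at h2
    refine DFinsupp.ext fun n => Subtype.ext ?_
    have h3 := a.isHomogeneous n h2
    rw [show DirectSum.decompose 𝒜 (DirectSum.coeAddMonoidHom 𝒜 w) = w from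
      (DirectSum.decompose 𝒜).apply_symm_apply w] at h3
    exact (h1 n).symm.trans (Ideal.Quotient.eq_zero_iff_mem.2 h3)
  · obtain ⟨x, rfl⟩ := Ideal.Quotient.mk_surjective y
    induction x using DirectSum.Decomposition.inductionOn 𝒜 with
    | zero => exact ⟨0, by simp⟩
    | homogeneous x =>
      exact ⟨DirectSum.of (fun n => qgr 𝒜 a n) _ ⟨_, mk_mem_qgr 𝒜 a x.2⟩, by simp⟩
    | add x x' h h' =>
      obtain ⟨z, hz⟩ := h
      obtain ⟨z', hz'⟩ := h'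
      exact ⟨z + z', by rw [map_add, map_add, hz, hz']⟩

instance qgrGraded : GradedAlgebra (qgr 𝒜 a) := by
  exact
    { (lcquot_internal 𝒜 a).chooseDecomposition with
      one_mem := mk_mem_qgr 𝒜 a SetLike.GradedOne.one_mem
      mul_mem := by
        rintro i j _ _ ⟨x, hx, rfl⟩ ⟨y, hy, rfl⟩
        exact ⟨x * y, SetLike.GradedMul.mul_mem hx hy, map_mul (Ideal.Quotient.mk a.toIdeal) x y⟩ }

/-- The quotient map as a graded homomorphism. -/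
def qmk : 𝒜 →+*ᵍ qgr 𝒜 a where
  toRingHom := Ideal.Quotient.mk a.toIdeal
  map_mem hx := mk_mem_qgr 𝒜 a hx

theorem qmk_apply (x : A) : qmk 𝒜 a x = Ideal.Quotient.mk a.toIdeal x := rfl

theorem qmk_irrelevant : HomogeneousIdeal.irrelevant (qgr 𝒜 a) ≤
    (HomogeneousIdeal.irrelevant 𝒜).map (qmk 𝒜 a) := by
  refine (HomogeneousIdeal.irrelevant_le _).2 ?_
  rintro i hi _ ⟨x, hx, rfl⟩
  exact Ideal.mem_map_of_mem (qmk 𝒜 a) (HomogeneousIdeal.mem_irrelevant_of_mem 𝒜 hi hx)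

theorem isClosedImmersion_qmk :
    IsClosedImmersion (Proj.map (qmk 𝒜 a) (qmk_irrelevant 𝒜 a)) := by
  refine IsZariskiLocalAtTarget.of_iSup_eq_top
    (fun s : Σ i : PNat, 𝒜 i => Proj.basicOpen 𝒜 (s.2 : A))
    (Proj.iSup_basicOpen_eq_top 𝒜 _ ((HomogeneousIdeal.toIdeal_irrelevant_le _).2
      fun i hi x hx => Ideal.subset_span ⟨⟨⟨i, hi⟩, ⟨x, hx⟩⟩, rfl⟩)) ?_
  rintro ⟨⟨i, hi⟩, s, hs'⟩
  have hs : s ∈ 𝒜 i := hs'
  have hsurj : Function.Surjective (HomogeneousLocalization.Away.map (qmk 𝒜 a) s) := fun y => by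
    obtain ⟨n, _, ⟨x, hx, rfl⟩, rfl⟩ :=
      HomogeneousLocalization.Away.mk_surjective (qgr 𝒜 a) (mk_mem_qgr 𝒜 a hs) y
    exact ⟨_, HomogeneousLocalization.Away.map_mk (qmk 𝒜 a) s hs n x hx⟩
  have h1 : IsClosedImmersion
      (Spec.map (CommRingCat.ofHom (HomogeneousLocalization.Away.map (qmk 𝒜 a) s))) :=
    IsClosedImmersion.spec_of_surjective _ hsurj
  have h2 : IsClosedImmersion
      ((Proj.basicOpenIsoSpec (qgr 𝒜 a) (qmk 𝒜 a s) (mk_mem_qgr 𝒜 a hs) hi).hom ≫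
        Spec.map (CommRingCat.ofHom (HomogeneousLocalization.Away.map (qmk 𝒜 a) s)) ≫
          (Proj.basicOpenIsoSpec 𝒜 s hs hi).inv) := inferInstance
  have e : Proj.map (qmk 𝒜 a) (qmk_irrelevant 𝒜 a) ∣_ Proj.basicOpen 𝒜 s =
      (Proj.basicOpenIsoSpec (qgr 𝒜 a) (qmk 𝒜 a s) (mk_mem_qgr 𝒜 a hs) hi).hom ≫
        Spec.map (CommRingCat.ofHom (HomogeneousLocalization.Away.map (qmk 𝒜 a) s)) ≫
          (Proj.basicOpenIsoSpec 𝒜 s hs hi).inv := by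
    have e1 := Proj.awayι_comp_map (qmk 𝒜 a) (qmk_irrelevant 𝒜 a) hi s hs
    unfold Proj.awayι at e1
    rw [Category.assoc, Iso.inv_comp_eq] at e1
    refine (cancel_mono (Proj.basicOpen 𝒜 s).ι).1 ((morphismRestrict_ι _ _).trans (e1.trans ?_))
    exact ((Category.assoc _ _ _).trans (congrArg (_ ≫ ·) (Category.assoc _ _ _))).symm
  exact e ▸ h2

theorem map_qmk_toSpec :
    Proj.map (qmk 𝒜 a) (qmk_irrelevant 𝒜 a) ≫ Proj.toSpecZero 𝒜 ≫
        Spec.map (CommRingCat.ofHom (algebraMap ℂ (𝒜 0))) =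
      Proj.toSpecZero (qgr 𝒜 a) ≫
        Spec.map (CommRingCat.ofHom (algebraMap ℂ (qgr 𝒜 a 0))) := by
  refine (Proj.mapAffineOpenCover _ (qmk_irrelevant 𝒜 a)).openCover.hom_ext _ _ ?_
  rintro ⟨⟨i, hi⟩, s, hs'⟩
  have hs : s ∈ 𝒜 i := hs'
  have e1 := Proj.awayι_comp_map_assoc (qmk 𝒜 a) (qmk_irrelevant 𝒜 a) hi s hs
    (Proj.toSpecZero 𝒜 ≫ Spec.map (CommRingCat.ofHom (algebraMap ℂ (𝒜 0))))
  have e2 := Proj.awayι_toSpecZero_assoc (qgr 𝒜 a) (qmk 𝒜 a s) (mk_mem_qgr 𝒜 a hs) hi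
    (Spec.map (CommRingCat.ofHom (algebraMap ℂ (qgr 𝒜 a 0))))
  refine e1.trans (Eq.trans ?_ e2.symm)
  rw [Proj.awayι_toSpecZero_assoc, ← Spec.map_comp, ← Spec.map_comp, ← Spec.map_comp]
  congr 1

end

end Pool.Agent.P.MP_dc0411_ag
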