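import Pool.Agent.P.MP_dc0411_ag.LcData
import Pool.Agent.P.MP_dc0411_ag.LcQuot

/-!
The closed subscheme of projective space defined by a homogeneous ideal, with its charts.
-/

open CategoryTheory AlgebraicGeometry MvPolynomial HomogeneousLocalization

namespace Pool.Agent.P.MP_dc0411_ag

noncomputable section

attribute [local instance] secAlgebra MvPolynomial.gradedAlgebra

section general

variable {B : Type} [CommRing B] [Algebra ℂ B] (ℬ : ℕ → Submodule ℂ B) [GradedAlgebra ℬ]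

/-- `Proj` of a graded `ℂ`-algebra as a scheme over `ℂ`. -/
abbrev projOver : Over SpecC :=
  Over.mk (Proj.toSpecZero ℬ ≫ Spec.map (CommRingCat.ofHom (algebraMap ℂ (ℬ 0))))

theorem lcproj_mem_basicOpen {f : B} {d : ℕ} (hf : f ∈ ℬ d) (n : ℕ) (x : B) (hx : x ∈ ℬ (n • d))
    (y : Proj ℬ) : y ∈ (Proj ℬ).basicOpen (Proj.awayToSection ℬ f (Away.mk ℬ hf n x hx)) ↔
      f ∉ y.asHomogeneousIdeal ∧ x ∉ y.asHomogeneousIdeal := by
  by_cases hy : y ∈ Proj.basicOpen ℬ f
  · rw [Scheme.mem_basicOpen _ _ y hy]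
    have h := congrArg (fun φ => φ.hom (Away.mk ℬ hf n x hx))
      (ProjectiveSpectrum.Proj.awayToSection_germ ℬ f y hy)
    simp only [CommRingCat.hom_comp, RingHom.comp_apply, CommRingCat.hom_ofHom] at h
    have h2 : IsUnit ((Proj ℬ).presheaf.germ _ y hy
        (Proj.awayToSection ℬ f (Away.mk ℬ hf n x hx))) ↔
        IsUnit (mapId ℬ (Submonoid.powers_le.mpr hy : _ ≤ y.asHomogeneousIdeal.toIdeal.primeCompl)
          (Away.mk ℬ hf n x hx)) := by
      erw [h]
      exact MulEquiv.isUnit_map (Proj.stalkIso' ℬ y).symm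
    rw [h2, ← isUnit_iff_isUnit_val, Away.mk, map_mk, val_mk, Localization.mk_eq_mk',
      IsLocalization.AtPrime.isUnit_mk'_iff]
    exact ⟨fun h => ⟨hy, h⟩, fun h => h.2⟩
  · exact ⟨fun h => absurd ((Proj ℬ).basicOpen_le _ h) hy, fun h => absurd h.1 hy⟩

theorem lcproj_algebraMap {f : B} {d : ℕ} (hf : f ∈ ℬ d) (hd : 0 < d) (c : ℂ) :
    algebraMap ℂ Γ((projOver ℬ).left, Proj.basicOpen ℬ f) c =
      Proj.awayToSection ℬ f (fromZeroRingHom ℬ _ (algebraMap ℂ (ℬ 0) c)) := by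
  have hV := Proj.isAffineOpen_basicOpen ℬ f hf hd
  have h1 := IsAffineOpen.SpecMap_appLE_fromSpec (projOver ℬ).hom (isAffineOpen_top SpecC) hV le_top
  have h2 : hV.fromSpec = Spec.map (Proj.awayToSection ℬ f) ≫ Proj.awayι ℬ f hf hd := by
    rw [← cancel_epi hV.isoSpec.hom, IsAffineOpen.isoSpec_hom, IsAffineOpen.toSpecΓ_fromSpec,
      ← Category.assoc]
    exact ((Proj.basicOpenIsoSpec ℬ f hf hd).hom_inv_id_assoc _).symm
  rw [IsAffineOpen.fromSpec_top, Scheme.isoSpec_Spec_inv, ← Spec.map_comp, h2] at h1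
  have h3 : (Spec.map (Proj.awayToSection ℬ f) ≫ Proj.awayι ℬ f hf hd) ≫ (projOver ℬ).hom =
      Spec.map (CommRingCat.ofHom (algebraMap ℂ (ℬ 0)) ≫
        CommRingCat.ofHom (fromZeroRingHom ℬ _) ≫ Proj.awayToSection ℬ f) := by
    change (Spec.map (Proj.awayToSection ℬ f) ≫ Proj.awayι ℬ f hf hd) ≫
      Proj.toSpecZero ℬ ≫ Spec.map (CommRingCat.ofHom (algebraMap ℂ (ℬ 0))) = _
    rw [Category.assoc, Proj.awayι_toSpecZero_assoc, Spec.map_comp, Spec.map_comp, Category.assoc]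
  have h4 := Spec.map_injective (h1.trans h3)
  exact congrArg (fun φ => φ.hom c) h4

variable {σ : Type} (t : σ → B) (ht : ∀ i, t i ∈ ℬ 1)

/-- The function `tᵢ / tⱼ`. -/
def lcW (j i : σ) : Γ((projOver ℬ).left, Proj.basicOpen ℬ (t j)) :=
  Proj.awayToSection ℬ (t j) (Away.mk ℬ (ht j) 1 (t i) (by simpa using ht i))

include ht in
theorem lcproj_aeval_mem {p : MvPolynomial σ ℂ} {n : ℕ} (hp : p.IsHomogeneous n) :
    aeval t p ∈ ℬ (n • 1) := by
  rw [smul_eq_mul, mul_one]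
  classical
  rw [p.as_sum, map_sum]
  refine Submodule.sum_mem _ fun s hs => ?_
  rw [aeval_monomial, ← Algebra.smul_def]
  refine Submodule.smul_mem _ _ ?_
  have hd : s.degree = n := by
    rw [Finsupp.degree_eq_weight_one]
    exact hp (mem_support_iff.mp hs)
  rw [← hd, Finsupp.prod, Finsupp.degree_apply]
  refine SetLike.prod_mem_graded ℬ _ _ fun i _ => ?_
  simpa using SetLike.pow_mem_graded (s i) (ht i)

theorem lcproj_aeval {p : MvPolynomial σ ℂ} {n : ℕ} (hp : p.IsHomogeneous n) (j : σ) :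
    aeval (lcW ℬ t ht j) p = Proj.awayToSection ℬ (t j)
      (Away.mk ℬ (ht j) n (aeval t p) (lcproj_aeval_mem ℬ t ht hp)) := by
  let χ : MvPolynomial σ ℂ →+* Away ℬ (t j) :=
    eval₂Hom ((fromZeroRingHom ℬ _).comp (algebraMap ℂ (ℬ 0)))
      fun i => Away.mk ℬ (ht j) 1 (t i) (by simpa using ht i)
  have h1 : (aeval (lcW ℬ t ht j)).toRingHom = (Proj.awayToSection ℬ (t j)).hom.comp χ := by
    refine ringHom_ext (fun c => ?_) (fun i => ?_)
    · simp only [χ, AlgHom.toRingHom_eq_coe, RingHom.coe_coe, aeval_C, RingHom.comp_apply,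
        eval₂Hom_C]
      exact lcproj_algebraMap ℬ (ht j) one_pos c
    · simp only [χ, AlgHom.toRingHom_eq_coe, RingHom.coe_coe, aeval_X, RingHom.comp_apply,
        eval₂Hom_X']
      rfl
  let u : Localization.Away (t j) := Localization.mk 1 ⟨t j, Submonoid.mem_powers _⟩
  have h2 : (algebraMap (Away ℬ (t j)) (Localization.Away (t j))).comp χ =
      (aeval fun i => u * algebraMap B (Localization.Away (t j)) (t i) :
        MvPolynomial σ ℂ →ₐ[ℂ] Localization.Away (t j)).toRingHom := by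
    refine ringHom_ext (fun c => ?_) (fun i => ?_)
    · simp only [χ, AlgHom.toRingHom_eq_coe, RingHom.coe_coe, aeval_C, RingHom.comp_apply,
        eval₂Hom_C]
      rfl
    · simp only [χ, u, AlgHom.toRingHom_eq_coe, RingHom.coe_coe, aeval_X, RingHom.comp_apply,
        eval₂Hom_X', HomogeneousLocalization.algebraMap_apply, Away.val_mk,
        ← Localization.mk_one_eq_algebraMap, Localization.mk_mul]
      congr 1
      · simp
      · ext
        simp
  have h3 : χ p = Away.mk ℬ (ht j) n (aeval t p) (lcproj_aeval_mem ℬ t ht hp) := by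
    apply val_injective
    have h4 : (χ p).val = aeval (fun i => u * algebraMap B (Localization.Away (t j)) (t i)) p :=
      congrArg (fun φ => φ p) h2
    have h5 : aeval (fun i => algebraMap B (Localization.Away (t j)) (t i)) p =
        algebraMap B (Localization.Away (t j)) (aeval t p) := by
      rw [← aeval_algebraMap_apply]
      rfl
    rw [h4, aeval_scale_of_isHomogeneous hp, h5, Away.val_mk, ← Localization.mk_one_eq_algebraMap,
      Localization.mk_pow, Localization.mk_mul]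
    congr 1
    · simp
    · ext
      simp
  rw [← h3]
  exact congrArg (fun φ => φ p) h1

theorem lcproj_trans (j k i : σ) :
    res (Y := projOver ℬ) (inf_le_left : Proj.basicOpen ℬ (t j) ⊓ Proj.basicOpen ℬ (t k) ≤ _)
      (lcW ℬ t ht j i) =
    res (Y := projOver ℬ) inf_le_left (lcW ℬ t ht j k) *
      res (Y := projOver ℬ) inf_le_right (lcW ℬ t ht k i) := by
  have hle : Proj.basicOpen ℬ (t j) ⊓ Proj.basicOpen ℬ (t k) ≤ Proj.basicOpen ℬ (t j * t k) :=
    (Proj.basicOpen_mul ℬ _ _).ge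
  have e1 : ∀ a, res (Y := projOver ℬ) inf_le_left (Proj.awayToSection ℬ (t j) a) =
      res (Y := projOver ℬ) hle (Proj.awayToSection ℬ (t j * t k) (awayMap ℬ (ht k) rfl a)) := by
    intro a
    have h := congrArg (fun φ => φ.hom a) (Proj.awayMap_awayToSection ℬ (ht k) (rfl : _ = t j * t k))
    simp only [CommRingCat.hom_comp, RingHom.comp_apply, CommRingCat.hom_ofHom] at h
    erw [h]
    exact (res_res (Y := projOver ℬ) _ hle _).symm
  have e2 : ∀ a, res (Y := projOver ℬ) inf_le_right (Proj.awayToSection ℬ (t k) a) =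
      res (Y := projOver ℬ) hle (Proj.awayToSection ℬ (t j * t k)
        (awayMap ℬ (ht j) (mul_comm _ _) a)) := by
    intro a
    have h := congrArg (fun φ => φ.hom a)
      (Proj.awayMap_awayToSection ℬ (ht j) (mul_comm (t j) (t k)))
    simp only [CommRingCat.hom_comp, RingHom.comp_apply, CommRingCat.hom_ofHom] at h
    erw [h]
    exact (res_res (Y := projOver ℬ) _ hle _).symm
  rw [lcW, lcW, lcW, e1, e1, e2, ← map_mul, ← map_mul]
  congr 2
  apply val_injective
  simp only [awayMap_mk, val_mul, Away.val_mk, Localization.mk_mul]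
  rw [Localization.mk_eq_mk_iff, Localization.r_iff_exists]
  exact ⟨1, by simp; ring⟩

end general

/-- Every polynomial is congruent to a homogeneous one modulo `X j - 1`. -/
theorem lcproj_homogenise {σ : Type} (j : σ) (p : MvPolynomial σ ℂ) :
    ∃ (q : MvPolynomial σ ℂ) (n : ℕ), q.IsHomogeneous n ∧ p - q ∈ Ideal.span {X j - 1} := by
  have hpow : ∀ k : ℕ, (1 - X j ^ k : MvPolynomial σ ℂ) ∈ Ideal.span {X j - 1} := fun k => by
    rw [Ideal.mem_span_singleton, ← dvd_neg, neg_sub]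
    simpa using sub_dvd_pow_sub_pow (X j : MvPolynomial σ ℂ) 1 k
  induction p using MvPolynomial.induction_on with
  | C c => exact ⟨C c, 0, isHomogeneous_C _ _, by simp⟩
  | add p p' hp hp' =>
    obtain ⟨q, n, hq, h⟩ := hp
    obtain ⟨q', n', hq', h'⟩ := hp'
    refine ⟨q * X j ^ n' + q' * X j ^ n, n + n', (hq.mul (isHomogeneous_X_pow j n')).add ?_, ?_⟩
    · rw [add_comm]
      exact hq'.mul (isHomogeneous_X_pow j n)
    · have e : p + p' - (q * X j ^ n' + q' * X j ^ n) =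
          (p - q) + (p' - q') + q * (1 - X j ^ n') + q' * (1 - X j ^ n) := by ring
      rw [e]
      exact add_mem (add_mem (add_mem h h') (Ideal.mul_mem_left _ _ (hpow _)))
        (Ideal.mul_mem_left _ _ (hpow _))
  | mul_X p i hp =>
    obtain ⟨q, n, hq, h⟩ := hp
    refine ⟨q * X i, n + 1, hq.mul (isHomogeneous_X _ _), ?_⟩
    rw [← sub_mul]
    exact Ideal.mul_mem_right _ _ h

theorem lcproj_irrelevant {σ : Type} {p : MvPolynomial σ ℂ}
    (hp : p ∈ HomogeneousIdeal.irrelevant (homogeneousSubmodule σ ℂ)) :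
    p ∈ Ideal.span (Set.range (X : σ → MvPolynomial σ ℂ)) := by
  have h0 : homogeneousComponent 0 p = 0 := by
    have h := (HomogeneousIdeal.mem_irrelevant_iff _ _).mp hp
    rw [GradedRing.proj_apply] at h
    rw [← h]
    exact (decomposition.decompose'_apply p 0).symm
  rw [homogeneousComponent_zero, C_eq_zero] at h0
  rw [← Set.image_univ, mem_ideal_span_X_image]
  intro m hm
  by_contra hc
  have : m = 0 := by
    ext i
    by_contra hi
    exact hc ⟨i, Set.mem_univ _, hi⟩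
  rw [this, mem_support_iff] at hm
  exact hm h0

theorem lcproj_pdata {σ : Type} (𝔞 : HomogeneousIdeal (homogeneousSubmodule σ ℂ)) :
    Nonempty (PData 𝔞.toIdeal (projOver (qgr _ 𝔞))) := by
  let t : σ → MvPolynomial σ ℂ ⧸ 𝔞.toIdeal :=
    fun i => Ideal.Quotient.mk _ (X i)
  have ht : ∀ i, t i ∈ (qgr _ 𝔞) 1 := fun i => mk_mem_qgr _ 𝔞 (isHomogeneous_X ℂ i)
  have hπ : ∀ p, aeval t p = Ideal.Quotient.mk 𝔞.toIdeal p := fun p => by
    have : aeval t = Ideal.Quotient.mkₐ ℂ 𝔞.toIdeal := algHom_ext fun i => by simp [t]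
    rw [this]
    rfl
  have hirr : (HomogeneousIdeal.irrelevant (qgr _ 𝔞)).toIdeal ≤ Ideal.span (Set.range t) := by
    refine (toIdeal_le_toIdeal_iff.mpr (qmk_irrelevant _ 𝔞)).trans ?_
    refine Ideal.map_le_of_le_comap fun p hp => ?_
    have h := Ideal.mem_map_of_mem (Ideal.Quotient.mk 𝔞.toIdeal) (lcproj_irrelevant hp)
    rw [Ideal.map_span, ← Set.range_comp] at h
    exact h
  have hinj : ∀ j, Function.Bijective (Proj.awayToSection (qgr _ 𝔞) (t j)) := fun j =>
    ConcreteCategory.bijective_of_isIso (Proj.basicOpenIsoAway (qgr _ 𝔞) (t j) (ht j) one_pos).hom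
  have hone : ∀ j, lcW (qgr _ 𝔞) t ht j j = 1 := fun j => by
    rw [lcW, ← map_one (Proj.awayToSection (qgr _ 𝔞) (t j)).hom]
    congr 1
    apply val_injective
    rw [Away.val_mk, val_one, ← Localization.mk_one, Localization.mk_eq_mk_iff,
      Localization.r_iff_exists]
    exact ⟨1, by simp⟩
  have hzero : ∀ j (p : MvPolynomial σ ℂ) (n : ℕ), p.IsHomogeneous n →
      (aeval (lcW (qgr _ 𝔞) t ht j) p = 0 ↔ ∃ k : ℕ, X j ^ k * p ∈ 𝔞.toIdeal) := by
    intro j p n hp
    rw [lcproj_aeval (qgr _ 𝔞) t ht hp, map_eq_zero_iff _ (hinj j).1, ext_iff_val, Away.val_mk, val_zero,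
      Localization.mk_eq_mk', IsLocalization.mk'_eq_zero_iff, hπ]
    constructor
    · rintro ⟨⟨_, k, rfl⟩, hk⟩
      refine ⟨k, (Ideal.Quotient.eq_zero_iff_mem (I := 𝔞.toIdeal)).mp ?_⟩
      rw [map_mul, map_pow]
      exact hk
    · rintro ⟨k, hk⟩
      refine ⟨⟨_, k, rfl⟩, ?_⟩
      have h := (Ideal.Quotient.eq_zero_iff_mem (I := 𝔞.toIdeal)).mpr hk
      rw [map_mul, map_pow] at h
      exact h
  have hbo : ∀ j (p : MvPolynomial σ ℂ) (n : ℕ), p.IsHomogeneous n → ∀ y : Proj (qgr _ 𝔞),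
      (y ∈ (Proj (qgr _ 𝔞)).basicOpen (aeval (lcW (qgr _ 𝔞) t ht j) p) ↔
        y ∈ Proj.basicOpen (qgr _ 𝔞) (aeval t (X j * p))) := by
    intro j p n hp y
    rw [lcproj_aeval (qgr _ 𝔞) t ht hp, lcproj_mem_basicOpen, map_mul, Proj.basicOpen_mul, aeval_X]
    rfl
  refine ⟨{
      U := fun j => Proj.basicOpen (qgr _ 𝔞) (t j)
      aff := fun j => Proj.isAffineOpen_basicOpen (qgr _ 𝔞) _ (ht j) one_pos
      cover := Proj.iSup_basicOpen_eq_top (qgr _ 𝔞) t hirr
      W := lcW (qgr _ 𝔞) t ht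
      surj := fun j s => ?_
      ker := fun j => ?_
      inter := fun j k => ?_
      trans := lcproj_trans (qgr _ 𝔞) t ht
      pts := fun A _ _ z hz hP => ?_ }⟩
  · obtain ⟨s, rfl⟩ := (hinj j).2 s
    obtain ⟨n, x, hx, rfl⟩ := Away.mk_surjective (qgr _ 𝔞) (ht j) s
    obtain ⟨p, hp, rfl⟩ := hx
    have hp' : p.IsHomogeneous n := by simpa using hp
    refine ⟨p, ?_⟩
    rw [lcproj_aeval (qgr _ 𝔞) t ht hp']
    congr 2
    exact hπ p
  · have hX : (X j - 1 : MvPolynomial σ ℂ) ∈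
        RingHom.ker (aeval (lcW (qgr _ 𝔞) t ht j) : MvPolynomial σ ℂ →ₐ[ℂ] _) := by
      rw [RingHom.mem_ker, map_sub, aeval_X, hone, map_one, sub_self]
    have hs : Ideal.span {X j - 1} ≤
        RingHom.ker (aeval (lcW (qgr _ 𝔞) t ht j) : MvPolynomial σ ℂ →ₐ[ℂ] _) :=
      (Ideal.span_singleton_le_iff_mem _).mpr hX
    refine le_antisymm (fun p hp => ?_) (sup_le (fun p hp => ?_) hs)
    · obtain ⟨q, n, hq, h⟩ := lcproj_homogenise j p
      have hq0 : aeval (lcW (qgr _ 𝔞) t ht j) q = 0 := by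
        have := sub_mem hp (hs h)
        rwa [sub_sub_cancel] at this
      obtain ⟨k, hk⟩ := (hzero j q n hq).mp hq0
      have hpow : (1 - X j ^ k : MvPolynomial σ ℂ) ∈ Ideal.span {X j - 1} := by
        rw [Ideal.mem_span_singleton, ← dvd_neg, neg_sub]
        simpa using sub_dvd_pow_sub_pow (X j : MvPolynomial σ ℂ) 1 k
      have e : p = X j ^ k * q + ((p - q) + q * (1 - X j ^ k)) := by ring
      rw [e]
      exact Submodule.add_mem_sup hk (add_mem h (Ideal.mul_mem_left _ _ hpow))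
    · rw [RingHom.mem_ker, ← sum_homogeneousComponent p, map_sum]
      refine Finset.sum_eq_zero fun n _ => ?_
      refine (hzero j _ n (homogeneousComponent_isHomogeneous n p)).mpr ⟨0, ?_⟩
      rw [pow_zero, one_mul, ← decomposition.decompose'_apply p n]
      exact 𝔞.isHomogeneous n hp
  · ext y
    exact lcproj_mem_basicOpen (qgr _ 𝔞) (ht j) 1 (t k) _ y
  · let ψ : (MvPolynomial σ ℂ ⧸ 𝔞.toIdeal) →ₐ[ℂ] A :=
      Ideal.Quotient.liftₐ 𝔞.toIdeal (aeval z) hz
    let φ : (MvPolynomial σ ℂ ⧸ 𝔞.toIdeal) →+* Γ(Spec (CommRingCat.of A), ⊤) :=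
      (Scheme.ΓSpecIso (CommRingCat.of A)).inv.hom.comp ψ.toRingHom
    have hψ : ∀ p, ψ (aeval t p) = aeval z p := fun p => by
      rw [hπ]
      rfl
    have htop : Ideal.span (Set.range z) = ⊤ := by
      by_contra hne
      obtain ⟨M, hM, hle⟩ := Ideal.exists_le_maximal _ hne
      obtain ⟨j, hj⟩ := hP ⟨M, hM.isPrime⟩
      exact hj (hle (Ideal.subset_span ⟨j, rfl⟩))
    have hφ : (HomogeneousIdeal.irrelevant (qgr _ 𝔞)).toIdeal.map φ = ⊤ := by
      have h1 : Ideal.map (Scheme.ΓSpecIso (CommRingCat.of A)).inv.hom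
          (Ideal.span (Set.range z)) = ⊤ := by
        rw [htop, Ideal.map_top]
      rw [eq_top_iff, ← h1, Ideal.map_span, Ideal.span_le]
      rintro _ ⟨_, ⟨j, rfl⟩, rfl⟩
      have h2 : z j = ψ (t j) := by
        rw [← aeval_X (R := ℂ) t j, hψ, aeval_X]
      rw [h2]
      exact Ideal.mem_map_of_mem φ (HomogeneousIdeal.mem_irrelevant_of_mem (qgr _ 𝔞) one_pos (ht j))
    refine ⟨Over.homMk (Proj.fromOfGlobalSections (qgr _ 𝔞) φ hφ) ?_, fun j p n hp P => ?_⟩
    · change Proj.fromOfGlobalSections (qgr _ 𝔞) φ hφ ≫ Proj.toSpecZero (qgr _ 𝔞) ≫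
        Spec.map (CommRingCat.ofHom (algebraMap ℂ ((qgr _ 𝔞) 0))) =
        Spec.map (CommRingCat.ofHom (algebraMap ℂ A))
      rw [Proj.fromOfGlobalSections_toSpecZero_assoc, ← SpecMap_ΓSpecIso_hom, ← Spec.map_comp,
        ← Spec.map_comp]
      congr 1
      ext c
      change (Scheme.ΓSpecIso (CommRingCat.of A)).hom
        ((Scheme.ΓSpecIso (CommRingCat.of A)).inv (ψ (algebraMap ℂ _ c))) = _
      rw [Iso.inv_hom_id_apply, AlgHom.commutes]
      rfl
    · have hXp : (X j * p).IsHomogeneous (1 + n) := (isHomogeneous_X ℂ j).mul hp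
      have h1 := Proj.fromOfGlobalSections_preimage_basicOpen (qgr _ 𝔞) φ hφ
        (show 0 < (1 + n) • 1 by simp) (lcproj_aeval_mem (qgr _ 𝔞) t ht hXp)
      refine (hbo j p n hp _).trans ?_
      change P ∈ Proj.fromOfGlobalSections (qgr _ 𝔞) φ hφ ⁻¹ᵁ Proj.basicOpen (qgr _ 𝔞) (aeval t (X j * p)) ↔ _
      rw [h1]
      change P ∈ (Spec (CommRingCat.of A)).basicOpen
        ((Scheme.ΓSpecIso (CommRingCat.of A)).inv (ψ (aeval t (X j * p)))) ↔ _
      rw [basicOpen_eq_of_affine, hψ, map_mul, aeval_X]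
      change z j * aeval z p ∉ P.asIdeal ↔ _
      rw [P.isPrime.mul_mem_iff_mem_or_mem, not_or]

theorem lcproj_exists (N : ℕ) (𝔞 : HomogeneousIdeal (homogeneousSubmodule (Fin (N + 1)) ℂ)) :
    ∃ Y : Over SpecC, IsProjective Y ∧ Nonempty (PData 𝔞.toIdeal Y) :=
  ⟨projOver (qgr _ 𝔞), ⟨N, Over.homMk (Proj.map (qmk _ 𝔞) (qmk_irrelevant _ 𝔞))
    (map_qmk_toSpec _ 𝔞), isClosedImmersion_qmk _ 𝔞⟩, lcproj_pdata 𝔞⟩

theorem exists_pdata (N : ℕ) (a : Ideal (MvPolynomial (Fin (N + 1)) ℂ))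
    (ha : a.IsHomogeneous (homogeneousSubmodule (Fin (N + 1)) ℂ)) :
    ∃ Y : Over SpecC, IsProjective Y ∧ Nonempty (PData a Y) :=
  lcproj_exists N ⟨a, ha⟩

end

end Pool.Agent.P.MP_dc0411_ag
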