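import Pool.Agent.P.MP_dc0411_ag.LcProj

/-!
Closed subschemes of a product of projective spaces, through the Segre embedding.
-/

open CategoryTheory AlgebraicGeometry MvPolynomial

namespace Pool.Agent.P.MP_dc0411_ag

noncomputable section

attribute [local instance] secAlgebra MvPolynomial.gradedAlgebra

variable {V G R : Type} [Fintype V] [DecidableEq V] [Fintype G] [DecidableEq G]

/-- The chart `I` with the variable of the group of `v` replaced by `v`. -/
def lcsegreUpd {g : V → G} (I : Chart g) (v : V) : Chart g :=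
  ⟨Function.update I.1 (g v) v, fun γ => by
    by_cases h : γ = g v
    · subst h
      rw [Function.update_self]
    · rw [Function.update_of_ne h, I.2]⟩

omit [Fintype V] [DecidableEq V] [Fintype G] in
theorem lcsegreUpd_self {g : V → G} (I : Chart g) (γ : G) : lcsegreUpd I (I.1 γ) = I := by
  apply Subtype.ext
  change Function.update I.1 (g (I.1 γ)) (I.1 γ) = I.1
  rw [I.2, Function.update_eq_self]

section
variable {A : Type} [CommRing A] {g : V → G}

/-- The Segre coordinate of the chart `I`. -/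
def lcsegreSeg (z : V → A) (I : Chart g) : A := ∏ γ, z (I.1 γ)

/-- The Segre coordinate without its factor in the group `γ`. -/
def lcsegreCof (z : V → A) (I : Chart g) (γ : G) : A := ∏ γ' ∈ Finset.univ.erase γ, z (I.1 γ')

omit [Fintype V] [DecidableEq V] in
theorem lcsegre_seg_upd (z : V → A) (I : Chart g) (v : V) :
    lcsegreSeg z (lcsegreUpd I v) = lcsegreCof z I (g v) * z v := by
  rw [lcsegreSeg, ← Finset.prod_erase_mul _ _ (Finset.mem_univ (g v))]
  congr 1
  · refine Finset.prod_congr rfl fun γ hγ => ?_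
    change z (Function.update I.1 (g v) v γ) = _
    rw [Function.update_of_ne (Finset.ne_of_mem_erase hγ)]
  · change z (Function.update I.1 (g v) v (g v)) = _
    rw [Function.update_self]

omit [Fintype V] [DecidableEq V] in
theorem lcsegre_seg_eq (z : V → A) (I : Chart g) (γ : G) :
    lcsegreSeg z I = lcsegreCof z I γ * z (I.1 γ) := by
  have h := lcsegre_seg_upd z I (I.1 γ)
  rwa [lcsegreUpd_self, I.2] at h

omit [Fintype V] [DecidableEq V] in
theorem lcsegre_rel1 (z : V → A) (I J : Chart g) :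
    lcsegreSeg z J * lcsegreSeg z I ^ Fintype.card G =
      (∏ γ, lcsegreSeg z (lcsegreUpd I (J.1 γ))) * lcsegreSeg z I := by
  have h : ∀ γ, lcsegreSeg z (lcsegreUpd I (J.1 γ)) * z (I.1 γ) = z (J.1 γ) * lcsegreSeg z I := by
    intro γ
    rw [lcsegre_seg_upd, J.2, lcsegre_seg_eq z I γ]
    ring
  have h2 : (∏ γ, lcsegreSeg z (lcsegreUpd I (J.1 γ))) * lcsegreSeg z I =
      ∏ γ, (lcsegreSeg z (lcsegreUpd I (J.1 γ)) * z (I.1 γ)) := by
    rw [Finset.prod_mul_distrib]
    rfl
  rw [h2]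
  simp only [h]
  rw [Finset.prod_mul_distrib, Finset.prod_const, Finset.card_univ]
  rfl

omit [Fintype V] [DecidableEq V] in
theorem lcsegre_rel2 (z : V → A) (I J : Chart g) (v : V) :
    lcsegreSeg z (lcsegreUpd I v) * lcsegreSeg z J =
      lcsegreSeg z (lcsegreUpd I (J.1 (g v))) * lcsegreSeg z (lcsegreUpd J v) := by
  rw [lcsegre_seg_upd, lcsegre_seg_upd, lcsegre_seg_upd, J.2, lcsegre_seg_eq z J (g v)]
  ring

end

section
variable {g : V → G} {σ : Type} (e : σ ≃ Chart g)

/-- The Segre substitution. -/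
def lcsegrePhi : MvPolynomial σ ℂ →ₐ[ℂ] MvPolynomial V ℂ :=
  aeval fun j => lcsegreSeg X (e j)

/-- A polynomial in the variables `V`, written in the Segre coordinates near the chart `I`. -/
def lcsegreLift (I : Chart g) : MvPolynomial V ℂ →ₐ[ℂ] MvPolynomial σ ℂ :=
  rename fun v => e.symm (lcsegreUpd I v)

/-- The homogeneous ideal of the image of the Segre embedding. -/
def lcsegreIdeal (F : R → MvPolynomial V ℂ) : HomogeneousIdeal (homogeneousSubmodule σ ℂ) :=
  ((Ideal.span (Set.range F)).comap (lcsegrePhi e)).homogeneousCore (homogeneousSubmodule σ ℂ)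

variable {A : Type} [CommRing A] [Algebra ℂ A]

omit [Fintype V] [DecidableEq V] [DecidableEq G] in
theorem lcsegre_phi_X (I : Chart g) : lcsegrePhi e (X (e.symm I)) = lcsegreSeg X I := by
  rw [lcsegrePhi, aeval_X, Equiv.apply_symm_apply]

omit [Fintype V] [DecidableEq V] [DecidableEq G] in
theorem lcsegre_aeval_phi (z : V → A) (p : MvPolynomial σ ℂ) :
    aeval z (lcsegrePhi e p) = aeval (fun j => lcsegreSeg z (e j)) p := by
  rw [lcsegrePhi, ← AlgHom.comp_apply, comp_aeval]
  simp only [lcsegreSeg, map_prod, aeval_X]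

omit [Fintype V] [DecidableEq V] [Fintype G] in
theorem lcsegre_aeval_lift (w : σ → A) (I : Chart g) (p : MvPolynomial V ℂ) :
    aeval w (lcsegreLift e I p) = aeval (fun v => w (e.symm (lcsegreUpd I v))) p := by
  rw [lcsegreLift, aeval_rename]
  rfl

theorem lcsegre_seg_lift (z : V → A) (I : Chart g) {p : MvPolynomial V ℂ} {d : G → ℕ}
    (hp : MH g p d) : aeval (fun j => lcsegreSeg z (e j)) (lcsegreLift e I p) =
      (∏ γ, lcsegreCof z I γ ^ d γ) * aeval z p := by
  rw [lcsegre_aeval_lift, ← hp.scale]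
  simp only [Equiv.apply_symm_apply, lcsegre_seg_upd]

theorem lcsegre_lift_hom (I : Chart g) {p : MvPolynomial V ℂ} {d : G → ℕ} (hp : MH g p d) :
    (lcsegreLift e I p).IsHomogeneous (∑ γ, d γ) :=
  hp.isHomogeneous.rename_isHomogeneous

variable {F : R → MvPolynomial V ℂ}

omit [Fintype V] [DecidableEq V] [DecidableEq G] in
theorem lcsegre_mem {p : MvPolynomial σ ℂ} {n : ℕ} (hp : p.IsHomogeneous n)
    (h : lcsegrePhi e p ∈ Ideal.span (Set.range F)) : p ∈ (lcsegreIdeal e F).toIdeal :=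
  Ideal.mem_homogeneousCore_of_homogeneous_of_mem ⟨n, hp⟩ h

omit [Fintype V] [DecidableEq V] [DecidableEq G] in
theorem lcsegre_le {p : MvPolynomial σ ℂ} (hp : p ∈ (lcsegreIdeal e F).toIdeal) :
    lcsegrePhi e p ∈ Ideal.span (Set.range F) :=
  Ideal.mem_comap.1 (Ideal.toIdeal_homogeneousCore_le (homogeneousSubmodule σ ℂ)
    ((Ideal.span (Set.range F)).comap (lcsegrePhi e)) hp)

omit [Fintype V] [DecidableEq V] in
theorem lcsegre_w1 {w : σ → A} (hw : ∀ p ∈ (lcsegreIdeal e F).toIdeal, aeval w p = 0)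
    {I : Chart g} (h1 : w (e.symm I) = 1) (J : Chart g) :
    w (e.symm J) = ∏ γ, w (e.symm (lcsegreUpd I (J.1 γ))) := by
  have hh : (X (e.symm J) * X (e.symm I) ^ Fintype.card G -
      (∏ γ, X (e.symm (lcsegreUpd I (J.1 γ)))) * X (e.symm I) : MvPolynomial σ ℂ).IsHomogeneous
      (Fintype.card G + 1) := by
    refine IsHomogeneous.sub ?_ ?_
    · have := (isHomogeneous_X ℂ (e.symm J)).mul
        ((isHomogeneous_X ℂ (e.symm I)).pow (Fintype.card G))
      rwa [one_mul, add_comm] at this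
    · have := (IsHomogeneous.prod Finset.univ (fun γ => X (e.symm (lcsegreUpd I (J.1 γ))))
        (fun _ => 1) fun γ _ => isHomogeneous_X ℂ _).mul (isHomogeneous_X ℂ (e.symm I))
      rwa [Finset.sum_const, Finset.card_univ, smul_eq_mul, mul_one] at this
  have h := hw _ (lcsegre_mem e (F := F) hh (by
    simp only [map_sub, map_mul, map_pow, map_prod, lcsegre_phi_X]
    rw [lcsegre_rel1, sub_self]
    exact zero_mem _))
  simpa only [map_sub, map_mul, map_pow, map_prod, aeval_X, h1, one_pow, mul_one, sub_eq_zero]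
    using h

omit [Fintype V] [DecidableEq V] in
theorem lcsegre_w2 {w : σ → A} (hw : ∀ p ∈ (lcsegreIdeal e F).toIdeal, aeval w p = 0)
    (I J : Chart g) (v : V) : w (e.symm (lcsegreUpd I v)) * w (e.symm J) =
      w (e.symm (lcsegreUpd I (J.1 (g v)))) * w (e.symm (lcsegreUpd J v)) := by
  have hh : (X (e.symm (lcsegreUpd I v)) * X (e.symm J) -
      X (e.symm (lcsegreUpd I (J.1 (g v)))) * X (e.symm (lcsegreUpd J v)) :
        MvPolynomial σ ℂ).IsHomogeneous (1 + 1) :=
    ((isHomogeneous_X ℂ _).mul (isHomogeneous_X ℂ _)).sub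
      ((isHomogeneous_X ℂ _).mul (isHomogeneous_X ℂ _))
  have h := hw _ (lcsegre_mem e (F := F) hh (by
    simp only [map_sub, map_mul, lcsegre_phi_X]
    rw [lcsegre_rel2, sub_self]
    exact zero_mem _))
  simpa only [map_sub, map_mul, aeval_X, sub_eq_zero] using h

theorem lcsegre_wF {dF : R → G → ℕ} (hF : ∀ r, MH g (F r) (dF r)) {w : σ → A}
    (hw : ∀ p ∈ (lcsegreIdeal e F).toIdeal, aeval w p = 0) (I : Chart g) (r : R) :
    aeval (fun v => w (e.symm (lcsegreUpd I v))) (F r) = 0 := by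
  rw [← lcsegre_aeval_lift]
  refine hw _ (lcsegre_mem e (lcsegre_lift_hom e I (hF r)) ?_)
  rw [lcsegrePhi, lcsegre_seg_lift e X I (hF r), aeval_X_left_apply]
  exact Ideal.mul_mem_left _ _ (Ideal.subset_span ⟨r, rfl⟩)

theorem lcsegre_ker {dF : R → G → ℕ} (hF : ∀ r, MH g (F r) (dF r)) {w : σ → A} (I : Chart g)
    (hk : RingHom.ker (aeval w : MvPolynomial σ ℂ →ₐ[ℂ] A) =
      (lcsegreIdeal e F).toIdeal ⊔ Ideal.span {X (e.symm I) - 1})
    (hw : ∀ p ∈ (lcsegreIdeal e F).toIdeal, aeval w p = 0) (h1 : w (e.symm I) = 1) :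
    RingHom.ker (aeval (fun v => w (e.symm (lcsegreUpd I v))) : MvPolynomial V ℂ →ₐ[ℂ] A) =
      Ideal.span (Set.range (rel F I)) := by
  apply le_antisymm
  · intro p hp
    rw [RingHom.mem_ker, ← lcsegre_aeval_lift, ← RingHom.mem_ker, hk] at hp
    let q := Ideal.Quotient.mkₐ ℂ (Ideal.span (Set.range (rel F I)))
    have hq1 : ∀ γ, q (X (I.1 γ)) = 1 := by
      intro γ
      have h : q (X (I.1 γ) - 1) = 0 :=
        Ideal.Quotient.eq_zero_iff_mem.2 (Ideal.subset_span ⟨Sum.inr γ, rfl⟩)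
      rwa [map_sub, map_one, sub_eq_zero] at h
    have hle : (lcsegreIdeal e F).toIdeal ⊔ Ideal.span {X (e.symm I) - 1} ≤
        RingHom.ker (q.comp (lcsegrePhi e)) := by
      refine sup_le (fun x hx => ?_) ((Ideal.span_singleton_le_iff_mem _).2 ?_)
      · refine Ideal.Quotient.eq_zero_iff_mem.2 (Ideal.span_mono ?_ (lcsegre_le e hx))
        rintro _ ⟨r, rfl⟩
        exact ⟨Sum.inl r, rfl⟩
      · rw [RingHom.mem_ker, map_sub, map_one, AlgHom.comp_apply, lcsegre_phi_X, lcsegreSeg,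
          map_prod]
        simp only [hq1, Finset.prod_const_one, sub_self]
    have hc : (q.comp (lcsegrePhi e)).comp (lcsegreLift e I) = q := by
      refine algHom_ext fun v => ?_
      rw [AlgHom.comp_apply, AlgHom.comp_apply, lcsegreLift, rename_X, lcsegre_phi_X,
        lcsegre_seg_upd, map_mul, lcsegreCof, map_prod]
      simp only [hq1, Finset.prod_const_one, one_mul]
    have h := hle hp
    rw [RingHom.mem_ker, ← AlgHom.comp_apply, hc] at h
    exact Ideal.Quotient.eq_zero_iff_mem.1 h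
  · rw [Ideal.span_le]
    rintro _ ⟨r | γ, rfl⟩
    · exact lcsegre_wF e hF hw I r
    · change aeval _ (X (I.1 γ) - 1) = 0
      rw [map_sub, map_one, aeval_X, lcsegreUpd_self, h1, sub_self]

end

theorem PData.lcsegre_zero {σ : Type} {a : Ideal (MvPolynomial σ ℂ)} {Y : Over SpecC}
    (P : PData a Y) (j : σ) : ∀ p ∈ a, aeval (P.W j) p = 0 := by
  intro p hp
  rw [← RingHom.mem_ker, P.ker]
  exact Ideal.mem_sup_left hp

theorem PData.lcsegre_one {σ : Type} {a : Ideal (MvPolynomial σ ℂ)} {Y : Over SpecC}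
    (P : PData a Y) (j : σ) : P.W j j = 1 := by
  have h : X j - 1 ∈
      RingHom.ker (aeval (P.W j) : MvPolynomial σ ℂ →ₐ[ℂ] Γ(Y.left, P.U j)) := by
    rw [P.ker]
    exact Ideal.mem_sup_right (Ideal.mem_span_singleton_self _)
  rwa [RingHom.mem_ker, map_sub, map_one, aeval_X, sub_eq_zero] at h

/-- The multi-projective charts obtained from the charts of the image of the Segre embedding. -/
def lcsegreData {g : V → G} {σ : Type} (e : σ ≃ Chart g) {F : R → MvPolynomial V ℂ}
    {dF : R → G → ℕ} (hF : ∀ r, MH g (F r) (dF r)) {Y : Over SpecC}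
    (P : PData (lcsegreIdeal e F).toIdeal Y) : MPData g F Y where
  U I := P.U (e.symm I)
  aff I := P.aff _
  cover := (e.symm.iSup_comp (g := P.U)).trans P.cover
  Z I v := P.W (e.symm I) (e.symm (lcsegreUpd I v))
  surj I := by
    intro s
    obtain ⟨p, rfl⟩ := P.surj _ s
    refine ⟨lcsegrePhi e p, ?_⟩
    rw [lcsegre_aeval_phi]
    congr 2
    funext j
    have h := lcsegre_w1 e (P.lcsegre_zero (e.symm I)) (P.lcsegre_one _) (e j)
    rw [Equiv.symm_apply_apply] at h
    exact h.symm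
  ker I := lcsegre_ker e hF I (P.ker _) (P.lcsegre_zero _) (P.lcsegre_one _)
  inter I J := by
    rw [← lcsegre_w1 e (P.lcsegre_zero (e.symm I)) (P.lcsegre_one _) J]
    exact P.inter _ _
  trans I J v := by
    have h1 := P.trans (e.symm I) (e.symm J) (e.symm I)
    have h2 := P.trans (e.symm I) (e.symm J) (e.symm (lcsegreUpd J v))
    have h3 := congrArg (resAlg (inf_le_left : P.U (e.symm I) ⊓ P.U (e.symm J) ≤ _))
      (lcsegre_w2 e (P.lcsegre_zero (e.symm I)) I J v)
    rw [P.lcsegre_one] at h1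
    simp only [← resAlg_apply, map_one, map_mul] at h1 h2 h3 ⊢
    rw [h2] at h3
    have hu := IsUnit.of_mul_eq_one _ h1.symm
    refine hu.mul_right_cancel ?_
    rw [h3]
    ring
  pts A _ _ z hz hP := by
    obtain ⟨f, hf⟩ := P.pts A (fun j => lcsegreSeg z (e j)) (fun p hp => by
      rw [← lcsegre_aeval_phi, ← RingHom.mem_ker]
      refine (Ideal.span_le.2 ?_ : Ideal.span (Set.range F) ≤ _) (lcsegre_le e hp)
      rintro _ ⟨r, rfl⟩
      exact hz r) fun Q => by
      obtain ⟨I, hI⟩ := hP Q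
      refine ⟨e.symm I, fun h => ?_⟩
      rw [Equiv.apply_symm_apply, lcsegreSeg, Ideal.IsPrime.prod_mem_iff] at h
      obtain ⟨γ, -, h⟩ := h
      exact hI γ h
    refine ⟨f, fun I p d hp Q => ?_⟩
    rw [← lcsegre_aeval_lift, hf _ _ _ (lcsegre_lift_hom e I hp), lcsegre_seg_lift e z I hp,
      Equiv.apply_symm_apply, lcsegreSeg, Ideal.IsPrime.prod_mem_iff]
    have e1 : (¬ ∃ γ ∈ Finset.univ, z (I.1 γ) ∈ Q.asIdeal) ↔ ∀ γ, z (I.1 γ) ∉ Q.asIdeal := by
      simp
    rw [e1]
    refine and_congr_right fun hI => not_congr ?_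
    rw [Q.isPrime.mul_mem_iff_mem_or_mem]
    refine or_iff_right fun h => ?_
    rw [Ideal.IsPrime.prod_mem_iff] at h
    obtain ⟨γ, -, h⟩ := h
    have h2 := Q.isPrime.mem_of_pow_mem _ h
    rw [lcsegreCof, Ideal.IsPrime.prod_mem_iff] at h2
    obtain ⟨γ', -, h2⟩ := h2
    exact hI γ' h2

theorem exists_mpdata [Nonempty G] (g : V → G) [Nonempty (Chart g)] (F : R → MvPolynomial V ℂ)
    (dF : R → G → ℕ) (hF : ∀ r, MH g (F r) (dF r)) :
    ∃ Y : Over SpecC, IsProjective Y ∧ Nonempty (MPData g F Y) := by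
  obtain ⟨N, hN⟩ := Nat.exists_eq_succ_of_ne_zero (Fintype.card_ne_zero (α := Chart g))
  let e : Fin (N + 1) ≃ Chart g := (Fintype.equivFinOfCardEq hN).symm
  obtain ⟨Y, hY, ⟨P⟩⟩ := exists_pdata N (lcsegreIdeal e F).toIdeal (lcsegreIdeal e F).isHomogeneous
  exact ⟨Y, hY, ⟨lcsegreData e hF P⟩⟩

end

end Pool.Agent.P.MP_dc0411_ag
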