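import Pool.Agent.P.MP_dc0411_ag.DefsLog

/-!
Algebra of logarithmic forms on a function field.
-/

open scoped TensorProduct IntermediateField.algebraAdjoinAdjoin
open KaehlerDifferential

namespace Pool.Agent.P.MP_dc0411_ag

noncomputable section

variable {K : Type} [Field K] [Algebra ℂ K]

/-- The differentials of a transcendence basis have a nonzero wedge product. -/
theorem wedge_ne_zero {n : ℕ} {t : Fin n → K} (ht : IsTranscendenceBasis ℂ t) :
    (exteriorPower.ιMulti K n fun i => D ℂ K (t i)) ≠ 0 := by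
  let P := MvPolynomial (Fin n) ℂ
  let aA : Algebra P (Algebra.adjoin ℂ (Set.range t)) := ht.1.aevalEquiv.toRingHom.toAlgebra
  let aK : Algebra P K := (MvPolynomial.aeval t : P →ₐ[ℂ] K).toRingHom.toAlgebra
  have : IsScalarTower ℂ P K := IsScalarTower.of_algebraMap_eq fun c =>
    ((MvPolynomial.aeval t : P →ₐ[ℂ] K).commutes c).symm
  have : IsScalarTower P (Algebra.adjoin ℂ (Set.range t)) K :=
    IsScalarTower.of_algebraMap_eq fun p => (ht.1.algebraMap_aevalEquiv p).symm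
  have : CharZero K := charZero_of_injective_algebraMap (algebraMap ℂ K).injective
  have : Algebra.IsAlgebraic (IntermediateField.adjoin ℂ (Set.range t)) K := ht.isAlgebraic_field
  have e1 : Algebra.FormallyEtale (IntermediateField.adjoin ℂ (Set.range t)) K :=
    Algebra.FormallyEtale.of_isSeparable _ K
  have e2 : Algebra.FormallyEtale (Algebra.adjoin ℂ (Set.range t))
      (IntermediateField.adjoin ℂ (Set.range t)) :=
    Algebra.FormallyEtale.of_isLocalization (nonZeroDivisors _)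
  have e3 : Algebra.FormallyEtale (Algebra.adjoin ℂ (Set.range t)) K :=
    Algebra.FormallyEtale.comp _ (IntermediateField.adjoin ℂ (Set.range t)) K
  have e4 : Algebra.FormallyEtale P (Algebra.adjoin ℂ (Set.range t)) :=
    Algebra.FormallyEtale.of_equiv
      (AlgEquiv.ofBijective (Algebra.ofId P _) ht.1.aevalEquiv.bijective)
  have e5 : Algebra.FormallyEtale P K :=
    Algebra.FormallyEtale.comp P (Algebra.adjoin ℂ (Set.range t)) K
  let b := ((mvPolynomialBasis ℂ (Fin n)).baseChange K).map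
    (tensorKaehlerEquivOfFormallyEtale ℂ P K)
  have hb : (fun i => D ℂ K (t i)) = b := by
    funext i
    have h1 : algebraMap P K (MvPolynomial.X i) = t i := MvPolynomial.aeval_X t i
    have h2 := tensorKaehlerEquivOfFormallyEtale_symm_D_algebraMap ℂ P K (MvPolynomial.X i)
    rw [LinearEquiv.symm_apply_eq, h1] at h2
    rw [h2]
    simp only [b, Module.Basis.map_apply, Module.Basis.baseChange_apply, mvPolynomialBasis_apply]
    rfl
  intro h
  have h3 := exteriorPower.alternatingMapLinearEquiv_apply_ιMulti b.det b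
  rw [hb] at h
  rw [h, map_zero, b.det_self] at h3
  exact zero_ne_one h3

/-- Regular `n`-forms at a valuation ring. -/
def reg1 (O : ValuationSubring K) (n : ℕ) : Submodule O (⋀[K]^n Ω[K⁄ℂ]) :=
  Submodule.span O {η | ∃ f : Fin n → K, (∀ i, f i ∈ O) ∧
    η = exteriorPower.ιMulti K n fun i => D ℂ K (f i)}

theorem reg1_smul {O : ValuationSubring K} {n : ℕ} {a : K} (ha : a ∈ O) {η : ⋀[K]^n Ω[K⁄ℂ]}
    (h : η ∈ reg1 O n) : a • η ∈ reg1 O n :=
  (reg1 O n).smul_mem (⟨a, ha⟩ : O) h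

/-- An `n`-form as a pluricanonical form of weight one. -/
def tens (n : ℕ) : (⋀[K]^n Ω[K⁄ℂ]) ≃ₗ[K] ⨂[K]^1 (⋀[K]^n Ω[K⁄ℂ]) :=
  (PiTensorProduct.subsingletonEquiv (s := fun _ : Fin 1 => ⋀[K]^n Ω[K⁄ℂ]) 0).symm

theorem tens_mem {O : ValuationSubring K} {n : ℕ} {η : ⋀[K]^n Ω[K⁄ℂ]} (h : η ∈ reg1 O n) :
    tens n η ∈ regularAt (wedge (D ℂ K) n) O 1 := by
  induction h using Submodule.span_induction with
  | mem x hx =>
    obtain ⟨f, hf, rfl⟩ := hx
    refine Submodule.subset_span ⟨fun _ => f, fun _ => hf, ?_⟩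
    exact PiTensorProduct.subsingletonEquiv_symm_apply' 0 _
  | zero => rw [map_zero]; exact zero_mem _
  | add x y _ _ hx hy => rw [map_add]; exact add_mem hx hy
  | smul a x _ hx =>
    have h : tens n ((a : K) • x) ∈ regularAt (wedge (D ℂ K) n) O 1 := by
      rw [map_smul]
      exact Submodule.smul_mem _ a hx
    exact h

/-- At most a simple pole at every discrete valuation ring. -/
def Simple {n : ℕ} (η : ⋀[K]^n Ω[K⁄ℂ]) : Prop :=
  ∀ O : ValuationSubring K, IsDiscreteValuationRing O → (∀ c : ℂ, algebraMap ℂ K c ∈ O) →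
    ∀ π : O, Irreducible π → (π : K) • η ∈ reg1 O n

theorem Simple.comb {n : ℕ} {η θ : ⋀[K]^n Ω[K⁄ℂ]} (h : Simple η) (h' : Simple θ) (a b : ℂ) :
    Simple (algebraMap ℂ K a • η + algebraMap ℂ K b • θ) := by
  intro O hO hC π hπ
  rw [smul_add, smul_comm, smul_comm (π : K)]
  exact add_mem (reg1_smul (hC a) (h O hO hC π hπ)) (reg1_smul (hC b) (h' O hO hC π hπ))

theorem isLogForm_tens {S : Set (ValuationSubring K)} {n : ℕ} {η : ⋀[K]^n Ω[K⁄ℂ]}
    (h1 : Simple η) (h2 : ∀ O ∈ S, η ∈ reg1 O n) : IsLogForm (wedge (D ℂ K) n) S (tens n η) := by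
  intro O hO hC
  refine ⟨fun π hπ => ?_, fun hS => tens_mem (h2 O hS)⟩
  rw [pow_one, ← map_smul]
  exact tens_mem (h1 O hO hC π hπ)

/-- The conclusion of `LogGeneralType` for a field and a set of valuation rings. -/
abbrev LGT (S : Set (ValuationSubring K)) : Prop := FieldBig K S

theorem lgt_of {S : Set (ValuationSubring K)} {n : ℕ} {η : ⋀[K]^n Ω[K⁄ℂ]} {ρ : Fin n → K}
    (h0 : η ≠ 0) (hρ : IsTranscendenceBasis ℂ ρ) (h1 : Simple η) (h2 : ∀ i, Simple (ρ i • η))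
    (h3 : ∀ O ∈ S, η ∈ reg1 O n) (h4 : ∀ i, ∀ O ∈ S, ρ i • η ∈ reg1 O n) : LGT S := by
  refine ⟨n, 1, tens n η, ρ, one_pos, ?_, hρ, isLogForm_tens h1 h3, fun i => ?_⟩
  · rwa [Ne, LinearEquiv.map_eq_zero_iff]
  · rw [← map_smul]
    exact isLogForm_tens (h2 i) (h4 i)

theorem dlog_decomp {O : ValuationSubring K} (hO : IsDiscreteValuationRing O) {π : O}
    (hπ : Irreducible π) {f : K} (hf : f ≠ 0) :
    ∃ (u v : K) (k : ℤ), u ∈ O ∧ v ∈ O ∧
      f⁻¹ • D ℂ K f = v • D ℂ K u + ((k : K) * (π : K)⁻¹) • D ℂ K (π : K) := by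
  obtain ⟨k, u, hu⟩ := IsDiscreteValuationRing.exists_units_eq_smul_zpow_of_irreducible hπ hf
  have hπ0 : (π : K) ≠ 0 := fun h => hπ.ne_zero (Subtype.ext h)
  have hinv : ((u : O) : K) * ((u⁻¹ : Oˣ) : O) = 1 := by
    exact congrArg (fun z : O => (z : K)) u.mul_inv
  have hu0 : ((u : O) : K) ≠ 0 := left_ne_zero_of_mul_eq_one hinv
  have hf' : f = ((u : O) : K) * (π : K) ^ k := hu
  refine ⟨(u : O), ((u⁻¹ : Oˣ) : O), k, (u : O).2, ((u⁻¹ : Oˣ) : O).2, ?_⟩
  rw [eq_inv_of_mul_eq_one_right hinv, hf', Derivation.leibniz, Derivation.leibniz_zpow,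
    ← Int.cast_smul_eq_zsmul K, smul_add, smul_smul, smul_smul, smul_smul, smul_smul, add_comm]
  have hz : (π : K) ^ k ≠ 0 := zpow_ne_zero k hπ0
  congr 2
  · field_simp
  · rw [zpow_sub_one₀ hπ0]
    field_simp

/-- One-forms. -/
def w1 : Ω[K⁄ℂ] →ₗ[K] ⋀[K]^1 Ω[K⁄ℂ] := (exteriorPower.oneEquiv K Ω[K⁄ℂ]).symm.toLinearMap

theorem w1_eq (a : Ω[K⁄ℂ]) : w1 a = exteriorPower.ιMulti K 1 fun _ => a :=
  (LinearEquiv.symm_apply_eq _).mpr (exteriorPower.oneEquiv_ιMulti (fun _ => a)).symm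

theorem w1_mem {O : ValuationSubring K} {u : K} (hu : u ∈ O) : w1 (D ℂ K u) ∈ reg1 O 1 :=
  Submodule.subset_span ⟨fun _ => u, fun _ => hu, w1_eq _⟩

theorem simple_dlog {f : K} (hf : f ≠ 0) : Simple (w1 (f⁻¹ • D ℂ K f)) := by
  intro O hO hC π hπ
  obtain ⟨u, v, k, hu, hv, h⟩ := dlog_decomp hO hπ hf
  have hπ0 : (π : K) ≠ 0 := fun h => hπ.ne_zero (Subtype.ext h)
  rw [h, map_add, map_smul, map_smul, smul_add, smul_smul, smul_smul]
  refine add_mem (reg1_smul (mul_mem π.2 hv) (w1_mem hu)) (reg1_smul ?_ (w1_mem π.2))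
  have : (π : K) * ((k : K) * (π : K)⁻¹) = k := by field_simp
  rw [this]
  exact intCast_mem O k

/-- Two-forms. -/
def w2 (a b : Ω[K⁄ℂ]) : ⋀[K]^2 Ω[K⁄ℂ] := exteriorPower.ιMulti K 2 ![a, b]

theorem w2_self (a : Ω[K⁄ℂ]) : w2 a a = 0 :=
  (exteriorPower.ιMulti K 2).map_eq_zero_of_eq ![a, a] (i := 0) (j := 1) rfl (by decide)

theorem w2_left (r s : K) (a a' b : Ω[K⁄ℂ]) :
    w2 (r • a + s • a') b = r • w2 a b + s • w2 a' b := by
  simp only [w2]
  rw [AlternatingMap.map_vecCons_add, AlternatingMap.map_vecCons_smul,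
    AlternatingMap.map_vecCons_smul]

theorem w2_swap (a b : Ω[K⁄ℂ]) : w2 b a = -w2 a b := by
  have h := (exteriorPower.ιMulti K 2).map_swap ![a, b] (i := 0) (j := 1) (by decide)
  have h2 : (![a, b] : Fin 2 → Ω[K⁄ℂ]) ∘ Equiv.swap 0 1 = ![b, a] := by
    funext i
    fin_cases i <;> rfl
  rwa [h2] at h

theorem w2_det (r s p q : K) (a b : Ω[K⁄ℂ]) :
    w2 (r • a + s • b) (p • a + q • b) = (r * q - s * p) • w2 a b := by
  rw [w2_left, w2_swap (p • a + q • b) a, w2_swap (p • a + q • b) b, w2_left, w2_left, w2_self,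
    w2_self, w2_swap a b]
  module

theorem w2_bil (r s p q : K) (a b c d : Ω[K⁄ℂ]) :
    w2 (r • a + s • b) (p • c + q • d) =
      (r * p) • w2 a c + (r * q) • w2 a d + (s * p) • w2 b c + (s * q) • w2 b d := by
  rw [w2_left, w2_swap (p • c + q • d) a, w2_swap (p • c + q • d) b, w2_left, w2_left,
    w2_swap a c, w2_swap a d, w2_swap b c, w2_swap b d]
  module

theorem w2_mem {O : ValuationSubring K} {u v : K} (hu : u ∈ O) (hv : v ∈ O) :
    w2 (D ℂ K u) (D ℂ K v) ∈ reg1 O 2 := by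
  refine Submodule.subset_span ⟨![u, v], fun i => ?_, ?_⟩
  · fin_cases i
    · exact hu
    · exact hv
  · unfold w2
    congr 1
    funext i
    fin_cases i <;> rfl

theorem simple_dlog2 {f g : K} (hf : f ≠ 0) (hg : g ≠ 0) :
    Simple (w2 (f⁻¹ • D ℂ K f) (g⁻¹ • D ℂ K g)) := by
  intro O hO hC π hπ
  obtain ⟨u, v, k, hu, hv, h⟩ := dlog_decomp hO hπ hf
  obtain ⟨u', v', k', hu', hv', h'⟩ := dlog_decomp hO hπ hg
  have hπ0 : (π : K) ≠ 0 := fun h => hπ.ne_zero (Subtype.ext h)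
  rw [h, h', w2_bil, w2_self, smul_zero, add_zero, smul_add, smul_add, smul_smul, smul_smul,
    smul_smul]
  refine add_mem (add_mem (reg1_smul (mul_mem π.2 (mul_mem hv hv')) (w2_mem hu hu'))
    (reg1_smul ?_ (w2_mem hu π.2))) (reg1_smul ?_ (w2_mem π.2 hu'))
  · have : (π : K) * (v * ((k' : K) * (π : K)⁻¹)) = v * k' := by field_simp
    rw [this]
    exact mul_mem hv (intCast_mem O k')
  · have : (π : K) * ((k : K) * (π : K)⁻¹ * v') = k * v' := by field_simp
    rw [this]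
    exact mul_mem (intCast_mem O k) hv'

end

end Pool.Agent.P.MP_dc0411_ag
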