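import Pool.Agent.P.MP_dc0411_ag.LogAlg

/-!
Explicit logarithmic forms on points, curves and on the surface.
-/

open scoped TensorProduct
open KaehlerDifferential

namespace Pool.Agent.P.MP_dc0411_ag

noncomputable section

variable {K : Type} [Field K] [Algebra ℂ K] {S : Set (ValuationSubring K)}

theorem exists_const {z : K} (hz : IsAlgebraic ℂ z) : ∃ c : ℂ, algebraMap ℂ K c = z :=
  minpoly.mem_range_of_degree_eq_one ℂ z
    (IsAlgClosed.degree_eq_one_of_irreducible ℂ (minpoly.irreducible hz.isIntegral))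

theorem lgt_point (h : Algebra.IsAlgebraic ℂ K) : LGT S := by
  have h0 : Algebra.trdeg ℂ K = 0 := trdeg_eq_zero
  have hb : IsTranscendenceBasis ℂ (Fin.elim0 : Fin 0 → K) :=
    (algebraicIndependent_empty_type_iff.mpr
      (algebraMap ℂ K).injective).isTranscendenceBasis_of_trdeg_le_of_finite (by simp [h0])
  have hm : ∀ O : ValuationSubring K,
      (exteriorPower.ιMulti K 0 fun i => D ℂ K ((Fin.elim0 : Fin 0 → K) i)) ∈ reg1 O 0 :=
    fun O => Submodule.subset_span ⟨Fin.elim0, fun i => i.elim0, rfl⟩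
  exact lgt_of (wedge_ne_zero hb) hb (fun O _ _ π _ => reg1_smul π.2 (hm O)) (fun i => i.elim0)
    (fun O _ => hm O) (fun i => i.elim0)

theorem D_sub_const (t : K) (a : ℂ) : D ℂ K (t - algebraMap ℂ K a) = D ℂ K t := by
  rw [map_sub, Derivation.map_algebraMap, sub_zero]

theorem lgt_curve (h1 : Algebra.trdeg ℂ K ≤ 1) {t : K} (ht : Transcendental ℂ t) {a b : ℂ}
    (hab : a ≠ b)
    (hS : ∀ O ∈ S, t ∈ O ∧ ((t - algebraMap ℂ K a) * (t - algebraMap ℂ K b))⁻¹ ∈ O) : LGT S := by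
  have hb : IsTranscendenceBasis ℂ (fun _ : Fin 1 => t) :=
    (algebraicIndependent_unique_type_iff.mpr ht).isTranscendenceBasis_of_trdeg_le_of_finite
      (by simpa using h1)
  have hne : ∀ c : ℂ, t - algebraMap ℂ K c ≠ 0 := fun c h =>
    ht (by rw [sub_eq_zero.mp h]; exact isAlgebraic_algebraMap c)
  have hs : ∀ c : ℂ, Simple ((t - algebraMap ℂ K c)⁻¹ • w1 (D ℂ K t)) := fun c => by
    have := simple_dlog (hne c)
    rwa [D_sub_const, map_smul] at this
  have hab' : algebraMap ℂ K a - algebraMap ℂ K b ≠ 0 := by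
    rw [← map_sub]
    exact (map_ne_zero _).mpr (sub_ne_zero.mpr hab)
  have ha := hne a
  have hb' := hne b
  have hw : w1 (D ℂ K t) ≠ 0 := by
    rw [w1_eq]
    exact wedge_ne_zero hb
  refine lgt_of (η := ((t - algebraMap ℂ K a) * (t - algebraMap ℂ K b))⁻¹ • w1 (D ℂ K t))
    (smul_ne_zero (inv_ne_zero (mul_ne_zero ha hb')) hw) hb ?_ (fun _ => ?_)
    (fun O hO => reg1_smul (hS O hO).2 (w1_mem (hS O hO).1))
    (fun _ O hO => reg1_smul (hS O hO).1 (reg1_smul (hS O hO).2 (w1_mem (hS O hO).1)))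
  · have h := (hs a).comb (hs b) (a - b)⁻¹ (-(a - b)⁻¹)
    rw [smul_smul, smul_smul, ← add_smul] at h
    have e : ((t - algebraMap ℂ K a) * (t - algebraMap ℂ K b))⁻¹ =
        algebraMap ℂ K (a - b)⁻¹ * (t - algebraMap ℂ K a)⁻¹ +
          algebraMap ℂ K (-(a - b)⁻¹) * (t - algebraMap ℂ K b)⁻¹ := by
      rw [map_neg, map_inv₀, map_sub]
      field_simp
      ring
    rwa [e]
  · have h := (hs a).comb (hs b) (a * (a - b)⁻¹) (-(b * (a - b)⁻¹))
    rw [smul_smul, smul_smul, ← add_smul] at h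
    have e : t * ((t - algebraMap ℂ K a) * (t - algebraMap ℂ K b))⁻¹ =
        algebraMap ℂ K (a * (a - b)⁻¹) * (t - algebraMap ℂ K a)⁻¹ +
          algebraMap ℂ K (-(b * (a - b)⁻¹)) * (t - algebraMap ℂ K b)⁻¹ := by
      rw [map_neg, map_mul, map_mul, map_inv₀, map_sub]
      field_simp
      ring
    rwa [smul_smul, e]

theorem D_g (x y : K) : D ℂ K (x * y * (x + y)) =
    (y * (2 * x + y)) • D ℂ K x + (x * (x + 2 * y)) • D ℂ K y := by
  rw [Derivation.leibniz, Derivation.leibniz, map_add]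
  module

theorem simple_xy {x y : K} (hx : x ≠ 0) (hy : y ≠ 0) {c : ℂ}
    (hc : x * y * (x + y) - algebraMap ℂ K c ≠ 0) :
    Simple ((x * (x * y * (x + y) - algebraMap ℂ K c)⁻¹) • w2 (D ℂ K x) (D ℂ K y)) ∧
      Simple ((y * (x * y * (x + y) - algebraMap ℂ K c)⁻¹) • w2 (D ℂ K x) (D ℂ K y)) := by
  have : CharZero K := charZero_of_injective_algebraMap (algebraMap ℂ K).injective
  have hA := simple_dlog2 hx hc
  have hB := simple_dlog2 hy hc
  rw [D_sub_const, D_g, smul_add, smul_smul, smul_smul] at hA hB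
  have e1 : x⁻¹ • D ℂ K x = x⁻¹ • D ℂ K x + (0 : K) • D ℂ K y := by rw [zero_smul, add_zero]
  have e2 : y⁻¹ • D ℂ K y = (0 : K) • D ℂ K x + y⁻¹ • D ℂ K y := by rw [zero_smul, zero_add]
  rw [e1, w2_det] at hA
  rw [e2, w2_det] at hB
  generalize (x * y * (x + y) - algebraMap ℂ K c)⁻¹ = r at hA hB ⊢
  constructor
  · have h := hA.comb hB (-1 / 3) (-2 / 3)
    rw [smul_smul, smul_smul, ← add_smul] at h
    have e : x * r = algebraMap ℂ K (-1 / 3) * (x⁻¹ * (r * (x * (x + 2 * y))) -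
        0 * (r * (y * (2 * x + y)))) + algebraMap ℂ K (-2 / 3) * (0 * (r * (x * (x + 2 * y))) -
          y⁻¹ * (r * (y * (2 * x + y)))) := by
      simp only [map_div₀, map_neg, map_one, map_ofNat]
      field_simp
      ring
    rwa [e]
  · have h := hA.comb hB (2 / 3) (1 / 3)
    rw [smul_smul, smul_smul, ← add_smul] at h
    have e : y * r = algebraMap ℂ K (2 / 3) * (x⁻¹ * (r * (x * (x + 2 * y))) -
        0 * (r * (y * (2 * x + y)))) + algebraMap ℂ K (1 / 3) * (0 * (r * (x * (x + 2 * y))) -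
          y⁻¹ * (r * (y * (2 * x + y)))) := by
      simp only [map_div₀, map_one, map_ofNat]
      field_simp
      ring
    rwa [e]

theorem lgt_surface {x y : K} (h : IsTranscendenceBasis ℂ ![x, y])
    (h1 : x * y * (x + y) - 1 ≠ 0) (h2 : x * y * (x + y) - 2 ≠ 0)
    (hS : ∀ O ∈ S, x ∈ O ∧ y ∈ O ∧ ((x * y * (x + y) - 1) * (x * y * (x + y) - 2))⁻¹ ∈ O) :
    LGT S := by
  have hx : x ≠ 0 := h.1.ne_zero 0
  have hy : y ≠ 0 := h.1.ne_zero 1
  have hxy : x + y ≠ 0 := by
    intro h0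
    have h3 : MvPolynomial.aeval ![x, y]
        (MvPolynomial.X 0 + MvPolynomial.X 1 : MvPolynomial (Fin 2) ℂ) = 0 := by simpa using h0
    have h4 := congrArg (MvPolynomial.eval ![1, 0]) (h.1.eq_zero_of_aeval_eq_zero _ h3)
    simp at h4
  set g := x * y * (x + y) with hg
  have hρ : IsTranscendenceBasis ℂ ![y / x, g] := by
    let A := Algebra.adjoin ℂ (Set.range ![y / x, g])
    let u : A := ⟨y / x, Algebra.subset_adjoin ⟨0, rfl⟩⟩
    let γ : A := ⟨g, Algebra.subset_adjoin ⟨1, rfl⟩⟩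
    have hu : IsAlgebraic A (y / x) := isAlgebraic_algebraMap u
    have hγ : IsAlgebraic A g := isAlgebraic_algebraMap γ
    have hne : y / x * (1 + y / x) ≠ 0 := by
      refine mul_ne_zero (div_ne_zero hy hx) ?_
      rw [one_add_div hx]
      exact div_ne_zero hxy hx
    have hx3 : IsAlgebraic A (x ^ 3) := by
      refine IsAlgebraic.of_mul (mem_nonZeroDivisors_of_ne_zero hne)
        (hu.mul (isAlgebraic_one.add hu)) ?_
      have e : y / x * (1 + y / x) * x ^ 3 = g := by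
        rw [hg]
        field_simp
      rwa [e]
    have hxa : IsAlgebraic A x := hx3.of_pow (by norm_num)
    have hya : IsAlgebraic A y := by
      have := hu.mul hxa
      rwa [div_mul_cancel₀ y hx] at this
    have : Algebra.IsAlgebraic A K := h.isAlgebraic_iff.mpr fun i => by
      fin_cases i
      · exact hxa
      · exact hya
    exact Algebra.IsAlgebraic.isTranscendenceBasis_of_le_trdeg_of_finite ℂ _
      h.cardinalMk_eq_trdeg.le
  have hV : w2 (D ℂ K x) (D ℂ K y) ≠ 0 := by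
    have := wedge_ne_zero h
    have e : (fun i => D ℂ K (![x, y] i)) = ![D ℂ K x, D ℂ K y] := by
      funext i
      fin_cases i <;> rfl
    rwa [e] at this
  obtain ⟨a1, b1⟩ := simple_xy hx hy (c := 1) (by rwa [map_one])
  obtain ⟨a2, b2⟩ := simple_xy hx hy (c := 2) (by rwa [map_ofNat])
  rw [map_one, ← hg] at a1 b1
  rw [map_ofNat, ← hg] at a2 b2
  have hinv : ((g - 1) * (g - 2))⁻¹ ≠ 0 := inv_ne_zero (mul_ne_zero h1 h2)
  have e0 : y / x * (x * ((g - 1) * (g - 2))⁻¹) = y * ((g - 1) * (g - 2))⁻¹ := by field_simp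
  refine lgt_of (η := (x * ((g - 1) * (g - 2))⁻¹) • w2 (D ℂ K x) (D ℂ K y))
    (smul_ne_zero (mul_ne_zero hx hinv) hV) hρ ?_ (fun i => ?_)
    (fun O hO => reg1_smul (mul_mem (hS O hO).1 (hS O hO).2.2) (w2_mem (hS O hO).1 (hS O hO).2.1))
    (fun i O hO => ?_)
  · have h := a2.comb a1 1 (-1)
    rw [smul_smul, smul_smul, ← add_smul] at h
    have e : x * ((g - 1) * (g - 2))⁻¹ =
        algebraMap ℂ K 1 * (x * (g - 2)⁻¹) + algebraMap ℂ K (-1) * (x * (g - 1)⁻¹) := by
      simp only [map_neg, map_one]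
      field_simp
      ring
    rwa [e]
  · rw [smul_smul]
    fin_cases i
    · have h := b2.comb b1 1 (-1)
      rw [smul_smul, smul_smul, ← add_smul] at h
      have e : y * ((g - 1) * (g - 2))⁻¹ =
          algebraMap ℂ K 1 * (y * (g - 2)⁻¹) + algebraMap ℂ K (-1) * (y * (g - 1)⁻¹) := by
        simp only [map_neg, map_one]
        field_simp
        ring
      change Simple ((y / x * (x * ((g - 1) * (g - 2))⁻¹)) • _)
      rwa [e0, e]
    · have h := a2.comb a1 2 (-1)
      rw [smul_smul, smul_smul, ← add_smul] at h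
      have e : g * (x * ((g - 1) * (g - 2))⁻¹) =
          algebraMap ℂ K 2 * (x * (g - 2)⁻¹) + algebraMap ℂ K (-1) * (x * (g - 1)⁻¹) := by
        simp only [map_neg, map_one, map_ofNat]
        field_simp
        ring
      change Simple ((g * (x * ((g - 1) * (g - 2))⁻¹)) • _)
      rwa [e]
  · obtain ⟨mx, my, mi⟩ := hS O hO
    rw [smul_smul]
    refine reg1_smul ?_ (w2_mem mx my)
    fin_cases i
    · change y / x * (x * ((g - 1) * (g - 2))⁻¹) ∈ O
      rw [e0]
      exact mul_mem my mi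
    · exact mul_mem (mul_mem (mul_mem mx my) (add_mem mx my)) (mul_mem mx mi)

theorem lgt_field {x y : K}
    (halg : Algebra.IsAlgebraic (Algebra.adjoin ℂ (Set.range ![x, y])) K)
    (h1 : x * y * (x + y) - 1 ≠ 0) (h2 : x * y * (x + y) - 2 ≠ 0)
    (hS : ∀ O ∈ S, (∀ c : ℂ, algebraMap ℂ K c ∈ O) ∧ x ∈ O ∧ y ∈ O ∧
      ((x * y * (x + y) - 1) * (x * y * (x + y) - 2))⁻¹ ∈ O ∧
      (x * y * (x + y) = 0 → (x ^ 2 + x * y + y ^ 2 - 1)⁻¹ ∈ O)) : LGT S := by
  by_cases h : 2 ≤ Algebra.trdeg ℂ K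
  · exact lgt_surface (Algebra.IsAlgebraic.isTranscendenceBasis_of_le_trdeg_of_finite ℂ _
      (by simpa using h)) h1 h2 fun O hO => ⟨(hS O hO).2.1, (hS O hO).2.2.1, (hS O hO).2.2.2.1⟩
  have ht : Algebra.trdeg ℂ K ≤ 1 := not_lt.mp fun h' => h (Cardinal.two_le_iff_one_lt.mpr h')
  have hpt : IsAlgebraic ℂ x → IsAlgebraic ℂ y → LGT S := fun hx hy => by
    have : Algebra.IsAlgebraic ℂ (Algebra.adjoin ℂ (Set.range ![x, y])) := by
      rw [← Subalgebra.isAlgebraic_iff, Algebra.isAlgebraic_adjoin_iff]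
      rintro _ ⟨i, rfl⟩
      fin_cases i
      · exact hx
      · exact hy
    exact lgt_point (Algebra.IsAlgebraic.trans ℂ (Algebra.adjoin ℂ (Set.range ![x, y])) K)
  by_cases hg : IsAlgebraic ℂ (x * y * (x + y))
  swap
  · refine lgt_curve ht hg (a := 1) (b := 2) (by norm_num) fun O hO => ?_
    obtain ⟨-, mx, my, mi, -⟩ := hS O hO
    rw [map_one, map_ofNat]
    exact ⟨mul_mem (mul_mem mx my) (add_mem mx my), mi⟩
  have hline : ∀ t : K, x * y * (x + y) = 0 → (t = x ∨ t = y) →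
      x ^ 2 + x * y + y ^ 2 - 1 = (t - 1) * (t + 1) → ¬ IsAlgebraic ℂ t → LGT S := by
    intro t h0 hxy hq hta
    refine lgt_curve ht hta (a := 1) (b := -1) (by norm_num) fun O hO => ?_
    obtain ⟨-, mx, my, -, mq⟩ := hS O hO
    rw [map_neg, map_one, sub_neg_eq_add, ← hq]
    refine ⟨?_, mq h0⟩
    rcases hxy with rfl | rfl
    · exact mx
    · exact my
  by_cases h0 : x * y * (x + y) = 0
  · rcases mul_eq_zero.mp h0 with h3 | h3
    · rcases mul_eq_zero.mp h3 with h4 | h4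
      · by_cases hy : IsAlgebraic ℂ y
        · exact hpt (by rw [h4]; exact isAlgebraic_zero) hy
        · exact hline y h0 (Or.inr rfl) (by rw [h4]; ring) hy
      · by_cases hx : IsAlgebraic ℂ x
        · exact hpt hx (by rw [h4]; exact isAlgebraic_zero)
        · exact hline x h0 (Or.inl rfl) (by rw [h4]; ring) hx
    · have h4 : y = -x := by linear_combination h3
      by_cases hx : IsAlgebraic ℂ x
      · exact hpt hx (by rw [h4]; exact hx.neg)
      · exact hline x h0 (Or.inl rfl) (by rw [h4]; ring) hx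
  have hx : x ≠ 0 := fun h => h0 (by rw [h]; ring)
  have hy : y ≠ 0 := fun h => h0 (by rw [h]; ring)
  have hxy : x + y ≠ 0 := fun h => h0 (by rw [h]; ring)
  by_cases hu : IsAlgebraic ℂ (y / x)
  · have hne : y / x * (1 + y / x) ≠ 0 := by
      refine mul_ne_zero (div_ne_zero hy hx) ?_
      rw [one_add_div hx]
      exact div_ne_zero hxy hx
    have hx3 : IsAlgebraic ℂ (x ^ 3) := by
      refine IsAlgebraic.of_mul (mem_nonZeroDivisors_of_ne_zero hne)
        (hu.mul (isAlgebraic_one.add hu)) ?_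
      have e : y / x * (1 + y / x) * x ^ 3 = x * y * (x + y) := by field_simp
      rwa [e]
    have hxa : IsAlgebraic ℂ x := hx3.of_pow (by norm_num)
    refine hpt hxa ?_
    have := hu.mul hxa
    rwa [div_mul_cancel₀ y hx] at this
  obtain ⟨γ, hγ⟩ := exists_const hg
  refine lgt_curve ht hu (a := 0) (b := -1) (by norm_num) fun O hO => ?_
  obtain ⟨mc, mx, my, -, -⟩ := hS O hO
  have mg : (x * y * (x + y))⁻¹ ∈ O := by
    rw [← hγ, ← map_inv₀]
    exact mc _
  have e1 : y / x = y * y * (x + y) * (x * y * (x + y))⁻¹ := by field_simp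
  have e2 : ((y / x - algebraMap ℂ K 0) * (y / x - algebraMap ℂ K (-1)))⁻¹ =
      x * x * x * (x * y * (x + y))⁻¹ := by
    have : y + x ≠ 0 := by rwa [add_comm]
    rw [map_zero, map_neg, map_one, sub_zero, sub_neg_eq_add]
    field_simp
    ring
  rw [e2, e1]
  exact ⟨mul_mem (mul_mem (mul_mem my my) (add_mem mx my)) mg,
    mul_mem (mul_mem (mul_mem mx mx) mx) mg⟩

end

end Pool.Agent.P.MP_dc0411_ag
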