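import Pool.Agent.P.MP_dc0411_ag.Main
import Pool.Agent.P.MP_dc0411_ag.LogField

/-!
Every closed integral subscheme of the surface is of log-general type.
-/

open CategoryTheory AlgebraicGeometry MvPolynomial

namespace Pool.Agent.P.MP_dc0411_ag

noncomputable section

/-- Polynomials as germs at a point of a scheme over affine space. -/
def ev {T : Scheme.{0}} {n : ℕ} (φ : T ⟶ SpecR n) (y : T) : Rn n →+* T.presheaf.stalk y :=
  ((Scheme.ΓSpecIso (CommRingCat.of (Rn n))).inv ≫ φ.appTop ≫ T.presheaf.germ ⊤ y trivial).hom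

theorem ev_isUnit {T : Scheme.{0}} {n : ℕ} (φ : T ⟶ SpecR n) (y : T) (r : Rn n)
    (h : φ y ∈ PrimeSpectrum.basicOpen r) : IsUnit (ev φ y r) := by
  have h1 : y ∈ φ ⁻¹ᵁ (SpecR n).basicOpen ((Scheme.ΓSpecIso (CommRingCat.of (Rn n))).inv r) := by
    rw [basicOpen_eq_of_affine]
    exact h
  rw [Scheme.preimage_basicOpen_top, Scheme.mem_basicOpen_top] at h1
  exact h1

theorem ev_field {T : Scheme.{0}} [IsIntegral T] {n : ℕ} (φ : T ⟶ SpecR n) (y : T) (r : Rn n) :
    algebraMap (T.presheaf.stalk y) T.functionField (ev φ y r) = ev φ (genericPoint T) r :=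
  TopCat.Presheaf.germ_stalkSpecializes_apply T.presheaf _ _ _

theorem ev_surj {T : Scheme.{0}} {n : ℕ} (φ : T ⟶ SpecR n) (y : T)
    (h : Function.Surjective (φ.stalkMap y)) (z : T.presheaf.stalk y) :
    ∃ a b : Rn n, IsUnit (ev φ y b) ∧ z * ev φ y b = ev φ y a := by
  obtain ⟨s, rfl⟩ := h z
  let _ : Algebra Γ(SpecR n, ⊤) ((SpecR n).presheaf.stalk (φ y)) :=
    TopCat.Presheaf.algebra_section_stalk (SpecR n).presheaf (U := ⊤) ⟨φ y, trivial⟩
  have hl : IsLocalization.AtPrime ((SpecR n).presheaf.stalk (φ y))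
      ((isAffineOpen_top (SpecR n)).primeIdealOf ⟨φ y, trivial⟩).asIdeal :=
    (isAffineOpen_top (SpecR n)).isLocalization_stalk ⟨φ y, trivial⟩
  obtain ⟨⟨a, b⟩, hab⟩ := IsLocalization.surj
    ((isAffineOpen_top (SpecR n)).primeIdealOf ⟨φ y, trivial⟩).asIdeal.primeCompl s
  have hb := IsLocalization.map_units ((SpecR n).presheaf.stalk (φ y)) b
  have key : ∀ c : Γ(SpecR n, ⊤), ev φ y ((Scheme.ΓSpecIso (CommRingCat.of (Rn n))).hom c) =
      φ.stalkMap y (algebraMap Γ(SpecR n, ⊤) ((SpecR n).presheaf.stalk (φ y)) c) := by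
    intro c
    have h1 := φ.germ_stalkMap_apply ⊤ y trivial c
    have h2 := (Scheme.ΓSpecIso (CommRingCat.of (Rn n))).hom_inv_id_apply c
    change T.presheaf.germ ⊤ y trivial (φ.appTop ((Scheme.ΓSpecIso (CommRingCat.of (Rn n))).inv
      ((Scheme.ΓSpecIso (CommRingCat.of (Rn n))).hom c))) = _
    rw [h2]
    exact h1.symm
  refine ⟨(Scheme.ΓSpecIso (CommRingCat.of (Rn n))).hom a,
    (Scheme.ΓSpecIso (CommRingCat.of (Rn n))).hom b, ?_, ?_⟩
  · rw [key]
    exact hb.map _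
  · rw [key, key, ← map_mul]
    exact congrArg _ hab

theorem ev_C (Y : Over SpecC) {n : ℕ} (φ : Y.left ⟶ SpecR n) (hφ : φ ≫ strMap n = Y.hom)
    (y : Y.left) (c : ℂ) :
    ev φ y (C c) = ((Scheme.ΓSpecIso (CommRingCat.of ℂ)).inv ≫ Y.hom.appTop ≫
      Y.left.presheaf.germ ⊤ y trivial).hom c := by
  have h := Scheme.ΓSpecIso_inv_naturality (CommRingCat.ofHom (algebraMap ℂ (Rn n)))
  rw [← hφ, Scheme.Hom.comp_appTop, Category.assoc, ← reassoc_of% h]
  rfl

theorem inv_mem_of_isUnit {T : Scheme.{0}} [IsIntegral T] {O : ValuationSubring T.functionField}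
    {y : T} (hO : ∀ s : T.presheaf.stalk y,
      algebraMap (T.presheaf.stalk y) T.functionField s ∈ O) {s : T.presheaf.stalk y}
    (hs : IsUnit s) : (algebraMap (T.presheaf.stalk y) T.functionField s)⁻¹ ∈ O := by
  obtain ⟨u, rfl⟩ := hs
  rw [← map_units_inv]
  exact hO _

/-- The field-theoretic criterion for an integral scheme mapping to the surface with surjective
stalk map at the generic point. -/
theorem lgt_of_map (Y : Over SpecC) [IsIntegral Y.left] (φ : Y.left ⟶ SpecR 2)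
    (hφ : φ ≫ strMap 2 = Y.hom) (hU : ∀ y, φ y ∈ UX)
    (hs : Function.Surjective (φ.stalkMap (genericPoint Y.left))) : LogGeneralType Y := by
  let _ := fieldAlgebra Y
  let ψ : Rn 2 →ₐ[ℂ] Y.left.functionField :=
    { ev φ (genericPoint Y.left) with commutes' := fun c => ev_C Y φ hφ _ c }
  have hψ : ∀ (y : Y.left) (r : Rn 2),
      algebraMap (Y.left.presheaf.stalk y) Y.left.functionField (ev φ y r) = ψ r :=
    fun y r => ev_field φ y r
  have hg : ψ gP = ψ (X 0) * ψ (X 1) * (ψ (X 0) + ψ (X 1)) := by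
    simp only [gP, map_mul, map_add]
  have hq : ψ qP = ψ (X 0) ^ 2 + ψ (X 0) * ψ (X 1) + ψ (X 1) ^ 2 - 1 := by
    simp only [qP, map_mul, map_add, map_sub, map_pow, map_one]
  have h12 : ψ ((gP - 1) * (gP - 2)) = (ψ gP - 1) * (ψ gP - 2) := by
    simp only [map_mul, map_sub, map_one, map_ofNat]
  have hun : ∀ y : Y.left, IsUnit (ev φ y ((gP - 1) * (gP - 2))) ∧
      (IsUnit (ev φ y gP) ∨ IsUnit (ev φ y qP)) := by
    intro y
    rcases hU y with h | h
    · have h' := ev_isUnit φ y _ h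
      rw [map_mul, IsUnit.mul_iff] at h'
      exact ⟨h'.1, Or.inl h'.2⟩
    · have h' := ev_isUnit φ y _ h
      rw [map_mul, IsUnit.mul_iff] at h'
      exact ⟨h'.1, Or.inr h'.2⟩
  have hne : (ψ gP - 1) * (ψ gP - 2) ≠ 0 := by
    rw [← h12]
    exact (hun (genericPoint Y.left)).1.ne_zero
  have hadj : ∀ r : Rn 2, ψ r ∈ Algebra.adjoin ℂ (Set.range ![ψ (X 0), ψ (X 1)]) := by
    intro r
    rw [Algebra.adjoin_range_eq_range_aeval]
    refine ⟨r, ?_⟩
    have : aeval ![ψ (X 0), ψ (X 1)] = ψ := by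
      ext1 i
      fin_cases i <;> simp
    exact DFunLike.congr_fun this r
  have halg : Algebra.IsAlgebraic (Algebra.adjoin ℂ (Set.range ![ψ (X 0), ψ (X 1)]))
      Y.left.functionField := by
    refine ⟨fun z => ?_⟩
    obtain ⟨a, b, hb, hab⟩ := ev_surj φ _ hs z
    have hab' : ψ b * z = ψ a := (mul_comm _ _).trans hab
    refine IsAlgebraic.of_mul (y := ψ b) (mem_nonZeroDivisors_of_ne_zero hb.ne_zero)
      (isAlgebraic_algebraMap (⟨_, hadj b⟩ : Algebra.adjoin ℂ _)) ?_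
    rw [hab']
    exact isAlgebraic_algebraMap (⟨_, hadj a⟩ : Algebra.adjoin ℂ _)
  refine lgt_field (S := centred Y.left) halg (hg ▸ left_ne_zero_of_mul hne)
    (hg ▸ right_ne_zero_of_mul hne) ?_
  rintro O ⟨y, hy⟩
  have hm : ∀ r : Rn 2, ψ r ∈ O := fun r => hψ y r ▸ hy _
  refine ⟨fun c => ψ.commutes c ▸ hm _, hm _, hm _, ?_, fun h0 => ?_⟩
  · rw [← hg, ← h12, ← hψ y]
    exact inv_mem_of_isUnit hy (hun y).1
  · rcases (hun y).2 with h | h
    · have h' := h.map (algebraMap (Y.left.presheaf.stalk y) Y.left.functionField)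
      rw [hψ, hg, h0] at h'
      exact absurd h' not_isUnit_zero
    · rw [← hq, ← hψ y]
      exact inv_mem_of_isUnit hy h

theorem logGeneral : SubvarietiesLogGeneral (opn UX) := by
  intro Y _ i hi
  have : SurjectiveOnStalks (i.left ≫ UX.ι) := inferInstance
  refine lgt_of_map Y (i.left ≫ UX.ι) ?_ (fun y => (i.left y).2)
    ((i.left ≫ UX.ι).stalkMap_surjective _)
  rw [Category.assoc]
  exact Over.w i

end

end Pool.Agent.P.MP_dc0411_ag
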