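import Mathlib

/-!
Bloch's theorem for entire functions and the little Picard theorem.
-/

open Metric Set Complex Filter Topology

namespace Pool.Agent.P.MP_dc0411_ag

theorem exists_log {f : ℂ → ℂ} (hf : Differentiable ℂ f) (h0 : ∀ z, f z ≠ 0) :
    ∃ g : ℂ → ℂ, Differentiable ℂ g ∧ ∀ z, exp (g z) = f z := by
  have hd : Differentiable ℂ (fun z => deriv f z / f z) :=
    (hf.deriv).div hf h0
  obtain ⟨G, hG⟩ := hd.isExactOn_univ
  have hG' : ∀ z, HasDerivAt G (deriv f z / f z) z := fun z => hG z (mem_univ z)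
  have hGd : Differentiable ℂ G := fun z => (hG' z).differentiableAt
  have hk : ∀ z, HasDerivAt (fun z => f z * exp (-G z)) 0 z := by
    intro z
    have h1 := (hf z).hasDerivAt
    have h2 : HasDerivAt (fun z => exp (-G z)) (exp (-G z) * (-(deriv f z / f z))) z :=
      (hG' z).neg.cexp
    have h3 : HasDerivAt (fun z => f z * exp (-G z))
        (deriv f z * exp (-G z) + f z * (exp (-G z) * (-(deriv f z / f z)))) z := h1.mul h2
    have h4 : deriv f z * exp (-G z) + f z * (exp (-G z) * (-(deriv f z / f z))) = 0 := by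
      have := h0 z
      field_simp
      ring
    rwa [h4] at h3
  have hc : ∀ z, f z * exp (-G z) = f 0 * exp (-G 0) := fun z =>
    is_const_of_deriv_eq_zero (fun z => (hk z).differentiableAt) (fun z => (hk z).deriv) z 0
  have hc0 : f 0 * exp (-G 0) ≠ 0 := mul_ne_zero (h0 0) (exp_ne_zero _)
  refine ⟨fun z => G z + log (f 0 * exp (-G 0)), hGd.add_const _, fun z => ?_⟩
  rw [exp_add, exp_log hc0, ← hc z, exp_neg]
  have := exp_ne_zero (G z)
  field_simp

theorem bloch_entire {g : ℂ → ℂ} (hg : Differentiable ℂ g) {a : ℂ} (ha : deriv g a ≠ 0)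
    (R : ℝ) : ∃ w, ball w R ⊆ range g := by
  have hA0 : 0 < ‖deriv g a‖ := norm_pos_iff.mpr ha
  set ρ : ℝ := (100 * |R| + 1) / ‖deriv g a‖ with hρ
  have hρ0 : 0 < ρ := by positivity
  have hd : Differentiable ℂ (deriv g) := hg.deriv
  have hcont : ContinuousOn (fun z => (ρ - ‖z - a‖) * ‖deriv g z‖) (closedBall a ρ) := by
    have := hd.continuous
    fun_prop
  obtain ⟨p, hp, hmax⟩ := (isCompact_closedBall a ρ).exists_isMaxOn
    ⟨a, mem_closedBall_self hρ0.le⟩ hcont
  have hM : ρ * ‖deriv g a‖ ≤ (ρ - ‖p - a‖) * ‖deriv g p‖ := by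
    have := hmax (mem_closedBall_self hρ0.le)
    simpa using this
  have hρA : ρ * ‖deriv g a‖ = 100 * |R| + 1 := by
    rw [hρ]; field_simp
  set A := deriv g p with hA
  set t : ℝ := (ρ - ‖p - a‖) / 2 with ht
  have hpa : ‖p - a‖ ≤ ρ := by simpa [dist_eq_norm] using hp
  have hpos : 0 < (ρ - ‖p - a‖) * ‖A‖ := by
    have : 0 < 100 * |R| + 1 := by positivity
    linarith
  have ht0 : 0 < t := by
    rcases (pos_and_pos_or_neg_and_neg_of_mul_pos hpos) with h | h
    · rw [ht]; linarith [h.1]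
    · linarith [h.2, norm_nonneg A]
  have hApos : 0 < ‖A‖ := by
    rcases (pos_and_pos_or_neg_and_neg_of_mul_pos hpos) with h | h
    · exact h.2
    · linarith [h.2, norm_nonneg A]
  have hbound : ∀ z ∈ ball p t, ‖deriv g z‖ ≤ 2 * ‖A‖ := by
    intro z hz
    have hz1 : ‖z - p‖ < t := by simpa [dist_eq_norm] using hz
    have hz2 : ‖z - a‖ ≤ ρ - t := by
      have : ‖z - a‖ ≤ ‖z - p‖ + ‖p - a‖ := by
        simpa using norm_add_le (z - p) (p - a)
      rw [ht] at hz1 ⊢
      linarith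
    have hz3 : z ∈ closedBall a ρ := by
      simp only [mem_closedBall, dist_eq_norm]; linarith
    have h1 : (ρ - ‖z - a‖) * ‖deriv g z‖ ≤ (ρ - ‖p - a‖) * ‖A‖ := hmax hz3
    have h2 : t * ‖deriv g z‖ ≤ (ρ - ‖z - a‖) * ‖deriv g z‖ :=
      mul_le_mul_of_nonneg_right (by linarith) (norm_nonneg _)
    have h3 : (ρ - ‖p - a‖) * ‖A‖ = t * (2 * ‖A‖) := by rw [ht]; ring
    exact le_of_mul_le_mul_left (by linarith) ht0
  have hmaps : MapsTo (deriv g) (ball p t) (closedBall (deriv g p) (3 * ‖A‖)) := by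
    intro z hz
    simp only [mem_closedBall, dist_eq_norm]
    have := norm_sub_le (deriv g z) A
    have := hbound z hz
    linarith
  have hsch : ∀ z ∈ ball p t, ‖deriv g z - A‖ ≤ 3 * ‖A‖ / t * ‖z - p‖ := by
    intro z hz
    have := dist_le_div_mul_dist_of_mapsTo_ball hd.differentiableOn hmaps hz
    simpa [dist_eq_norm] using this
  set r : ℝ := t / 6 with hr
  have hr0 : 0 < r := by positivity
  have hmv : ∀ z ∈ closedBall p r, ‖(g z - A * z) - (g p - A * p)‖ ≤ ‖A‖ / 2 * ‖z - p‖ := by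
    intro z hz
    have hdiff : ∀ x, HasDerivAt (fun z => g z - A * z) (deriv g x - A) x := by
      intro x
      have h5 : HasDerivAt (fun z => g z - A * z) (deriv g x - A * 1) x :=
        (hg x).hasDerivAt.sub ((hasDerivAt_id x).const_mul A)
      rwa [mul_one] at h5
    refine Convex.norm_image_sub_le_of_norm_deriv_le (f := fun z => g z - A * z)
      (fun x _ => (hdiff x).differentiableAt) (fun x hx => ?_) (convex_closedBall p r)
      (mem_closedBall_self hr0.le) hz
    rw [(hdiff x).deriv]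
    have hx1 : ‖x - p‖ ≤ r := by simpa [dist_eq_norm] using hx
    have hx2 : x ∈ ball p t := by
      simp only [mem_ball, dist_eq_norm]; rw [hr] at hx1; linarith
    calc ‖deriv g x - A‖ ≤ 3 * ‖A‖ / t * ‖x - p‖ := hsch x hx2
      _ ≤ 3 * ‖A‖ / t * r := by gcongr
      _ = ‖A‖ / 2 := by rw [hr]; field_simp; norm_num
  have hlow : ∀ z ∈ closedBall p r, ‖A‖ / 2 * ‖z - p‖ ≤ ‖g z - g p‖ := by
    intro z hz
    have h1 := hmv z hz
    have h2 : A * (z - p) = (g z - g p) - ((g z - A * z) - (g p - A * p)) := by ring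
    have h3 : ‖A‖ * ‖z - p‖ ≤ ‖g z - g p‖ + ‖(g z - A * z) - (g p - A * p)‖ := by
      rw [← norm_mul, h2]; exact norm_sub_le _ _
    linarith
  have hsph : ∀ z ∈ sphere p r, ‖A‖ / 2 * r ≤ ‖g z - g p‖ := by
    intro z hz
    have h1 := hlow z (sphere_subset_closedBall hz)
    have h2 : ‖z - p‖ = r := by simpa [dist_eq_norm] using hz
    rwa [h2] at h1
  have hfreq : ∃ᶠ z in 𝓝 p, g z ≠ g p := by
    have h1 : ∀ᶠ z in 𝓝[≠] p, g z ≠ g p := by
      filter_upwards [mem_nhdsWithin_of_mem_nhds (closedBall_mem_nhds p hr0),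
        self_mem_nhdsWithin] with z hz hzp heq
      have h2 := hlow z hz
      rw [heq, sub_self, norm_zero] at h2
      have h3 : 0 < ‖z - p‖ := norm_pos_iff.mpr (sub_ne_zero.mpr hzp)
      have : 0 < ‖A‖ / 2 * ‖z - p‖ := by positivity
      linarith
    exact h1.frequently.filter_mono nhdsWithin_le_nhds
  have hsub := DiffContOnCl.ball_subset_image_closedBall (hg.diffContOnCl (s := ball p r)) hr0
    hsph hfreq
  refine ⟨g p, (ball_subset_ball ?_).trans (hsub.trans (image_subset_range _ _))⟩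
  have h4 : ‖A‖ / 2 * r / 2 = (ρ - ‖p - a‖) * ‖A‖ / 48 := by rw [hr, ht]; ring
  rw [h4]
  have := le_abs_self R
  have := abs_nonneg R
  linarith

theorem exists_cosh_int (w : ℂ) : ∃ v ∈ ball w 10, ∃ n : ℤ, cosh v = n := by
  obtain ⟨s, hs, n, hn⟩ : ∃ s ∈ Icc |w.re| (|w.re| + 2), ∃ n : ℤ, Real.cosh s = n := by
    set t := |w.re| with ht
    have ht0 : 0 ≤ t := abs_nonneg _
    have h1 : Real.cosh t + 1 ≤ Real.cosh (t + 2) := by
      rw [Real.cosh_add]
      have h2 : 1 ≤ Real.cosh t := Real.one_le_cosh t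
      have h3 : 0 ≤ Real.sinh t := Real.sinh_nonneg_iff.mpr ht0
      have h4 : 0 ≤ Real.sinh 2 := Real.sinh_nonneg_iff.mpr (by norm_num)
      have h5 : (2 : ℝ) ≤ Real.cosh 2 := by
        rw [Real.cosh_eq]
        have := Real.add_one_le_exp (1 : ℝ)
        have h6 : Real.exp 2 = Real.exp 1 * Real.exp 1 := by rw [← Real.exp_add]; norm_num
        have := Real.exp_pos (-2)
        nlinarith
      nlinarith [mul_nonneg h3 h4]
    have hmem : ((⌈Real.cosh t⌉ : ℤ) : ℝ) ∈ Icc (Real.cosh t) (Real.cosh (t + 2)) :=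
      ⟨Int.le_ceil _, by linarith [Int.ceil_lt_add_one (Real.cosh t)]⟩
    obtain ⟨s, hs, hs'⟩ := intermediate_value_Icc (by linarith : t ≤ t + 2)
      Real.continuous_cosh.continuousOn hmem
    exact ⟨s, hs, _, hs'⟩
  obtain ⟨x, hx, hxn⟩ : ∃ x : ℝ, |x - w.re| ≤ 2 ∧ Real.cosh x = n := by
    rcases le_total 0 w.re with h | h
    · rw [abs_of_nonneg h] at hs
      exact ⟨s, abs_le.mpr ⟨by linarith [hs.1], by linarith [hs.2]⟩, hn⟩
    · rw [abs_of_nonpos h] at hs
      exact ⟨-s, abs_le.mpr ⟨by linarith [hs.2], by linarith [hs.1]⟩, by rwa [Real.cosh_neg]⟩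
  set m : ℤ := round (w.im / (2 * Real.pi)) with hm
  have hpi := Real.pi_pos
  have hm1 : |w.im - m * (2 * Real.pi)| ≤ 4 := by
    have h1 := abs_sub_round (w.im / (2 * Real.pi))
    have h2 : w.im - m * (2 * Real.pi) = (w.im / (2 * Real.pi) - m) * (2 * Real.pi) := by
      field_simp
    rw [h2, abs_mul, abs_of_pos (by positivity : 0 < 2 * Real.pi)]
    have := Real.pi_le_four
    have h3 : 0 ≤ |w.im / (2 * Real.pi) - m| := abs_nonneg _
    nlinarith
  refine ⟨x + m * (2 * Real.pi * I), ?_, n, ?_⟩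
  · rw [mem_ball, dist_eq_norm]
    refine lt_of_le_of_lt (norm_le_abs_re_add_abs_im _) ?_
    have h1 : ((x : ℂ) + m * (2 * Real.pi * I) - w).re = x - w.re := by simp
    have h2 : ((x : ℂ) + m * (2 * Real.pi * I) - w).im = -(w.im - m * (2 * Real.pi)) := by simp
    rw [h1, h2, abs_neg]
    linarith
  · rw [cosh_periodic.int_mul m x, ← ofReal_cosh, hxn]
    simp

theorem little_picard {f : ℂ → ℂ} (hf : Differentiable ℂ f) (h0 : ∀ z, f z ≠ 0)
    (h1 : ∀ z, f z ≠ 1) (z w : ℂ) : f z = f w := by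
  obtain ⟨L, hL, hLf⟩ := exists_log hf h0
  have hpi : (2 * Real.pi * I : ℂ) ≠ 0 := two_pi_I_ne_zero
  set u : ℂ → ℂ := fun z => L z / (2 * Real.pi * I) with hu
  have hud : Differentiable ℂ u := hL.div_const _
  have hLu : ∀ z, L z = u z * (2 * Real.pi * I) := fun z => by
    simp only [hu]; field_simp
  have hun : ∀ z (n : ℤ), u z ≠ n := by
    intro z n h
    apply h1 z
    rw [← hLf z, hLu z, h]
    exact exp_int_mul_two_pi_mul_I n
  have hsq : ∀ z, u z ^ 2 - 1 ≠ 0 := by
    intro z h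
    have h2 : (u z - 1) * (u z + 1) = 0 := by rw [← h]; ring
    rcases mul_eq_zero.mp h2 with h3 | h3
    · exact hun z 1 (by push_cast; linear_combination h3)
    · exact hun z (-1) (by push_cast; linear_combination h3)
  obtain ⟨L2, hL2, hL2f⟩ := exists_log (f := fun z => u z ^ 2 - 1) (by fun_prop) hsq
  set v : ℂ → ℂ := fun z => exp (L2 z / 2) with hv
  have hvd : Differentiable ℂ v := by simp only [hv]; fun_prop
  have hv2 : ∀ z, v z ^ 2 = u z ^ 2 - 1 := by
    intro z
    rw [← hL2f z, hv, sq, ← exp_add]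
    congr 1; ring
  have hprod : ∀ z, (u z + v z) * (u z - v z) = 1 := by
    intro z; linear_combination -hv2 z
  have huv : ∀ z, u z + v z ≠ 0 := fun z => left_ne_zero_of_mul_eq_one (hprod z)
  obtain ⟨g, hg, hgf⟩ := exists_log (f := fun z => u z + v z) (hud.add hvd) huv
  have hcosh : ∀ z, cosh (g z) = u z := by
    intro z
    have h2 : exp (-g z) = u z - v z := by
      rw [exp_neg, hgf z]
      exact (eq_inv_of_mul_eq_one_right (hprod z)).symm
    rw [cosh, h2, hgf z]
    ring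
  have hg0 : ∀ a, deriv g a = 0 := by
    intro a
    by_contra ha
    obtain ⟨c, hc⟩ := bloch_entire hg ha 10
    obtain ⟨y, hy, n, hn⟩ := exists_cosh_int c
    obtain ⟨x, rfl⟩ := hc hy
    exact hun x n (by rw [← hcosh, hn])
  have hconst := is_const_of_deriv_eq_zero hg hg0 z w
  rw [← hLf z, ← hLf w, hLu z, hLu w, ← hcosh, ← hcosh, hconst]

/-- An entire function omitting two distinct values is constant. -/
theorem little_picard' {f : ℂ → ℂ} (hf : Differentiable ℂ f) {a b : ℂ} (hab : a ≠ b)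
    (h0 : ∀ z, f z ≠ a) (h1 : ∀ z, f z ≠ b) (z w : ℂ) : f z = f w := by
  have hba : b - a ≠ 0 := sub_ne_zero.mpr hab.symm
  have := little_picard (f := fun z => (f z - a) / (b - a)) (by fun_prop)
    (fun z => div_ne_zero (sub_ne_zero.mpr (h0 z)) hba)
    (fun z h => h1 z (by rw [div_eq_one_iff_eq hba] at h; linear_combination h)) z w
  rw [div_left_inj' hba] at this
  linear_combination this

end Pool.Agent.P.MP_dc0411_ag
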